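import Pool.Agent.Helper10.RC.Basic

/-!
# Triangular system of forms from a polynomial
-/

set_option autoImplicit false

namespace Pool.Agent.Helper88.RC

open Pool.Agent.Helper10.RC MvPolynomial NumberField

lemma coeff_mono {K : Type} [Field K] {n m δ : ℕ} (i : (Fin n → Fin m) × Fin δ) (k : ℕ)
    (α : Fin n →₀ ℕ) :
    coeff α ((mono i : Pl K n).coeff k) = if ex i.1 = α ∧ (i.2 : ℕ) = k then 1 else 0 := by
  classical
  unfold mono
  rw [Polynomial.coeff_C_mul, Polynomial.coeff_X_pow]
  by_cases hk : k = (i.2 : ℕ)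
  · subst hk
    simp [coeff_monomial]
  · have hk' : ¬ ((i.2 : ℕ) = k) := fun h => hk h.symm
    simp [hk, hk']

lemma ex_inj {n m : ℕ} {f g : Fin n → Fin m} (h : ex f = ex g) : f = g := by
  funext j
  have := DFunLike.congr_fun h j
  simp only [ex, Finsupp.equivFunOnFinite_symm_apply_apply] at this
  exact Fin.ext this

lemma ex_apply {n m : ℕ} (f : Fin n → Fin m) (j : Fin n) : ex f j = (f j : ℕ) := by
  simp [ex]

lemma expand_box {K : Type} [Field K] {n m δ : ℕ} (H : Pl K n)
    (hH : ∀ k α, coeff α (H.coeff k) ≠ 0 → k < δ ∧ ∀ j, α j < m) :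
    ∑ j : (Fin n → Fin m) × Fin δ,
      Polynomial.C (C (coeff (ex j.1) (H.coeff (j.2 : ℕ)))) * mono j = H := by
  classical
  apply Polynomial.ext
  intro k
  apply MvPolynomial.ext
  intro α
  rw [Polynomial.finset_sum_coeff, MvPolynomial.coeff_sum]
  simp only [Polynomial.coeff_C_mul, coeff_C_mul, coeff_mono, mul_ite, mul_one, mul_zero]
  by_cases h0 : coeff α (H.coeff k) = 0
  · rw [h0]
    apply Finset.sum_eq_zero
    intro j _
    split_ifs with hj
    · obtain ⟨h1, h2⟩ := hj
      rw [h1, h2, h0]
    · rfl
  · obtain ⟨hk, hα⟩ := hH k α h0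
    have hex : ex (fun j => (⟨α j, hα j⟩ : Fin m)) = α := by
      ext j; rw [ex_apply]
    rw [Finset.sum_eq_single ((fun j => (⟨α j, hα j⟩ : Fin m)), (⟨k, hk⟩ : Fin δ))]
    · simp only [hex, and_self, if_true]
    · rintro ⟨f, k'⟩ - hne
      rw [if_neg]
      rintro ⟨h1, h2⟩
      apply hne
      have h3 : f = fun j => (⟨α j, hα j⟩ : Fin m) := ex_inj (by rw [hex]; exact h1)
      have h4 : k' = (⟨k, hk⟩ : Fin δ) := Fin.ext h2
      rw [h3, h4]
    · intro h; exact absurd (Finset.mem_univ _) h

theorem forms {K : Type} [Field K] {n : ℕ} (θ : Fin n → ℝ) (h : ℝ) (G : Pl K n) (δ : ℕ)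
    (hδ : G.natDegree < δ) (hG : G ≠ 0) (w₂ : ℝ)
    (hw : HomW θ h w₂ (Polynomial.C G.leadingCoeff)) :
    ∃ (m : ℕ) (s : Finset ((Fin n → Fin (2 * m)) × Fin δ))
      (A : Matrix ((Fin n → Fin (2 * m)) × Fin δ) ((Fin n → Fin (2 * m)) × Fin δ) K),
      1 ≤ m ∧ m ^ n ≤ s.card ∧ A.det ≠ 0 ∧
      (∀ i, i ∉ s → ∀ j, A i j = if i = j then 1 else 0) ∧
      ∀ i ∈ s, ∃ β : Fin n →₀ ℕ, G.natDegree ≤ (i.2 : ℕ) ∧
        wt θ h β 0 + w₂ = wt θ h (ex i.1) 0 ∧
        ∑ j, Polynomial.C (C (A i j)) * mono j =
          Polynomial.C (monomial β (1 : K)) * Polynomial.X ^ ((i.2 : ℕ) - G.natDegree) * G := by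
  classical
  -- the leading coefficient and its leading exponent
  set ℓ := G.natDegree with hℓ
  set L := G.leadingCoeff with hL
  have hL0 : L ≠ 0 := Polynomial.leadingCoeff_ne_zero.mpr hG
  have hLc : G.coeff ℓ = L := rfl
  set βs : Fin n →₀ ℕ := MonomialOrder.lex.degree L with hβs
  have hβL : coeff βs L ≠ 0 := by
    have := MonomialOrder.lex.leadingCoeff_ne_zero_iff.mpr hL0
    exact this
  -- bound for the exponents
  obtain ⟨m', hm'⟩ : ∃ m' : ℕ, ∀ k α, coeff α (G.coeff k) ≠ 0 → ∀ j, α j ≤ m' := by
    refine ⟨∑ k ∈ G.support, ∑ α ∈ (G.coeff k).support, ∑ j, α j, ?_⟩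
    intro k α hα j
    have hk : k ∈ G.support := by
      rw [Polynomial.mem_support_iff]
      intro h0; rw [h0] at hα; simp at hα
    have hα' : α ∈ (G.coeff k).support := by
      rw [MvPolynomial.mem_support_iff]; exact hα
    calc α j ≤ ∑ j, α j := Finset.single_le_sum (f := fun j => α j) (fun _ _ => Nat.zero_le _)
          (Finset.mem_univ j)
      _ ≤ ∑ α ∈ (G.coeff k).support, ∑ j, α j :=
          Finset.single_le_sum (f := fun α : Fin n →₀ ℕ => ∑ j, α j)
            (fun _ _ => Nat.zero_le _) hα'
      _ ≤ _ := Finset.single_le_sum (f := fun k => ∑ α ∈ (G.coeff k).support, ∑ j, α j)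
            (fun _ _ => Nat.zero_le _) hk
  set m := m' + 1 with hm
  have hβm : ∀ j, βs j < m := fun j => Nat.lt_succ_of_le (hm' ℓ βs (by rw [hLc]; exact hβL) j)
  let P : (Fin n → Fin (2 * m)) × Fin δ → Prop := fun i =>
    ℓ ≤ (i.2 : ℕ) ∧ ∀ j, βs j ≤ (i.1 j : ℕ) ∧ (i.1 j : ℕ) - βs j < m
  let F : (Fin n → Fin (2 * m)) × Fin δ → Pl K n := fun i =>
    if P i then Polynomial.C (monomial (ex i.1 - βs) (1 : K)) *
      Polynomial.X ^ ((i.2 : ℕ) - ℓ) * G else mono i
  have hFpos : ∀ i, P i → F i = Polynomial.C (monomial (ex i.1 - βs) (1 : K)) *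
      Polynomial.X ^ ((i.2 : ℕ) - ℓ) * G := fun i hi => by simp only [F]; rw [if_pos hi]
  have hFneg : ∀ i, ¬ P i → F i = mono i := fun i hi => by simp only [F]; rw [if_neg hi]
  -- coefficients of F
  have hFcoeff : ∀ i, P i → ∀ k α, coeff α ((F i).coeff k) =
      if (i.2 : ℕ) - ℓ ≤ k then
        coeff α (monomial (ex i.1 - βs) (1 : K) * G.coeff (k - ((i.2 : ℕ) - ℓ))) else 0 := by
    intro i hi k α
    rw [hFpos i hi, mul_assoc, Polynomial.coeff_C_mul, Polynomial.coeff_X_pow_mul']
    split_ifs with hk
    · rfl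
    · simp
  have hsum : ∀ i, P i → ex i.1 - βs + βs = ex i.1 := by
    intro i hi
    ext j
    simp only [Finsupp.add_apply, Finsupp.tsub_apply, ex_apply]
    have := (hi.2 j).1
    omega
  -- box condition
  have hbox : ∀ i, P i → ∀ k α, coeff α ((F i).coeff k) ≠ 0 → k < δ ∧ ∀ j, α j < 2 * m := by
    intro i hi k α hα
    rw [hFcoeff i hi] at hα
    split_ifs at hα with hk
    · rw [coeff_monomial_mul'] at hα
      split_ifs at hα with hle
      · rw [one_mul] at hα
        constructor
        · have h1 : k - ((i.2 : ℕ) - ℓ) ≤ ℓ := by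
            apply Polynomial.le_natDegree_of_ne_zero
            intro h0; rw [h0] at hα; simp at hα
          have h2 := i.2.isLt
          have h3 := hi.1
          omega
        · intro j
          have h1 := hm' _ _ hα j
          have h2 := (hi.2 j).2
          have h3 := hle j
          simp only [Finsupp.tsub_apply, ex_apply] at h1 h3
          omega
      · exact absurd rfl hα
    · exact absurd rfl hα
  let s : Finset ((Fin n → Fin (2 * m)) × Fin δ) := Finset.univ.filter P
  let A : Matrix ((Fin n → Fin (2 * m)) × Fin δ) ((Fin n → Fin (2 * m)) × Fin δ) K :=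
    fun i j => coeff (ex j.1) ((F i).coeff (j.2 : ℕ))
  refine ⟨m, s, A, Nat.succ_pos _, ?_, ?_, ?_, ?_⟩
  · -- cardinality
    have hδ' : δ - 1 < δ := by omega
    let φ : (Fin n → Fin m) → (Fin n → Fin (2 * m)) × Fin δ := fun g =>
      (fun j => ⟨(g j : ℕ) + βs j, by have h1 := (g j).isLt; have h2 := hβm j; omega⟩,
        ⟨δ - 1, hδ'⟩)
    have hcard : (Finset.univ : Finset (Fin n → Fin m)).card = m ^ n := by
      simp [Finset.card_univ]
    rw [← hcard]
    apply Finset.card_le_card_of_injOn φ
    · intro g _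
      simp only [s, Finset.coe_filter, Finset.mem_univ, true_and, Set.mem_setOf_eq, P, φ]
      refine ⟨by omega, fun j => ⟨by omega, by have := (g j).isLt; omega⟩⟩
    · intro g _ g' _ hgg
      simp only [φ, Prod.mk.injEq, and_true] at hgg
      funext j
      have := congrFun hgg j
      simp only [Fin.mk.injEq] at this
      exact Fin.ext (by omega)
  · -- determinant
    intro hdet
    obtain ⟨c, hc0, hc⟩ := Matrix.exists_vecMul_eq_zero_iff.mpr hdet
    let key : (Fin n → Fin (2 * m)) × Fin δ → ℕ ×ₗ (MonomialOrder.lex (σ := Fin n)).syn :=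
      fun i => toLex ((i.2 : ℕ), MonomialOrder.lex.toSyn (ex i.1))
    have hne : (Finset.univ.filter fun i => c i ≠ 0).Nonempty := by
      by_contra hcon
      rw [Finset.not_nonempty_iff_eq_empty, Finset.filter_eq_empty_iff] at hcon
      apply hc0
      funext i
      have := hcon (Finset.mem_univ i)
      push Not at this
      exact this
    obtain ⟨i₀, hi₀, hmax⟩ := Finset.exists_max_image _ key hne
    rw [Finset.mem_filter] at hi₀
    have h1 := congrFun hc i₀
    simp only [Matrix.vecMul, dotProduct, Pi.zero_apply] at h1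
    rw [Finset.sum_eq_single i₀] at h1
    · -- diagonal entry nonzero
      rcases mul_eq_zero.mp h1 with h2 | h2
      · exact hi₀.2 h2
      · by_cases hP : P i₀
        · simp only [A] at h2
          rw [hFcoeff i₀ hP, if_pos (by omega)] at h2
          have h3 : (i₀.2 : ℕ) - ((i₀.2 : ℕ) - ℓ) = ℓ := by have := hP.1; omega
          rw [h3, hLc, ← hsum i₀ hP, hsum i₀ hP, ] at h2
          have h4 : coeff (ex i₀.1) (monomial (ex i₀.1 - βs) (1 : K) * L) = coeff βs L := by
            conv_lhs => rw [show ex i₀.1 = (ex i₀.1 - βs) + βs from (hsum i₀ hP).symm]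
            rw [show ex i₀.1 - βs + βs - βs = ex i₀.1 - βs from by
              rw [hsum i₀ hP]]
            rw [coeff_monomial_mul, one_mul]
          rw [h4] at h2
          exact hβL h2
        · simp only [A] at h2
          rw [hFneg i₀ hP, coeff_mono] at h2
          simp at h2
    · intro i _ hne'
      by_cases hci : c i = 0
      · rw [hci, zero_mul]
      · have hle := hmax i (Finset.mem_filter.mpr ⟨Finset.mem_univ i, hci⟩)
        have hA : A i i₀ = 0 := by
          by_contra hAne
          by_cases hP : P i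
          · simp only [A] at hAne
            rw [hFcoeff i hP] at hAne
            split_ifs at hAne with hk
            · rw [coeff_monomial_mul'] at hAne
              split_ifs at hAne with hle2
              · rw [one_mul] at hAne
                have hk1 : (i₀.2 : ℕ) - ((i.2 : ℕ) - ℓ) ≤ ℓ := by
                  apply Polynomial.le_natDegree_of_ne_zero
                  intro h0; rw [h0] at hAne; simp at hAne
                have hk2 : (i₀.2 : ℕ) ≤ (i.2 : ℕ) := by have := hP.1; omega
                rw [Prod.Lex.le_iff] at hle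
                simp only [key, ofLex_toLex] at hle
                rcases hle with hlt | ⟨heq, hle3⟩
                · omega
                · have h3 : (i₀.2 : ℕ) - ((i.2 : ℕ) - ℓ) = ℓ := by have := hP.1; omega
                  rw [h3, hLc] at hAne
                  have h4 : MonomialOrder.lex.toSyn (ex i₀.1 - (ex i.1 - βs)) ≤
                      MonomialOrder.lex.toSyn βs :=
                    MonomialOrder.lex.le_degree (MvPolynomial.mem_support_iff.mpr hAne)
                  have h5 : MonomialOrder.lex.toSyn (ex i₀.1) ≤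
                      MonomialOrder.lex.toSyn (ex i.1) := by
                    have e1 : ex i₀.1 = (ex i.1 - βs) + (ex i₀.1 - (ex i.1 - βs)) :=
                      (add_tsub_cancel_of_le hle2).symm
                    have e2 : ex i.1 = (ex i.1 - βs) + βs := (hsum i hP).symm
                    rw [e1]
                    conv_rhs => rw [e2]
                    rw [map_add, map_add]
                    gcongr
                  have h6 : ex i.1 = ex i₀.1 :=
                    MonomialOrder.lex.toSyn.injective (le_antisymm hle3 h5)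
                  apply hne'
                  exact Prod.ext (ex_inj h6) (Fin.ext heq)
              · exact absurd rfl hAne
            · exact absurd rfl hAne
          · simp only [A] at hAne
            rw [hFneg i hP, coeff_mono] at hAne
            split_ifs at hAne with h3
            · exact hne' (Prod.ext (ex_inj h3.1) (Fin.ext h3.2))
            · exact absurd rfl hAne
        rw [hA, mul_zero]
    · intro hcon; exact absurd (Finset.mem_univ _) hcon
  · -- rows outside s
    intro i hi j
    have hP : ¬ P i := by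
      intro hP; exact hi (Finset.mem_filter.mpr ⟨Finset.mem_univ _, hP⟩)
    simp only [A]
    rw [hFneg i hP, coeff_mono]
    by_cases hij : i = j
    · subst hij; simp
    · rw [if_neg hij, if_neg]
      rintro ⟨h1, h2⟩
      exact hij (Prod.ext (ex_inj h1) (Fin.ext h2))
  · -- rows in s
    intro i hi
    have hP : P i := (Finset.mem_filter.mp hi).2
    refine ⟨ex i.1 - βs, hP.1, ?_, ?_⟩
    · have h1 : wt θ h βs 0 = w₂ := by
        apply hw 0 βs
        rw [Polynomial.coeff_C_zero]
        exact hβL
      have h2 : wt θ h (ex i.1) 0 = wt θ h (ex i.1 - βs) 0 + wt θ h βs 0 := by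
        conv_lhs => rw [← hsum i hP]
        simp only [wt, Finsupp.add_apply, Nat.cast_add, Nat.cast_zero, mul_zero, add_zero,
          mul_add, Finset.sum_add_distrib]
      rw [h2, h1]
    · have h1 := expand_box (F i) (hbox i hP)
      rw [← hFpos i hP]
      exact h1

end Pool.Agent.Helper88.RC
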