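import Pool.Agent.Helper88.SlabBasic

set_option autoImplicit false

open MeasureTheory Set
open scoped ENNReal Topology

namespace Pool.Agent.Helper88.Slab

/-- `ℙ (|∑ a_j U_j| ≤ T)`. -/
noncomputable def prob {n : ℕ} (a : Fin n → ℝ) (T : ℝ) : ℝ :=
  ∫ x, ind T (∑ j, a j * x j) ∂(cube n)

lemma prob_split {n : ℕ} (a : Fin (n+1) → ℝ) (i : Fin (n+1)) (T : ℝ) :
    prob a T = ∫ y, A |a i| (ind T) (∑ j, a (i.succAbove j) * y j) ∂(cube n) := by
  rw [prob, cube_split i a (ind T) (ind_integrable_cube T a)]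
  simp_rw [A_abs_b]

lemma prob_ge {n : ℕ} (a : Fin (n+1) → ℝ) (i : Fin (n+1)) {s T α γ : ℝ} (hT : 0 ≤ T)
    (ha : ∑ j, a j ^ 2 = 1) (hs : 0 < s) (hsa : |a i| = s)
    (h : ∀ v, 0 ≤ v → 0 ≤ min 1 (T/s) * v - (max 0 (v - |T - s|))^2/(4*s) - α * v + γ * v^3) :
    α - γ * (1 - s^2) ≤ prob a T := by
  rw [prob_split a i, hsa]
  have := tangent_bound hs hT h (fun j => a (i.succAbove j))
  have h2 : ∑ j, a (i.succAbove j) ^ 2 = 1 - s^2 := by
    rw [← hsa, sq_abs, ← ha, Fin.sum_univ_succAbove _ i]; ring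
  rwa [h2] at this

/-- tangent from zero: the cubic inequality. -/
lemma cubic0 {s c m α v : ℝ} (hs : 0 < s) (hc : 0 < c) (hm : α ≤ m) (hv : 0 ≤ v) :
    0 ≤ m * v - (max 0 (v - c))^2/(4*s) - α * v + (1/(27*s*c)) * v^3 := by
  rcases le_total v c with h | h
  · rw [max_eq_left (by linarith)]
    have : 0 ≤ (1/(27*s*c)) * v^3 := by positivity
    have h2 : 0 ≤ (m - α) * v := mul_nonneg (by linarith) hv
    have h3 : (0:ℝ)^2/(4*s) = 0 := by simp
    rw [h3]
    nlinarith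
  · rw [max_eq_right (by linarith : (0:ℝ) ≤ v - c)]
    have key : (1/(27*s*c)) * v^3 - (v-c)^2/(4*s) = (v-3*c)^2*(4*v-3*c)/(108*s*c) := by
      field_simp
      ring
    have : 0 ≤ (v-3*c)^2*(4*v-3*c)/(108*s*c) := by
      apply div_nonneg _ (by positivity)
      apply mul_nonneg (sq_nonneg _)
      linarith
    have h2 : 0 ≤ (m - α) * v := mul_nonneg (by linarith) hv
    nlinarith

/-- tangent at `r`: the cubic inequality. -/
lemma cubic1 {s c m r v : ℝ} (hs : 0 < s) (hc : 0 ≤ c) (hr : 0 < r) (hrc : 3 * c ≤ r) (hv : 0 ≤ v) :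
    0 ≤ m * v - (max 0 (v - c))^2/(4*s) -
      (m - (r-c)^2/(4*s*r) + (r^2-c^2)/(8*s*r)) * v + ((r^2-c^2)/(8*s*r^3)) * v^3 := by
  have hcr : c < r := by linarith
  have hpos : 0 < r^2 - c^2 := by nlinarith
  rcases le_total v c with h | h
  · rw [max_eq_left (by linarith)]
    have e : m * v - 0 ^ 2 / (4 * s) - (m - (r-c)^2/(4*s*r) + (r^2-c^2)/(8*s*r)) * v +
        ((r^2-c^2)/(8*s*r^3)) * v^3 =
        ((r-c)*(r-3*c)/(8*s*r)) * v + ((r^2-c^2)/(8*s*r^3)) * v^3 := by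
      field_simp
      ring
    rw [e]
    have h1 : 0 ≤ (r-c)*(r-3*c)/(8*s*r) := by
      apply div_nonneg _ (by positivity)
      apply mul_nonneg <;> linarith
    have h2 : 0 ≤ ((r^2-c^2)/(8*s*r^3)) * v^3 := by positivity
    have := mul_nonneg h1 hv
    linarith
  · rw [max_eq_right (by linarith : (0:ℝ) ≤ v - c)]
    have e : m * v - (v-c) ^ 2 / (4 * s) - (m - (r-c)^2/(4*s*r) + (r^2-c^2)/(8*s*r)) * v +
        ((r^2-c^2)/(8*s*r^3)) * v^3 =
        (v-r)^2 * ((r^2-c^2) * v - 2*r*c^2)/(8*s*r^3) := by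
      field_simp
      ring
    rw [e]
    apply div_nonneg _ (by positivity)
    apply mul_nonneg (sq_nonneg _)
    have : (r^2-c^2) * c ≤ (r^2-c^2) * v := mul_le_mul_of_nonneg_left h hpos.le
    nlinarith [mul_nonneg hc (mul_nonneg hc (by linarith : 0 ≤ r - 3*c)), mul_nonneg hc hpos.le,
      mul_nonneg hc (mul_nonneg hr.le (by linarith : 0 ≤ r - 3*c))]

/-- The critical half-width. -/
noncomputable def T0 : ℝ := 2 * Real.sqrt 2 - 2

lemma sqrt2_bounds : 1.41421 < Real.sqrt 2 ∧ Real.sqrt 2 < 1.41422 := by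
  constructor
  · apply Real.lt_sqrt_of_sq_lt; norm_num
  · rw [Real.sqrt_lt' (by norm_num)]; norm_num

lemma T0_pos : 0 < T0 := by
  unfold T0; linarith [sqrt2_bounds.1]

lemma two_dim {s r : ℝ} (h1 : 0.57 ≤ s) (h2 : s ≤ 0.93) (hr : 0 ≤ r) (hsr : s^2 + r^2 = 1) :
    (s+r-T0)^2 ≤ (1 - T0) * (4*s*r) := by
  obtain ⟨q1, q2⟩ := sqrt2_bounds
  have hq : Real.sqrt 2 ^ 2 = 2 := Real.sq_sqrt (by norm_num)
  have hu : s + r ≤ Real.sqrt 2 := by
    apply Real.le_sqrt_of_sq_le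
    nlinarith [sq_nonneg (s - r)]
  have hT : T0 = 2 * Real.sqrt 2 - 2 := rfl
  have h3 : 0.22 ≤ s * r := by
    have h4 : 0.22^2 ≤ (s*r)^2 := by
      have : r^2 = 1 - s^2 := by linarith
      rw [mul_pow, this]
      have h5 : 0 ≤ (s^2 - 0.57^2) := by nlinarith
      have h6 : 0 ≤ (0.93^2 - s^2) := by nlinarith
      nlinarith [mul_nonneg h5 h6]
    exact (abs_le_of_sq_le_sq h4 (by positivity) |> fun h => (le_abs_self _).trans h)
  have h4 : 4 * s * r = 2 * ((s+r)^2 - 1) := by nlinarith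
  have hu2 : 1.2 ≤ s + r := by
    have : (1.2:ℝ)^2 ≤ (s+r)^2 := by nlinarith
    exact (abs_le_of_sq_le_sq this (by positivity) |> fun h => (le_abs_self _).trans h)
  rw [h4, hT]
  generalize s + r = u at *
  generalize Real.sqrt 2 = q at *
  have fac : (1 - (2*q-2)) * (2 * (u^2 - 1)) - (u - (2*q-2))^2 =
      (q - u) * ((4*q-5) * u - (9*q - 12)) + (q^2 - 2) * (5 - 4 * u) := by
    ring
  rw [hq] at fac
  have h5 : 0 ≤ (4*q-5) * u - (9*q - 12) := by
    have : (4*1.41421-5) * 1.2 ≤ (4*q-5) * u := by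
      apply mul_le_mul <;> linarith
    linarith
  have h6 : 0 ≤ (q - u) * ((4*q-5) * u - (9*q - 12)) := mul_nonneg (by linarith) h5
  linarith

lemma num3 {s T : ℝ} (hs : 0.93 ≤ s) (hT1 : 0.82842 ≤ T) (hT2 : T ≤ 0.82844) :
    0 ≤ 27*T*(s-T) - (1+s) := by
  have h1 : (27*0.82842)*(s - 0.82844) ≤ 27*T*(s-T) := by
    apply mul_le_mul <;> linarith
  linarith

theorem large_case {n : ℕ} (a : Fin (n+1) → ℝ) (i : Fin (n+1))
    (ha : ∑ j, a j ^ 2 = 1) (hs : 1/2 ≤ |a i|) : T0 ≤ prob a T0 := by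
  set s := |a i| with hsdef
  have hs0 : 0 < s := by linarith
  have hs1 : s ≤ 1 := by
    have : a i ^2 ≤ 1 := by
      rw [← ha]
      exact Finset.single_le_sum (f := fun j => a j ^2) (fun j _ => sq_nonneg _) (Finset.mem_univ i)
    have : |a i| ^ 2 ≤ 1 := by rwa [sq_abs]
    nlinarith [abs_nonneg (a i)]
  obtain ⟨q1, q2⟩ := sqrt2_bounds
  have hq : Real.sqrt 2 ^ 2 = 2 := Real.sq_sqrt (by norm_num)
  have hT : T0 = 2 * Real.sqrt 2 - 2 := rfl
  have hTp := T0_pos
  set q := Real.sqrt 2 with hqdef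
  rcases le_total s 0.57 with h1 | h1
  · -- tangent from zero, s < T
    have hc : 0 < T0 - s := by rw [hT]; linarith
    have key := prob_ge a i (T := T0) (α := 1) (γ := 1/(27*s*(T0-s))) hTp.le ha hs0 rfl (by
      intro v hv
      have hmin : min 1 (T0/s) = 1 := by
        rw [min_eq_left]; rw [le_div_iff₀ hs0]; linarith
      rw [hmin]
      have habs : |T0 - s| = T0 - s := abs_of_pos hc
      rw [habs]
      exact cubic0 hs0 hc le_rfl hv)
    refine le_trans ?_ key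
    have : 1 / (27*s*(T0-s)) * (1 - s^2) ≤ 1 - T0 := by
      rw [div_mul_eq_mul_div, one_mul, div_le_iff₀ (by positivity), hT]
      nlinarith
    linarith
  rcases le_total s 0.93 with h2 | h2
  · -- tangent at r
    set r := Real.sqrt (1 - s^2) with hr
    have hr2 : r^2 = 1 - s^2 := Real.sq_sqrt (by nlinarith)
    have hr0 : 0.3 ≤ r := by
      apply Real.le_sqrt_of_sq_le; nlinarith
    have hrpos : 0 < r := by linarith
    set c := |T0 - s| with hcdef
    have hc3 : 3 * c ≤ r := by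
      have hc' : 0 ≤ c := abs_nonneg _
      have : (3*c)^2 ≤ r^2 := by
        rw [hr2, mul_pow, hcdef, sq_abs, hT]
        nlinarith
      nlinarith
    have hc0 : 0 ≤ c := abs_nonneg _
    have key := prob_ge a i (T := T0) (α := (min 1 (T0/s) - (r-c)^2/(4*s*r) + (r^2-c^2)/(8*s*r)))
      (γ := (r^2-c^2)/(8*s*r^3)) hTp.le ha hs0 rfl (by
      intro v hv
      exact cubic1 hs0 hc0 hrpos hc3 hv)
    refine le_trans ?_ key
    rw [← hr2]
    have e : (min 1 (T0/s) - (r-c)^2/(4*s*r) + (r^2-c^2)/(8*s*r)) - (r^2-c^2)/(8*s*r^3) * r^2 =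
      min 1 (T0/s) - (r-c)^2/(4*s*r) := by
      field_simp
      ring
    rw [e]
    have e2 : min 1 (T0/s) - (r-c)^2/(4*s*r) = 1 - (s+r-T0)^2/(4*s*r) := by
      rcases le_total s T0 with h3 | h3
      · rw [hcdef, abs_of_nonneg (by linarith), min_eq_left (by rw [le_div_iff₀ hs0]; linarith)]
        ring
      · rw [hcdef, abs_of_nonpos (by linarith), min_eq_right (by rw [div_le_iff₀ hs0]; linarith)]
        field_simp
        ring
    rw [e2]
    have main : (s+r-T0)^2 ≤ (1 - T0) * (4*s*r) := two_dim h1 h2 hrpos.le (by linarith)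
    have : (s+r-T0)^2/(4*s*r) ≤ 1 - T0 := by
      rw [div_le_iff₀ (by positivity)]
      exact main
    linarith
  · have hc : 0 < s - T0 := by rw [hT]; linarith
    have key := prob_ge a i (T := T0) (α := T0/s) (γ := 1/(27*s*(s-T0))) hTp.le ha hs0 rfl (by
      intro v hv
      have hmin : min 1 (T0/s) = T0/s := by
        rw [min_eq_right]; rw [div_le_iff₀ hs0]; linarith
      rw [hmin]
      have habs : |T0 - s| = s - T0 := by rw [abs_of_neg (by linarith)]; ring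
      rw [habs]
      exact cubic0 hs0 hc le_rfl hv)
    refine le_trans ?_ key
    have e : T0/s - 1/(27*s*(s-T0)) * (1-s^2) - T0 = (1-s)*(27*T0*(s-T0) - (1+s))/(27*s*(s-T0)) := by
      field_simp
      ring
    have : 0 ≤ (1-s)*(27*T0*(s-T0) - (1+s))/(27*s*(s-T0)) := by
      apply div_nonneg _ (by positivity)
      apply mul_nonneg (by linarith)
      apply num3 h2 <;> linarith
    linarith

end Pool.Agent.Helper88.Slab
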