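import Pool.Agent.Helper33.UB.LB
import Pool.Agent.Helper33.UB.AM2
import Pool.Agent.Helper33.Eps
import Pool.Agent.Helper33.Conj

/-!
# Uniform boundedness for polynomials: bounded total `ε` and a long orbit force constancy
-/

set_option autoImplicit false

open Polynomial

namespace Pool.Agent.Helper33.UB

section adm0

variable {k K V : Type*} [Field k] [Field K] [Algebra k K]

/-- `T` contains all the relevant places (place systems of any characteristic). -/
structure Adm0 (P : PSys k K V) (f : K[X]) (X : Finset K) (T : Finset V) : Prop where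
  e : ∀ v, v ∉ T → P.e v = 0
  lead : ∀ v, v ∉ T → (P.pl v).o f.leadingCoeff = 0
  diff : ∀ x ∈ X, ∀ y ∈ X, x ≠ y → ∀ v, v ∉ T → (P.pl v).o (x - y) = 0

lemma exists_adm0 (P : PSys k K V) {f : K[X]} (hd : 2 ≤ f.natDegree) (X : Finset K) :
    ∃ T : Finset V, Adm0 P f X T := by
  classical
  obtain ⟨T, hT1, hT2⟩ := P.exists_finset
    (insert f.leadingCoeff (X.offDiag.image fun q => q.1 - q.2)) (by
      intro x hx
      rcases Finset.mem_insert.mp hx with rfl | hx
      · rw [Ne, leadingCoeff_eq_zero]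
        rintro rfl
        simp at hd
      · obtain ⟨q, hq, rfl⟩ := Finset.mem_image.mp hx
        rw [Finset.mem_offDiag] at hq
        exact sub_ne_zero.mpr hq.2.2)
  refine ⟨T, hT1, fun v hv => hT2 _ (Finset.mem_insert_self _ _) v hv, ?_⟩
  intro x hx y hy hxy v hv
  exact hT2 _ (Finset.mem_insert_of_mem (Finset.mem_image.mpr
    ⟨(x, y), Finset.mem_offDiag.mpr ⟨hx, hy, hxy⟩, rfl⟩)) v hv

variable {P : PSys k K V}

/-- a larger set of places is admissible too -/
lemma Adm0.mono {f : K[X]} {X : Finset K} {T T' : Finset V} (hT : Adm0 P f X T) (h : T ⊆ T') :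
    Adm0 P f X T' :=
  ⟨fun v hv => hT.e v fun h' => hv (h h'), fun v hv => hT.lead v fun h' => hv (h h'),
    fun x hx y hy hxy v hv => hT.diff x hx y hy hxy v fun h' => hv (h h')⟩

lemma Adm0.sum_alpha0 {f : K[X]} (hd : 2 ≤ f.natDegree) {X : Finset K} {T : Finset V}
    (hT : Adm0 P f X T) : ∑ v ∈ T, alpha (P.pl v) f = 0 := by
  unfold alpha
  rw [← Finset.sum_div]
  have h1 := P.sum_eq_zero T f.leadingCoeff (by
    rw [Ne, leadingCoeff_eq_zero]
    rintro rfl
    simp at hd) hT.lead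
  have h2 : ∑ v ∈ T, ((P.pl v).o f.leadingCoeff : ℝ) = 0 := by exact_mod_cast h1
  rw [h2, zero_div]

lemma Adm0.sum_w0 {f : K[X]} (hd : 2 ≤ f.natDegree) {X : Finset K} {T : Finset V}
    (hT : Adm0 P f X T) {x y : K} (hx : x ∈ X) (hy : y ∈ X) (hxy : x ≠ y) :
    ∑ v ∈ T, w (P.pl v) f x y = 0 := by
  unfold w
  rw [Finset.sum_add_distrib, hT.sum_alpha0 hd, add_zero]
  exact_mod_cast P.sum_eq_zero T (x - y) (sub_ne_zero.mpr hxy) (hT.diff x hx y hy hxy)

lemma Adm0.sum_w_pos0 {f : K[X]} (hd : 2 ≤ f.natDegree) {X : Finset K}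
    (hX : ∀ x ∈ X, f.eval x ∈ X) {T : Finset V} (hT : Adm0 P f X T)
    {x y : K} (hx : x ∈ X) (hy : y ∈ X) (hxy : x ≠ y) :
    ∑ v ∈ T, max 0 (w (P.pl v) f x y) ≤ ∑ v ∈ T, (eps (P.pl v) f X : ℝ) := by
  have h : ∀ v ∈ T, max 0 (w (P.pl v) f x y) ≤ w (P.pl v) f x y + (eps (P.pl v) f X : ℝ) := by
    intro v _
    have h1 := w_ge_neg_eps (v := P.pl v) hd hX hx hy hxy
    have h2 : (0 : ℝ) ≤ eps (P.pl v) f X := NNReal.coe_nonneg _
    apply max_le <;> linarith
  have := Finset.sum_le_sum h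
  rwa [Finset.sum_add_distrib, hT.sum_w0 hd hx hy hxy, zero_add] at this

end adm0

section disc

variable {K : Type*} [Field K]

/-- `ε` is discrete. -/
lemma eps_disc {v : DV K} {f : K[X]} (hd : 2 ≤ f.natDegree) {X : Finset K}
    (h : 0 < eps v f X) : 1 / ((f.natDegree : ℝ) ^ 2) ≤ eps v f X := by
  obtain ⟨x, -, i, hi1, hi2, -, hi4⟩ := exists_attained v f h
  set c : ℝ := (eps v f X : ℝ) with hc
  have hc0 : 0 < c := by rw [hc]; exact_mod_cast h
  have hα := alpha_eq v f hd
  have hdr : (2 : ℝ) ≤ f.natDegree := by exact_mod_cast hd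
  have hir : (1 : ℝ) ≤ i := by exact_mod_cast hi1
  have hidr : (i : ℝ) + 1 ≤ f.natDegree := by exact_mod_cast hi2
  set M : ℤ := ((f.natDegree : ℤ) - 1) * (v.o f.leadingCoeff - v.o (tc f x i)) -
    ((f.natDegree : ℤ) - i) * v.o f.leadingCoeff with hM
  have hMc : (M : ℝ) = ((f.natDegree : ℝ) - i) * ((f.natDegree : ℝ) - 1) * c := by
    rw [hM]
    push_cast
    rw [hi4]
    linear_combination (-((f.natDegree : ℝ) - i)) * hα
  have hM0 : (0 : ℝ) < M := by
    rw [hMc]
    apply mul_pos (mul_pos (by linarith) (by linarith)) hc0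
  have hM1 : (1 : ℝ) ≤ M := by
    have : 0 < M := by exact_mod_cast hM0
    exact_mod_cast this
  rw [hMc] at hM1
  rw [div_le_iff₀ (by positivity)]
  refine hM1.trans ?_
  have h1 : ((f.natDegree : ℝ) - i) * ((f.natDegree : ℝ) - 1) ≤ (f.natDegree : ℝ) ^ 2 := by
    nlinarith
  nlinarith

/-- At a bad place the points of `X` fall in at most `d ^ 2` classes of points at positive distance. -/
lemma exists_classes {v : DV K} {f : K[X]} (hd : 2 ≤ f.natDegree) {X : Finset K}
    (hX : ∀ x ∈ X, f.eval x ∈ X) (h : 0 < eps v f X) :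
    ∃ (u : Finset K) (g : K → K), u.card ≤ f.natDegree ^ 2 ∧ (∀ x ∈ X, g x ∈ u) ∧
      ∀ x ∈ X, ∀ y ∈ X, g x = g y → x ≠ y → 0 < w v f x y := by
  classical
  have hdr : (2 : ℝ) ≤ f.natDegree := by exact_mod_cast hd
  have hc0 : (0 : ℝ) < (eps v f X : ℝ) := by exact_mod_cast h
  set c : ℝ := (eps v f X : ℝ) / ((f.natDegree : ℝ) - 1) with hc
  have hcpos : 0 < c := div_pos hc0 (by linarith)
  set R : K → K → Prop := fun y z => y = z ∨ c ≤ w v f y z with hR
  have hRtrans : ∀ x y z, R x y → R y z → R x z := fun x y z h1 h2 => w_ultra h1 h2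
  have hRsymm : ∀ x y, R x y → R y x := by
    intro x y h
    rcases h with h | h
    · exact Or.inl h.symm
    · exact Or.inr (by rw [w_comm]; exact h)
  let Un : Finset K → Prop := fun u => ∀ y ∈ u, ∀ z ∈ u, y ≠ z → ¬ R y z
  have hne : (X.powerset.filter fun u => Un u).Nonempty :=
    ⟨∅, Finset.mem_filter.mpr ⟨Finset.empty_mem_powerset X, by simp [Un]⟩⟩
  obtain ⟨u, hu, hmax⟩ := Finset.exists_max_image _ Finset.card hne
  rw [Finset.mem_filter, Finset.mem_powerset] at hu
  obtain ⟨hus, hunrel⟩ := hu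
  have hucard : u.card ≤ f.natDegree ^ 2 := by
    by_contra hlt
    push Not at hlt
    obtain ⟨y, hy, z, hz, hyz, hw⟩ := lb (v := v) hd hc0 hX
      (fun x hx y hy hxy => w_ge_neg_eps hd hX hx hy hxy)
      (fun x hx => attained_of_mem hd hX h hx) u hus hlt
    exact hunrel y hy z hz hyz (Or.inr hw)
  have hcov : ∀ y ∈ X, ∃ z ∈ u, R y z := by
    intro y hy
    by_cases hyu : y ∈ u
    · exact ⟨y, hyu, Or.inl rfl⟩
    by_contra hno
    push Not at hno
    have := hmax (insert y u) (Finset.mem_filter.mpr ⟨Finset.mem_powerset.mpr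
      (Finset.insert_subset hy hus), by
      intro a ha b hb hab
      rcases Finset.mem_insert.mp ha with ha1 | ha1
      · rcases Finset.mem_insert.mp hb with hb1 | hb1
        · exact absurd (ha1.trans hb1.symm) hab
        · rw [ha1]; exact hno b hb1
      · rcases Finset.mem_insert.mp hb with hb1 | hb1
        · rw [hb1]; exact fun h => hno a ha1 (hRsymm _ _ h)
        · exact hunrel a ha1 b hb1 hab⟩)
    rw [Finset.card_insert_of_notMem hyu] at this
    omega
  choose! g hgu hgR using hcov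
  refine ⟨u, g, hucard, hgu, ?_⟩
  intro x hx y hy hgxy hxy
  have h1 := hgR x hx
  rw [hgxy] at h1
  rcases hRtrans _ _ _ h1 (hRsymm _ _ (hgR y hy)) with h2 | h2
  · exact absurd h2 hxy
  · linarith

end disc

section final

variable {k K V : Type*} [Field k] [Field K] [Algebra k K]

/-- All weights vanish: the orbit is constant in the coordinate in which two of its points are `0, 1`. -/
lemma const_of_w_zero (P : PSys k K V) {f : K[X]} {X : Finset K}
    {T : Finset V} (hT : Adm0 P f X T)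
    (h0 : ∀ v ∈ T, ∀ x ∈ X, ∀ y ∈ X, x ≠ y → w (P.pl v) f x y = 0) {a b : K} (ha : a ∈ X)
    (hb : b ∈ X) (hab : b ≠ a) {z : K} (hz : z ∈ X) :
    ∃ c : k, algebraMap k K c = (z - a) / (b - a) := by
  by_cases hza : z = a
  · exact ⟨0, by rw [hza, sub_self, zero_div, map_zero]⟩
  have n1 : z - a ≠ 0 := sub_ne_zero.mpr hza
  have n2 : b - a ≠ 0 := sub_ne_zero.mpr hab
  apply P.const _ (div_ne_zero n1 n2)
  intro v
  rw [DV.o_div _ _ _ n1 n2]
  by_cases hv : v ∈ T
  · have h1 := h0 v hv z hz a ha hza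
    have h2 := h0 v hv b hb a ha hab
    unfold w at h1 h2
    have h3 : ((P.pl v).o (z - a) : ℝ) = (P.pl v).o (b - a) := by linarith
    have h4 : (P.pl v).o (z - a) = (P.pl v).o (b - a) := by exact_mod_cast h3
    rw [h4, sub_self]
  · rw [hT.diff z hz a ha hza v hv, hT.diff b hb a ha hab v hv, sub_self]

/-- A polynomial of degree `d` taking `d + 1` constants to constants has constant coefficients. -/
lemma coeff_const_of_interp {F : K[X]} {y : ℕ → K} (hinj : ∀ i j, i ≤ F.natDegree →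
    j ≤ F.natDegree → y i = y j → i = j) (hy : ∀ i, F.eval (y i) = y (i + 1))
    (hc : ∀ i, ∃ c : k, algebraMap k K c = y i) (i : ℕ) : ∃ c : k, algebraMap k K c = F.coeff i := by
  classical
  choose c hc using hc
  set s : Finset ℕ := Finset.range (F.natDegree + 1) with hs
  have hci : Set.InjOn c (s : Set ℕ) := by
    intro a ha b hb hab
    rw [hs, Finset.coe_range, Set.mem_Iio] at ha hb
    apply hinj a b (by omega) (by omega)
    rw [← hc, ← hc, hab]
  have hyi : Set.InjOn y (s : Set ℕ) := by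
    intro a ha b hb hab
    rw [hs, Finset.coe_range, Set.mem_Iio] at ha hb
    exact hinj a b (by omega) (by omega) hab
  set G : k[X] := Lagrange.interpolate s c (fun i => c (i + 1)) with hG
  have hGdeg : G.degree < s.card := Lagrange.degree_interpolate_lt _ hci
  have hFG : F = G.map (algebraMap k K) := by
    apply Polynomial.eq_of_degrees_lt_of_eval_index_eq (s := s) (v := y) hyi
    · rw [hs, Finset.card_range]
      exact lt_of_le_of_lt degree_le_natDegree (by exact_mod_cast Nat.lt_succ_self _)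
    · rwa [degree_map]
    · intro j hj
      rw [hy j, ← hc j, eval_map_apply, hG, Lagrange.eval_interpolate_at_node _ hci hj, hc]
  refine ⟨G.coeff i, ?_⟩
  conv_rhs => rw [hFG]
  rw [coeff_map]

/-- **Bounded total `ε` and a long orbit force constancy.** -/
theorem const_of_small (P : PSys k K V) (d : ℕ) (hd : 2 ≤ d) (H0 : ℝ) :
    ∃ N0 : ℕ, ∀ f : K[X], f.natDegree = d → ∀ (x : ℕ → K) (N : ℕ), N0 ≤ N →
      ∀ h : Orbit f x N, ∀ T : Finset V, Adm0 P f h.X T →
      ∑ v ∈ T, (eps (P.pl v) f h.X : ℝ) ≤ H0 →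
      ∀ i, ∃ c : k, algebraMap k K c = (conj f (x 0) (x 1)).coeff i := by
  classical
  set s : ℕ := ⌊(d : ℝ) ^ 2 * H0⌋₊ with hs
  refine ⟨(d ^ 2) ^ s + d + 1, ?_⟩
  intro f hfd x N hN h T hT hsum
  subst hfd
  have hdr : (2 : ℝ) ≤ f.natDegree := by exact_mod_cast hd
  have hX := h.X_inv
  -- bad places
  set S : Finset V := T.filter fun v => 0 < eps (P.pl v) f h.X with hS
  have hScard : S.card ≤ s := by
    rw [hs]
    apply Nat.le_floor
    have h1 : (S.card : ℝ) * (1 / (f.natDegree : ℝ) ^ 2) ≤ H0 := by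
      calc (S.card : ℝ) * (1 / (f.natDegree : ℝ) ^ 2) = ∑ v ∈ S, (1 / (f.natDegree : ℝ) ^ 2) := by
            rw [Finset.sum_const, nsmul_eq_mul]
        _ ≤ ∑ v ∈ S, (eps (P.pl v) f h.X : ℝ) :=
            Finset.sum_le_sum fun v hv => eps_disc hd (Finset.mem_filter.mp hv).2
        _ ≤ ∑ v ∈ T, (eps (P.pl v) f h.X : ℝ) :=
            Finset.sum_le_sum_of_subset_of_nonneg (Finset.filter_subset _ _)
              fun _ _ _ => NNReal.coe_nonneg _
        _ ≤ H0 := hsum
    rw [mul_one_div, div_le_iff₀ (by positivity)] at h1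
    linarith
  -- two close points
  have hclose : ∃ a ∈ h.X, ∃ b ∈ h.X, a ≠ b ∧ ∀ v ∈ S, 0 < w (P.pl v) f a b := by
    have hcl : ∀ v ∈ S, ∃ (u : Finset K) (g : K → K), u.card ≤ f.natDegree ^ 2 ∧
        (∀ x ∈ h.X, g x ∈ u) ∧
        ∀ x ∈ h.X, ∀ y ∈ h.X, g x = g y → x ≠ y → 0 < w (P.pl v) f x y := by
      intro v hv
      exact exists_classes hd hX (Finset.mem_filter.mp hv).2
    choose! u g hu1 hu2 hu3 using hcl
    have hcard : (S.pi u).card < (Finset.range (N + 1)).card := by
      rw [Finset.card_pi, Finset.card_range]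
      calc ∏ v ∈ S, (u v).card ≤ ∏ v ∈ S, f.natDegree ^ 2 :=
            Finset.prod_le_prod' fun v hv => hu1 v hv
        _ = (f.natDegree ^ 2) ^ S.card := by rw [Finset.prod_const]
        _ ≤ (f.natDegree ^ 2) ^ s := Nat.pow_le_pow_right (by positivity) hScard
        _ < N + 1 := by omega
    obtain ⟨i, hi, j, hj, hij, he⟩ := Finset.exists_ne_map_eq_of_card_lt_of_maps_to hcard
      (f := fun i => fun v (_ : v ∈ S) => g v (x i)) (by
        intro i _
        rw [Finset.mem_coe, Finset.mem_pi]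
        intro v hv
        exact hu2 v hv _ (h.mem_X i))
    rw [Finset.mem_range] at hi hj
    have hne : x i ≠ x j := fun e => hij (h.inj i j (by omega) (by omega) e)
    refine ⟨x i, h.mem_X i, x j, h.mem_X j, hne, ?_⟩
    intro v hv
    apply hu3 v hv _ (h.mem_X i) _ (h.mem_X j) _ hne
    exact congrFun (congrFun he v) hv
  -- no bad place
  have hgood : ∀ v ∈ T, (eps (P.pl v) f h.X : ℝ) = 0 := by
    obtain ⟨a, ha, b, hb, hab, hw⟩ := hclose
    by_contra hcon
    push Not at hcon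
    obtain ⟨v0, hv0, hv0e⟩ := hcon
    have hv0S : v0 ∈ S := by
      rw [hS, Finset.mem_filter]
      refine ⟨hv0, pos_iff_ne_zero.mpr ?_⟩
      intro e
      exact hv0e (by rw [e]; simp)
    have hnonneg : ∀ v ∈ T, 0 ≤ w (P.pl v) f a b := by
      intro v hv
      by_cases hvS : v ∈ S
      · exact (hw v hvS).le
      · have h1 := w_ge_neg_eps (v := P.pl v) hd hX ha hb hab
        have h2 : eps (P.pl v) f h.X = 0 := by
          by_contra e
          exact hvS (Finset.mem_filter.mpr ⟨hv, pos_iff_ne_zero.mpr e⟩)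
        rw [h2] at h1
        simpa using h1
    have h3 := Finset.sum_pos' hnonneg ⟨v0, hv0, hw v0 hv0S⟩
    rw [hT.sum_w0 hd ha hb hab] at h3
    exact lt_irrefl _ h3
  have hw0 : ∀ v ∈ T, ∀ a ∈ h.X, ∀ b ∈ h.X, a ≠ b → w (P.pl v) f a b = 0 := by
    intro v hv a ha b hb hab
    have hnonneg : ∀ v ∈ T, 0 ≤ w (P.pl v) f a b := by
      intro v hv
      have h1 := w_ge_neg_eps (v := P.pl v) hd hX ha hb hab
      rw [hgood v hv] at h1
      simpa using h1
    exact (Finset.sum_eq_zero_iff_of_nonneg hnonneg).mp (hT.sum_w0 hd ha hb hab) v hv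
  have h10 : x 1 ≠ x 0 := by
    intro e
    have := h.inj 1 0 (by omega) (by omega) e
    omega
  have hdeg : (conj f (x 0) (x 1)).natDegree = f.natDegree := conj_natDegree f (by omega) h10
  apply coeff_const_of_interp (k := k) (y := fun i => (x i - x 0) / (x 1 - x 0))
  · intro i j hi hj hij
    rw [hdeg] at hi hj
    apply h.inj i j (by omega) (by omega)
    rw [div_left_inj' (sub_ne_zero.mpr h10)] at hij
    exact sub_left_injective hij
  · intro i
    rw [conj_eval f h10, h.step i]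
  · intro i
    exact const_of_w_zero P hT hw0 (h.mem_X 0) (h.mem_X 1) h10 (h.mem_X i)

end final

end Pool.Agent.Helper33.UB
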