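import Pool.Agent.Helper88.SlabLarge

set_option autoImplicit false

open MeasureTheory Set Real
open scoped ENNReal Topology FourierTransform

namespace Pool.Agent.Helper88.Slab

lemma integral_exp_scaled (T c : ℝ) :
    ∫ z in (-T)..T, Complex.exp (((c * z : ℝ) : ℂ) * Complex.I) = ((2 * T * sinc (T * c) : ℝ) : ℂ) := by
  rcases eq_or_ne c 0 with rfl | hc
  · simp
    ring
  · have := intervalIntegral.integral_comp_mul_left (a := -T) (b := T)
      (fun t : ℝ => Complex.exp ((t : ℂ) * Complex.I)) hc
    rw [this, show c * -T = - (T * c) by ring, show c * T = T * c by ring,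
      integral_exp_mul_I_eq_sinc]
    rw [Complex.real_smul]
    have hc' : (c : ℂ) ≠ 0 := by exact_mod_cast hc
    push_cast
    field_simp

lemma A_cos (b x y : ℝ) : A b (fun z => Real.cos (x * z)) y = sinc (b * x) * Real.cos (x * y) := by
  rw [A_eq]
  rcases eq_or_ne (b * x) 0 with h | h
  · have : ∀ u : ℝ, x * (b * u + y) = x * y := by
      intro u
      have : x * (b * u + y) = (b * x) * u + x * y := by ring
      rw [this, h]; ring
    simp_rw [this]
    rw [h]
    simp
    ring
  · have h1 : ∀ u : ℝ, Real.cos (x * (b * u + y)) = Real.cos ((b * x) * u + x * y) := by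
      intro u; ring_nf
    simp_rw [h1]
    rw [intervalIntegral.integral_comp_mul_add (fun z => Real.cos z) h (x * y), integral_cos,
      sinc_of_ne_zero h]
    rw [show (b * x) * 1 + x * y = x * y + b * x by ring, show (b * x) * (-1) + x * y = x * y - b * x by ring]
    rw [Real.sin_add, Real.sin_sub, smul_eq_mul]
    field_simp
    ring

lemma cube_cos {n : ℕ} (b : Fin n → ℝ) (x : ℝ) :
    ∫ y, Real.cos (x * ∑ j, b j * y j) ∂(cube n) = ∏ j, sinc (b j * x) := by
  induction n with
  | zero => simp
  | succ n ih =>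
    rw [cube_split_cont 0 b (fun z => Real.cos (x * z)) (by fun_prop)]
    simp_rw [A_cos]
    rw [integral_const_mul, ih, Fin.prod_univ_succ]
    simp

lemma sinc_mul_bound {s T : ℝ} (hs : 0 < s) (hT : 0 < T) (x : ℝ) :
    |sinc (T * x) * sinc (s * x)| ≤ (1 + 1/(T*s)) * (1 + x^2)⁻¹ := by
  rcases eq_or_ne x 0 with rfl | hx
  · simp
    positivity
  have h1 : |sinc (T * x) * sinc (s * x)| ≤ 1 := by
    rw [abs_mul]
    exact mul_le_one₀ (abs_sinc_le_one _) (abs_nonneg _) (abs_sinc_le_one _)
  have habs : ∀ z : ℝ, z ≠ 0 → |sinc z| ≤ 1/|z| := by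
    intro z hz
    rw [sinc_of_ne_zero hz, abs_div]
    gcongr
    exact abs_sin_le_one z
  have h2 : |sinc (T * x) * sinc (s * x)| ≤ 1/(T*s) * (x^2)⁻¹ := by
    rw [abs_mul]
    have := mul_le_mul (habs (T*x) (by positivity)) (habs (s*x) (by positivity)) (abs_nonneg _) (by positivity)
    refine this.trans (le_of_eq ?_)
    rw [abs_mul, abs_mul, abs_of_pos hs, abs_of_pos hT]
    rw [show x^2 = |x|^2 by rw [sq_abs]]
    field_simp
  set K := 1/(T*s) with hK
  have hKpos : 0 < K := by positivity
  have hx2 : 0 < x^2 := by positivity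
  rcases le_total (x^2) K with h | h
  · refine h1.trans ?_
    rw [← div_eq_mul_inv, le_div_iff₀ (by positivity)]
    linarith
  · refine h2.trans ?_
    rw [← div_eq_mul_inv, ← div_eq_mul_inv, div_le_div_iff₀ (by positivity) (by positivity)]
    nlinarith

lemma integrable_sinc_mul {s T : ℝ} (hs : 0 < s) (hT : 0 < T) :
    Integrable (fun x : ℝ => sinc (T * x) * sinc (s * x)) := by
  have hb : Integrable (fun x : ℝ => (1 + 1/(T*s)) * (1 + x^2)⁻¹) :=
    integrable_inv_one_add_sq.const_mul _
  refine hb.mono' ?_ ?_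
  · exact ((continuous_sinc.comp (by fun_prop)).mul (continuous_sinc.comp (by fun_prop))).aestronglyMeasurable
  · filter_upwards with x
    rw [Real.norm_eq_abs]
    exact sinc_mul_bound hs hT x

lemma A_ind_cont {s T : ℝ} (hs : 0 < s) (hT : 0 ≤ T) : Continuous (A s (ind T)) := by
  have : A s (ind T) = fun y => (clamp T (y+s) - clamp T (y-s)) / (2*s) := by
    ext y; exact A_ind hs hT y
  rw [this]
  unfold clamp
  fun_prop

lemma A_ind_zero {s T : ℝ} (hs : 0 < s) (hT : 0 ≤ T) {y : ℝ} (hy : T + s < |y|) :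
    A s (ind T) y = 0 := by
  rw [A_ind hs hT]
  unfold clamp
  rcases le_total 0 y with h | h
  · rw [abs_of_nonneg h] at hy
    rw [min_eq_left (by linarith), min_eq_left (by linarith)]
    simp
  · rw [abs_of_nonpos h] at hy
    rw [max_eq_left (by rw [min_le_iff]; right; linarith), max_eq_left (by rw [min_le_iff]; right; linarith)]
    simp

lemma A_ind_integrable {s T : ℝ} (hs : 0 < s) (hT : 0 ≤ T) : Integrable (A s (ind T)) := by
  apply (A_ind_cont hs hT).integrable_of_hasCompactSupport
  apply HasCompactSupport.of_support_subset_isCompact (isCompact_Icc (a := -(T+s)) (b := T+s))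
  intro y hy
  by_contra hcon
  apply hy
  apply A_ind_zero hs hT
  rw [mem_Icc, ← abs_le, not_le] at hcon
  exact hcon

lemma fourier_A_ind {s T : ℝ} (hs : 0 < s) (hT : 0 < T) (ξ : ℝ) :
    𝓕 (fun y => ((A s (ind T) y : ℝ) : ℂ)) ξ =
      ((2 * T * (sinc (T * (2 * π * ξ)) * sinc (s * (2 * π * ξ))) : ℝ) : ℂ) := by
  rw [Real.fourier_real_eq_integral_exp_smul]
  set e : ℝ → ℂ := fun y => Complex.exp (((-2 * π * y * ξ : ℝ) : ℂ) * Complex.I) with he
  have hec : Continuous e := by fun_prop
  have hnorm : ∀ y, ‖e y‖ = 1 := fun y => Complex.norm_exp_ofReal_mul_I _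
  have hadd : ∀ y z, e (y + z) = e y * e z := by
    intro y z
    simp only [he]
    rw [← Complex.exp_add]
    congr 1
    push_cast
    ring
  -- joint integrability
  have hjoint : Integrable (Function.uncurry fun (y u : ℝ) => e y * ((ind T (s * u + y) : ℝ) : ℂ))
      (volume.prod U) := by
    have hdom : Integrable (fun p : ℝ × ℝ => (indicator (Icc (-(T+s)) (T+s)) (fun _ => (1:ℝ)) p.1) * 1)
        (volume.prod U) := by
      apply Integrable.mul_prod (f := fun y : ℝ => indicator (Icc (-(T+s)) (T+s)) (fun _ => (1:ℝ)) y)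
        (g := fun _ : ℝ => (1:ℝ))
      · rw [integrable_indicator_iff measurableSet_Icc]
        simp
      · exact integrable_const _
    refine hdom.mono' ?_ ?_
    · apply Measurable.aestronglyMeasurable
      apply Measurable.mul
      · exact hec.measurable.comp measurable_fst
      · exact Complex.measurable_ofReal.comp ((ind_measurable T).comp (by fun_prop))
    · have hae : ∀ᵐ p : ℝ × ℝ ∂(volume.prod U), p.2 ∈ Icc (-1:ℝ) 1 := by
        exact (Measure.quasiMeasurePreserving_snd (μ := (volume : Measure ℝ)) (ν := U)).ae ae_U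
      filter_upwards [hae] with p hp
      simp only [Function.uncurry, norm_mul, hnorm, one_mul, Complex.norm_real, Real.norm_eq_abs,
        abs_of_nonneg (ind_nonneg _ _), mul_one]
      by_cases hcase : p.1 ∈ Icc (-(T+s)) (T+s)
      · rw [indicator_of_mem hcase]; exact ind_le_one _ _
      · rw [indicator_of_notMem hcase]
        have : ind T (s * p.2 + p.1) = 0 := by
          unfold ind
          rw [if_neg]
          rw [not_le]
          rw [mem_Icc, ← abs_le, not_le] at hcase
          have h1 : |s * p.2| ≤ s := by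
            rw [abs_mul, abs_of_pos hs]
            have : |p.2| ≤ 1 := abs_le.mpr hp
            nlinarith
          have h2 : |p.1| ≤ |s * p.2 + p.1| + |s * p.2| := by
            have := abs_sub (s * p.2 + p.1) (s * p.2)
            simpa using this
          linarith
        rw [this]
  calc ∫ y, e y • ((A s (ind T) y : ℝ) : ℂ)
      = ∫ y, ∫ u, e y * ((ind T (s * u + y) : ℝ) : ℂ) ∂U := by
        congr 1
        ext y
        rw [smul_eq_mul, integral_const_mul, A]
        congr 1
        exact (integral_ofReal).symm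
    _ = ∫ u, ∫ y, e y * ((ind T (s * u + y) : ℝ) : ℂ) ∂volume ∂U := integral_integral_swap hjoint
    _ = ∫ u, e (-(s * u)) * (∫ z, e z * ((ind T z : ℝ) : ℂ)) ∂U := by
        congr 1
        ext u
        have := integral_add_right_eq_self (μ := (volume : Measure ℝ)) (fun z : ℝ => e (z + -(s*u)) * ((ind T z : ℝ) : ℂ)) (s * u)
        simp only [add_neg_cancel_right] at this
        rw [← integral_const_mul]
        simp_rw [add_comm (s * u)]
        rw [this]
        congr 1
        ext z
        rw [hadd]; ring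
    _ = (∫ u, e (-(s * u)) ∂U) * (∫ z, e z * ((ind T z : ℝ) : ℂ)) := by
        rw [integral_mul_const]
    _ = _ := by
        have h1 : ∫ u, e (-(s * u)) ∂U = ((sinc (s * (2 * π * ξ)) : ℝ) : ℂ) := by
          rw [integral_U]
          have h := integral_exp_scaled 1 (s * (2 * π * ξ))
          have h' : ∀ u : ℝ, e (-(s * u)) = Complex.exp (((s * (2 * π * ξ) * u : ℝ) : ℂ) * Complex.I) := by
            intro u
            simp only [he]
            congr 2
            push_cast
            ring
          simp_rw [h']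
          rw [h]
          rw [Complex.real_smul]
          push_cast
          rw [one_mul]
          ring
        have h2 : ∫ z, e z * ((ind T z : ℝ) : ℂ) = ((2 * T * sinc (T * (2 * π * ξ)) : ℝ) : ℂ) := by
          have h3 : (fun z => e z * ((ind T z : ℝ) : ℂ)) = indicator (Icc (-T) T) e := by
            ext z
            by_cases hz : z ∈ Icc (-T) T
            · rw [indicator_of_mem hz]
              unfold ind
              rw [if_pos (abs_le.mpr hz)]
              simp
            · rw [indicator_of_notMem hz]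
              unfold ind
              rw [if_neg (fun h => hz (abs_le.mp h))]
              simp
          rw [h3, integral_indicator measurableSet_Icc, integral_Icc_eq_integral_Ioc,
            ← intervalIntegral.integral_of_le (by linarith)]
          have h := integral_exp_scaled T (-(2 * π * ξ))
          have h' : ∀ u : ℝ, e u = Complex.exp (((-(2 * π * ξ) * u : ℝ) : ℂ) * Complex.I) := by
            intro u
            simp only [he]
            congr 2
            push_cast
            ring
          simp_rw [h']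
          rw [h, show T * -(2 * π * ξ) = -(T * (2 * π * ξ)) by ring, sinc_neg]
        rw [h1, h2]
        push_cast
        ring

/-- Fourier representation of the trapezoid. -/
lemma A_ind_fourier {s T : ℝ} (hs : 0 < s) (hT : 0 < T) (y : ℝ) :
    A s (ind T) y = (T / π) * ∫ x, sinc (T * x) * sinc (s * x) * Real.cos (x * y) := by
  set f : ℝ → ℂ := fun y => ((A s (ind T) y : ℝ) : ℂ) with hf
  have hfc : Continuous f := Complex.continuous_ofReal.comp (A_ind_cont hs hT.le)
  have hfi : Integrable f := (A_ind_integrable hs hT.le).ofReal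
  have hF : 𝓕 f = fun ξ => ((2 * T * (sinc (T * (2 * π * ξ)) * sinc (s * (2 * π * ξ))) : ℝ) : ℂ) := by
    ext ξ; exact fourier_A_ind hs hT ξ
  have hi0 : Integrable (fun ξ : ℝ => sinc (T * (2 * π * ξ)) * sinc (s * (2 * π * ξ))) :=
    (integrable_sinc_mul hs hT).comp_mul_left' (g := fun x => sinc (T * x) * sinc (s * x)) (by positivity : (2 * π : ℝ) ≠ 0)
  have hFi : Integrable (𝓕 f) := by
    rw [hF]
    exact (hi0.const_mul (2*T)).ofReal
  have hinv := hfc.fourierInv_fourier_eq hfi hFi
  have h1 : f y = 𝓕⁻ (𝓕 f) y := by rw [hinv]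
  rw [Real.fourierInv_eq', hF] at h1
  have h2 : A s (ind T) y = (∫ ξ : ℝ, Complex.exp (((2 * π * inner ℝ ξ y : ℝ) : ℂ) * Complex.I) •
      (((2 * T * (sinc (T * (2 * π * ξ)) * sinc (s * (2 * π * ξ))) : ℝ) : ℂ))).re := by
    rw [← h1]; simp [hf]
  rw [h2]
  have hint : Integrable (fun ξ : ℝ => Complex.exp (((2 * π * inner ℝ ξ y : ℝ) : ℂ) * Complex.I) •
      (((2 * T * (sinc (T * (2 * π * ξ)) * sinc (s * (2 * π * ξ))) : ℝ) : ℂ))) := by
    have h3 := ((hi0.const_mul (2*T)).ofReal (𝕜 := ℂ))
    refine h3.mono ?_ ?_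
    · have hc : Continuous (fun ξ : ℝ => Complex.exp (((2 * π * inner ℝ ξ y : ℝ) : ℂ) * Complex.I) •
      (((2 * T * (sinc (T * (2 * π * ξ)) * sinc (s * (2 * π * ξ))) : ℝ) : ℂ))) := by
        have := continuous_sinc
        fun_prop
      exact hc.aestronglyMeasurable
    · filter_upwards with ξ
      rw [norm_smul, Complex.norm_exp_ofReal_mul_I, one_mul]
      rfl
  have h4 := integral_re hint
  have h5 : (∫ ξ : ℝ, Complex.exp (((2 * π * inner ℝ ξ y : ℝ) : ℂ) * Complex.I) •
      (((2 * T * (sinc (T * (2 * π * ξ)) * sinc (s * (2 * π * ξ))) : ℝ) : ℂ))).re =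
      ∫ ξ : ℝ, 2 * T * (sinc (T * (2 * π * ξ)) * sinc (s * (2 * π * ξ)) * Real.cos ((2 * π * ξ) * y)) := by
    have h6 : (∫ ξ : ℝ, Complex.exp (((2 * π * inner ℝ ξ y : ℝ) : ℂ) * Complex.I) •
      (((2 * T * (sinc (T * (2 * π * ξ)) * sinc (s * (2 * π * ξ))) : ℝ) : ℂ))).re =
      RCLike.re (∫ ξ : ℝ, Complex.exp (((2 * π * inner ℝ ξ y : ℝ) : ℂ) * Complex.I) •
      (((2 * T * (sinc (T * (2 * π * ξ)) * sinc (s * (2 * π * ξ))) : ℝ) : ℂ))) := rfl
    rw [h6, ← h4]
    congr 1
    ext ξ
    have h7 : ∀ θ r : ℝ, RCLike.re (Complex.exp ((θ : ℂ) * Complex.I) • ((r : ℝ) : ℂ)) = Real.cos θ * r := by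
      intro θ r
      simp only [smul_eq_mul, RCLike.re_eq_complex_re]
      rw [Complex.re_mul_ofReal, Complex.exp_ofReal_mul_I_re]
    rw [h7]
    have h8 : (inner ℝ ξ y : ℝ) = ξ * y := by simp [mul_comm]
    rw [h8, show 2 * π * (ξ * y) = (2 * π * ξ) * y by ring]
    ring
  rw [h5, integral_const_mul,
    Measure.integral_comp_mul_left (fun x : ℝ => sinc (T * x) * sinc (s * x) * Real.cos (x * y)) (2*π)]
  rw [abs_of_pos (by positivity), smul_eq_mul]
  have hJ : ∀ J : ℝ, 2 * T * ((2 * π)⁻¹ * J) = T / π * J := by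
    intro J; field_simp
  exact hJ _

/-- Fourier formula for the slab probability. -/
lemma prob_fourier {n : ℕ} (a : Fin n → ℝ) (i : Fin n) (hi : a i ≠ 0) {T : ℝ} (hT : 0 < T) :
    prob a T = (T / π) * ∫ x, sinc (T * x) * ∏ j, sinc (a j * x) := by
  obtain ⟨m, rfl⟩ : ∃ m, n = m + 1 := ⟨n - 1, by have := i.2; omega⟩
  have hs : 0 < |a i| := abs_pos.mpr hi
  rw [prob_split a i]
  simp_rw [A_ind_fourier hs hT]
  rw [integral_const_mul]
  congr 1
  have hjoint : Integrable (Function.uncurry fun (y : Fin m → ℝ) (x : ℝ) =>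
      sinc (T * x) * sinc (|a i| * x) * Real.cos (x * ∑ j, a (i.succAbove j) * y j))
      ((cube m).prod volume) := by
    have hdom : Integrable (fun p : (Fin m → ℝ) × ℝ => (1:ℝ) * (sinc (T * p.2) * sinc (|a i| * p.2)))
        ((cube m).prod volume) :=
      Integrable.mul_prod (f := fun _ : Fin m → ℝ => (1:ℝ))
        (g := fun x : ℝ => sinc (T * x) * sinc (|a i| * x)) (integrable_const _) (integrable_sinc_mul hs hT)
    refine hdom.mono ?_ ?_
    · have hc : Continuous (Function.uncurry fun (y : Fin m → ℝ) (x : ℝ) =>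
        sinc (T * x) * sinc (|a i| * x) * Real.cos (x * ∑ j, a (i.succAbove j) * y j)) := by
        have := continuous_sinc
        unfold Function.uncurry
        fun_prop
      exact hc.aestronglyMeasurable
    · filter_upwards with p
      simp only [Function.uncurry, one_mul]
      rw [norm_mul]
      exact mul_le_of_le_one_right (norm_nonneg _) (abs_cos_le_one _)
  rw [integral_integral_swap hjoint]
  congr 1
  ext x
  rw [integral_const_mul, cube_cos, Fin.prod_univ_succAbove _ i, mul_assoc]
  congr 2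
  rcases abs_choice (a i) with h | h
  · rw [h]
  · rw [h, neg_mul, sinc_neg]

/-- Gaussian Fourier integral. -/
lemma gauss_cos (y : ℝ) : ∫ x : ℝ, Real.cos (x * y) * Real.exp (-x^2/6) =
    Real.sqrt (6 * π) * Real.exp (-(3/2) * y^2) := by
  have h := fourierIntegral_gaussian (b := (1/6 : ℂ)) (by norm_num) (y : ℂ)
  have hint : Integrable (fun x : ℝ => Complex.exp (Complex.I * y * x) * Complex.exp (-(1/6 : ℂ) * (x:ℂ)^2)) := by
    have h0 : Integrable (fun x : ℝ => Real.exp (-(1/6) * x^2)) := integrable_exp_neg_mul_sq (by norm_num)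
    refine (h0.ofReal (𝕜 := ℂ)).mono ?_ ?_
    · have : Continuous (fun x : ℝ => Complex.exp (Complex.I * y * x) * Complex.exp (-(1/6 : ℂ) * (x:ℂ)^2)) := by
        fun_prop
      exact this.aestronglyMeasurable
    · filter_upwards with x
      have e1 : Complex.I * y * x = ((y * x : ℝ) : ℂ) * Complex.I := by push_cast; ring
      have e2 : Complex.exp (-(1/6 : ℂ) * (x:ℂ)^2) = ((Real.exp (-(1/6) * x^2) : ℝ) : ℂ) := by
        push_cast; rfl
      rw [norm_mul, e1, Complex.norm_exp_ofReal_mul_I, one_mul, e2]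
      rfl
  have h2 := congrArg RCLike.re h
  rw [← integral_re hint] at h2
  have h3 : ∀ x : ℝ, RCLike.re (Complex.exp (Complex.I * y * x) * Complex.exp (-(1/6 : ℂ) * (x:ℂ)^2)) =
      Real.cos (x * y) * Real.exp (-x^2/6) := by
    intro x
    have e1 : Complex.I * y * x = ((x * y : ℝ) : ℂ) * Complex.I := by push_cast; ring
    have e2 : Complex.exp (-(1/6 : ℂ) * (x:ℂ)^2) = ((Real.exp (-x^2/6) : ℝ) : ℂ) := by
      push_cast; congr 1; ring
    rw [e1, e2, RCLike.re_eq_complex_re, Complex.re_mul_ofReal, Complex.exp_ofReal_mul_I_re]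
  simp_rw [h3] at h2
  rw [h2]
  have e3 : ((π : ℂ) / (1/6 : ℂ)) ^ (1/2 : ℂ) = ((Real.sqrt (6 * π) : ℝ) : ℂ) := by
    rw [Real.sqrt_eq_rpow, Complex.ofReal_cpow (by positivity)]
    push_cast
    congr 1
    ring
  have e4 : Complex.exp (-(y:ℂ)^2 / (4 * (1/6 : ℂ))) = ((Real.exp (-(3/2) * y^2) : ℝ) : ℂ) := by
    push_cast
    congr 1
    ring
  rw [e3, e4, ← Complex.ofReal_mul]
  rfl


end Pool.Agent.Helper88.Slab
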