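import Pool.Agent.Helper88.DnReduce

set_option autoImplicit false

open Set Filter Topology

namespace Pool.Agent.Helper88.Dn

universe u

/-- A loop on `[0,2]` that is injective on `[0,2)` gives an injective map of the circle. -/
lemma circle_of_loop {D : Type u} [TopologicalSpace D] (h : ℝ → D) (hc : Continuous h)
    (h02 : h 0 = h 2) (hinj : InjOn h (Ico 0 2)) :
    ∃ γ : Circle → D, Continuous γ ∧ Function.Injective γ := by
  have : Fact ((0:ℝ) < 2) := ⟨by norm_num⟩
  set F : AddCircle (2:ℝ) → D := AddCircle.liftIco 2 0 h with hF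
  have hFc : Continuous F := AddCircle.liftIco_continuous (by simpa using h02) hc.continuousOn
  have hFi : Function.Injective F := by
    intro x y hxy
    obtain ⟨x', hx', rfl⟩ := AddCircle.coe_image_Ico_eq (p := (2:ℝ)) (0:ℝ) ▸ mem_univ x
    obtain ⟨y', hy', rfl⟩ := AddCircle.coe_image_Ico_eq (p := (2:ℝ)) (0:ℝ) ▸ mem_univ y
    rw [hF, AddCircle.liftIco_coe_apply hx', AddCircle.liftIco_coe_apply hy'] at hxy
    rw [zero_add] at hx' hy'
    rw [hinj hx' hy' hxy]
  set φ := AddCircle.homeomorphCircle (T := (2:ℝ)) (by norm_num)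
  exact ⟨fun z => F (φ.symm z), hFc.comp φ.symm.continuous, hFi.comp φ.symm.injective⟩

/-- Two arcs with the same end points, one of which misses an inner point of the other, contain
a simple closed curve. -/
lemma circle_of_arcs {D : Type u} [TopologicalSpace D] [T2Space D] {a a' : D} (g δ : ℝ → D)
    (hg : Continuous g) (hgi : InjOn g (Icc 0 1)) (hg0 : g 0 = a) (hg1 : g 1 = a')
    (hδ : Continuous δ) (hδi : InjOn δ (Icc 0 1)) (hδ0 : δ 0 = a) (hδ1 : δ 1 = a')
    {t : ℝ} (ht : t ∈ Ioo (0:ℝ) 1) (hmiss : g t ∉ δ '' Icc 0 1) :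
    ∃ γ : Circle → D, Continuous γ ∧ Function.Injective γ := by
  set K : Set D := δ '' Icc 0 1 with hK
  have hKc : IsClosed K := (isCompact_Icc.image hδ).isClosed
  have haK : g 0 ∈ K := ⟨0, ⟨le_rfl, zero_le_one⟩, by rw [hδ0, hg0]⟩
  have haK' : g 1 ∈ K := ⟨1, ⟨zero_le_one, le_rfl⟩, by rw [hδ1, hg1]⟩
  have hA : IsCompact (Icc 0 t ∩ g ⁻¹' K) := isCompact_Icc.inter_right (hKc.preimage hg)
  have hB : IsCompact (Icc t 1 ∩ g ⁻¹' K) := isCompact_Icc.inter_right (hKc.preimage hg)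
  obtain ⟨s₁, ⟨hs₁I, hs₁K⟩, hs₁max⟩ := hA.exists_isGreatest ⟨0, ⟨le_rfl, ht.1.le⟩, haK⟩
  obtain ⟨s₂, ⟨hs₂I, hs₂K⟩, hs₂min⟩ := hB.exists_isLeast ⟨1, ⟨ht.2.le, le_rfl⟩, haK'⟩
  have hs₁t : s₁ < t := lt_of_le_of_ne hs₁I.2 (fun h => hmiss (h ▸ hs₁K))
  have hs₂t : t < s₂ := lt_of_le_of_ne hs₂I.1 (fun h => hmiss (h ▸ hs₂K))
  have hbetween : ∀ s, s₁ < s → s < s₂ → g s ∉ K := by
    intro s h1 h2 hs
    rcases le_total s t with hst | hst
    · exact absurd (hs₁max ⟨⟨hs₁I.1.trans h1.le, hst⟩, hs⟩) (not_le.mpr h1)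
    · exact absurd (hs₂min ⟨⟨hst, h2.le.trans hs₂I.2⟩, hs⟩) (not_le.mpr h2)
  obtain ⟨u₁, hu₁, hgu₁⟩ := hs₁K
  obtain ⟨u₂, hu₂, hgu₂⟩ := hs₂K
  have hs₁01 : s₁ ∈ Icc (0:ℝ) 1 := ⟨hs₁I.1, hs₁I.2.trans ht.2.le⟩
  have hs₂01 : s₂ ∈ Icc (0:ℝ) 1 := ⟨ht.1.le.trans hs₂I.1, hs₂I.2⟩
  have hu12 : u₁ ≠ u₂ := by
    rintro rfl
    have := hgi hs₁01 hs₂01 (hgu₁.symm.trans hgu₂)
    linarith
  have hu21 : u₁ - u₂ ≠ 0 := sub_ne_zero.mpr hu12
  -- parameters
  set α : ℝ → ℝ := fun r => s₁ + r * (s₂ - s₁) with hα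
  set ω : ℝ → ℝ := fun r => u₂ + (r - 1) * (u₁ - u₂) with hω
  have hpos : 0 < s₂ - s₁ := by linarith
  have hαI : ∀ r ∈ Icc (0:ℝ) 1, α r ∈ Icc (0:ℝ) 1 := by
    intro r hr
    constructor
    · have : 0 ≤ r * (s₂ - s₁) := mul_nonneg hr.1 hpos.le
      simp only [hα]; linarith [hs₁01.1]
    · have : r * (s₂ - s₁) ≤ 1 * (s₂ - s₁) := mul_le_mul_of_nonneg_right hr.2 hpos.le
      simp only [hα]; linarith [hs₂01.2]
  have hωI : ∀ r ∈ Icc (1:ℝ) 2, ω r ∈ Icc (0:ℝ) 1 := by
    intro r hr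
    have e : ω r = (2 - r) * u₂ + (r - 1) * u₁ := by simp only [hω]; ring
    rw [e]
    have h1 : 0 ≤ 2 - r := by linarith [hr.2]
    have h2 : 0 ≤ r - 1 := by linarith [hr.1]
    constructor
    · have := mul_nonneg h1 hu₂.1
      have := mul_nonneg h2 hu₁.1
      linarith
    · have := mul_le_mul_of_nonneg_left hu₂.2 h1
      have := mul_le_mul_of_nonneg_left hu₁.2 h2
      linarith
  set h : ℝ → D := fun r => if r ≤ 1 then g (α r) else δ (ω r) with hh
  have hα1 : g (α 1) = δ (ω 1) := by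
    have e1 : α 1 = s₂ := by simp only [hα]; ring
    have e2 : ω 1 = u₂ := by simp only [hω]; ring
    rw [e1, e2, hgu₂]
  have hcont : Continuous h := by
    apply Continuous.if_le
    · fun_prop
    · fun_prop
    · exact continuous_id
    · exact continuous_const
    · intro x hx
      have hx' : x = 1 := hx
      rw [hx']; exact hα1
  have hle : ∀ r, r ≤ 1 → h r = g (α r) := fun r hr => if_pos hr
  have hgt : ∀ r, 1 ≤ r → h r = δ (ω r) := by
    intro r hr
    rcases hr.eq_or_lt with rfl | hlt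
    · rw [hle 1 le_rfl, hα1]
    · exact if_neg (not_le.mpr hlt)
  apply circle_of_loop h hcont
  · rw [hle 0 zero_le_one, hgt 2 (by norm_num)]
    have e1 : α 0 = s₁ := by simp only [hα]; ring
    have e2 : ω 2 = u₁ := by simp only [hω]; ring
    rw [e1, e2, hgu₁]
  · -- injectivity
    have hcross : ∀ r r', r ∈ Ico (0:ℝ) 1 → r' ∈ Ico (1:ℝ) 2 → h r ≠ h r' := by
      intro r r' hr hr' heq
      rw [hle r hr.2.le, hgt r' hr'.1] at heq
      rcases hr.1.eq_or_lt with h0 | h0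
      · subst h0
        have e1 : α 0 = s₁ := by simp only [hα]; ring
        rw [e1, ← hgu₁] at heq
        have h3 := hδi hu₁ (hωI r' ⟨hr'.1, hr'.2.le⟩) heq
        simp only [hω] at h3
        have h4 : (2 - r') * (u₁ - u₂) = 0 := by linear_combination h3
        rcases mul_eq_zero.mp h4 with h5 | h5
        · linarith [hr'.2]
        · exact hu21 h5
      · apply hbetween (α r)
        · have : 0 < r * (s₂ - s₁) := mul_pos h0 hpos
          simp only [hα]; linarith
        · have : r * (s₂ - s₁) < 1 * (s₂ - s₁) := mul_lt_mul_of_pos_right hr.2 hpos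
          simp only [hα]; linarith
        · rw [heq]
          exact mem_image_of_mem _ (hωI r' ⟨hr'.1, hr'.2.le⟩)
    intro r hr r' hr' heq
    rcases lt_or_ge r 1 with h1 | h1 <;> rcases lt_or_ge r' 1 with h2 | h2
    · rw [hle r h1.le, hle r' h2.le] at heq
      have h3 := hgi (hαI r ⟨hr.1, h1.le⟩) (hαI r' ⟨hr'.1, h2.le⟩) heq
      simp only [hα] at h3
      have h4 : (r - r') * (s₂ - s₁) = 0 := by linear_combination h3
      rcases mul_eq_zero.mp h4 with h5 | h5
      · linarith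
      · exact absurd h5 hpos.ne'
    · exact absurd heq (hcross r r' ⟨hr.1, h1⟩ ⟨h2, hr'.2⟩)
    · exact absurd heq.symm (hcross r' r ⟨hr'.1, h2⟩ ⟨h1, hr.2⟩)
    · rw [hgt r h1, hgt r' h2] at heq
      have h3 := hδi (hωI r ⟨h1, hr.2.le⟩) (hωI r' ⟨h2, hr'.2.le⟩) heq
      simp only [hω] at h3
      have h4 : (r - r') * (u₁ - u₂) = 0 := by linear_combination h3
      rcases mul_eq_zero.mp h4 with h5 | h5
      · linarith
      · exact absurd h5 hu21

/-- extension of a path as a curve on the line -/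
lemma path_to_curve {D : Type u} [TopologicalSpace D] {a a' : D} (γ : Path a a')
    (hγ : Function.Injective γ) : ∃ g : ℝ → D, Continuous g ∧ InjOn g (Icc 0 1) ∧ g 0 = a ∧
      g 1 = a' ∧ g '' Icc 0 1 = range γ := by
  refine ⟨γ.extend, γ.continuous_extend, ?_, γ.extend_zero, γ.extend_one, ?_⟩
  · intro x hx y hy hxy
    rw [γ.extend_apply hx, γ.extend_apply hy] at hxy
    have := hγ hxy
    exact congrArg Subtype.val this
  · ext z
    constructor
    · rintro ⟨x, hx, rfl⟩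
      rw [γ.extend_apply hx]
      exact mem_range_self _
    · rintro ⟨x, rfl⟩
      exact ⟨x, x.2, by rw [γ.extend_apply x.2]⟩

theorem arcProp_of {D : Type u} [TopologicalSpace D] (hD : IsDendrite D)
    (hA : LocallyPathConnectedSpace D)
    (hB : ∀ {a b : D}, a ≠ b → ∀ γ : Path a b, ∃ δ : Path a b, Function.Injective δ ∧
      range δ ⊆ range γ) : ArcProp D := by
  have i1 : CompactSpace D := hD.continuum.compact
  have i2 : ConnectedSpace D := hD.continuum.connected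
  have i3 : TopologicalSpace.MetrizableSpace D := hD.continuum.metrizable
  -- paths in components of complements of points
  have hpath : ∀ x a z : D, z ∈ connectedComponentIn {x}ᶜ a → ∃ γ : Path a z, ∀ s, γ s ≠ x := by
    intro x a z hz
    have hne : (connectedComponentIn {x}ᶜ a).Nonempty := ⟨z, hz⟩
    have hax : a ∈ ({x}ᶜ : Set D) := by
      by_contra hcon
      rw [connectedComponentIn_eq_empty hcon] at hz
      exact hz
    have ho : IsOpen (connectedComponentIn {x}ᶜ a) := isOpen_compl_singleton.connectedComponentIn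
    have hpc : IsPathConnected (connectedComponentIn {x}ᶜ a) :=
      ho.isConnected_iff_isPathConnected.mp ⟨hne, isPreconnected_connectedComponentIn⟩
    obtain ⟨γ, hγ⟩ := hpc.joinedIn a (mem_connectedComponentIn hax) z hz
    exact ⟨γ, fun s hs => connectedComponentIn_subset _ _ (hγ s) hs⟩
  constructor
  · intro a a' ha
    have hpc : PathConnectedSpace D := pathConnectedSpace_iff_connectedSpace.mpr i2
    obtain ⟨γ, hγ, -⟩ := hB ha (PathConnectedSpace.somePath a a')
    obtain ⟨g, hg, hgi, hg0, hg1, -⟩ := path_to_curve γ hγ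
    refine ⟨g, hg, hgi, hg0, hg1, fun t ht hmem => ?_⟩
    obtain ⟨δ0, hδ0⟩ := hpath _ _ _ hmem
    obtain ⟨δ, hδ, hδr⟩ := hB ha δ0
    obtain ⟨d, hd, hdi, hd0, hd1, hdr⟩ := path_to_curve δ hδ
    apply hD.noCircle
    apply circle_of_arcs g d hg hgi hg0 hg1 hd hdi hd0 hd1 ht
    rw [hdr]
    intro hcon
    obtain ⟨s, hs⟩ := hδr hcon
    exact hδ0 s hs
  · intro x a' z hz
    obtain ⟨γ, hγ⟩ := hpath x a' z hz
    refine ⟨range γ, isCompact_range γ.continuous, isPreconnected_range γ.continuous,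
      ⟨0, γ.source⟩, ⟨1, γ.target⟩, ?_⟩
    rintro ⟨s, hs⟩
    exact hγ s hs

end Pool.Agent.Helper88.Dn
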