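import Pool.Agent.Helper88.DnBlocks

set_option autoImplicit false

open Set Filter Topology

namespace Pool.Agent.Helper88.Dn

universe u

theorem assemble {D : Type u} [TopologicalSpace D] [T2Space D] {Y : Type*} [PseudoMetricSpace Y]
    (f : D → Y) (hf : Continuous f) (A : Set D) (F : ℕ → Set D) (hA : IsDendrite A)
    (hF : ∀ n, IsDendrite (F n)) (p b : ℕ → D) (hp : ∀ n, p n ∈ A) (hb : ∀ n, b n ∈ F n)
    {pinf : D} (hpinf : pinf ∈ A) (hlim : Tendsto p atTop (𝓝 pinf))
    (hdA : ∀ n, ∀ z ∈ F n, z ≠ b n → z ∉ A)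
    (hdF : ∀ m n, m ≠ n → ∀ z ∈ F m, z ≠ b m → z ∈ F n → z = b n)
    (hfp : ∀ n, f (b n) = f (p n))
    (hs : ∀ ε > 0, ∀ᶠ n in atTop, ∀ z ∈ F n, dist (f z) (f (p n)) < ε) :
    ∃ (D' : Type u) (_ : TopologicalSpace D'), IsDendrite D' ∧ ∃ β : D' → D,
      Function.Injective β ∧ range β = A ∪ ⋃ n, (F n \ {b n}) ∧ Continuous fun q => f (β q) := by
  set t : ℕ → A := fun n => ⟨p n, hp n⟩ with ht
  set e : ∀ n, F n := fun n => ⟨b n, hb n⟩ with he
  have htl : Tendsto t atTop (𝓝 (⟨pinf, hpinf⟩ : A)) := by
    rw [tendsto_subtype_rng]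
    exact hlim
  have hne : ∀ n (z : F n), z ≠ e n ↔ (z : D) ≠ b n := by
    intro n z
    rw [not_iff_not]
    exact Subtype.ext_iff
  refine ⟨Att t e, inferInstance, isDendrite_Att t e hA hF htl,
    pick t e (fun x : A => (x : D)) (fun n (z : F n) => (z : D)), ?_, ?_, ?_⟩
  · apply pick_injective
    · exact Subtype.val_injective
    · intro n
      exact Subtype.val_injective.injOn
    · intro x n z hz hxz
      exact hdA n z z.2 ((hne n z).mp hz) (hxz ▸ x.2)
    · intro m n z w hz hw hmn hzw
      apply (hne n w).mp hw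
      rw [← hzw]
      exact hdF m n hmn z z.2 ((hne m z).mp hz) (hzw ▸ w.2)
  · rw [range_pick, Subtype.range_coe]
    congr 1
    apply iUnion_congr
    intro n
    ext z
    constructor
    · rintro ⟨w, hw, rfl⟩
      exact ⟨w.2, (hne n w).mp hw⟩
    · rintro ⟨hz, hzb⟩
      exact ⟨⟨z, hz⟩, (hne n ⟨z, hz⟩).mpr hzb, rfl⟩
  · have h1 : (fun q => f (pick t e (fun x : A => (x : D)) (fun n (z : F n) => (z : D)) q)) =
        pick t e (fun x : A => f x) (fun n (z : F n) => f z) := by
      funext q
      exact comp_pick t e _ _ f q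
    rw [h1]
    apply continuous_pick
    · exact hf.comp continuous_subtype_val
    · intro n
      exact hf.comp continuous_subtype_val
    · intro n
      exact hfp n
    · intro ε hε
      filter_upwards [hs ε hε] with n hn
      intro z
      exact hn z z.2

theorem IsDendrite.of_homeo {X Z : Type u} [TopologicalSpace X] [TopologicalSpace Z]
    (h : IsDendrite X) (φ : X ≃ₜ Z) : IsDendrite Z := by
  have i1 : CompactSpace X := h.continuum.compact
  have i2 : ConnectedSpace X := h.continuum.connected
  have i3 : TopologicalSpace.MetrizableSpace X := h.continuum.metrizable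
  have i4 : LocallyConnectedSpace X := h.locallyConnected
  refine ⟨⟨φ.compactSpace, φ.surjective.connectedSpace φ.continuous, ?_⟩,
    φ.symm.locallyConnectedSpace, ?_⟩
  · exact φ.symm.isEmbedding.metrizableSpace
  · rintro ⟨γ, hγ, hinj⟩
    exact h.noCircle ⟨fun s => φ.symm (γ s), φ.symm.continuous.comp hγ,
      φ.symm.injective.comp hinj⟩

theorem isDendrite_singleton {Z : Type u} [TopologicalSpace Z] (z : Z) :
    IsDendrite ({z} : Set Z) := by
  refine ⟨⟨inferInstance, ?_, ?_⟩, ?_, ?_⟩
  · exact { toPreconnectedSpace := inferInstance, toNonempty := inferInstance }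
  · have : DiscreteTopology ({z} : Set Z) := inferInstance
    infer_instance
  · infer_instance
  · rintro ⟨γ, -, hinj⟩
    have h1 : (1 : Circle) = -1 := hinj (Subsingleton.elim _ _)
    have h2 := congrArg (fun c : Circle => (c : ℂ)) h1
    simp at h2
    norm_num at h2

/-- The wedge of two dendrites mapped to one metric space. -/
theorem wedge {D₁ D₂ : Type u} [TopologicalSpace D₁] [TopologicalSpace D₂] (h₁ : IsDendrite D₁)
    (h₂ : IsDendrite D₂) (a : D₁) (b : D₂) {Y : Type*} [PseudoMetricSpace Y] (f₁ : D₁ → Y)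
    (f₂ : D₂ → Y) (hf₁ : Continuous f₁) (hf₂ : Continuous f₂) (hab : f₁ a = f₂ b) :
    ∃ (D' : Type u) (_ : TopologicalSpace D'), IsDendrite D' ∧ ∃ β : D' → D₁ ⊕ D₂,
      Function.Injective β ∧ range β = {Sum.inr b}ᶜ ∧ Continuous fun q => Sum.elim f₁ f₂ (β q) := by
  have i1 : TopologicalSpace.MetrizableSpace D₁ := h₁.continuum.metrizable
  have i2 : TopologicalSpace.MetrizableSpace D₂ := h₂.continuum.metrizable
  have hf : Continuous (Sum.elim f₁ f₂) := hf₁.sumElim hf₂
  let F : ℕ → Set (D₁ ⊕ D₂) := fun n => Nat.casesOn n (range Sum.inr) (fun _ => {Sum.inr b})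
  have hF : ∀ n, IsDendrite (↥(F n)) := by
    intro n
    cases n with
    | zero => exact h₂.of_homeo IsEmbedding.inr.toHomeomorph
    | succ n => exact isDendrite_singleton _
  obtain ⟨D', top, hD', β, hβ, hr, hc⟩ := assemble (Sum.elim f₁ f₂) hf (range Sum.inl) F
    (h₁.of_homeo IsEmbedding.inl.toHomeomorph) hF (fun _ => Sum.inl a) (fun _ => Sum.inr b)
    (fun _ => mem_range_self _) (fun n => by cases n with
      | zero => exact mem_range_self _
      | succ n => exact mem_singleton _) (mem_range_self a) tendsto_const_nhds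
    (fun n z hz hzb => by
      cases n with
      | zero =>
        rintro ⟨w, rfl⟩
        obtain ⟨w', hw'⟩ := hz
        exact Sum.inr_ne_inl hw'
      | succ n => exact absurd hz hzb)
    (fun m n hmn z hz hzb hz' => by
      cases n with
      | zero => cases m with
        | zero => exact absurd rfl hmn
        | succ m => exact absurd hz hzb
      | succ n => exact hz')
    (fun _ => hab.symm)
    (fun ε hε => by
      filter_upwards [eventually_gt_atTop 0] with n hn z hz
      cases n with
      | zero => exact absurd hn (lt_irrefl 0)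
      | succ n =>
        have hz' : z = Sum.inr b := hz
        rw [hz']
        simp only [Sum.elim_inr, Sum.elim_inl]
        rw [hab, dist_self]
        exact hε)
  refine ⟨D', top, hD', β, hβ, ?_, hc⟩
  rw [hr]
  ext z
  constructor
  · rintro (⟨w, rfl⟩ | hz)
    · exact Sum.inl_ne_inr
    · obtain ⟨n, -, hzb⟩ := mem_iUnion.mp hz
      exact hzb
  · intro hz
    rcases z with w | w
    · exact Or.inl (mem_range_self _)
    · right
      exact mem_iUnion.mpr ⟨0, mem_range_self _, hz⟩

end Pool.Agent.Helper88.Dn
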