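import Pool.Agent.Helper88.DnLC

set_option autoImplicit false

open Set Filter Topology

namespace Pool.Agent.Helper88.Dn

universe u

variable {T : Type u} {E : ℕ → Type u} (t : ℕ → T) (e : ∀ n, E n)

/-- The space obtained from `T` by attaching `E n` at `t n` along the base point `e n`. -/
def Att : Set (T × (∀ n, E n)) :=
  {q | (∀ n, q.2 n = e n ∨ q.1 = t n) ∧ (∀ m n, m ≠ n → q.2 m = e m ∨ q.2 n = e n)}

/-- base points of `T` -/
def bs (x : T) : Att t e := ⟨(x, e), fun _ => Or.inl rfl, fun _ _ _ => Or.inl rfl⟩

open Classical in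
/-- points of the `n`-th attached space -/
noncomputable def sp (n : ℕ) (z : E n) : Att t e :=
  ⟨(t n, Function.update e n z), by
    refine ⟨fun m => ?_, fun m k hmk => ?_⟩
    · by_cases h : m = n
      · subst h; exact Or.inr rfl
      · left; exact Function.update_of_ne h _ _
    · by_cases h : m = n
      · right
        have : k ≠ n := fun hk => hmk (h.trans hk.symm)
        exact Function.update_of_ne this _ _
      · left; exact Function.update_of_ne h _ _⟩

lemma sp_base (n : ℕ) : sp t e n (e n) = bs t e (t n) := by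
  apply Subtype.ext
  apply Prod.ext
  · rfl
  · exact Function.update_eq_self n e

lemma sp_apply_self (n : ℕ) (z : E n) : (sp t e n z).1.2 n = z := Function.update_self n z e

lemma sp_apply_ne {n m : ℕ} (h : m ≠ n) (z : E n) : (sp t e n z).1.2 m = e m :=
  Function.update_of_ne h _ _

lemma eq_sp_of_ne (q : Att t e) {n : ℕ} (h : q.1.2 n ≠ e n) : q = sp t e n (q.1.2 n) := by
  apply Subtype.ext
  apply Prod.ext
  · exact (q.2.1 n).resolve_left h
  · ext m
    by_cases hm : m = n
    · subst hm
      rw [sp_apply_self]
    · rw [sp_apply_ne t e hm]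
      exact (q.2.2 m n hm).resolve_right h

lemma eq_bs_of_forall (q : Att t e) (h : ∀ n, q.1.2 n = e n) : q = bs t e q.1.1 := by
  apply Subtype.ext
  apply Prod.ext
  · rfl
  · ext m; exact h m

lemma cases_att (q : Att t e) : (∃ x, q = bs t e x) ∨ ∃ n z, z ≠ e n ∧ q = sp t e n z := by
  by_cases h : ∀ n, q.1.2 n = e n
  · exact Or.inl ⟨_, eq_bs_of_forall t e q h⟩
  · push Not at h
    obtain ⟨n, hn⟩ := h
    exact Or.inr ⟨n, _, hn, eq_sp_of_ne t e q hn⟩

section top
variable [TopologicalSpace T] [∀ n, TopologicalSpace (E n)]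

lemma isClosed_Att [T2Space T] [∀ n, T2Space (E n)] : IsClosed (Att t e) := by
  have h1 : IsClosed {q : T × (∀ n, E n) | ∀ n, q.2 n = e n ∨ q.1 = t n} := by
    simp only [setOf_forall, setOf_or]
    apply isClosed_iInter
    intro n
    exact (isClosed_eq (by fun_prop) continuous_const).union
      (isClosed_eq continuous_fst continuous_const)
  have h2 : IsClosed {q : T × (∀ n, E n) | ∀ m n, m ≠ n → q.2 m = e m ∨ q.2 n = e n} := by
    simp only [setOf_forall, setOf_or]
    apply isClosed_iInter; intro m
    apply isClosed_iInter; intro n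
    apply isClosed_iInter; intro _
    exact (isClosed_eq (by fun_prop) continuous_const).union
      (isClosed_eq (by fun_prop) continuous_const)
  exact h1.inter h2

lemma continuous_bs : Continuous (bs t e) := by
  apply Continuous.subtype_mk
  fun_prop

lemma continuous_sp (n : ℕ) : Continuous (sp t e n) := by
  apply Continuous.subtype_mk
  exact continuous_const.prodMk (continuous_const.update n continuous_id)

lemma connected_Att [ConnectedSpace T] [∀ n, ConnectedSpace (E n)] : ConnectedSpace (Att t e) := by
  have hpre : IsPreconnected (univ : Set (Att t e)) := by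
    apply isPreconnected_of_forall (bs t e (t 0))
    intro q _
    have hb : IsPreconnected (range (bs t e)) := isPreconnected_range (continuous_bs t e)
    rcases cases_att t e q with ⟨x, rfl⟩ | ⟨n, z, -, rfl⟩
    · exact ⟨range (bs t e), subset_univ _, mem_range_self _, mem_range_self _, hb⟩
    · refine ⟨range (bs t e) ∪ range (sp t e n), subset_univ _, Or.inl (mem_range_self _),
        Or.inr (mem_range_self _), ?_⟩
      refine hb.union (bs t e (t n)) (mem_range_self _) ⟨e n, sp_base t e n⟩ ?_
      exact isPreconnected_range (continuous_sp t e n)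
  exact { toPreconnectedSpace := ⟨hpre⟩, toNonempty := ⟨bs t e (t 0)⟩ }

lemma tendsto_sp {tinf : T} (ht : Tendsto t atTop (𝓝 tinf)) (z : ∀ n, E n) :
    Tendsto (fun n => sp t e n (z n)) atTop (𝓝 (bs t e tinf)) := by
  rw [tendsto_subtype_rng]
  refine Tendsto.prodMk_nhds ht ?_
  rw [tendsto_pi_nhds]
  intro m
  apply tendsto_const_nhds.congr'
  filter_upwards [eventually_gt_atTop m] with n hn
  exact (sp_apply_ne t e (ne_of_lt hn) (z n)).symm

lemma eventually_sp {tinf : T} (ht : Tendsto t atTop (𝓝 tinf)) {U : Set (Att t e)}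
    (hU : U ∈ 𝓝 (bs t e tinf)) : ∀ᶠ n in atTop, ∀ z : E n, sp t e n z ∈ U := by
  classical
  by_contra hcon
  rw [not_eventually] at hcon
  set z : ∀ n, E n := fun n => if h : ∃ w : E n, sp t e n w ∉ U then h.choose else e n with hz
  have h1 := (tendsto_sp t e ht z).eventually hU
  obtain ⟨n, hn1, hn2⟩ := (hcon.and_eventually h1).exists
  push Not at hn1
  have : sp t e n (z n) ∉ U := by
    rw [hz]
    simp only
    rw [dif_pos hn1]
    exact hn1.choose_spec
  exact this hn2

lemma locallyConnected_Att [CompactSpace T] [T2Space T] [∀ n, CompactSpace (E n)]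
    [∀ n, T2Space (E n)] [LocallyConnectedSpace T] [∀ n, LocallyConnectedSpace (E n)]
    [∀ n, ConnectedSpace (E n)]
    {tinf : T} (ht : Tendsto t atTop (𝓝 tinf)) : LocallyConnectedSpace (Att t e) := by
  have : CompactSpace (Att t e) := isCompact_iff_compactSpace.mp (isClosed_Att t e).isCompact
  -- the asymmetric statement
  have key : ∀ U V : Set (Att t e), IsOpen U → IsOpen V → U ∪ V = univ → bs t e tinf ∈ U →
      ∃ S : Set (Set (Att t e)), S.Finite ∧ ⋃₀ S = univ ∧
        ∀ C ∈ S, IsPreconnected C ∧ (C ⊆ U ∨ C ⊆ V) := by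
    intro U V hU hV hUV hbU
    obtain ⟨ST, hSTf, hSTu, hST⟩ := covers_of_locallyConnected _ _ (hU.preimage (continuous_bs t e))
      (hV.preimage (continuous_bs t e)) (by rw [← preimage_union, hUV, preimage_univ])
    have hE : ∀ n, ∃ S : Set (Set (E n)), S.Finite ∧ ⋃₀ S = univ ∧
        ∀ C ∈ S, IsPreconnected C ∧ (C ⊆ sp t e n ⁻¹' U ∨ C ⊆ sp t e n ⁻¹' V) := fun n =>
      covers_of_locallyConnected _ _ (hU.preimage (continuous_sp t e n))
        (hV.preimage (continuous_sp t e n)) (by rw [← preimage_union, hUV, preimage_univ])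
    choose SE hSEf hSEu hSE using hE
    -- the neighbourhood of the limit point
    have hbU' : tinf ∈ bs t e ⁻¹' U := hbU
    set Cinf := connectedComponentIn (bs t e ⁻¹' U) tinf with hCinf
    have hCo : IsOpen Cinf := (hU.preimage (continuous_bs t e)).connectedComponentIn
    have hCm : tinf ∈ Cinf := mem_connectedComponentIn hbU'
    have hCs : Cinf ⊆ bs t e ⁻¹' U := connectedComponentIn_subset _ _
    obtain ⟨N, hN⟩ := eventually_atTop.mp ((eventually_sp t e ht (hU.mem_nhds hbU)).and
      (ht.eventually (hCo.mem_nhds hCm)))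
    set C0 : Set (Att t e) := bs t e '' Cinf ∪ ⋃ n ∈ {n | N ≤ n}, range (sp t e n) with hC0
    have hC0p : IsPreconnected C0 := by
      apply isPreconnected_of_forall (bs t e tinf)
      have hb : IsPreconnected (bs t e '' Cinf) :=
        isPreconnected_connectedComponentIn.image _ (continuous_bs t e).continuousOn
      rintro q (hq | hq)
      · exact ⟨_, subset_union_left, mem_image_of_mem _ hCm, hq, hb⟩
      · simp only [mem_iUnion, mem_setOf_eq, exists_prop] at hq
        obtain ⟨n, hn, hq⟩ := hq
        refine ⟨bs t e '' Cinf ∪ range (sp t e n), ?_, Or.inl (mem_image_of_mem _ hCm),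
          Or.inr hq, ?_⟩
        · apply union_subset_union_right
          exact subset_biUnion_of_mem (u := fun n => range (sp t e n)) hn
        · refine hb.union (bs t e (t n)) (mem_image_of_mem _ (hN n hn).2) ⟨e n, sp_base t e n⟩ ?_
          exact isPreconnected_range (continuous_sp t e n)
    have hC0U : C0 ⊆ U := by
      rintro q (hq | hq)
      · obtain ⟨x, hx, rfl⟩ := hq
        exact hCs hx
      · simp only [mem_iUnion, mem_setOf_eq, exists_prop] at hq
        obtain ⟨n, hn, z, rfl⟩ := hq
        exact (hN n hn).1 z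
    refine ⟨{C0} ∪ (image (bs t e) '' ST ∪ ⋃ n ∈ {n | n < N}, image (sp t e n) '' SE n), ?_, ?_, ?_⟩
    · refine (finite_singleton _).union ((hSTf.image _).union ?_)
      exact (finite_lt_nat N).biUnion (fun n _ => (hSEf n).image _)
    · apply eq_univ_of_forall
      intro q
      rcases cases_att t e q with ⟨x, rfl⟩ | ⟨n, z, -, rfl⟩
      · have hx : x ∈ ⋃₀ ST := by rw [hSTu]; trivial
        obtain ⟨C, hC, hxC⟩ := hx
        exact ⟨bs t e '' C, Or.inr (Or.inl (mem_image_of_mem _ hC)), mem_image_of_mem _ hxC⟩
      · by_cases hn : n < N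
        · have hz : z ∈ ⋃₀ SE n := by rw [hSEu]; trivial
          obtain ⟨C, hC, hzC⟩ := hz
          refine ⟨sp t e n '' C, Or.inr (Or.inr ?_), mem_image_of_mem _ hzC⟩
          simp only [mem_iUnion, mem_setOf_eq, exists_prop]
          exact ⟨n, hn, mem_image_of_mem _ hC⟩
        · refine ⟨C0, Or.inl rfl, Or.inr ?_⟩
          simp only [mem_iUnion, mem_setOf_eq, exists_prop]
          exact ⟨n, not_lt.mp hn, mem_range_self _⟩
    · rintro C (hC | hC | hC)
      · rw [mem_singleton_iff.mp hC]
        exact ⟨hC0p, Or.inl hC0U⟩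
      · obtain ⟨C', hC', rfl⟩ := hC
        refine ⟨(hST C' hC').1.image _ (continuous_bs t e).continuousOn, ?_⟩
        rcases (hST C' hC').2 with h | h
        · exact Or.inl (image_subset_iff.mpr h)
        · exact Or.inr (image_subset_iff.mpr h)
      · simp only [mem_iUnion, mem_setOf_eq, exists_prop] at hC
        obtain ⟨n, hn, C', hC', rfl⟩ := hC
        refine ⟨(hSE n C' hC').1.image _ (continuous_sp t e n).continuousOn, ?_⟩
        rcases (hSE n C' hC').2 with h | h
        · exact Or.inl (image_subset_iff.mpr h)
        · exact Or.inr (image_subset_iff.mpr h)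
  apply locallyConnected_of_covers
  intro U V hU hV hUV
  have hb : bs t e tinf ∈ U ∪ V := by rw [hUV]; trivial
  rcases hb with hb | hb
  · exact key U V hU hV hUV hb
  · obtain ⟨S, h1, h2, h3⟩ := key V U hV hU (by rw [union_comm, hUV]) hb
    exact ⟨S, h1, h2, fun C hC => ⟨(h3 C hC).1, (h3 C hC).2.symm⟩⟩

lemma noCircle_Att [T2Space T] [∀ n, T2Space (E n)]
    (hT : ¬ ∃ γ : Circle → T, Continuous γ ∧ Function.Injective γ)
    (hE : ∀ n, ¬ ∃ γ : Circle → E n, Continuous γ ∧ Function.Injective γ) :
    ¬ ∃ γ : Circle → Att t e, Continuous γ ∧ Function.Injective γ := by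
  rintro ⟨γ, hγ, hinj⟩
  have hc2 : ∀ n, Continuous fun q : Att t e => q.1.2 n := fun n => by fun_prop
  have hstep : ∀ n, ∀ s, (γ s).1.2 n = e n := by
    intro n
    set A : Set (Att t e) := {q | q.1.2 n ≠ e n} with hA
    set B : Set (Att t e) := {q | ¬ (q.1.1 = t n ∧ ∀ m, m ≠ n → q.1.2 m = e m)} with hB
    have hAo : IsOpen A := isOpen_ne_fun (hc2 n) continuous_const
    have hBo : IsOpen B := by
      rw [hB, ← compl_setOf, isOpen_compl_iff, setOf_and]
      apply IsClosed.inter
      · exact isClosed_eq (by fun_prop) continuous_const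
      · simp only [setOf_forall]
        apply isClosed_iInter; intro m
        apply isClosed_iInter; intro _
        exact isClosed_eq (hc2 m) continuous_const
    have hAB : Disjoint A B := by
      rw [disjoint_left]
      intro q hq hq2
      apply hq2
      have h1 := eq_sp_of_ne t e q hq
      constructor
      · exact (q.2.1 n).resolve_left hq
      · intro m hm
        exact (q.2.2 m n hm).resolve_right hq
    have hcov : ∀ s, γ s ≠ bs t e (t n) → γ s ∈ A ∪ B := by
      intro s hs
      by_cases h : γ s ∈ A
      · exact Or.inl h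
      · right
        rintro ⟨h1, h2⟩
        apply hs
        apply Subtype.ext
        apply Prod.ext
        · exact h1
        · ext m
          by_cases hm : m = n
          · subst hm
            exact not_not.mp h
          · exact h2 m hm
    rcases circle_side hγ hinj (bs t e (t n)) A B hAo hBo hAB hcov with h | h
    · exfalso
      apply hE n
      refine ⟨fun s => (γ s).1.2 n, (hc2 n).comp hγ, ?_⟩
      have hall : ∀ s, γ s = sp t e n ((γ s).1.2 n) := by
        intro s
        by_cases hs : γ s = bs t e (t n)
        · rw [hs]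
          exact (sp_base t e n).symm
        · exact eq_sp_of_ne t e _ (h s hs)
      intro s s' hss'
      apply hinj
      rw [hall s, hall s']
      exact congrArg _ hss'
    · intro s
      by_cases hs : γ s = bs t e (t n)
      · rw [hs]; rfl
      · by_contra hne
        exact (disjoint_left.mp hAB) (show γ s ∈ A from hne) (h s hs)
  apply hT
  refine ⟨fun s => (γ s).1.1, by fun_prop, ?_⟩
  intro s s' hss'
  apply hinj
  rw [eq_bs_of_forall t e (γ s) (fun n => hstep n s), eq_bs_of_forall t e (γ s') (fun n => hstep n s')]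
  exact congrArg _ hss'

end top

theorem isDendrite_Att [TopologicalSpace T] [∀ n, TopologicalSpace (E n)] (hT : IsDendrite T)
    (hE : ∀ n, IsDendrite (E n)) {tinf : T} (ht : Tendsto t atTop (𝓝 tinf)) :
    IsDendrite (Att t e) := by
  have i1 : CompactSpace T := hT.continuum.compact
  have i2 : ConnectedSpace T := hT.continuum.connected
  have i3 : TopologicalSpace.MetrizableSpace T := hT.continuum.metrizable
  have i4 : LocallyConnectedSpace T := hT.locallyConnected
  have j1 : ∀ n, CompactSpace (E n) := fun n => (hE n).continuum.compact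
  have j2 : ∀ n, ConnectedSpace (E n) := fun n => (hE n).continuum.connected
  have j3 : ∀ n, TopologicalSpace.MetrizableSpace (E n) := fun n => (hE n).continuum.metrizable
  have j4 : ∀ n, LocallyConnectedSpace (E n) := fun n => (hE n).locallyConnected
  have k1 : SecondCountableTopology T := by
    letI := TopologicalSpace.metrizableSpaceMetric T
    infer_instance
  have k2 : ∀ n, SecondCountableTopology (E n) := fun n => by
    letI := TopologicalSpace.metrizableSpaceMetric (E n)
    infer_instance
  refine ⟨⟨isCompact_iff_compactSpace.mp (isClosed_Att t e).isCompact, connected_Att t e, ?_⟩,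
    locallyConnected_Att t e ht, noCircle_Att t e hT.noCircle (fun n => (hE n).noCircle)⟩
  have : TopologicalSpace.MetrizableSpace (T × (∀ n, E n)) :=
    TopologicalSpace.metrizableSpace_of_t3_secondCountable _
  infer_instance

end Pool.Agent.Helper88.Dn
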