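import Pool.Agent.Helper88.DnPick

set_option autoImplicit false

open Set Filter Topology

namespace Pool.Agent.Helper88.Dn

universe u

/-! ### Retracts of dendrites -/

theorem isDendrite_retract {D : Type u} [TopologicalSpace D] (hD : IsDendrite D) (r : D → D)
    (hr : Continuous r) (A : Set D) (h1 : ∀ z, r z ∈ A) (h2 : ∀ z ∈ A, r z = z) :
    IsDendrite A := by
  have i1 : CompactSpace D := hD.continuum.compact
  have i2 : ConnectedSpace D := hD.continuum.connected
  have i3 : TopologicalSpace.MetrizableSpace D := hD.continuum.metrizable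
  have i4 : LocallyConnectedSpace D := hD.locallyConnected
  have hA : A = {z | r z = z} := by
    ext z
    exact ⟨fun h => h2 z h, fun h => by rw [← show r z = z from h]; exact h1 z⟩
  have hAc : IsClosed A := by rw [hA]; exact isClosed_eq hr continuous_id
  set q : D → A := fun z => ⟨r z, h1 z⟩ with hq
  have hqc : Continuous q := Continuous.subtype_mk hr _
  have hqs : Function.Surjective q := fun z => ⟨z.1, Subtype.ext (h2 z.1 z.2)⟩
  have c1 : CompactSpace A := isCompact_iff_compactSpace.mp hAc.isCompact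
  have c2 : ConnectedSpace A := hqs.connectedSpace hqc
  have hquot : IsQuotientMap q := hqc.isClosedMap.isQuotientMap hqc hqs
  refine ⟨⟨c1, c2, inferInstance⟩, hquot.isCoinducing.locallyConnectedSpace, ?_⟩
  rintro ⟨γ, hγ, hinj⟩
  exact hD.noCircle ⟨fun s => (γ s : D), continuous_subtype_val.comp hγ,
    Subtype.val_injective.comp hinj⟩

section retr
variable {D : Type u} [TopologicalSpace D] {x : D} {C : Set D}

open Classical in
/-- retraction onto `C ∪ {x}` -/
noncomputable def rR (x : D) (C : Set D) (z : D) : D := if z ∈ C then z else x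

open Classical in
/-- retraction onto the complement of `C` -/
noncomputable def rL (x : D) (C : Set D) (z : D) : D := if z ∈ C then x else z

lemma continuous_rR (hC : IsOpen C) (hCx : IsClosed (insert x C)) : Continuous (rR x C) := by
  have h1 : ContinuousOn (rR x C) (insert x C) := by
    apply continuousOn_id.congr
    rintro z (rfl | hz)
    · unfold rR
      split_ifs <;> rfl
    · unfold rR
      rw [if_pos hz]; rfl
  have h2 : ContinuousOn (rR x C) Cᶜ := by
    apply (continuousOn_const (c := x)).congr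
    intro z hz
    unfold rR
    rw [if_neg hz]
  have h3 := h1.union_of_isClosed h2 hCx hC.isClosed_compl
  have h4 : insert x C ∪ Cᶜ = univ := by
    apply eq_univ_of_forall
    intro z
    by_cases hz : z ∈ C
    · exact Or.inl (mem_insert_of_mem _ hz)
    · exact Or.inr hz
  rw [h4] at h3
  exact continuousOn_univ.mp h3

lemma continuous_rL (hC : IsOpen C) (hCx : IsClosed (insert x C)) (hx : x ∉ C) :
    Continuous (rL x C) := by
  have h1 : ContinuousOn (rL x C) (insert x C) := by
    apply (continuousOn_const (c := x)).congr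
    rintro z (rfl | hz)
    · unfold rL
      rw [if_neg hx]
    · unfold rL
      rw [if_pos hz]
  have h2 : ContinuousOn (rL x C) Cᶜ := by
    apply continuousOn_id.congr
    intro z hz
    unfold rL
    rw [if_neg hz]; rfl
  have h3 := h1.union_of_isClosed h2 hCx hC.isClosed_compl
  have h4 : insert x C ∪ Cᶜ = univ := by
    apply eq_univ_of_forall
    intro z
    by_cases hz : z ∈ C
    · exact Or.inl (mem_insert_of_mem _ hz)
    · exact Or.inr hz
  rw [h4] at h3
  exact continuousOn_univ.mp h3

end retr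

/-! ### Components of complements of points -/

section comp
variable {D : Type u} [TopologicalSpace D] [T2Space D] [LocallyConnectedSpace D]

/-- component of `a'` in the complement of `x` -/
def CC (a' x : D) : Set D := connectedComponentIn {x}ᶜ a'

lemma isOpen_CC (a' x : D) : IsOpen (CC a' x) := isOpen_compl_singleton.connectedComponentIn

omit [T2Space D] [LocallyConnectedSpace D] in
lemma notMem_CC (a' x : D) : x ∉ CC a' x := fun h => connectedComponentIn_subset _ _ h rfl

lemma isClosed_insert_CC (a' x : D) : IsClosed (insert x (CC a' x)) := by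
  rw [← isOpen_compl_iff, isOpen_iff_mem_nhds]
  intro y hy
  have hyx : y ≠ x := fun h => hy (h ▸ mem_insert _ _)
  have hyC : y ∉ CC a' x := fun h => hy (mem_insert_of_mem _ h)
  have ho : IsOpen (connectedComponentIn {x}ᶜ y) := isOpen_compl_singleton.connectedComponentIn
  have hmem : y ∈ connectedComponentIn {x}ᶜ y := mem_connectedComponentIn hyx
  refine mem_of_superset (ho.mem_nhds hmem) ?_
  rintro z hz (rfl | hzC)
  · exact connectedComponentIn_subset _ _ hz rfl
  · apply hyC
    have h1 : connectedComponentIn {x}ᶜ y = connectedComponentIn {x}ᶜ z := connectedComponentIn_eq hz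
    have h2 : connectedComponentIn {x}ᶜ a' = connectedComponentIn {x}ᶜ z :=
      connectedComponentIn_eq hzC
    show y ∈ connectedComponentIn {x}ᶜ a'
    rw [h2, ← h1]
    exact hmem

omit [T2Space D] [LocallyConnectedSpace D] in
lemma subset_CC {a' x : D} {K : Set D} (hK : IsPreconnected K) (ha : a' ∈ K) (hx : x ∉ K) :
    K ⊆ CC a' x :=
  hK.subset_connectedComponentIn ha (fun z hz hzx => hx (hzx ▸ hz))

end comp

/-- A continuous curve defined on the line that is injective on `[0,1]`, joins `a` to `a'` and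
whose inner points separate `a` from `a'`. -/
structure SepArc {D : Type u} [TopologicalSpace D] (g : ℝ → D) (a a' : D) : Prop where
  cont : Continuous g
  inj : InjOn g (Icc 0 1)
  zero : g 0 = a
  one : g 1 = a'
  sep : ∀ t ∈ Ioo (0 : ℝ) 1, a' ∉ connectedComponentIn {g t}ᶜ a

section arc
variable {D : Type u} [TopologicalSpace D] {g : ℝ → D} {a a' : D}

lemma SepArc.mem_CC (h : SepArc g a a') {s t : ℝ} (hs : s ∈ Ioo (0:ℝ) 1) (ht : t ∈ Icc (0:ℝ) 1)
    (hst : s < t) : g t ∈ CC a' (g s) := by
  have hK : IsPreconnected (g '' Icc t 1) := isPreconnected_Icc.image _ h.cont.continuousOn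
  refine subset_CC hK ⟨1, ⟨ht.2, le_rfl⟩, h.one⟩ ?_ ⟨t, ⟨le_rfl, ht.2⟩, rfl⟩
  rintro ⟨r, hr, hrs⟩
  have := h.inj ⟨ht.1.trans hr.1, hr.2⟩ ⟨hs.1.le, hs.2.le⟩ hrs
  linarith [hr.1]

lemma SepArc.notMem_CC' (h : SepArc g a a') {s t : ℝ} (hs : s ∈ Icc (0:ℝ) 1)
    (ht : t ∈ Ioo (0:ℝ) 1) (hst : s < t) : g s ∉ CC a' (g t) := by
  intro hmem
  have hK : IsPreconnected (g '' Icc 0 s) := isPreconnected_Icc.image _ h.cont.continuousOn
  have hsub : g '' Icc 0 s ⊆ CC a (g t) := by
    refine subset_CC hK ⟨0, ⟨le_rfl, hs.1⟩, h.zero⟩ ?_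
    rintro ⟨r, hr, hrs⟩
    have := h.inj ⟨hr.1, hr.2.trans hs.2⟩ ⟨ht.1.le, ht.2.le⟩ hrs
    linarith [hr.2]
  have h1 : g s ∈ CC a (g t) := hsub ⟨s, ⟨hs.1, le_rfl⟩, rfl⟩
  have h2 : connectedComponentIn {g t}ᶜ a = connectedComponentIn {g t}ᶜ (g s) :=
    connectedComponentIn_eq h1
  have h3 : connectedComponentIn {g t}ᶜ a' = connectedComponentIn {g t}ᶜ (g s) :=
    connectedComponentIn_eq hmem
  apply h.sep t ht
  rw [h2, ← h3]
  apply mem_connectedComponentIn
  intro h4
  have h5 : g 1 = g t := h.one.trans h4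
  have := h.inj ⟨zero_le_one, le_rfl⟩ ⟨ht.1.le, ht.2.le⟩ h5
  linarith [ht.2]

lemma SepArc.CC_subset (h : SepArc g a a') {s t : ℝ} (hs : s ∈ Icc (0:ℝ) 1)
    (ht : t ∈ Ioo (0:ℝ) 1) (hst : s < t) : CC a' (g t) ⊆ CC a' (g s) := by
  refine subset_CC isPreconnected_connectedComponentIn ?_ (h.notMem_CC' hs ht hst)
  apply mem_connectedComponentIn
  intro h4
  have h5 : g 1 = g t := h.one.trans h4
  have := h.inj ⟨zero_le_one, le_rfl⟩ ⟨ht.1.le, ht.2.le⟩ h5
  linarith [ht.2]

lemma SepArc.a'_mem (h : SepArc g a a') {t : ℝ} (ht : t ∈ Ioo (0:ℝ) 1) : a' ∈ CC a' (g t) := by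
  apply mem_connectedComponentIn
  intro h4
  have h5 : g 1 = g t := h.one.trans h4
  have := h.inj ⟨zero_le_one, le_rfl⟩ ⟨ht.1.le, ht.2.le⟩ h5
  linarith [ht.2]

lemma SepArc.a_notMem (h : SepArc g a a') {t : ℝ} (ht : t ∈ Ioo (0:ℝ) 1) : a ∉ CC a' (g t) := by
  have := h.notMem_CC' (s := 0) ⟨le_rfl, zero_le_one⟩ ht ht.1
  rwa [h.zero] at this

end arc

end Pool.Agent.Helper88.Dn
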