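import Mathlib

/-!
Definitions for the statement on k-to-1 images of dendrites.
-/

set_option autoImplicit false

open Set

namespace Pool.Agent.Helper88.Dn

/-- A continuum is a nonempty compact connected metrizable space. -/
structure IsContinuum (X : Type*) [TopologicalSpace X] : Prop where
  compact : CompactSpace X
  connected : ConnectedSpace X
  metrizable : TopologicalSpace.MetrizableSpace X

/-- A dendrite is a locally connected continuum that contains no simple closed curve. -/
structure IsDendrite (X : Type*) [TopologicalSpace X] : Prop where
  continuum : IsContinuum X
  locallyConnected : LocallyConnectedSpace X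
  noCircle : ¬ ∃ γ : Circle → X, Continuous γ ∧ Function.Injective γ

/-- `Y` is a `k`-to-1 image of a dendrite: there are a dendrite `D` and a continuous map `D → Y`
all of whose fibres have exactly `k` points. -/
def IsKToOneImage.{u} (k : ℕ) (Y : Type u) [TopologicalSpace Y] : Prop :=
  ∃ (D : Type u) (_ : TopologicalSpace D), IsDendrite D ∧
    ∃ f : D → Y, Continuous f ∧ ∀ y : Y, (f ⁻¹' {y}).encard = k

end Pool.Agent.Helper88.Dn
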