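import Pool.Agent.Helper88.DnDefs

set_option autoImplicit false

open Set Filter Topology

namespace Pool.Agent.Helper88.Dn

/-! ### Local connectedness and finite covers by connected sets -/

theorem locallyConnected_of_covers {X : Type*} [TopologicalSpace X] [RegularSpace X]
    (h : ∀ U V : Set X, IsOpen U → IsOpen V → U ∪ V = univ → ∃ S : Set (Set X), S.Finite ∧
      ⋃₀ S = univ ∧ ∀ C ∈ S, IsPreconnected C ∧ (C ⊆ U ∨ C ⊆ V)) : LocallyConnectedSpace X := by
  rw [locallyConnectedSpace_iff_connected_subsets]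
  intro x U hU
  obtain ⟨V, hV, hVc, hVU⟩ := exists_mem_nhds_isClosed_subset (interior_mem_nhds.mpr hU)
  obtain ⟨S, hSf, hSu, hS⟩ := h (interior U) Vᶜ isOpen_interior hVc.isOpen_compl (by
    rw [← compl_subset_iff_union, compl_subset_comm, compl_compl]
    exact hVU)
  refine ⟨⋃ C ∈ {C ∈ S | x ∈ closure C}, insert x C, ?_, ?_, ?_⟩
  · -- neighbourhood
    have hcl : IsClosed (⋃ C ∈ {C ∈ S | x ∉ closure C}, closure C) :=
      (hSf.subset (sep_subset _ _)).isClosed_biUnion (fun C _ => isClosed_closure)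
    have hx : x ∈ (⋃ C ∈ {C ∈ S | x ∉ closure C}, closure C)ᶜ := by
      simp only [mem_compl_iff, mem_iUnion, mem_setOf_eq, exists_prop, not_exists, not_and]
      rintro C ⟨-, hC⟩
      exact hC
    refine mem_of_superset (hcl.isOpen_compl.mem_nhds hx) ?_
    intro y hy
    have hy2 : y ∈ ⋃₀ S := by rw [hSu]; trivial
    obtain ⟨C, hCS, hyC⟩ := hy2
    simp only [mem_compl_iff, mem_iUnion, mem_setOf_eq, exists_prop, not_exists, not_and] at hy
    by_cases hxC : x ∈ closure C
    · simp only [mem_iUnion, mem_setOf_eq, exists_prop]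
      exact ⟨C, ⟨hCS, hxC⟩, mem_insert_of_mem _ hyC⟩
    · exact absurd (subset_closure hyC) (hy C ⟨hCS, hxC⟩)
  · apply isPreconnected_of_forall x
    intro y hy
    simp only [mem_iUnion, mem_setOf_eq, exists_prop] at hy
    obtain ⟨C, ⟨hCS, hxC⟩, hyC⟩ := hy
    refine ⟨insert x C, ?_, mem_insert _ _, hyC, ?_⟩
    · intro z hz
      simp only [mem_iUnion, mem_setOf_eq, exists_prop]
      exact ⟨C, ⟨hCS, hxC⟩, hz⟩
    · exact (hS C hCS).1.subset_closure (subset_insert _ _)
        (insert_subset hxC subset_closure)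
  · intro y hy
    simp only [mem_iUnion, mem_setOf_eq, exists_prop] at hy
    obtain ⟨C, ⟨hCS, hxC⟩, hyC⟩ := hy
    rcases hyC with rfl | hyC
    · exact mem_of_mem_nhds hU
    · rcases (hS C hCS).2 with h1 | h1
      · exact interior_subset (h1 hyC)
      · exfalso
        obtain ⟨z, hz1, hz2⟩ := mem_closure_iff_nhds.mp hxC V hV
        exact h1 hz2 hz1

theorem covers_of_locallyConnected {X : Type*} [TopologicalSpace X] [CompactSpace X]
    [LocallyConnectedSpace X] (U V : Set X) (hU : IsOpen U) (hV : IsOpen V) (hUV : U ∪ V = univ) :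
    ∃ S : Set (Set X), S.Finite ∧ ⋃₀ S = univ ∧ ∀ C ∈ S, IsPreconnected C ∧ (C ⊆ U ∨ C ⊆ V) := by
  have h1 : ∀ x : X, ∃ C : Set X, IsOpen C ∧ x ∈ C ∧ IsPreconnected C ∧ (C ⊆ U ∨ C ⊆ V) := by
    intro x
    have hx : x ∈ U ∪ V := by rw [hUV]; trivial
    rcases hx with hx | hx
    · exact ⟨connectedComponentIn U x, hU.connectedComponentIn, mem_connectedComponentIn hx,
        isPreconnected_connectedComponentIn, Or.inl (connectedComponentIn_subset _ _)⟩
    · exact ⟨connectedComponentIn V x, hV.connectedComponentIn, mem_connectedComponentIn hx,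
        isPreconnected_connectedComponentIn, Or.inr (connectedComponentIn_subset _ _)⟩
  choose C hCo hxC hCp hCs using h1
  obtain ⟨t, ht⟩ := isCompact_univ.elim_finite_subcover C hCo
    (fun x _ => mem_iUnion.mpr ⟨x, hxC x⟩)
  refine ⟨C '' t, t.finite_toSet.image C, ?_, ?_⟩
  · apply eq_univ_of_univ_subset
    intro x hx
    obtain ⟨y, hy, hxy⟩ := mem_iUnion₂.mp (ht hx)
    exact ⟨C y, mem_image_of_mem _ hy, hxy⟩
  · rintro _ ⟨x, -, rfl⟩
    exact ⟨hCp x, hCs x⟩

/-! ### The circle minus a point -/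

theorem isPreconnected_compl_circle (z : Circle) : IsPreconnected ({z}ᶜ : Set Circle) := by
  obtain ⟨θ, rfl⟩ := Circle.exp_surjective z
  have h : ({Circle.exp θ}ᶜ : Set Circle) = Circle.exp '' Ioo θ (θ + 2 * Real.pi) := by
    ext w
    constructor
    · intro hw
      obtain ⟨φ, rfl⟩ := Circle.exp_surjective w
      have hp : 0 < 2 * Real.pi := Real.two_pi_pos
      have hmem := toIcoMod_mem_Ico hp θ φ
      have hexp : Circle.exp (toIcoMod hp θ φ) = Circle.exp φ := by
        rw [toIcoMod, Circle.exp_eq_exp]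
        exact ⟨-(toIcoDiv hp θ φ), by rw [zsmul_eq_mul]; push_cast; ring⟩
      refine ⟨toIcoMod hp θ φ, ⟨lt_of_le_of_ne hmem.1 ?_, hmem.2⟩, hexp⟩
      intro heq
      apply hw
      rw [mem_singleton_iff, ← hexp, ← heq]
    · rintro ⟨φ, ⟨h1, h2⟩, rfl⟩ heq
      rw [mem_singleton_iff, Circle.exp_eq_exp] at heq
      obtain ⟨m, hm⟩ := heq
      have hp : 0 < 2 * Real.pi := Real.two_pi_pos
      have h3 : 0 < (m : ℝ) * (2 * Real.pi) := by linarith
      have h4 : (m : ℝ) * (2 * Real.pi) < 1 * (2 * Real.pi) := by linarith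
      have h5 : (0 : ℝ) < m := pos_of_mul_pos_left h3 hp.le
      have h6 : (m : ℝ) < 1 := lt_of_mul_lt_mul_right h4 hp.le
      have h7 : (0 : ℤ) < m := by exact_mod_cast h5
      have h8 : m < (1 : ℤ) := by exact_mod_cast h6
      omega
  rw [h]
  exact isPreconnected_Ioo.image _ Circle.exp.continuous.continuousOn

/-- A circle in a union of two closed sets meeting in one point lies in one of them. -/
theorem circle_side {X : Type*} [TopologicalSpace X] {γ : Circle → X} (hγ : Continuous γ)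
    (hinj : Function.Injective γ) (q : X) (A B : Set X) (hA : IsOpen A) (hB : IsOpen B)
    (hAB : Disjoint A B) (hcov : ∀ s, γ s ≠ q → γ s ∈ A ∪ B) :
    (∀ s, γ s ≠ q → γ s ∈ A) ∨ (∀ s, γ s ≠ q → γ s ∈ B) := by
  have hpre : IsPreconnected {s : Circle | γ s ≠ q} := by
    by_cases hq : ∃ s, γ s = q
    · obtain ⟨s0, rfl⟩ := hq
      have : {s : Circle | γ s ≠ γ s0} = {s0}ᶜ := by
        ext s
        simp [hinj.eq_iff]
      rw [this]
      exact isPreconnected_compl_circle s0
    · have : {s : Circle | γ s ≠ q} = univ := by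
        ext s
        simp only [mem_setOf_eq, mem_univ, iff_true]
        exact fun h => hq ⟨s, h⟩
      rw [this]
      exact isPreconnected_univ
  have h1 := hpre.subset_or_subset (hA.preimage hγ) (hB.preimage hγ) (hAB.preimage γ)
    (fun s hs => hcov s hs)
  exact h1

end Pool.Agent.Helper88.Dn
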