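import Pool.Agent.Helper88.DnStep

set_option autoImplicit false

open Set Filter Topology

namespace Pool.Agent.Helper88.Dn

universe u

lemma encard_fibre {D D' Y : Type*} (f : D → Y) (β : D' → D) (hβ : Function.Injective β) (y : Y) :
    ((fun q => f (β q)) ⁻¹' {y}).encard = (f ⁻¹' {y} ∩ range β).encard := by
  rw [← hβ.encard_image]
  congr 1
  ext z
  constructor
  · rintro ⟨q, hq, rfl⟩
    exact ⟨hq, mem_range_self q⟩
  · rintro ⟨hz, ⟨q, rfl⟩⟩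
    exact ⟨q, hz, rfl⟩

lemma descend (hArc : ∀ (D : Type u) [TopologicalSpace D], IsDendrite D → ArcProp D)
    {Y : Type*} [MetricSpace Y] (p : Y) (k : ℕ) (hk : 2 ≤ k) (m : ℕ) :
    (∃ (D : Type u) (_ : TopologicalSpace D), IsDendrite D ∧ ∃ f : D → Y, Continuous f ∧
      (∀ y, y ≠ p → (f ⁻¹' {y}).encard = k) ∧ (f ⁻¹' {p}).encard = (k + m : ℕ)) →
    ∃ (D : Type u) (_ : TopologicalSpace D), IsDendrite D ∧ ∃ f : D → Y, Continuous f ∧
      ∀ y, (f ⁻¹' {y}).encard = k := by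
  induction m with
  | zero =>
    rintro ⟨D, top, hD, f, hf, h1, h2⟩
    refine ⟨D, top, hD, f, hf, fun y => ?_⟩
    by_cases hy : y = p
    · rw [hy, h2]; simp
    · exact h1 y hy
  | succ m ih =>
    rintro ⟨D, top, hD, f, hf, h1, h2⟩
    apply ih
    have hge : ∀ y, (2 : ℕ∞) ≤ (f ⁻¹' {y}).encard := by
      intro y
      by_cases hy : y = p
      · rw [hy, h2]
        exact_mod_cast (by omega : 2 ≤ k + (m + 1))
      · rw [h1 y hy]
        exact_mod_cast hk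
    have hcomp : ∀ z, ∃ z', z' ≠ z ∧ f z' = f z := by
      intro z
      have h3 : (1 : ℕ∞) < (f ⁻¹' {f z}).encard := lt_of_lt_of_le (by norm_num) (hge (f z))
      rw [one_lt_encard_iff] at h3
      obtain ⟨a, b, ha, hb, hab⟩ := h3
      by_cases haz : a = z
      · exact ⟨b, fun hbz => hab (haz.trans hbz.symm), hb⟩
      · exact ⟨a, haz, ha⟩
    obtain ⟨a, a', ha, ha', haa⟩ : ∃ a a', a ∈ f ⁻¹' {p} ∧ a' ∈ f ⁻¹' {p} ∧ a ≠ a' := by
      have h3 : (1 : ℕ∞) < (f ⁻¹' {p}).encard := lt_of_lt_of_le (by norm_num) (hge p)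
      rwa [one_lt_encard_iff] at h3
    obtain ⟨e, he, D', top', hD', β, hβ, hr, hc⟩ := reduce hD (hArc D hD) f hf hcomp haa
      (ha.trans ha'.symm)
    have hep : f e = p := by
      rcases he with rfl | rfl
      · exact ha
      · exact ha'
    refine ⟨D', top', hD', fun q => f (β q), hc, fun y hy => ?_, ?_⟩
    · rw [encard_fibre f β hβ y, hr, ← h1 y hy]
      congr 1
      rw [inter_eq_left]
      intro z hz hze
      apply hy
      rw [← hep, ← (mem_singleton_iff.mp hze)]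
      exact hz.symm
    · rw [encard_fibre f β hβ p, hr]
      have h4 : f ⁻¹' {p} ∩ {e}ᶜ = f ⁻¹' {p} \ {e} := rfl
      rw [h4]
      have h5 := encard_sdiff_singleton_add_one (s := f ⁻¹' {p}) (a := e) hep
      rw [h2] at h5
      have h6 : ((k + (m + 1) : ℕ) : ℕ∞) = ((k + m : ℕ) : ℕ∞) + 1 := by push_cast; ring
      rw [h6] at h5
      exact ENat.add_left_injective_of_ne_top (by simp : (1 : ℕ∞) ≠ ⊤) h5

theorem main_of_arc (hArc : ∀ (D : Type u) [TopologicalSpace D], IsDendrite D → ArcProp D)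
    (k : ℕ) (hk : 2 ≤ k) {M : Type u} [MetricSpace M] (Y₁ Y₂ : Set M) (p : M)
    (hp : Y₁ ∩ Y₂ = {p}) (h₁ : IsKToOneImage k Y₁) (h₂ : IsKToOneImage k Y₂) :
    IsKToOneImage k (Y₁ ∪ Y₂ : Set M) := by
  obtain ⟨D₁, t₁, hD₁, f₁, hf₁, c₁⟩ := h₁
  obtain ⟨D₂, t₂, hD₂, f₂, hf₂, c₂⟩ := h₂
  have hpm : p ∈ Y₁ ∩ Y₂ := by rw [hp]; rfl
  have hk0 : (k : ℕ∞) ≠ 0 := by
    have : k ≠ 0 := by omega
    exact_mod_cast this
  -- maps to the union
  set i₁ : Y₁ → (Y₁ ∪ Y₂ : Set M) := inclusion subset_union_left with hi₁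
  set i₂ : Y₂ → (Y₁ ∪ Y₂ : Set M) := inclusion subset_union_right with hi₂
  have hi₁c : Continuous i₁ := continuous_inclusion _
  have hi₂c : Continuous i₂ := continuous_inclusion _
  obtain ⟨a, ha⟩ : (f₁ ⁻¹' {⟨p, hpm.1⟩}).Nonempty := by
    rw [← encard_ne_zero, c₁]; exact hk0
  obtain ⟨b, hb⟩ : (f₂ ⁻¹' {⟨p, hpm.2⟩}).Nonempty := by
    rw [← encard_ne_zero, c₂]; exact hk0
  have ha' : f₁ a = ⟨p, hpm.1⟩ := ha
  have hb' : f₂ b = ⟨p, hpm.2⟩ := hb
  have hab : i₁ (f₁ a) = i₂ (f₂ b) := by rw [ha', hb']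
  obtain ⟨D', top', hD', β, hβ, hr, hc⟩ := wedge hD₁ hD₂ a b (fun x => i₁ (f₁ x))
    (fun x => i₂ (f₂ x)) (hi₁c.comp hf₁) (hi₂c.comp hf₂) hab
  -- fibres of the wedge map
  set F : D₁ ⊕ D₂ → (Y₁ ∪ Y₂ : Set M) := Sum.elim (fun x => i₁ (f₁ x)) (fun x => i₂ (f₂ x)) with hF
  have hsplit : ∀ y : (Y₁ ∪ Y₂ : Set M), (F ⁻¹' {y}).encard =
      ((fun x => i₁ (f₁ x)) ⁻¹' {y}).encard + ((fun x => i₂ (f₂ x)) ⁻¹' {y}).encard := by
    intro y
    have h1 : F ⁻¹' {y} = Sum.inl '' ((fun x => i₁ (f₁ x)) ⁻¹' {y}) ∪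
        Sum.inr '' ((fun x => i₂ (f₂ x)) ⁻¹' {y}) := by
      ext z
      rcases z with z | z <;> simp [hF]
    have hdisj : Disjoint (Sum.inl '' ((fun x => i₁ (f₁ x)) ⁻¹' {y}) : Set (D₁ ⊕ D₂))
        (Sum.inr '' ((fun x => i₂ (f₂ x)) ⁻¹' {y})) := by
      rw [disjoint_left]
      rintro _ ⟨z, -, rfl⟩ ⟨w, -, hw⟩
      exact Sum.inr_ne_inl hw
    rw [h1, encard_union_eq hdisj, Sum.inl_injective.encard_image, Sum.inr_injective.encard_image]
  have hcount₁ : ∀ y : (Y₁ ∪ Y₂ : Set M), (y : M) ∈ Y₁ →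
      ((fun x => i₁ (f₁ x)) ⁻¹' {y}).encard = k := by
    intro y hy
    rw [← c₁ ⟨y, hy⟩]
    congr 1
    ext x
    simp only [mem_preimage, mem_singleton_iff, hi₁]
    constructor
    · intro h
      exact Subtype.ext (congrArg (fun z : (Y₁ ∪ Y₂ : Set M) => (z : M)) h)
    · intro h; rw [h]
  have hcount₂ : ∀ y : (Y₁ ∪ Y₂ : Set M), (y : M) ∈ Y₂ →
      ((fun x => i₂ (f₂ x)) ⁻¹' {y}).encard = k := by
    intro y hy
    rw [← c₂ ⟨y, hy⟩]
    congr 1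
    ext x
    simp only [mem_preimage, mem_singleton_iff, hi₂]
    constructor
    · intro h
      exact Subtype.ext (congrArg (fun z : (Y₁ ∪ Y₂ : Set M) => (z : M)) h)
    · intro h; rw [h]
  have hempty₁ : ∀ y : (Y₁ ∪ Y₂ : Set M), (y : M) ∉ Y₁ →
      ((fun x => i₁ (f₁ x)) ⁻¹' {y}).encard = 0 := by
    intro y hy
    rw [encard_eq_zero, eq_empty_iff_forall_notMem]
    intro x hx
    apply hy
    have : (i₁ (f₁ x) : M) = y := congrArg Subtype.val hx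
    rw [← this]
    exact (f₁ x).2
  have hempty₂ : ∀ y : (Y₁ ∪ Y₂ : Set M), (y : M) ∉ Y₂ →
      ((fun x => i₂ (f₂ x)) ⁻¹' {y}).encard = 0 := by
    intro y hy
    rw [encard_eq_zero, eq_empty_iff_forall_notMem]
    intro x hx
    apply hy
    have : (i₂ (f₂ x) : M) = y := congrArg Subtype.val hx
    rw [← this]
    exact (f₂ x).2
  set pY : (Y₁ ∪ Y₂ : Set M) := ⟨p, Or.inl hpm.1⟩ with hpY
  have hFb : F (Sum.inr b) = pY := by
    simp only [hF, Sum.elim_inr]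
    rw [hb']
  apply descend hArc pY k hk (k - 1)
  refine ⟨D', top', hD', fun q => F (β q), hc, fun y hy => ?_, ?_⟩
  · rw [encard_fibre F β hβ y, hr]
    have h1 : F ⁻¹' {y} ∩ {Sum.inr b}ᶜ = F ⁻¹' {y} := by
      rw [inter_eq_left]
      intro z hz hze
      apply hy
      rw [← hFb, ← (mem_singleton_iff.mp hze)]
      exact hz.symm
    rw [h1, hsplit]
    have hyp : (y : M) ≠ p := fun h => hy (Subtype.ext h)
    rcases y.2 with hy1 | hy2
    · have hn : (y : M) ∉ Y₂ := by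
        intro hy2
        have : (y : M) ∈ Y₁ ∩ Y₂ := ⟨hy1, hy2⟩
        rw [hp] at this
        exact hyp this
      rw [hcount₁ y hy1, hempty₂ y hn, add_zero]
    · have hn : (y : M) ∉ Y₁ := by
        intro hy1
        have : (y : M) ∈ Y₁ ∩ Y₂ := ⟨hy1, hy2⟩
        rw [hp] at this
        exact hyp this
      rw [hcount₂ y hy2, hempty₁ y hn, zero_add]
  · rw [encard_fibre F β hβ pY, hr]
    have h4 : F ⁻¹' {pY} ∩ {Sum.inr b}ᶜ = F ⁻¹' {pY} \ {Sum.inr b} := rfl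
    rw [h4]
    have h5 := encard_sdiff_singleton_add_one (s := F ⁻¹' {pY}) (a := Sum.inr b) hFb
    rw [hsplit, hcount₁ pY hpm.1, hcount₂ pY hpm.2] at h5
    have h6 : ((k : ℕ∞) + k) = ((k + (k - 1) : ℕ) : ℕ∞) + 1 := by
      have : k + k = k + (k - 1) + 1 := by omega
      exact_mod_cast this
    rw [h6] at h5
    exact ENat.add_left_injective_of_ne_top (by simp : (1 : ℕ∞) ≠ ⊤) h5

end Pool.Agent.Helper88.Dn
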