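import Pool.Agent.Helper88.DnAttach

set_option autoImplicit false

open Set Filter Topology

namespace Pool.Agent.Helper88.Dn

universe u

variable {T : Type u} {E : ℕ → Type u} (t : ℕ → T) (e : ∀ n, E n)

open Classical in
/-- The map on the space with attachments given by `i` on `T` and `j n` on `E n`. -/
noncomputable def pick {Z : Type*} (i : T → Z) (j : ∀ n, E n → Z) (q : Att t e) : Z :=
  if h : ∃ n, q.1.2 n ≠ e n then j h.choose (q.1.2 h.choose) else i q.1.1

section
variable {Z : Type*} (i : T → Z) (j : ∀ n, E n → Z)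

lemma pick_bs (x : T) : pick t e i j (bs t e x) = i x := by
  unfold pick
  rw [dif_neg]
  · rfl
  · rintro ⟨n, hn⟩
    exact hn rfl

lemma pick_sp {n : ℕ} {z : E n} (hz : z ≠ e n) : pick t e i j (sp t e n z) = j n z := by
  have h : ∃ m, (sp t e n z).1.2 m ≠ e m := ⟨n, by rw [sp_apply_self]; exact hz⟩
  unfold pick
  rw [dif_pos h]
  have hn : h.choose = n := by
    by_contra hne
    exact h.choose_spec (sp_apply_ne t e hne z)
  have : ∀ m, m = n → j m ((sp t e n z).1.2 m) = j n z := by
    rintro m rfl
    rw [sp_apply_self]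
  exact this _ hn

lemma pick_sp' {n : ℕ} (hb : j n (e n) = i (t n)) (z : E n) :
    pick t e i j (sp t e n z) = j n z := by
  by_cases hz : z = e n
  · rw [hz, sp_base, pick_bs, hb]
  · exact pick_sp t e i j hz

lemma comp_pick {W : Type*} (f : Z → W) (q : Att t e) :
    f (pick t e i j q) = pick t e (fun x => f (i x)) (fun n z => f (j n z)) q := by
  rcases cases_att t e q with ⟨x, rfl⟩ | ⟨n, z, hz, rfl⟩
  · rw [pick_bs, pick_bs]
  · rw [pick_sp t e _ _ hz, pick_sp t e _ _ hz]

lemma pick_injective (hi : Function.Injective i) (hj : ∀ n, InjOn (j n) {e n}ᶜ)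
    (hij : ∀ x n z, z ≠ e n → i x ≠ j n z)
    (hjj : ∀ m n z w, z ≠ e m → w ≠ e n → m ≠ n → j m z ≠ j n w) :
    Function.Injective (pick t e i j) := by
  intro q q' hqq
  rcases cases_att t e q with ⟨x, rfl⟩ | ⟨n, z, hz, rfl⟩ <;>
  rcases cases_att t e q' with ⟨x', rfl⟩ | ⟨n', z', hz', rfl⟩
  · rw [pick_bs, pick_bs] at hqq
    rw [hi hqq]
  · rw [pick_bs, pick_sp t e _ _ hz'] at hqq
    exact absurd hqq (hij x n' z' hz')
  · rw [pick_bs, pick_sp t e _ _ hz] at hqq
    exact absurd hqq.symm (hij x' n z hz)
  · rw [pick_sp t e _ _ hz, pick_sp t e _ _ hz'] at hqq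
    by_cases hn : n = n'
    · subst hn
      rw [hj n hz hz' hqq]
    · exact absurd hqq (hjj n n' z z' hz hz' hn)

lemma range_pick : range (pick t e i j) = range i ∪ ⋃ n, j n '' {e n}ᶜ := by
  ext y
  constructor
  · rintro ⟨q, rfl⟩
    rcases cases_att t e q with ⟨x, rfl⟩ | ⟨n, z, hz, rfl⟩
    · rw [pick_bs]; exact Or.inl (mem_range_self _)
    · rw [pick_sp t e _ _ hz]
      exact Or.inr (mem_iUnion.mpr ⟨n, z, hz, rfl⟩)
  · rintro (⟨x, rfl⟩ | hy)
    · exact ⟨bs t e x, pick_bs t e i j x⟩
    · obtain ⟨n, z, hz, rfl⟩ := mem_iUnion.mp hy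
      exact ⟨sp t e n z, pick_sp t e i j hz⟩

end

section cont
variable [TopologicalSpace T] [∀ n, TopologicalSpace (E n)] {Y : Type*} [PseudoMetricSpace Y]

open Classical in
/-- truncated maps -/
noncomputable def trunc (g : T → Y) (h : ∀ n, E n → Y) : ℕ → Att t e → Y
  | 0, q => g q.1.1
  | (N + 1), q => if q.1.2 N ≠ e N then h N (q.1.2 N) else trunc g h N q

variable (g : T → Y) (h : ∀ n, E n → Y)

omit [TopologicalSpace T] [(n : ℕ) → TopologicalSpace (E n)] [PseudoMetricSpace Y] in
lemma trunc_bs (N : ℕ) (x : T) : trunc t e g h N (bs t e x) = g x := by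
  induction N with
  | zero => rfl
  | succ N ih =>
    simp only [trunc]
    rw [if_neg]
    · exact ih
    · exact not_not.mpr rfl

omit [TopologicalSpace T] [(n : ℕ) → TopologicalSpace (E n)] [PseudoMetricSpace Y] in
lemma trunc_sp (N n : ℕ) {z : E n} (hz : z ≠ e n) :
    trunc t e g h N (sp t e n z) = if n < N then h n z else g (t n) := by
  induction N with
  | zero => rfl
  | succ N ih =>
    simp only [trunc]
    by_cases hn : N = n
    · subst hn
      rw [if_pos, if_pos (Nat.lt_succ_self N), sp_apply_self]
      rw [sp_apply_self]; exact hz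
    · rw [if_neg, ih]
      · have : n < N + 1 ↔ n < N := by omega
        simp only [this]
      · rw [not_not]; exact sp_apply_ne t e hn z

lemma continuous_trunc [T2Space T] [∀ n, T2Space (E n)] (hg : Continuous g)
    (hh : ∀ n, Continuous (h n)) (hb : ∀ n, h n (e n) = g (t n)) (N : ℕ) :
    Continuous (trunc t e g h N) := by
  induction N with
  | zero => exact hg.comp (continuous_fst.comp continuous_subtype_val)
  | succ N ih =>
    have hc2 : ∀ n, Continuous fun q : Att t e => q.1.2 n := fun n => by fun_prop
    set A : Set (Att t e) := {q | q.1.2 N = e N} with hA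
    have hAc : IsClosed A := isClosed_eq (hc2 N) continuous_const
    set B : Set (Att t e) := {q | q.1.1 = t N} ∩ ⋂ m, ⋂ (_ : m ≠ N), {q | q.1.2 m = e m} with hB
    have hBc : IsClosed B := by
      apply IsClosed.inter
      · exact isClosed_eq (by fun_prop) continuous_const
      · apply isClosed_iInter; intro m
        apply isClosed_iInter; intro _
        exact isClosed_eq (hc2 m) continuous_const
    have hAB : A ∪ B = univ := by
      apply eq_univ_of_forall
      intro q
      by_cases hq : q.1.2 N = e N
      · exact Or.inl hq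
      · right
        refine ⟨(q.2.1 N).resolve_left hq, ?_⟩
        simp only [mem_iInter]
        intro m hm
        exact (q.2.2 m N hm).resolve_right hq
    have h1 : ContinuousOn (trunc t e g h (N + 1)) A := by
      apply ih.continuousOn.congr
      intro q hq
      have hq' : q.1.2 N = e N := hq
      simp only [trunc]
      rw [if_neg (not_not.mpr hq')]
    have h2 : ContinuousOn (trunc t e g h (N + 1)) B := by
      have : Continuous fun q : Att t e => h N (q.1.2 N) := (hh N).comp (hc2 N)
      apply this.continuousOn.congr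
      intro q hq
      simp only [trunc]
      by_cases hq2 : q.1.2 N = e N
      · rw [if_neg (not_not.mpr hq2)]
        have hqb : q = bs t e (t N) := by
          apply Subtype.ext
          apply Prod.ext
          · exact hq.1
          · ext m
            by_cases hm : m = N
            · subst hm; exact hq2
            · exact (mem_iInter₂.mp hq.2) m hm
        rw [hqb, trunc_bs]
        exact (hb N).symm
      · rw [if_pos hq2]
    have h3 := h1.union_of_isClosed h2 hAc hBc
    rw [hAB] at h3
    exact continuousOn_univ.mp h3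

theorem continuous_pick [T2Space T] [∀ n, T2Space (E n)] (hg : Continuous g)
    (hh : ∀ n, Continuous (h n)) (hb : ∀ n, h n (e n) = g (t n))
    (hs : ∀ ε > 0, ∀ᶠ n in atTop, ∀ z, dist (h n z) (g (t n)) < ε) :
    Continuous (pick t e g h) := by
  have hunif : TendstoUniformly (trunc t e g h) (pick t e g h) atTop := by
    rw [Metric.tendstoUniformly_iff]
    intro ε hε
    obtain ⟨N0, hN0⟩ := eventually_atTop.mp (hs ε hε)
    filter_upwards [eventually_ge_atTop N0] with N hN
    intro q
    rcases cases_att t e q with ⟨x, rfl⟩ | ⟨n, z, hz, rfl⟩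
    · rw [pick_bs, trunc_bs, dist_self]; exact hε
    · rw [pick_sp t e _ _ hz, trunc_sp t e g h N n hz]
      split_ifs with hn
      · rw [dist_self]; exact hε
      · exact hN0 n (by omega) z
  exact hunif.continuous (Frequently.of_forall fun N => continuous_trunc t e g h hg hh hb N)

end cont

end Pool.Agent.Helper88.Dn
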