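import Pool.Agent.Helper88.DnAssemble

set_option autoImplicit false

open Set Filter Topology

namespace Pool.Agent.Helper88.Dn

universe u

/-- The two facts on dendrites used in the construction. -/
structure ArcProp (D : Type u) [TopologicalSpace D] : Prop where
  arc : ∀ a a' : D, a ≠ a' → ∃ g : ℝ → D, SepArc g a a'
  cpt : ∀ x a' z : D, z ∈ CC a' x → ∃ K : Set D, IsCompact K ∧ IsPreconnected K ∧ a' ∈ K ∧
    z ∈ K ∧ x ∉ K

section
variable {D : Type u} [TopologicalSpace D]

/-- `C ∪ {x}` for the component `C` of the complement of `x` that contains `a'` -/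
def RS (a' x : D) : Set D := insert x (CC a' x)

/-- data of a decreasing sequence of parameters -/
structure SeqData (g : ℝ → D) (a a' : D) (t0 : ℝ) (s : ℕ → ℝ) : Prop where
  arc : SepArc g a a'
  t0I : t0 ∈ Ioo (0:ℝ) 1
  anti : StrictAnti s
  gt : ∀ n, t0 < s n
  lt : ∀ n, s n < 1
  lim : Tendsto s atTop (𝓝 t0)

namespace SeqData

variable {g : ℝ → D} {a a' : D} {t0 : ℝ} {s : ℕ → ℝ} (h : SeqData g a a' t0 s)
include h

lemma sI (n : ℕ) : s n ∈ Ioo (0:ℝ) 1 := ⟨h.t0I.1.trans (h.gt n), h.lt n⟩

lemma CC_sub (n : ℕ) : CC a' (g (s n)) ⊆ CC a' (g t0) :=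
  h.arc.CC_subset (Ioo_subset_Icc_self h.t0I) (h.sI n) (h.gt n)

lemma x_mem (n : ℕ) : g (s n) ∈ CC a' (g t0) :=
  h.arc.mem_CC h.t0I (Ioo_subset_Icc_self (h.sI n)) (h.gt n)

lemma x_mem_succ (n : ℕ) : g (s n) ∈ CC a' (g (s (n+1))) :=
  h.arc.mem_CC (h.sI (n+1)) (Ioo_subset_Icc_self (h.sI n)) (h.anti (Nat.lt_succ_self n))

lemma CC_mono {m n : ℕ} (hmn : m ≤ n) : CC a' (g (s m)) ⊆ CC a' (g (s n)) := by
  rcases hmn.eq_or_lt with rfl | hlt
  · exact subset_rfl
  · exact h.arc.CC_subset (Ioo_subset_Icc_self (h.sI n)) (h.sI m) (h.anti hlt)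

lemma RS_subset_succ (n : ℕ) : RS a' (g (s n)) ⊆ CC a' (g (s (n+1))) := by
  rintro z (rfl | hz)
  · exact h.x_mem_succ n
  · exact h.CC_mono (Nat.le_succ n) hz

lemma RS_mono {m n : ℕ} (hmn : m ≤ n) : RS a' (g (s m)) ⊆ RS a' (g (s n)) := by
  induction n with
  | zero =>
    obtain rfl : m = 0 := by omega
    exact subset_rfl
  | succ n ih =>
    rcases Nat.lt_or_ge m (n+1) with hlt | hge
    · exact (ih (by omega)).trans ((h.RS_subset_succ n).trans (subset_insert _ _))
    · obtain rfl : m = n + 1 := by omega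
      exact subset_rfl

lemma RS_sub (n : ℕ) : RS a' (g (s n)) ⊆ CC a' (g t0) := by
  rintro z (rfl | hz)
  · exact h.x_mem n
  · exact h.CC_sub n hz

lemma exists_mem [T2Space D] (hP : ArcProp D) {z : D} (hz : z ∈ CC a' (g t0)) :
    ∃ n, z ∈ CC a' (g (s n)) := by
  obtain ⟨K, hKc, hKp, haK, hzK, hx⟩ := hP.cpt _ _ _ hz
  have hlim : Tendsto (fun n => g (s n)) atTop (𝓝 (g t0)) := (h.arc.cont.tendsto t0).comp h.lim
  obtain ⟨n, hn⟩ := (hlim.eventually (hKc.isClosed.isOpen_compl.mem_nhds hx)).exists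
  exact ⟨n, subset_CC hKp haK hn hzK⟩

lemma shrink [T2Space D] [CompactSpace D] [LocallyConnectedSpace D] (hP : ArcProp D) {U : Set D}
    (hU : IsOpen U) (hcU : g t0 ∈ U) : ∃ N, ∀ n, N ≤ n → CC a' (g t0) \ CC a' (g (s n)) ⊆ U := by
  have hK : IsCompact (insert (g t0) (CC a' (g t0)) \ U) :=
    ((isClosed_insert_CC a' (g t0)).isCompact).diff hU
  obtain ⟨N, hN⟩ := hK.elim_directed_cover (fun n => CC a' (g (s n))) (fun n => isOpen_CC _ _)
    (by
      rintro z ⟨hz, hzU⟩
      rcases hz with rfl | hz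
      · exact absurd hcU hzU
      · exact mem_iUnion.mpr (h.exists_mem hP hz))
    (directed_of_isDirected_le (fun m n hmn => h.CC_mono hmn))
  refine ⟨N, fun n hn z hz => ?_⟩
  by_contra hzU
  exact hz.2 (h.CC_mono hn (hN ⟨mem_insert_of_mem _ hz.1, hzU⟩))

end SeqData

/-- the block between `x_{n+1}` and `x_n` -/
def EB (g : ℝ → D) (a' : D) (s : ℕ → ℝ) (n : ℕ) : Set D :=
  RS a' (g (s (n+1))) \ CC a' (g (s n))

namespace SeqData

variable {g : ℝ → D} {a a' : D} {t0 : ℝ} {s : ℕ → ℝ} (h : SeqData g a a' t0 s)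
include h

lemma EB_sub (n : ℕ) : EB g a' s n ⊆ CC a' (g t0) := fun _ hz => h.RS_sub _ hz.1

lemma x_mem_EB (n : ℕ) : g (s n) ∈ EB g a' s n :=
  ⟨mem_insert_of_mem _ (h.x_mem_succ n), notMem_CC _ _⟩

omit h in
lemma eq_of_mem_RS {n : ℕ} {z : D} (h1 : z ∈ RS a' (g (s n))) (h2 : z ∉ CC a' (g (s n))) :
    z = g (s n) := h1.resolve_right h2

/-- a point of an `n`-th block lying in `R_m` with `m ≤ n` is the base point -/
lemma eq_base {m n : ℕ} (hmn : m ≤ n) {z : D} (h1 : z ∈ EB g a' s n) (h2 : z ∈ RS a' (g (s m))) :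
    z = g (s n) := eq_of_mem_RS (h.RS_mono hmn h2) h1.2

lemma EB_disj {m n : ℕ} (hmn : m ≠ n) {z : D} (h1 : z ∈ EB g a' s m) (h1' : z ≠ g (s m))
    (h2 : z ∈ EB g a' s n) : z = g (s n) := by
  rcases lt_or_gt_of_ne hmn with hlt | hgt
  · exact h.eq_base (m := m + 1) hlt h2 h1.1
  · exact absurd (h.eq_base (m := n + 1) hgt h1 h2.1) h1'

omit h in
lemma exists_block {z : D} (hz : ∃ n, z ∈ CC a' (g (s n))) (h0 : z ∉ RS a' (g (s 0))) :
    ∃ n, z ∈ EB g a' s n \ {g (s n)} := by
  classical
  have hex : ∃ n, z ∈ RS a' (g (s n)) := by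
    obtain ⟨n, hn⟩ := hz
    exact ⟨n, mem_insert_of_mem _ hn⟩
  set N := Nat.find hex with hN
  have hNm : z ∈ RS a' (g (s N)) := Nat.find_spec hex
  have hN0 : N ≠ 0 := by
    intro h1
    rw [h1] at hNm
    exact h0 hNm
  obtain ⟨M, hM⟩ := Nat.exists_eq_succ_of_ne_zero hN0
  have hM' : z ∉ RS a' (g (s M)) := Nat.find_min hex (by omega)
  rw [hM] at hNm
  refine ⟨M, ⟨hNm, fun h2 => hM' (mem_insert_of_mem _ h2)⟩, ?_⟩
  rintro rfl
  exact hM' (mem_insert _ _)

end SeqData

lemma dendrite_L [T2Space D] [LocallyConnectedSpace D] (hD : IsDendrite D) (a' x : D) :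
    IsDendrite (↥(CC a' x)ᶜ) := by
  apply isDendrite_retract hD (rL x (CC a' x))
    (continuous_rL (isOpen_CC a' x) (isClosed_insert_CC a' x) (notMem_CC a' x))
  · intro z
    unfold rL
    split_ifs with hz
    · exact notMem_CC a' x
    · exact hz
  · intro z hz
    unfold rL
    rw [if_neg hz]

lemma rR_mem (a' x z : D) : rR x (CC a' x) z ∈ RS a' x := by
  unfold rR
  split_ifs with hz
  · exact mem_insert_of_mem _ hz
  · exact mem_insert _ _

lemma rR_eq {a' x z : D} (hz : z ∈ RS a' x) : rR x (CC a' x) z = z := by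
  unfold rR
  rcases hz with rfl | hz
  · split_ifs <;> rfl
  · rw [if_pos hz]

lemma dendrite_R [T2Space D] [LocallyConnectedSpace D] (hD : IsDendrite D) (a' x : D) :
    IsDendrite (↥(RS a' x)) := by
  apply isDendrite_retract hD (rR x (CC a' x))
    (continuous_rR (isOpen_CC a' x) (isClosed_insert_CC a' x))
  · exact rR_mem a' x
  · intro z hz
    exact rR_eq hz

lemma dendrite_EB [T2Space D] [LocallyConnectedSpace D] (hD : IsDendrite D) {g : ℝ → D} {a a' : D}
    {t0 : ℝ} {s : ℕ → ℝ} (h : SeqData g a a' t0 s) (n : ℕ) : IsDendrite (↥(EB g a' s n)) := by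
  apply isDendrite_retract hD
    (fun z => rL (g (s n)) (CC a' (g (s n))) (rR (g (s (n+1))) (CC a' (g (s (n+1)))) z))
    ((continuous_rL (isOpen_CC _ _) (isClosed_insert_CC _ _) (notMem_CC _ _)).comp
      (continuous_rR (isOpen_CC _ _) (isClosed_insert_CC _ _)))
  · intro z
    simp only [rL]
    split_ifs with hz
    · exact h.x_mem_EB n
    · exact ⟨rR_mem _ _ _, hz⟩
  · intro z hz
    rw [rR_eq hz.1]
    unfold rL
    rw [if_neg hz.2]

/-- The reassembly along a sequence of separating points. -/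
theorem reduce_aux (hD : IsDendrite D) (hP : ArcProp D) {Y : Type*} [PseudoMetricSpace Y]
    (f : D → Y) (hf : Continuous f) {g : ℝ → D} {a a' : D} {t0 : ℝ} {s : ℕ → ℝ}
    (h : SeqData g a a' t0 s) (hfa : f a = f a') (d : ℕ → D) {dinf : D}
    (hd : Tendsto d atTop (𝓝 dinf)) (hfd : ∀ n, f (g (s n)) = f (d n))
    (hcase : (∀ n, d n ∈ (CC a' (g t0))ᶜ) ∨ (∀ n, d n ∈ RS a' (g (s 0)))) :
    ∃ e : D, (e = a ∨ e = a') ∧ ∃ (D' : Type u) (_ : TopologicalSpace D'), IsDendrite D' ∧
      ∃ β : D' → D, Function.Injective β ∧ range β = {e}ᶜ ∧ Continuous fun q => f (β q) := by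
  have i1 : CompactSpace D := hD.continuum.compact
  have i3 : TopologicalSpace.MetrizableSpace D := hD.continuum.metrizable
  have i4 : LocallyConnectedSpace D := hD.locallyConnected
  -- smallness of the blocks
  have hsmall : ∀ ε > 0, ∀ᶠ n in atTop, ∀ z ∈ EB g a' s n, dist (f z) (f (d n)) < ε := by
    intro ε hε
    have hU : IsOpen (f ⁻¹' Metric.ball (f (g t0)) (ε/2)) := Metric.isOpen_ball.preimage hf
    have hc : g t0 ∈ f ⁻¹' Metric.ball (f (g t0)) (ε/2) := Metric.mem_ball_self (by positivity)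
    obtain ⟨N, hN⟩ := h.shrink hP hU hc
    filter_upwards [eventually_ge_atTop N] with n hn z hz
    have h1 := hN n hn ⟨h.EB_sub n hz, hz.2⟩
    have h2 := hN n hn ⟨h.x_mem n, notMem_CC _ _⟩
    rw [mem_preimage, Metric.mem_ball] at h1 h2
    rw [← hfd n]
    calc dist (f z) (f (g (s n))) ≤ dist (f z) (f (g t0)) + dist (f (g (s n))) (f (g t0)) :=
          dist_triangle_right _ _ _
      _ < ε := by linarith
  have hsmall' : ∀ (A0 : Set D) (p0 : D), ∀ ε > 0, ∀ᶠ n in atTop,
      ∀ z ∈ (Nat.casesOn n A0 (fun n => EB g a' s n) : Set D),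
        dist (f z) (f (Nat.casesOn n p0 (fun n => d n) : D)) < ε := by
    intro A0 p0 ε hε
    obtain ⟨N, hN⟩ := eventually_atTop.mp (hsmall ε hε)
    filter_upwards [eventually_ge_atTop (N+1)] with n hn
    cases n with
    | zero => omega
    | succ n => exact hN n (by omega)
  have hlim' : ∀ p0 : D, Tendsto (fun n : ℕ => (Nat.casesOn n p0 (fun n => d n) : D)) atTop
      (𝓝 dinf) := by
    intro p0
    rw [← tendsto_add_atTop_iff_nat 1]
    exact hd
  have haR : a' ∈ RS a' (g (s 0)) := mem_insert_of_mem _ (h.arc.a'_mem (h.sI 0))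
  have haL : a ∈ (CC a' (g t0))ᶜ := h.arc.a_notMem h.t0I
  have hLR : ∀ z, z ∈ RS a' (g (s 0)) → z ∉ (CC a' (g t0))ᶜ := fun z hz hz' => hz' (h.RS_sub 0 hz)
  have hLE : ∀ n z, z ∈ EB g a' s n → z ∉ (CC a' (g t0))ᶜ := fun n z hz hz' => hz' (h.EB_sub n hz)
  have hLc : IsClosed (CC a' (g t0))ᶜ := (isOpen_CC _ _).isClosed_compl
  have hRc : IsClosed (RS a' (g (s 0))) := isClosed_insert_CC _ _
  rcases hcase with hcase | hcase
  · -- the companions lie in `L`
    refine ⟨a', Or.inr rfl, ?_⟩
    obtain ⟨D', top, hD', β, hβ, hr, hcont⟩ := assemble f hf (CC a' (g t0))ᶜ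
      (fun n => (Nat.casesOn n (RS a' (g (s 0))) (fun n => EB g a' s n) : Set D))
      (dendrite_L hD a' (g t0))
      (fun n => by
        cases n with
        | zero => exact dendrite_R hD a' (g (s 0))
        | succ n => exact dendrite_EB hD h n)
      (fun n => (Nat.casesOn n a (fun n => d n) : D))
      (fun n => (Nat.casesOn n a' (fun n => g (s n)) : D))
      (fun n => by
        cases n with
        | zero => exact haL
        | succ n => exact hcase n)
      (fun n => by
        cases n with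
        | zero => exact haR
        | succ n => exact h.x_mem_EB n)
      (pinf := dinf) (hLc.mem_of_tendsto hd (Eventually.of_forall hcase))
      (hlim' a)
      (fun n z hz _ => by
        cases n with
        | zero => exact hLR z hz
        | succ n => exact hLE n z hz)
      (fun m n hmn z hz hzb hz' => by
        cases n with
        | zero => cases m with
          | zero => exact absurd rfl hmn
          | succ m => exact absurd (h.eq_base (Nat.zero_le m) hz hz') hzb
        | succ n => cases m with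
          | zero => exact h.eq_base (Nat.zero_le n) hz' hz
          | succ m => exact h.EB_disj (fun hmn' => hmn (congrArg _ hmn')) hz hzb hz')
      (fun n => by
        cases n with
        | zero => exact hfa.symm
        | succ n => exact hfd n)
      (hsmall' _ _)
    refine ⟨D', top, hD', β, hβ, ?_, hcont⟩
    rw [hr]
    ext z
    constructor
    · rintro (hz | hz)
      · rintro rfl
        exact hLR z haR hz
      · obtain ⟨n, hz1, hz2⟩ := mem_iUnion.mp hz
        cases n with
        | zero => exact hz2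
        | succ n =>
          rintro rfl
          exact hz1.2 (h.arc.a'_mem (h.sI n))
    · intro hz
      by_cases hzL : z ∈ (CC a' (g t0))ᶜ
      · exact Or.inl hzL
      · right
        rw [notMem_compl_iff] at hzL
        by_cases hzR : z ∈ RS a' (g (s 0))
        · exact mem_iUnion.mpr ⟨0, hzR, hz⟩
        · obtain ⟨n, hn⟩ := SeqData.exists_block (h.exists_mem hP hzL) hzR
          exact mem_iUnion.mpr ⟨n + 1, hn⟩
  · -- the companions lie in `R`
    refine ⟨a, Or.inl rfl, ?_⟩
    obtain ⟨D', top, hD', β, hβ, hr, hcont⟩ := assemble f hf (RS a' (g (s 0)))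
      (fun n => (Nat.casesOn n (CC a' (g t0))ᶜ (fun n => EB g a' s n) : Set D))
      (dendrite_R hD a' (g (s 0)))
      (fun n => by
        cases n with
        | zero => exact dendrite_L hD a' (g t0)
        | succ n => exact dendrite_EB hD h n)
      (fun n => (Nat.casesOn n a' (fun n => d n) : D))
      (fun n => (Nat.casesOn n a (fun n => g (s n)) : D))
      (fun n => by
        cases n with
        | zero => exact haR
        | succ n => exact hcase n)
      (fun n => by
        cases n with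
        | zero => exact haL
        | succ n => exact h.x_mem_EB n)
      (pinf := dinf) (hRc.mem_of_tendsto hd (Eventually.of_forall hcase))
      (hlim' a')
      (fun n z hz hzb => by
        cases n with
        | zero => exact fun hz' => hLR z hz' hz
        | succ n => exact fun hz' => hzb (h.eq_base (Nat.zero_le n) hz hz'))
      (fun m n hmn z hz hzb hz' => by
        cases n with
        | zero => cases m with
          | zero => exact absurd rfl hmn
          | succ m => exact absurd hz' (hLE m z hz)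
        | succ n => cases m with
          | zero => exact absurd hz (hLE n z hz')
          | succ m => exact h.EB_disj (fun hmn' => hmn (congrArg _ hmn')) hz hzb hz')
      (fun n => by
        cases n with
        | zero => exact hfa
        | succ n => exact hfd n)
      (hsmall' _ _)
    refine ⟨D', top, hD', β, hβ, ?_, hcont⟩
    rw [hr]
    ext z
    constructor
    · rintro (hz | hz)
      · rintro rfl
        exact hLR z hz haL
      · obtain ⟨n, hz1, hz2⟩ := mem_iUnion.mp hz
        cases n with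
        | zero => exact hz2
        | succ n =>
          rintro rfl
          exact hLE n z hz1 haL
    · intro hz
      by_cases hzL : z ∈ (CC a' (g t0))ᶜ
      · right
        exact mem_iUnion.mpr ⟨0, hzL, hz⟩
      · rw [notMem_compl_iff] at hzL
        by_cases hzR : z ∈ RS a' (g (s 0))
        · exact Or.inl hzR
        · obtain ⟨n, hn⟩ := SeqData.exists_block (h.exists_mem hP hzL) hzR
          right
          exact mem_iUnion.mpr ⟨n + 1, hn⟩

end

end Pool.Agent.Helper88.Dn
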