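import Pool.Agent.Helper88.DnReduce

set_option autoImplicit false

open Set Filter Topology

namespace Pool.Agent.Helper88.Dn

universe u

/-- Baire step: an interval of the arc on which companions stay away. -/
lemma exists_interval {D : Type u} [MetricSpace D] [CompactSpace D] {Y : Type*} [MetricSpace Y]
    (f : D → Y) (hf : Continuous f) (h2 : ∀ z, ∃ z', z' ≠ z ∧ f z' = f z) (g : ℝ → D)
    (hg : Continuous g) : ∃ δ > 0, ∃ t0 ∈ Ioo (0:ℝ) 1, ∃ ε > 0, ∀ t ∈ Ioo (t0 - ε) (t0 + ε),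
      t ∈ Ioo (0:ℝ) 1 ∧ ∃ d, f d = f (g t) ∧ δ ≤ dist d (g t) := by
  set S : ℕ → Set ℝ := fun m => {t | ∃ d, f d = f (g t) ∧ 1 / ((m:ℝ) + 1) ≤ dist d (g t)} with hS
  have hSc : ∀ m, IsClosed (S m) := by
    intro m
    have h1 : IsClosed {q : ℝ × D | f q.2 = f (g q.1) ∧ 1 / ((m:ℝ) + 1) ≤ dist q.2 (g q.1)} := by
      apply IsClosed.inter
      · exact isClosed_eq (by fun_prop) (by fun_prop)
      · exact isClosed_le continuous_const (continuous_snd.dist (hg.comp continuous_fst))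
    have h2 := isClosedMap_fst_of_compactSpace (X := ℝ) (Y := D) _ h1
    convert h2 using 1
    ext t
    constructor
    · rintro ⟨d, h3, h4⟩
      exact ⟨(t, d), ⟨h3, h4⟩, rfl⟩
    · rintro ⟨⟨t', d⟩, ⟨h3, h4⟩, rfl⟩
      exact ⟨d, h3, h4⟩
  have hSu : ⋃ m, S m = univ := by
    apply eq_univ_of_forall
    intro t
    obtain ⟨z', hz, hfz⟩ := h2 (g t)
    obtain ⟨m, hm⟩ := exists_nat_one_div_lt (dist_pos.mpr hz)
    exact mem_iUnion.mpr ⟨m, z', hfz, hm.le⟩
  obtain ⟨m, hm⟩ := nonempty_interior_of_iUnion_of_closed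
    (f := fun m => (Subtype.val : Icc (0:ℝ) 1 → ℝ) ⁻¹' S m)
    (fun m => (hSc m).preimage continuous_subtype_val)
    (by rw [← preimage_iUnion, hSu, preimage_univ])
  obtain ⟨t1, ht1⟩ := hm
  obtain ⟨V, hV, hVt⟩ := (mem_nhds_subtype _ _ _).mp (mem_interior_iff_mem_nhds.mp ht1)
  have hcl : (t1 : ℝ) ∈ closure (Ioo (0:ℝ) 1) := by
    rw [closure_Ioo zero_ne_one]
    exact t1.2
  obtain ⟨t0, ht0V, ht0⟩ := mem_closure_iff_nhds.mp hcl _ (interior_mem_nhds.mpr hV)
  have hnh : interior V ∩ Ioo (0:ℝ) 1 ∈ 𝓝 t0 :=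
    (isOpen_interior.inter isOpen_Ioo).mem_nhds ⟨ht0V, ht0⟩
  obtain ⟨ε, hε, hball⟩ := Metric.mem_nhds_iff.mp hnh
  rw [Real.ball_eq_Ioo] at hball
  refine ⟨1 / ((m:ℝ) + 1), by positivity, t0, ht0, ε, hε, fun t ht => ?_⟩
  have h1 := hball ht
  refine ⟨h1.2, ?_⟩
  exact hVt (show (⟨t, Ioo_subset_Icc_self h1.2⟩ : Icc (0:ℝ) 1) ∈ Subtype.val ⁻¹' V from
    (interior_subset : interior V ⊆ V) h1.1)

/-- The reduction step: one point of a fibre can be removed. -/
theorem reduce {D : Type u} [TopologicalSpace D] (hD : IsDendrite D) (hP : ArcProp D)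
    {Y : Type*} [MetricSpace Y] (f : D → Y) (hf : Continuous f)
    (h2 : ∀ z, ∃ z', z' ≠ z ∧ f z' = f z) {a a' : D} (ha : a ≠ a') (hfa : f a = f a') :
    ∃ e : D, (e = a ∨ e = a') ∧ ∃ (D' : Type u) (_ : TopologicalSpace D'), IsDendrite D' ∧
      ∃ β : D' → D, Function.Injective β ∧ range β = {e}ᶜ ∧ Continuous fun q => f (β q) := by
  have i1 : CompactSpace D := hD.continuum.compact
  have i3 : TopologicalSpace.MetrizableSpace D := hD.continuum.metrizable
  have i4 : LocallyConnectedSpace D := hD.locallyConnected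
  let := TopologicalSpace.metrizableSpaceMetric D
  obtain ⟨g, hg⟩ := hP.arc a a' ha
  obtain ⟨δ, hδ, t0, ht0, ε, hε, hint⟩ := exists_interval f hf h2 g hg.cont
  -- the first sequence
  set s1 : ℕ → ℝ := fun n => t0 + ε / (n + 2) with hs1
  have hs1anti : StrictAnti s1 := by
    intro m n hmn
    simp only [hs1]
    have : (m:ℝ) < n := by exact_mod_cast hmn
    gcongr
  have hs1gt : ∀ n, t0 < s1 n := by
    intro n
    simp only [hs1]
    have : 0 < ε / ((n:ℝ) + 2) := by positivity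
    linarith
  have hs1lt : ∀ n, s1 n < t0 + ε := by
    intro n
    simp only [hs1]
    have : ε / ((n:ℝ) + 2) < ε := by
      apply div_lt_self hε
      have : (0:ℝ) ≤ n := Nat.cast_nonneg n
      linarith
    linarith
  have hs1lim : Tendsto s1 atTop (𝓝 t0) := by
    have h1 : Tendsto (fun n : ℕ => ε / ((n:ℝ) + 2)) atTop (𝓝 0) := by
      apply Tendsto.const_div_atTop
      exact tendsto_natCast_atTop_atTop.atTop_add tendsto_const_nhds
    simpa using h1.const_add t0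
  have hdata : SeqData g a a' t0 s1 :=
    ⟨hg, ht0, hs1anti, hs1gt, fun n => (hint (s1 n) ⟨by linarith [hs1gt n], hs1lt n⟩).1.2, hs1lim⟩
  have hcomp : ∀ n, ∃ d, f d = f (g (s1 n)) ∧ δ ≤ dist d (g (s1 n)) := fun n =>
    (hint (s1 n) ⟨by linarith [hs1gt n], hs1lt n⟩).2
  choose d hd1 hd2 using hcomp
  -- the blocks are small
  have hglim : Tendsto (fun n => g (s1 n)) atTop (𝓝 (g t0)) := (hg.cont.tendsto t0).comp hs1lim
  obtain ⟨N1, hN1⟩ := hdata.shrink hP (U := Metric.ball (g t0) (δ/3)) Metric.isOpen_ball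
    (Metric.mem_ball_self (by positivity))
  obtain ⟨N2, hN2⟩ := eventually_atTop.mp
    (hglim.eventually (Metric.ball_mem_nhds (g t0) (ε := δ/3) (by positivity)))
  set N := max N1 N2 with hN
  have hdLR : ∀ n, N ≤ n → d n ∈ (CC a' (g t0))ᶜ ∨ d n ∈ RS a' (g (s1 N)) := by
    intro n hn
    by_contra hcon
    push Not at hcon
    obtain ⟨h3, h4⟩ := hcon
    rw [notMem_compl_iff] at h3
    have h5 : d n ∈ Metric.ball (g t0) (δ/3) :=
      hN1 N (le_max_left _ _) ⟨h3, fun h6 => h4 (mem_insert_of_mem _ h6)⟩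
    have h6 : g (s1 n) ∈ Metric.ball (g t0) (δ/3) := hN2 n ((le_max_right _ _).trans hn)
    rw [Metric.mem_ball] at h5 h6
    have h7 := hd2 n
    have h8 := dist_triangle_right (d n) (g (s1 n)) (g t0)
    linarith
  -- choose the side
  obtain ⟨φ, hφ, hφN, hside⟩ : ∃ φ : ℕ → ℕ, StrictMono φ ∧ (∀ n, N ≤ φ n) ∧
      ((∀ n, d (φ n) ∈ (CC a' (g t0))ᶜ) ∨ (∀ n, d (φ n) ∈ RS a' (g (s1 N)))) := by
    by_cases hfr : ∃ᶠ n in atTop, d n ∈ (CC a' (g t0))ᶜ
    · obtain ⟨φ, hφ, hφ2⟩ := extraction_of_frequently_atTop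
        (hfr.and_eventually (eventually_ge_atTop N))
      exact ⟨φ, hφ, fun n => (hφ2 n).2, Or.inl fun n => (hφ2 n).1⟩
    · rw [not_frequently] at hfr
      obtain ⟨M, hM⟩ := eventually_atTop.mp hfr
      refine ⟨fun n => n + max M N, fun m n hmn => by simpa using hmn, fun n => ?_,
        Or.inr fun n => ?_⟩
      · have := le_max_right M N
        show N ≤ n + max M N
        omega
      · have h3 := le_max_right M N
        have h4 := le_max_left M N
        exact (hdLR (n + max M N) (by omega)).resolve_left (hM (n + max M N) (by omega))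
  -- a convergent subsequence
  obtain ⟨dinf, -, ψ, hψ, hlim⟩ := isCompact_univ.tendsto_subseq (x := fun n => d (φ n))
    (fun n => mem_univ _)
  have hφψ : StrictMono (φ ∘ ψ) := hφ.comp hψ
  have hdata2 : SeqData g a a' t0 (fun n => s1 (φ (ψ n))) :=
    ⟨hg, ht0, fun m n hmn => hs1anti (hφψ hmn), fun n => hs1gt _, fun n => hdata.lt _,
      hs1lim.comp hφψ.tendsto_atTop⟩
  refine reduce_aux hD hP f hf hdata2 hfa (fun n => d (φ (ψ n))) hlim (fun n => (hd1 _).symm) ?_
  rcases hside with hside | hside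
  · exact Or.inl fun n => hside _
  · exact Or.inr fun n => hdata.RS_mono (hφN (ψ 0)) (hside _)

end Pool.Agent.Helper88.Dn
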