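import Mathlib

set_option autoImplicit false

open MeasureTheory Set
open scoped ENNReal Topology

namespace Pool.Agent.Helper88.Slab

/-- The uniform probability measure on `[-1,1]`. -/
noncomputable def U : Measure ℝ := (2⁻¹ : ℝ≥0∞) • volume.restrict (Icc (-1) 1)

instance : IsProbabilityMeasure U := by
  constructor
  simp only [U, Measure.smul_apply, MeasurableSet.univ, Measure.restrict_apply, univ_inter,
    Real.volume_Icc, smul_eq_mul]
  norm_num
  exact ENNReal.inv_mul_cancel (by norm_num) (by norm_num)

lemma integral_U {E : Type*} [NormedAddCommGroup E] [NormedSpace ℝ E] (f : ℝ → E) :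
    ∫ u, f u ∂U = (1/2 : ℝ) • ∫ u in (-1)..1, f u := by
  rw [U, integral_smul_measure, intervalIntegral.integral_of_le (by norm_num),
    integral_Icc_eq_integral_Ioc]
  simp

/-- The uniform probability measure on the cube `[-1,1]^n`. -/
noncomputable def cube (n : ℕ) : Measure (Fin n → ℝ) := Measure.pi (fun _ => U)

instance (n : ℕ) : IsProbabilityMeasure (cube n) := by unfold cube; infer_instance

lemma ae_U : ∀ᵐ u ∂U, u ∈ Icc (-1:ℝ) 1 := by
  have : ∀ᵐ u ∂(volume.restrict (Icc (-1:ℝ) 1)), u ∈ Icc (-1:ℝ) 1 :=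
    ae_restrict_mem measurableSet_Icc
  exact Measure.ae_smul_measure this _

lemma ae_cube (n : ℕ) : ∀ᵐ x ∂(cube n), x ∈ Icc (fun _ : Fin n => (-1:ℝ)) (fun _ => 1) := by
  have h : ∀ᵐ x ∂(cube n), ∀ i, x i ∈ Icc (-1:ℝ) 1 := by
    rw [Filter.eventually_all]
    intro i
    exact (Measure.tendsto_eval_ae_ae (μ := fun _ : Fin n => U) (i := i)).eventually ae_U
  filter_upwards [h] with x hx
  exact ⟨fun i => (hx i).1, fun i => (hx i).2⟩

lemma integrable_cube {n : ℕ} {E : Type*} [NormedAddCommGroup E]
    {f : (Fin n → ℝ) → E} (hf : Continuous f) :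
    Integrable f (cube n) := by
  obtain ⟨C, hC⟩ := (isCompact_Icc (a := (fun _ : Fin n => (-1:ℝ)))
    (b := fun _ => 1)).exists_bound_of_continuousOn hf.continuousOn
  refine Integrable.of_bound hf.aestronglyMeasurable C ?_
  filter_upwards [ae_cube n] with x hx
  exact hC x hx

lemma integrable_U {E : Type*} [NormedAddCommGroup E] {f : ℝ → E} (hf : Continuous f) :
    Integrable f U := by
  obtain ⟨C, hC⟩ := (isCompact_Icc (a := (-1:ℝ)) (b := 1)).exists_bound_of_continuousOn
    hf.continuousOn
  refine Integrable.of_bound hf.aestronglyMeasurable C ?_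
  filter_upwards [ae_U] with x hx
  exact hC x hx

/-- Averaging operator. -/
noncomputable def A (b : ℝ) (Q : ℝ → ℝ) (y : ℝ) : ℝ := ∫ u, Q (b * u + y) ∂U

lemma cube_split {n : ℕ} (i : Fin (n+1)) (a : Fin (n+1) → ℝ) (g : ℝ → ℝ)
    (hint : Integrable (fun x : Fin (n+1) → ℝ => g (∑ j, a j * x j)) (cube (n+1))) :
    ∫ x, g (∑ j, a j * x j) ∂(cube (n+1)) =
      ∫ y, A (a i) g (∑ j, a (i.succAbove j) * y j) ∂(cube n) := by
  have hmp := measurePreserving_piFinSuccAbove (fun _ : Fin (n+1) => U) i
  set e := MeasurableEquiv.piFinSuccAbove (fun _ : Fin (n+1) => ℝ) i with he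
  let F : ℝ × (Fin n → ℝ) → ℝ := fun p => g (a i * p.1 + ∑ j, a (i.succAbove j) * p.2 j)
  have hFe : ∀ x : Fin (n+1) → ℝ, F (e x) = g (∑ j, a j * x j) := by
    intro x
    simp only [F, he]
    rw [Fin.sum_univ_succAbove _ i]
    rfl
  have hintF : Integrable F (U.prod (cube n)) := by
    have := hmp.integrable_comp_emb e.measurableEmbedding (g := F)
    rw [show (cube n) = Measure.pi (fun j => (fun _ : Fin (n+1) => U) (i.succAbove j)) from rfl]
    rw [← this]
    refine hint.congr ?_
    filter_upwards with x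
    simp [hFe]
  calc ∫ x, g (∑ j, a j * x j) ∂(cube (n+1)) = ∫ x, F (e x) ∂(cube (n+1)) := by
        simp_rw [hFe]
    _ = ∫ p, F p ∂(U.prod (cube n)) := hmp.integral_comp e.measurableEmbedding F
    _ = ∫ y, (∫ u, F (u, y) ∂U) ∂(cube n) := integral_prod_symm F hintF
    _ = _ := rfl

lemma cube_split_cont {n : ℕ} (i : Fin (n+1)) (a : Fin (n+1) → ℝ) (g : ℝ → ℝ)
    (hg : Continuous g) :
    ∫ x, g (∑ j, a j * x j) ∂(cube (n+1)) =
      ∫ y, A (a i) g (∑ j, a (i.succAbove j) * y j) ∂(cube n) :=
  cube_split i a g (integrable_cube (by fun_prop))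

/-- Even locally integrable functions all of whose symmetric averages are nonnegative. -/
structure Good0 (Q : ℝ → ℝ) : Prop where
  int : ∀ x y, IntervalIntegrable Q volume x y
  even : ∀ y, Q (-y) = Q y
  nonneg : ∀ v, 0 ≤ v → 0 ≤ ∫ y in (0:ℝ)..v, Q y

/-- Even continuous functions all of whose symmetric averages are nonnegative. -/
structure Good (Q : ℝ → ℝ) : Prop where
  cont : Continuous Q
  even : ∀ y, Q (-y) = Q y
  nonneg : ∀ v, 0 ≤ v → 0 ≤ ∫ y in (0:ℝ)..v, Q y

lemma Good.toGood0 {Q : ℝ → ℝ} (h : Good Q) : Good0 Q :=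
  ⟨fun _ _ => h.cont.intervalIntegrable _ _, h.even, h.nonneg⟩

lemma A_eq (b : ℝ) (Q : ℝ → ℝ) (y : ℝ) : A b Q y = (1/2 : ℝ) * ∫ u in (-1)..1, Q (b * u + y) := by
  rw [A, integral_U]; simp

lemma A_neg_b (b : ℝ) (Q : ℝ → ℝ) (y : ℝ) : A (-b) Q y = A b Q y := by
  rw [A_eq, A_eq]
  congr 1
  have := intervalIntegral.integral_comp_neg (a := -1) (b := 1) (f := fun u => Q (b * u + y))
  simp only [neg_neg] at this
  rw [← this]
  congr 1
  ext u
  ring_nf

lemma A_abs_b (b : ℝ) (Q : ℝ → ℝ) (y : ℝ) : A |b| Q y = A b Q y := by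
  rcases abs_choice b with h | h
  · rw [h]
  · rw [h, A_neg_b]

lemma A_even (b : ℝ) {Q : ℝ → ℝ} (hQ : ∀ y, Q (-y) = Q y) (y : ℝ) : A b Q (-y) = A b Q y := by
  rw [← A_neg_b, A, A]
  congr 1
  ext u
  rw [← hQ]
  ring_nf

lemma A_zero (Q : ℝ → ℝ) (y : ℝ) : A 0 Q y = Q y := by
  rw [A_eq]; simp; ring

/-- For `b>0` the average is a difference quotient of the primitive. -/
lemma A_eq_diff {b : ℝ} (hb : 0 < b) {Q : ℝ → ℝ} (hQ : ∀ x y, IntervalIntegrable Q volume x y)
    (y : ℝ) :
    A b Q y = (1/(2*b)) * ((∫ t in (0:ℝ)..(y+b), Q t) - ∫ t in (0:ℝ)..(y-b), Q t) := by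
  rw [A_eq, intervalIntegral.integral_interval_sub_left (hQ _ _) (hQ _ _)]
  rw [intervalIntegral.integral_comp_mul_add _ hb.ne']
  simp only [smul_eq_mul]
  rw [show b * -1 + y = y - b by ring, show b * 1 + y = y + b by ring]
  field_simp

lemma Good0.A {Q : ℝ → ℝ} (hQ : Good0 Q) {b : ℝ} (hb : b ≠ 0) : Good (A b Q) := by
  wlog hb' : 0 < b generalizing b
  · have h := this (b := -b) (by simpa using hb) (by
      have := lt_of_le_of_ne (not_lt.mp hb') hb
      linarith)
    have h2 : Slab.A (-b) Q = Slab.A b Q := by ext y; exact A_neg_b b Q y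
    rwa [h2] at h
  clear hb
  have hb := hb'
  -- primitive
  set P : ℝ → ℝ := fun x => ∫ t in (0:ℝ)..x, Q t with hP
  have hPc : Continuous P := by
    exact intervalIntegral.continuous_primitive hQ.int 0
  have hAeq : Slab.A b Q = fun y => (1/(2*b)) * (P (y+b) - P (y-b)) := by
    ext y; exact A_eq_diff hb hQ.int y
  refine ⟨by rw [hAeq]; fun_prop, A_even b hQ.even, ?_⟩
  intro v hv
  have hPodd : ∀ x, P (-x) = - P x := by
    intro x
    simp only [hP]
    have h1 := intervalIntegral.integral_comp_neg (a := 0) (b := x) (f := Q)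
    simp only [neg_zero] at h1
    rw [intervalIntegral.integral_symm, ← h1]
    congr 1
    apply intervalIntegral.integral_congr
    intro t _
    exact hQ.even t
  have hPnn : ∀ x, 0 ≤ x → 0 ≤ P x := hQ.nonneg
  have h1 : ∫ y in (0:ℝ)..v, Slab.A b Q y = (1/(2*b)) * ((∫ y in (0:ℝ)..v, P (y+b)) -
      ∫ y in (0:ℝ)..v, P (y-b)) := by
    have c1 : Continuous fun y => P (y + b) := by fun_prop
    have c2 : Continuous fun y => P (y - b) := by fun_prop
    rw [← intervalIntegral.integral_sub (c1.intervalIntegrable _ _)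
      (c2.intervalIntegrable _ _), ← intervalIntegral.integral_const_mul]
    apply intervalIntegral.integral_congr
    intro y _
    exact A_eq_diff hb hQ.int y
  rw [h1]
  rw [intervalIntegral.integral_comp_add_right (f := P) b, intervalIntegral.integral_comp_sub_right (f := P) b]
  have hint : ∀ x y, IntervalIntegrable P volume x y := fun x y => hPc.intervalIntegrable x y
  -- R x = ∫_0^x P is even
  set R : ℝ → ℝ := fun x => ∫ t in (0:ℝ)..x, P t with hR
  have hReven : ∀ x, R (-x) = R x := by
    intro x
    simp only [hR]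
    have h1 := intervalIntegral.integral_comp_neg (a := 0) (b := x) (f := P)
    simp only [neg_zero] at h1
    rw [intervalIntegral.integral_symm, ← h1]
    rw [← intervalIntegral.integral_neg]
    apply intervalIntegral.integral_congr
    intro t _
    simp [hPodd t]
  have e1 : ∫ x in (0 + b)..(v + b), P x = R (v+b) - R b := by
    simp only [hR]
    rw [intervalIntegral.integral_interval_sub_left (hint _ _) (hint _ _)]
    simp
  have e2 : ∫ x in (0 - b)..(v - b), P x = R (v-b) - R b := by
    rw [← hReven b]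
    simp only [hR]
    rw [intervalIntegral.integral_interval_sub_left (hint _ _) (hint _ _)]
    simp
  rw [e1, e2]
  have hle : |v - b| ≤ v + b := by
    rw [abs_le]; constructor <;> linarith
  have e3 : R (v-b) = R |v-b| := by
    rcases abs_choice (v-b) with h | h
    · rw [h]
    · rw [h, hReven]
  have e4 : 0 ≤ R (v+b) - R |v-b| := by
    simp only [hR]
    rw [intervalIntegral.integral_interval_sub_left (hint _ _) (hint _ _)]
    apply intervalIntegral.integral_nonneg hle
    intro u hu
    exact hPnn u (le_trans (abs_nonneg _) hu.1)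
  have : 0 ≤ (1/(2*b)) := by positivity
  rw [e3]
  apply mul_nonneg this
  linarith

lemma Good.A {Q : ℝ → ℝ} (hQ : Good Q) (b : ℝ) : Good (A b Q) := by
  rcases eq_or_ne b 0 with rfl | hb
  · have : Slab.A 0 Q = Q := by ext y; exact A_zero Q y
    rwa [this]
  · exact hQ.toGood0.A hb

lemma Good.zero {Q : ℝ → ℝ} (hQ : Good Q) : 0 ≤ Q 0 := by
  have hd : HasDerivAt (fun x => ∫ t in (0:ℝ)..x, Q t) (Q 0) 0 :=
    intervalIntegral.integral_hasDerivAt_right (hQ.cont.intervalIntegrable _ _)
      (hQ.cont.stronglyMeasurableAtFilter _ _) hQ.cont.continuousAt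
  have h2 := hd.tendsto_slope_zero_right
  refine ge_of_tendsto h2 ?_
  filter_upwards [self_mem_nhdsWithin] with t ht
  have ht' : (0:ℝ) < t := ht
  simp only [zero_add, intervalIntegral.integral_same, sub_zero, smul_eq_mul]
  exact mul_nonneg (by positivity) (hQ.nonneg t ht'.le)

lemma Good.cube {Q : ℝ → ℝ} (hQ : Good Q) {n : ℕ} (b : Fin n → ℝ) :
    0 ≤ ∫ y, Q (∑ j, b j * y j) ∂(cube n) := by
  induction n generalizing Q with
  | zero =>
    simp only [Finset.univ_eq_empty, Finset.sum_empty, integral_const]
    simp [hQ.zero]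
  | succ n ih =>
    rw [cube_split_cont 0 b Q hQ.cont]
    exact ih (hQ.A (b 0)) (fun j => b (Fin.succAbove 0 j))

lemma A_cont (b : ℝ) {Q : ℝ → ℝ} (hQ : Continuous Q) : Continuous (A b Q) := by
  have : A b Q = fun y => (1/2 : ℝ) * ∫ u in (-1:ℝ)..1, Q (b * u + y) := by
    ext y; exact A_eq b Q y
  rw [this]
  refine continuous_const.mul ?_
  apply intervalIntegral.continuous_parametric_intervalIntegral_of_continuous' (f := fun y u => Q (b * u + y))
  fun_prop

/-- Second moment. -/
lemma cube_sq {n : ℕ} (b : Fin n → ℝ) (k : ℝ) :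
    ∫ y, ((∑ j, b j * y j)^2 + k) ∂(cube n) = (∑ j, b j ^ 2) / 3 + k := by
  induction n generalizing k with
  | zero => simp
  | succ n ih =>
    rw [cube_split_cont 0 b (fun z => z^2 + k) (by fun_prop)]
    have : ∀ y : ℝ, A (b 0) (fun z => z^2 + k) y = y^2 + (b 0 ^2 / 3 + k) := by
      intro y
      rw [A_eq]
      have h : ∀ u : ℝ, (b 0 * u + y)^2 + k = b 0 ^2 * u^2 + (2 * b 0 * y) * u^1 + (y^2 + k) := by
        intro u; ring
      simp_rw [h]
      rw [intervalIntegral.integral_add, intervalIntegral.integral_add]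
      · rw [intervalIntegral.integral_const_mul, intervalIntegral.integral_const_mul,
          integral_pow, integral_pow, intervalIntegral.integral_const]
        simp only [smul_eq_mul]
        push_cast
        ring
      all_goals exact Continuous.intervalIntegrable (by fun_prop) _ _
    simp_rw [this]
    rw [ih, Fin.sum_univ_succ]
    simp only [Fin.zero_succAbove]
    ring

/-- The indicator function of `[-T,T]`. -/
noncomputable def ind (T : ℝ) (z : ℝ) : ℝ := if |z| ≤ T then 1 else 0

lemma ind_measurable (T : ℝ) : Measurable (ind T) := by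
  unfold ind
  apply Measurable.ite _ measurable_const measurable_const
  exact measurableSet_le (by fun_prop) (by fun_prop)

lemma ind_nonneg (T z : ℝ) : 0 ≤ ind T z := by
  unfold ind; split_ifs <;> norm_num

lemma ind_le_one (T z : ℝ) : ind T z ≤ 1 := by
  unfold ind; split_ifs <;> norm_num

lemma ind_integrable_cube {n : ℕ} (T : ℝ) (a : Fin n → ℝ) :
    Integrable (fun x : Fin n → ℝ => ind T (∑ j, a j * x j)) (cube n) := by
  refine Integrable.of_bound ?_ 1 ?_
  · exact ((ind_measurable T).comp (by fun_prop)).aestronglyMeasurable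
  · filter_upwards with x
    rw [Real.norm_eq_abs, abs_of_nonneg (ind_nonneg _ _)]
    exact ind_le_one _ _

/-- Clamp function, the primitive of the indicator. -/
noncomputable def clamp (T x : ℝ) : ℝ := max (-T) (min T x)

lemma ind_intervalIntegrable (T x y : ℝ) : IntervalIntegrable (ind T) volume x y := by
  rw [intervalIntegrable_iff]
  refine Measure.integrableOn_of_bounded (M := 1) (by simp) (ind_measurable T).aestronglyMeasurable ?_
  filter_upwards with x
  rw [Real.norm_eq_abs, abs_of_nonneg (ind_nonneg _ _)]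
  exact ind_le_one _ _

lemma integral_ind_nonneg {T : ℝ} (hT : 0 ≤ T) {x : ℝ} (hx : 0 ≤ x) :
    ∫ t in (0:ℝ)..x, ind T t = min T x := by
  rcases le_total x T with h | h
  · rw [min_eq_right h]
    have : ∫ t in (0:ℝ)..x, ind T t = ∫ t in (0:ℝ)..x, (1:ℝ) := by
      apply intervalIntegral.integral_congr
      intro t ht
      rw [uIcc_of_le hx] at ht
      simp only [ind]
      rw [if_pos]
      rw [abs_of_nonneg ht.1]; exact ht.2.trans h
    rw [this]; simp
  · rw [min_eq_left h]
    rw [← intervalIntegral.integral_add_adjacent_intervals (b := T)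
      (ind_intervalIntegrable _ _ _) (ind_intervalIntegrable _ _ _)]
    have h1 : ∫ t in (0:ℝ)..T, ind T t = ∫ t in (0:ℝ)..T, (1:ℝ) := by
      apply intervalIntegral.integral_congr
      intro t ht
      rw [uIcc_of_le hT] at ht
      simp only [ind]
      rw [if_pos]
      rw [abs_of_nonneg ht.1]; exact ht.2
    have h2 : ∫ t in T..x, ind T t = ∫ t in T..x, (0:ℝ) := by
      rw [intervalIntegral.integral_of_le h, intervalIntegral.integral_of_le h]
      apply setIntegral_congr_fun measurableSet_Ioc
      intro t ht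
      simp only [ind]
      rw [if_neg]
      rw [not_le, abs_of_nonneg (hT.trans ht.1.le)]
      exact ht.1
    rw [h1, h2]; simp

lemma ind_even (T y : ℝ) : ind T (-y) = ind T y := by simp [ind]

lemma integral_ind {T : ℝ} (hT : 0 ≤ T) (x : ℝ) :
    ∫ t in (0:ℝ)..x, ind T t = clamp T x := by
  rcases le_total 0 x with h | h
  · rw [integral_ind_nonneg hT h, clamp, max_eq_right]
    apply le_min <;> linarith
  · have h1 := intervalIntegral.integral_comp_neg (a := 0) (b := -x) (f := ind T)
    simp only [neg_zero, neg_neg] at h1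
    rw [intervalIntegral.integral_symm, ← h1]
    simp_rw [ind_even]
    rw [integral_ind_nonneg hT (by linarith), clamp, min_eq_right (by linarith : x ≤ T)]
    rw [← max_neg_neg]
    simp

/-- The trapezoid function: probability that a uniform on `[y-s,y+s]` lies in `[-T,T]`. -/
lemma A_ind {s T : ℝ} (hs : 0 < s) (hT : 0 ≤ T) (y : ℝ) :
    A s (ind T) y = (clamp T (y+s) - clamp T (y-s)) / (2*s) := by
  rw [A_eq_diff hs (ind_intervalIntegrable T), integral_ind hT, integral_ind hT]
  ring

lemma A_ind_lower {s T : ℝ} (hs : 0 < s) (hT : 0 ≤ T) {y : ℝ} (hy : 0 ≤ y) :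
    min 1 (T/s) - max 0 (y - |T - s|) / (2*s) ≤ A s (ind T) y := by
  rw [A_ind hs hT]
  rw [le_div_iff₀ (by positivity), sub_mul, div_mul_cancel₀ _ (by positivity)]
  rcases le_total s T with h | h
  · rw [abs_of_nonneg (by linarith), min_eq_left (by rw [le_div_iff₀ hs]; linarith)]
    unfold clamp
    rcases le_total y (T - s) with h2 | h2
    · rw [max_eq_left (by linarith), min_eq_right (by linarith), max_eq_right (by linarith),
        min_eq_right (by linarith), max_eq_right (by linarith)]
      linarith
    · rw [max_eq_right (by linarith : (0:ℝ) ≤ y - (T - s)), min_eq_left (by linarith : T ≤ y + s),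
        max_eq_right (by linarith : -T ≤ T)]
      have : max (-T) (min T (y - s)) ≤ y - s := by
        apply max_le
        · linarith
        · exact min_le_right _ _
      linarith
  · rw [abs_of_nonpos (by linarith), min_eq_right (by rw [div_le_iff₀ hs]; linarith)]
    have hTs : T / s * (2 * s) = 2 * T := by field_simp
    rw [hTs]
    unfold clamp
    rw [min_eq_left (by linarith : T ≤ y + s), max_eq_right (by linarith : -T ≤ T)]
    rcases le_total y (s - T) with h2 | h2
    · have : max (-T) (min T (y - s)) = -T := by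
        apply max_eq_left
        exact (min_le_right _ _).trans (by linarith)
      rw [this, max_eq_left (by linarith)]
      linarith
    · have : max (-T) (min T (y - s)) ≤ y - s := by
        apply max_le
        · linarith
        · exact min_le_right _ _
      rw [max_eq_right (by linarith)]
      linarith

lemma integral_max {c v : ℝ} (hc : 0 ≤ c) (hv : 0 ≤ v) :
    ∫ y in (0:ℝ)..v, max 0 (y - c) = (max 0 (v-c))^2/2 := by
  rcases le_total v c with h | h
  · rw [max_eq_left (by linarith)]
    have : ∫ y in (0:ℝ)..v, max 0 (y - c) = ∫ y in (0:ℝ)..v, (0:ℝ) := by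
      apply intervalIntegral.integral_congr
      intro t ht
      rw [uIcc_of_le hv] at ht
      simp only
      rw [max_eq_left]
      linarith [ht.2]
    rw [this]; simp
  · rw [max_eq_right (by linarith : (0:ℝ) ≤ v - c)]
    have cont : Continuous fun y : ℝ => max 0 (y - c) := by fun_prop
    rw [← intervalIntegral.integral_add_adjacent_intervals (b := c)
      (cont.intervalIntegrable _ _) (cont.intervalIntegrable _ _)]
    have h1 : ∫ y in (0:ℝ)..c, max 0 (y - c) = ∫ y in (0:ℝ)..c, (0:ℝ) := by
      apply intervalIntegral.integral_congr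
      intro t ht
      rw [uIcc_of_le hc] at ht
      simp only
      rw [max_eq_left]
      linarith [ht.2]
    have h2 : ∫ y in c..v, max 0 (y - c) = ∫ y in c..v, (y - c) := by
      apply intervalIntegral.integral_congr
      intro t ht
      rw [uIcc_of_le h] at ht
      simp only
      rw [max_eq_right]
      linarith [ht.1]
    rw [h1, h2]
    simp
    ring

/-- The unimodality (tangent line) bound. -/
theorem tangent_bound {s T α γ : ℝ} (hs : 0 < s) (hT : 0 ≤ T)
    (h : ∀ v, 0 ≤ v → 0 ≤ min 1 (T/s) * v - (max 0 (v - |T - s|))^2/(4*s) - α * v + γ * v^3)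
    {n : ℕ} (b : Fin n → ℝ) :
    α - γ * ∑ j, b j ^ 2 ≤ ∫ y, A s (ind T) (∑ j, b j * y j) ∂(cube n) := by
  set Q : ℝ → ℝ := fun y => A s (ind T) y + (3 * γ * y^2 - α) with hQdef
  have hgood1 : Continuous (A s (ind T)) := by
    have : A s (ind T) = fun y => (clamp T (y+s) - clamp T (y-s)) / (2*s) := by
      ext y; exact A_ind hs hT y
    rw [this]
    unfold clamp
    fun_prop
  have hQc : Continuous Q := by fun_prop
  have hQ : Good Q := by
    refine ⟨hQc, ?_, ?_⟩
    · intro y
      simp only [hQdef]
      rw [A_even s (ind_even T)]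
      ring
    · intro v hv
      have hlow : ∫ y in (0:ℝ)..v, ((min 1 (T/s) - max 0 (y - |T - s|) / (2*s)) +
          (3 * γ * y^2 - α)) ≤ ∫ y in (0:ℝ)..v, Q y := by
        apply intervalIntegral.integral_mono_on hv
        · exact Continuous.intervalIntegrable (by fun_prop) _ _
        · exact hQc.intervalIntegrable _ _
        · intro y hy
          simp only [hQdef]
          have := A_ind_lower hs hT hy.1
          linarith
      refine le_trans ?_ hlow
      have : ∫ y in (0:ℝ)..v, ((min 1 (T/s) - max 0 (y - |T - s|) / (2*s)) +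
          (3 * γ * y^2 - α)) = min 1 (T/s) * v - (max 0 (v - |T - s|))^2/(4*s) - α * v + γ * v^3 := by
        rw [intervalIntegral.integral_add, intervalIntegral.integral_sub,
          intervalIntegral.integral_sub, intervalIntegral.integral_div,
          integral_max (abs_nonneg _) hv]
        · simp only [intervalIntegral.integral_const_mul, integral_pow,
            intervalIntegral.integral_const, smul_eq_mul]
          push_cast
          ring
        all_goals exact Continuous.intervalIntegrable (by fun_prop) _ _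
      rw [this]
      exact h v hv
  have hcube := hQ.cube b
  have hsplit : ∫ y, Q (∑ j, b j * y j) ∂(cube n) =
      (∫ y, A s (ind T) (∑ j, b j * y j) ∂(cube n)) +
        ∫ y, (3 * γ) * ((∑ j, b j * y j)^2 + 0) - α ∂(cube n) := by
    rw [← integral_add]
    · congr 1
      ext y
      simp only [hQdef]
      ring
    · exact integrable_cube (by fun_prop)
    · exact integrable_cube (by fun_prop)
  rw [hsplit, integral_sub (integrable_cube (by fun_prop)) (integrable_cube (by fun_prop)),
    integral_const_mul, cube_sq] at hcube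
  simp only [integral_const, probReal_univ, smul_eq_mul] at hcube
  linarith

end Pool.Agent.Helper88.Slab
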