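import Mathlib

set_option autoImplicit false

open MeasureTheory Set Real

namespace Pool.Agent.Helper88.Slab

lemma nonneg_of_deriv {f f' : ℝ → ℝ} (hf : ∀ x, HasDerivAt f (f' x) x) (h0 : 0 ≤ f 0)
    (h : ∀ x, 0 ≤ x → 0 ≤ f' x) {x : ℝ} (hx : 0 ≤ x) : 0 ≤ f x := by
  have hmono : MonotoneOn f (Ici 0) := by
    apply monotoneOn_of_deriv_nonneg (convex_Ici 0)
    · exact fun y _ => (hf y).continuousAt.continuousWithinAt
    · exact fun y _ => (hf y).differentiableAt.differentiableWithinAt
    · intro y hy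
      rw [(hf y).deriv]
      rw [interior_Ici] at hy
      exact h y (le_of_lt hy)
  exact h0.trans (hmono (mem_Ici.mpr le_rfl) (mem_Ici.mpr hx) hx)

/-- alternating partial sums of the exponential -/
noncomputable def E (n : ℕ) (z : ℝ) : ℝ := ∑ k ∈ Finset.range (n+1), (-z)^k / (k.factorial : ℝ)

lemma hasDerivAt_E (n : ℕ) (z : ℝ) : HasDerivAt (E (n+1)) (-(E n z)) z := by
  unfold E
  have h : ∀ k ∈ Finset.range (n+1+1), HasDerivAt (fun z : ℝ => (-z)^k / (k.factorial : ℝ))
      ((k : ℝ) * (-z)^(k-1) * (-1) / (k.factorial : ℝ)) z := by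
    intro k _
    have := ((hasDerivAt_id z).neg.pow k).div_const (k.factorial : ℝ)
    simpa using this
  have h2 := HasDerivAt.fun_sum h
  refine h2.congr_deriv ?_
  rw [Finset.sum_range_succ', ← Finset.sum_neg_distrib]
  simp only [Nat.cast_zero, zero_mul, zero_div, add_zero]
  apply Finset.sum_congr rfl
  intro k _
  rw [Nat.factorial_succ]
  push_cast
  have : ((k:ℝ) + 1) ≠ 0 := by positivity
  have h3 : (k.factorial : ℝ) ≠ 0 := by positivity
  field_simp

lemma E_alt (n : ℕ) : ∀ z : ℝ, 0 ≤ z → 0 ≤ (-1:ℝ)^n * (E n z - Real.exp (-z)) := by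
  induction n with
  | zero =>
    intro z hz
    simp [E, hz]
  | succ n ih =>
    intro z hz
    refine nonneg_of_deriv (f := fun z => (-1:ℝ)^(n+1) * (E (n+1) z - Real.exp (-z)))
      (f' := fun z => (-1:ℝ)^n * (E n z - Real.exp (-z))) ?_ ?_ (fun x hx => ih x hx) hz
    · intro x
      have h1 := (hasDerivAt_E n x).sub ((hasDerivAt_id x).neg.exp)
      have h2 := h1.const_mul ((-1:ℝ)^(n+1))
      refine h2.congr_deriv ?_
      simp only [Pi.neg_apply, id_eq]
      rw [pow_succ]
      ring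
    · simp only [E]
      rw [Finset.sum_range_succ']
      simp

lemma exp_neg_le (z : ℝ) (hz : 0 ≤ z) : Real.exp (-z) ≤ 1 - z + z^2/2 - z^3/6 + z^4/24 := by
  have := E_alt 4 z hz
  simp only [E, Finset.sum_range_succ, Finset.sum_range_zero, Nat.factorial] at this
  push_cast at this
  linarith

lemma exp_neg_ge3 (z : ℝ) (hz : 0 ≤ z) : 1 - z + z^2/2 - z^3/6 ≤ Real.exp (-z) := by
  have := E_alt 3 z hz
  simp only [E, Finset.sum_range_succ, Finset.sum_range_zero, Nat.factorial] at this
  push_cast at this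
  linarith

lemma exp_neg_ge5 (z : ℝ) (hz : 0 ≤ z) :
    1 - z + z^2/2 - z^3/6 + z^4/24 - z^5/120 ≤ Real.exp (-z) := by
  have := E_alt 5 z hz
  simp only [E, Finset.sum_range_succ, Finset.sum_range_zero, Nat.factorial] at this
  push_cast at this
  linarith

lemma exp_neg_ge7 (z : ℝ) (hz : 0 ≤ z) :
    1 - z + z^2/2 - z^3/6 + z^4/24 - z^5/120 + z^6/720 - z^7/5040 ≤ Real.exp (-z) := by
  have := E_alt 7 z hz
  simp only [E, Finset.sum_range_succ, Finset.sum_range_zero, Nat.factorial] at this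
  push_cast at this
  linarith

lemma sin_ge3 {x : ℝ} (hx : 0 ≤ x) : x - x^3/6 ≤ Real.sin x := by
  have : 0 ≤ Real.sin x - (x - x^3/6) := by
    refine nonneg_of_deriv (f := fun x => Real.sin x - (x - x^3/6)) (f' := fun x => Real.cos x - (1 - x^2/2)) ?_ ?_ ?_ hx
    · intro x
      have := (Real.hasDerivAt_sin x).sub ((hasDerivAt_id x).sub ((hasDerivAt_pow 3 x).div_const 6))
      refine this.congr_deriv ?_
      norm_num
      ring
    · simp
    · intro x _
      have := Real.one_sub_sq_div_two_le_cos (x := x)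
      linarith
  linarith

lemma cos_le4 {x : ℝ} (hx : 0 ≤ x) : Real.cos x ≤ 1 - x^2/2 + x^4/24 := by
  have : 0 ≤ (1 - x^2/2 + x^4/24) - Real.cos x := by
    refine nonneg_of_deriv (f := fun x => (1 - x^2/2 + x^4/24) - Real.cos x) (f' := fun x => Real.sin x - (x - x^3/6)) ?_ ?_ ?_ hx
    · intro x
      have := (((hasDerivAt_const x (1:ℝ)).sub ((hasDerivAt_pow 2 x).div_const 2)).add ((hasDerivAt_pow 4 x).div_const 24)).sub (Real.hasDerivAt_cos x)
      refine this.congr_deriv ?_
      norm_num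
      ring
    · simp
    · intro x hx
      have := sin_ge3 hx
      linarith
  linarith

lemma sin_le5 {x : ℝ} (hx : 0 ≤ x) : Real.sin x ≤ x - x^3/6 + x^5/120 := by
  have : 0 ≤ (x - x^3/6 + x^5/120) - Real.sin x := by
    refine nonneg_of_deriv (f := fun x => (x - x^3/6 + x^5/120) - Real.sin x) (f' := fun x => (1 - x^2/2 + x^4/24) - Real.cos x) ?_ ?_ ?_ hx
    · intro x
      have := (((hasDerivAt_id x).sub ((hasDerivAt_pow 3 x).div_const 6)).add ((hasDerivAt_pow 5 x).div_const 120)).sub (Real.hasDerivAt_sin x)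
      refine this.congr_deriv ?_
      norm_num
      ring
    · simp
    · intro x hx
      have := cos_le4 hx
      linarith
  linarith

lemma cos_ge6 {x : ℝ} (hx : 0 ≤ x) : 1 - x^2/2 + x^4/24 - x^6/720 ≤ Real.cos x := by
  have : 0 ≤ Real.cos x - (1 - x^2/2 + x^4/24 - x^6/720) := by
    refine nonneg_of_deriv (f := fun x => Real.cos x - (1 - x^2/2 + x^4/24 - x^6/720)) (f' := fun x => (x - x^3/6 + x^5/120) - Real.sin x) ?_ ?_ ?_ hx
    · intro x
      have := (Real.hasDerivAt_cos x).sub ((((hasDerivAt_const x (1:ℝ)).sub ((hasDerivAt_pow 2 x).div_const 2)).add ((hasDerivAt_pow 4 x).div_const 24)).sub ((hasDerivAt_pow 6 x).div_const 720))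
      refine this.congr_deriv ?_
      norm_num
      ring
    · simp
    · intro x hx
      have := sin_le5 hx
      linarith
  linarith

lemma sin_ge7 {x : ℝ} (hx : 0 ≤ x) : x - x^3/6 + x^5/120 - x^7/5040 ≤ Real.sin x := by
  have : 0 ≤ Real.sin x - (x - x^3/6 + x^5/120 - x^7/5040) := by
    refine nonneg_of_deriv (f := fun x => Real.sin x - (x - x^3/6 + x^5/120 - x^7/5040)) (f' := fun x => Real.cos x - (1 - x^2/2 + x^4/24 - x^6/720)) ?_ ?_ ?_ hx
    · intro x
      have := (Real.hasDerivAt_sin x).sub ((((hasDerivAt_id x).sub ((hasDerivAt_pow 3 x).div_const 6)).add ((hasDerivAt_pow 5 x).div_const 120)).sub ((hasDerivAt_pow 7 x).div_const 5040))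
      refine this.congr_deriv ?_
      norm_num
      ring
    · simp
    · intro x hx
      have := cos_ge6 hx
      linarith
  linarith

lemma poly_ineq {w : ℝ} (h0 : 0 ≤ w) (h1 : w ≤ 3.61) :
    1 - (w/6 + w^2/125) + (w/6 + w^2/125)^2/2 - (w/6 + w^2/125)^3/6 + (w/6 + w^2/125)^4/24 ≤
      1 - w/6 + w^2/120 - w^3/5040 := by
  have e : (1 - w/6 + w^2/120 - w^3/5040) - (1 - (w/6 + w^2/125) + (w/6 + w^2/125)^2/2 -
      (w/6 + w^2/125)^3/6 + (w/6 + w^2/125)^4/24) =
      w^2 * (11/4500 - 431/567000 * w + w^2 * (22823/486000000 - 17/20250000 * w - 101/281250000 * w^2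
        - 1/70312500 * w^3 - 1/5859375000 * w^4)) := by ring
  have h2 : w^2 ≤ 3.61^2 := by gcongr
  have h3 : w^3 ≤ 3.61^3 := by gcongr
  have h4 : w^4 ≤ 3.61^4 := by gcongr
  have h5 : 3.85e-5 ≤ (22823/486000000 - 17/20250000 * w - 101/281250000 * w^2
        - 1/70312500 * w^3 - 1/5859375000 * w^4 : ℝ) := by
    norm_num at *
    linarith
  have h6 : w^2 * 3.85e-5 ≤ w^2 * (22823/486000000 - 17/20250000 * w - 101/281250000 * w^2
        - 1/70312500 * w^3 - 1/5859375000 * w^4 : ℝ) := mul_le_mul_of_nonneg_left h5 (sq_nonneg w)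
  have h7 : 0 ≤ 11/4500 - 431/567000 * w + w^2 * 3.85e-5 := by
    nlinarith [mul_nonneg h0 (by linarith : 0 ≤ 3.61 - w), sq_nonneg (w - 3.61)]
  have h8 : 0 ≤ w^2 * (11/4500 - 431/567000 * w + w^2 * (22823/486000000 - 17/20250000 * w - 101/281250000 * w^2
        - 1/70312500 * w^3 - 1/5859375000 * w^4)) := by
    apply mul_nonneg (sq_nonneg w)
    linarith
  linarith

/-- (N1) -/
lemma sinc_ge {y : ℝ} (hy : |y| ≤ 1.9) : Real.exp (-(y^2/6 + y^4/125)) ≤ sinc y := by
  wlog h : 0 ≤ y generalizing y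
  · have := this (y := -y) (by rwa [abs_neg]) (by linarith)
    rw [sinc_neg] at this
    convert this using 2
    ring
  rcases h.eq_or_lt with rfl | hpos
  · simp
  rw [abs_of_pos hpos] at hy
  rw [sinc_of_ne_zero hpos.ne', le_div_iff₀ hpos]
  have h1 := exp_neg_le (y^2/6 + y^4/125) (by positivity)
  have h2 := sin_ge7 h
  have h3 := poly_ineq (w := y^2) (by positivity) (by nlinarith)
  have h4 : (1 - (y^2/6 + y^4/125) + (y^2/6 + y^4/125)^2/2 - (y^2/6 + y^4/125)^3/6 + (y^2/6 + y^4/125)^4/24) ≤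
      1 - y^2/6 + y^4/120 - y^6/5040 := by
    have e1 : (y^2)^2 = y^4 := by ring
    have e2 : (y^2)^3 = y^6 := by ring
    rw [e1, e2] at h3
    exact h3
  have h5 : Real.exp (-(y^2/6 + y^4/125)) * y ≤ (1 - y^2/6 + y^4/120 - y^6/5040) * y :=
    mul_le_mul_of_nonneg_right (h1.trans h4) h
  refine h5.trans (le_trans (le_of_eq ?_) h2)
  ring

/-- (N2) -/
lemma sinc_le {y : ℝ} (hy : |y| ≤ π) : sinc y ≤ Real.exp (-(y^2/6)) := by
  wlog h : 0 ≤ y generalizing y
  · have := this (y := -y) (by rwa [abs_neg]) (by linarith)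
    rw [sinc_neg] at this
    convert this using 3
    ring
  rcases h.eq_or_lt with rfl | hpos
  · simp
  rw [abs_of_pos hpos] at hy
  rw [sinc_of_ne_zero hpos.ne', div_le_iff₀ hpos]
  rcases le_total (y^2) 7.2 with h1 | h1
  · have h2 := exp_neg_ge3 (y^2/6) (by positivity)
    have h3 := sin_le5 h
    have h4 : (1 - y^2/6 + y^4/120) ≤ 1 - (y^2/6) + (y^2/6)^2/2 - (y^2/6)^3/6 := by
      have e : 1 - (y^2/6) + (y^2/6)^2/2 - (y^2/6)^3/6 - (1 - y^2/6 + y^4/120) = y^4 * (7.2 - y^2)/1296 := by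
        norm_num
        ring
      have : 0 ≤ y^4 * (7.2 - y^2)/1296 := by
        apply div_nonneg _ (by norm_num)
        apply mul_nonneg (by positivity)
        linarith
      linarith
    have h5 : (1 - y^2/6 + y^4/120) * y ≤ Real.exp (-(y^2/6)) * y :=
      mul_le_mul_of_nonneg_right (h4.trans h2) h
    refine le_trans h3 (le_trans (le_of_eq ?_) h5)
    ring
  · have hy2 : 2.68 ≤ y := by nlinarith
    have hpi := Real.pi_lt_d4
    have h2 : Real.sin y ≤ 0.4616 := by
      have : Real.sin y = Real.sin (π - y) := by rw [Real.sin_pi_sub]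
      rw [this]
      have h3 : Real.sin (π - y) ≤ π - y := Real.sin_le (by linarith)
      linarith
    have h3 : 0.18 ≤ Real.exp (-(y^2/6)) := by
      have h4 : Real.exp (-1.645) ≤ Real.exp (-(y^2/6)) := by
        apply Real.exp_le_exp.mpr
        have : y ≤ 3.1416 := by linarith
        nlinarith
      have h5 := exp_neg_ge7 1.645 (by norm_num)
      refine le_trans ?_ h4
      refine le_trans ?_ h5
      norm_num
    nlinarith

lemma abs_sinc_le_inv {y : ℝ} (hy : y ≠ 0) : |sinc y| ≤ 1/|y| := by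
  rw [sinc_of_ne_zero hy, abs_div]
  gcongr
  exact abs_sin_le_one y

lemma sinc_nonneg {y : ℝ} (hy : |y| ≤ π) : 0 ≤ sinc y := by
  wlog h : 0 ≤ y generalizing y
  · have := this (y := -y) (by rwa [abs_neg]) (by linarith)
    rwa [sinc_neg] at this
  rcases h.eq_or_lt with rfl | hpos
  · simp
  rw [abs_of_pos hpos] at hy
  rw [sinc_of_ne_zero hpos.ne']
  exact div_nonneg (Real.sin_nonneg_of_nonneg_of_le_pi h hy) h

/-- (N3) tail bound for a single factor -/
lemma sinc_tail {a t : ℝ} (ha : |a| ≤ 1/2) (ht : π ≤ t) :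
    |sinc (a * (2 * t))| ≤ Real.exp (-(4 * a^2 * Real.log t)) := by
  have hpi := Real.pi_gt_three
  have ht0 : 0 < t := by linarith
  wlog h : 0 ≤ a generalizing a
  · have := this (a := -a) (by rwa [abs_neg]) (by linarith)
    rw [neg_mul, sinc_neg] at this
    convert this using 5
    ring
  rw [abs_of_nonneg h] at ha
  set y := a * (2 * t) with hy
  have hy0 : 0 ≤ y := by positivity
  have hyt : y ≤ t := by rw [hy]; nlinarith
  have ha2 : 4 * a^2 * t^2 = y^2 := by rw [hy]; ring
  rcases le_total y π with h1 | h1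
  · rw [abs_of_nonneg (sinc_nonneg (by rwa [abs_of_nonneg hy0]))]
    refine (sinc_le (by rwa [abs_of_nonneg hy0])).trans ?_
    apply Real.exp_le_exp.mpr
    apply neg_le_neg
    rw [← ha2]
    have hlog : Real.log t ≤ t^2/6 := by
      have h2 : Real.log (t / Real.exp 1) ≤ t / Real.exp 1 - 1 :=
        Real.log_le_sub_one_of_pos (by positivity)
      rw [Real.log_div ht0.ne' (by positivity), Real.log_exp] at h2
      have h3 : t / Real.exp 1 ≤ t^2/6 := by
        rw [div_le_div_iff₀ (by positivity) (by norm_num)]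
        have := Real.exp_one_gt_d9
        nlinarith
      linarith
    have : 4 * a^2 * Real.log t ≤ 4 * a^2 * (t^2/6) := by
      apply mul_le_mul_of_nonneg_left hlog (by positivity)
    linarith
  · have hypos : 0 < y := by linarith
    refine (abs_sinc_le_inv hypos.ne').trans ?_
    rw [abs_of_pos hypos]
    have h2 : 1/y = Real.exp (-(Real.log y)) := by
      rw [Real.exp_neg, Real.exp_log hypos, one_div]
    rw [h2]
    apply Real.exp_le_exp.mpr
    apply neg_le_neg
    have hlogy : 1 ≤ Real.log y := by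
      rw [Real.le_log_iff_exp_le hypos]
      have := Real.exp_one_lt_d9
      linarith
    have hρ : Real.log t = Real.log y + Real.log (t/y) := by
      rw [Real.log_div ht0.ne' hypos.ne']; ring
    have hρ2 : Real.log (t/y) ≤ t/y - 1 := Real.log_le_sub_one_of_pos (by positivity)
    have key : y^2 * Real.log t ≤ t^2 * Real.log y := by
      rw [hρ]
      have h3 : y^2 * Real.log (t/y) ≤ y^2 * (t/y - 1) := by gcongr
      have h4 : y^2 * (t/y - 1) = y * t - y^2 := by field_simp
      have h5 : 0 ≤ (t^2 - y^2) * (Real.log y - 1) := by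
        apply mul_nonneg _ (by linarith)
        nlinarith
      nlinarith
    have h6 : 4 * a^2 = y^2 / t^2 := by rw [← ha2]; field_simp
    rw [h6, div_mul_eq_mul_div, div_le_iff₀ (by positivity)]
    linarith

end Pool.Agent.Helper88.Slab
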