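import Pool.Agent.Helper88.SlabFourier
import Pool.Agent.Helper88.SlabNumeric

set_option autoImplicit false

open MeasureTheory Set Real
open scoped ENNReal Topology

namespace Pool.Agent.Helper88.Slab

/-- the product of sinc's -/
noncomputable def P {n : ℕ} (a : Fin n → ℝ) (x : ℝ) : ℝ := ∏ j, sinc (a j * x)

/-- the Gaussian characteristic function -/
noncomputable def g (x : ℝ) : ℝ := Real.exp (-(x^2/6))

lemma g_pos (x : ℝ) : 0 < g x := Real.exp_pos _

lemma P_nonneg {n : ℕ} {a : Fin n → ℝ} (hs : ∀ j, |a j| ≤ 1/2) {x : ℝ} (hx : |x| ≤ 2*π) :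
    0 ≤ P a x := by
  apply Finset.prod_nonneg
  intro j _
  apply sinc_nonneg
  rw [abs_mul]
  have := mul_le_mul (hs j) hx (abs_nonneg _) (by norm_num)
  linarith

lemma P_le {n : ℕ} {a : Fin n → ℝ} (ha : ∑ j, a j ^ 2 = 1) (hs : ∀ j, |a j| ≤ 1/2) {x : ℝ}
    (hx : |x| ≤ 2*π) : P a x ≤ g x := by
  have h1 : ∀ j, |a j * x| ≤ π := by
    intro j
    rw [abs_mul]
    have := mul_le_mul (hs j) hx (abs_nonneg _) (by norm_num)
    linarith
  have h2 : P a x ≤ ∏ j, Real.exp (-((a j * x)^2/6)) := by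
    apply Finset.prod_le_prod
    · intro j _; exact sinc_nonneg (h1 j)
    · intro j _; exact sinc_le (h1 j)
  refine h2.trans (le_of_eq ?_)
  rw [← Real.exp_sum, g]
  congr 1
  have : ∑ j, -((a j * x)^2/6) = -((∑ j, a j^2) * x^2/6) := by
    rw [Finset.sum_mul, Finset.sum_div, ← Finset.sum_neg_distrib]
    apply Finset.sum_congr rfl
    intro j _
    ring
  rw [this, ha, one_mul]

lemma sum_four {n : ℕ} {a : Fin n → ℝ} (ha : ∑ j, a j ^ 2 = 1) (hs : ∀ j, |a j| ≤ 1/2) :
    ∑ j, a j ^ 4 ≤ 1/4 := by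
  have : ∑ j, a j ^ 4 ≤ ∑ j, (1/4) * a j ^ 2 := by
    apply Finset.sum_le_sum
    intro j _
    have h1 : a j ^ 2 ≤ (1/2)^2 := by
      rw [← sq_abs]
      exact pow_le_pow_left₀ (abs_nonneg _) (hs j) 2
    have : a j ^ 4 = a j^2 * a j^2 := by ring
    rw [this]
    nlinarith [sq_nonneg (a j)]
  rw [← Finset.mul_sum, ha] at this
  linarith

lemma P_ge {n : ℕ} {a : Fin n → ℝ} (ha : ∑ j, a j ^ 2 = 1) (hs : ∀ j, |a j| ≤ 1/2) {x : ℝ}
    (hx : |x| ≤ 3.8) : g x * (1 - x^4/500) ≤ P a x := by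
  have h1 : ∀ j, |a j * x| ≤ 1.9 := by
    intro j
    rw [abs_mul]
    have := mul_le_mul (hs j) hx (abs_nonneg _) (by norm_num)
    linarith
  have h2 : ∏ j, Real.exp (-((a j * x)^2/6 + (a j * x)^4/125)) ≤ P a x := by
    apply Finset.prod_le_prod
    · intro j _; exact (Real.exp_pos _).le
    · intro j _; exact sinc_ge (h1 j)
  refine le_trans ?_ h2
  rw [← Real.exp_sum, g]
  have e : ∑ j, -((a j * x)^2/6 + (a j * x)^4/125) = -((∑ j, a j^2) * x^2/6) + -((∑ j, a j^4) * x^4/125) := by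
    rw [Finset.sum_mul, Finset.sum_div, Finset.sum_mul, Finset.sum_div, ← Finset.sum_neg_distrib,
      ← Finset.sum_neg_distrib, ← Finset.sum_add_distrib]
    apply Finset.sum_congr rfl
    intro j _
    ring
  rw [e, ha, one_mul, Real.exp_add]
  apply mul_le_mul_of_nonneg_left _ (Real.exp_pos _).le
  have h3 := Real.add_one_le_exp (-((∑ j, a j^4) * x^4/125))
  have h4 := sum_four ha hs
  have h5 : (∑ j, a j^4) * x^4 ≤ 1/4 * x^4 := by gcongr
  linarith

lemma P_tail {n : ℕ} {a : Fin n → ℝ} (ha : ∑ j, a j ^ 2 = 1) (hs : ∀ j, |a j| ≤ 1/2) {x : ℝ}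
    (hx : 2 * π ≤ x) : |P a x| ≤ 16 / x^4 := by
  have hpi := Real.pi_pos
  have hx0 : 0 < x := by linarith
  obtain ⟨t, rfl⟩ : ∃ t, x = 2 * t := ⟨x/2, by ring⟩
  have ht : π ≤ t := by linarith
  have ht0 : 0 < t := by linarith
  have h1 : |P a (2*t)| ≤ ∏ j, Real.exp (-(4 * a j^2 * Real.log t)) := by
    rw [P, Finset.abs_prod]
    apply Finset.prod_le_prod
    · intro j _; exact abs_nonneg _
    · intro j _; exact sinc_tail (hs j) ht
  refine h1.trans (le_of_eq ?_)
  rw [← Real.exp_sum]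
  have e : ∑ j, -(4 * a j^2 * Real.log t) = -(4 * (∑ j, a j^2) * Real.log t) := by
    rw [Finset.mul_sum, Finset.sum_mul, ← Finset.sum_neg_distrib]
  rw [e, ha, mul_one, Real.exp_neg]
  have e2 : 4 * Real.log t = Real.log (t^4) := by rw [Real.log_pow]; norm_num
  rw [e2, Real.exp_log (by positivity)]
  field_simp
  norm_num

lemma P_even {n : ℕ} (a : Fin n → ℝ) (x : ℝ) : P a |x| = P a x := by
  rcases abs_choice x with h | h
  · rw [h]
  · rw [h]
    unfold P
    apply Finset.prod_congr rfl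
    intro j _
    rw [mul_neg, sinc_neg]

lemma g_even (x : ℝ) : g |x| = g x := by simp [g]

lemma g_integrable : Integrable g := by
  have := integrable_exp_neg_mul_sq (b := 1/6) (by norm_num)
  refine this.congr ?_
  filter_upwards with x
  rw [g]; congr 1; ring

lemma g_cont : Continuous g := by unfold g; fun_prop

lemma P_cont {n : ℕ} (a : Fin n → ℝ) : Continuous (P a) := by
  unfold P
  apply continuous_finsetProd
  intro j _
  exact continuous_sinc.comp (by fun_prop)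

lemma sincP_integrable {n : ℕ} (a : Fin n → ℝ) (i : Fin n) (hi : a i ≠ 0) {T : ℝ} (hT : 0 < T) :
    Integrable (fun x => sinc (T * x) * P a x) := by
  have h0 := integrable_sinc_mul (abs_pos.mpr hi) hT
  refine h0.mono ?_ ?_
  · exact ((continuous_sinc.comp (by fun_prop)).mul (P_cont a)).aestronglyMeasurable
  · filter_upwards with x
    rw [norm_mul, norm_mul]
    apply mul_le_mul_of_nonneg_left _ (norm_nonneg _)
    rw [P, ← Finset.mul_prod_erase _ _ (Finset.mem_univ i), norm_mul]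
    have e : ‖sinc (|a i| * x)‖ = ‖sinc (a i * x)‖ := by
      rcases abs_choice (a i) with h | h
      · rw [h]
      · rw [h, neg_mul, sinc_neg]
    rw [e]
    apply mul_le_of_le_one_right (norm_nonneg _)
    rw [Real.norm_eq_abs, Finset.abs_prod]
    apply Finset.prod_le_one
    · intro j _; exact abs_nonneg _
    · intro j _; exact abs_sinc_le_one _

lemma sincg_integrable {T : ℝ} :
    Integrable (fun x => sinc (T * x) * g x) := by
  refine g_integrable.mono ?_ ?_
  · exact ((continuous_sinc.comp (by fun_prop)).mul g_cont).aestronglyMeasurable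
  · filter_upwards with x
    rw [norm_mul]
    apply mul_le_of_le_one_left (norm_nonneg _)
    exact abs_sinc_le_one _

/-- Gaussian value -/
lemma gauss_value {T : ℝ} (hT : 0 < T) :
    (T/π) * ∫ x, sinc (T * x) * g x = (Real.sqrt (6 * π) / π) * ∫ y in (0:ℝ)..T, Real.exp (-(3/2) * y^2) := by
  have h1 : ∀ x : ℝ, T * sinc (T * x) = ∫ y in (0:ℝ)..T, Real.cos (x * y) := by
    intro x
    rcases eq_or_ne x 0 with rfl | hx
    · simp
    · rw [intervalIntegral.integral_comp_mul_left (fun z => Real.cos z) hx, integral_cos,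
        sinc_of_ne_zero (by positivity)]
      simp only [mul_zero, Real.sin_zero, sub_zero, smul_eq_mul]
      rw [mul_comm x T]
      field_simp
  have h2 : T * ∫ x, sinc (T * x) * g x = ∫ x, ∫ y in (0:ℝ)..T, Real.cos (x * y) * g x := by
    rw [← integral_const_mul]
    congr 1
    ext x
    rw [← mul_assoc, h1, intervalIntegral.integral_mul_const]
  have hjoint : Integrable (Function.uncurry fun (x y : ℝ) => Real.cos (x * y) * g x)
      (volume.prod (volume.restrict (uIoc 0 T))) := by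
    have hdom : Integrable (fun p : ℝ × ℝ => g p.1 * 1) (volume.prod (volume.restrict (uIoc 0 T))) :=
      Integrable.mul_prod (f := g) (g := fun _ : ℝ => (1:ℝ)) g_integrable (by
        have : IsFiniteMeasure (volume.restrict (uIoc (0:ℝ) T)) := by
          constructor
          simp [uIoc]
        exact integrable_const _)
    refine hdom.mono ?_ ?_
    · have hc : Continuous (Function.uncurry fun (x y : ℝ) => Real.cos (x * y) * g x) := by
        have := g_cont
        unfold Function.uncurry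
        fun_prop
      exact hc.aestronglyMeasurable
    · filter_upwards with p
      simp only [Function.uncurry, mul_one]
      rw [norm_mul]
      exact mul_le_of_le_one_left (norm_nonneg _) (abs_cos_le_one _)
  have h3 : ∫ x, ∫ y in (0:ℝ)..T, Real.cos (x * y) * g x = ∫ y in (0:ℝ)..T, ∫ x, Real.cos (x * y) * g x := by
    simp_rw [intervalIntegral.integral_of_le hT.le]
    rw [uIoc_of_le hT.le] at hjoint
    exact integral_integral_swap hjoint
  have h4 : ∀ y : ℝ, ∫ x, Real.cos (x * y) * g x = Real.sqrt (6 * π) * Real.exp (-(3/2) * y^2) := by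
    intro y
    rw [← gauss_cos y]
    congr 1
    ext x
    rw [g, neg_div]
  rw [div_mul_eq_mul_div, h2, h3]
  simp_rw [h4]
  rw [intervalIntegral.integral_const_mul]
  ring

lemma T0_bounds : 0.82842 < T0 ∧ T0 < 0.82844 := by
  obtain ⟨q1, q2⟩ := sqrt2_bounds
  unfold T0
  constructor <;> linarith

/-- the difference integrand -/
noncomputable def F {n : ℕ} (a : Fin n → ℝ) (x : ℝ) : ℝ := sinc (T0 * x) * (P a x - g x)

lemma F_int {n : ℕ} (a : Fin n → ℝ) (i : Fin n) (hi : a i ≠ 0) : Integrable (F a) := by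
  have := (sincP_integrable a i hi T0_pos).sub (sincg_integrable (T := T0))
  refine this.congr ?_
  filter_upwards with x
  simp only [Pi.sub_apply, F]
  ring

lemma T_sinc {x : ℝ} (hx : 0 < x) : T0 * sinc (T0 * x) = Real.sin (T0 * x) / x := by
  have := T0_pos
  rw [sinc_of_ne_zero (by positivity)]
  field_simp

lemma F_ge1 {n : ℕ} {a : Fin n → ℝ} (ha : ∑ j, a j ^ 2 = 1) (hs : ∀ j, |a j| ≤ 1/2) {x : ℝ}
    (hx0 : 0 < x) (hx : x ≤ 3.8) : -(x^3 * g x / 500) ≤ T0 * F a x := by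
  have hpi := Real.pi_gt_three
  have h1 : P a x ≤ g x := P_le ha hs (by rw [abs_of_pos hx0]; linarith)
  have h2 := P_ge ha hs (x := x) (by rw [abs_of_pos hx0]; exact hx)
  have hg := g_pos x
  rw [F, ← mul_assoc, T_sinc hx0]
  have h3 : 0 ≤ g x - P a x := by linarith
  have h4 : g x - P a x ≤ g x * (x^4/500) := by linarith
  have h5 : Real.sin (T0 * x) / x * (g x - P a x) ≤ 1 / x * (g x * (x^4/500)) := by
    have h6 : Real.sin (T0 * x) / x ≤ 1/x := by
      gcongr
      exact sin_le_one _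
    calc Real.sin (T0 * x) / x * (g x - P a x) ≤ 1/x * (g x - P a x) :=
          mul_le_mul_of_nonneg_right h6 h3
      _ ≤ 1 / x * (g x * (x^4/500)) := mul_le_mul_of_nonneg_left h4 (by positivity)
  have h7 : 1 / x * (g x * (x^4/500)) = x^3 * g x / 500 := by
    field_simp
  linarith

lemma F_ge2 {n : ℕ} {a : Fin n → ℝ} (ha : ∑ j, a j ^ 2 = 1) (hs : ∀ j, |a j| ≤ 1/2) {x : ℝ}
    (hx0 : 3.8 ≤ x) (hx : x ≤ 2 * π) : 0 ≤ T0 * F a x := by
  have hpi := Real.pi_lt_d4
  have hpos : 0 < x := by linarith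
  obtain ⟨t1, t2⟩ := T0_bounds
  have h1 : P a x ≤ g x := P_le ha hs (by rw [abs_of_pos hpos]; linarith)
  rw [F, ← mul_assoc, T_sinc hpos]
  have h3 : P a x - g x ≤ 0 := by linarith
  apply mul_nonneg_of_nonpos_of_nonpos _ h3
  apply div_nonpos_of_nonpos_of_nonneg _ hpos.le
  have hlow : π ≤ T0 * x := by
    have : 0.82842 * 3.8 ≤ T0 * x := by
      apply mul_le_mul t1.le hx0 (by norm_num) T0_pos.le
    linarith
  have hup : T0 * x ≤ 2 * π := by
    have : T0 * x ≤ 1 * x := by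
      apply mul_le_mul_of_nonneg_right _ hpos.le
      linarith
    linarith
  have : Real.sin (T0 * x) = - Real.sin (T0 * x - π) := by
    rw [Real.sin_sub_pi]; ring
  rw [this]
  have h5 : 0 ≤ Real.sin (T0 * x - π) := Real.sin_nonneg_of_nonneg_of_le_pi (by linarith) (by linarith)
  linarith

lemma F_ge3 {n : ℕ} {a : Fin n → ℝ} (ha : ∑ j, a j ^ 2 = 1) (hs : ∀ j, |a j| ≤ 1/2) {x : ℝ}
    (hx : 2 * π ≤ x) : -(16 / x^5 + x * g x / (4*π^2)) ≤ T0 * F a x := by
  have hpi := Real.pi_pos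
  have hpos : 0 < x := by linarith
  have hg := g_pos x
  have h1 := P_tail ha hs hx
  rw [F, ← mul_assoc, T_sinc hpos]
  have h2 : |Real.sin (T0 * x) / x * (P a x - g x)| ≤ 1/x * (16/x^4 + g x) := by
    rw [abs_mul]
    apply mul_le_mul
    · rw [abs_div, abs_of_pos hpos]
      gcongr
      exact abs_sin_le_one _
    · calc |P a x - g x| ≤ |P a x| + |g x| := abs_sub _ _
        _ ≤ 16/x^4 + g x := by rw [abs_of_pos hg]; linarith
    · exact abs_nonneg _
    · positivity
  have h3 : 1/x * (16/x^4 + g x) ≤ 16 / x^5 + x * g x / (4*π^2) := by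
    have h4 : 1/x ≤ x/(4*π^2) := by
      rw [div_le_div_iff₀ hpos (by positivity)]
      nlinarith
    have h5 : 1/x * g x ≤ x/(4*π^2) * g x := mul_le_mul_of_nonneg_right h4 hg.le
    have h6 : 1/x * (16/x^4) = 16/x^5 := by field_simp
    have h7 : x/(4*π^2) * g x = x * g x / (4*π^2) := by ring
    rw [mul_add, h6, ← h7]
    linarith
  have := neg_abs_le (Real.sin (T0 * x) / x * (P a x - g x))
  linarith

lemma hasDerivAt_g (x : ℝ) : HasDerivAt g (-(x/3) * g x) x := by
  have h := (((hasDerivAt_pow 2 x).div_const 6).neg).exp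
  refine h.congr_deriv ?_
  simp only [g]
  norm_num
  ring

lemma int1 : ∫ x in (0:ℝ)..3.8, x^3 * g x / 500 = (18 - 61.32 * Real.exp (-(3.8^2/6)))/500 := by
  have h : ∀ x ∈ uIcc (0:ℝ) 3.8, HasDerivAt (fun x => -(3 * (x^2+6) * g x)/500) (x^3 * g x / 500) x := by
    intro x _
    have h1 := ((((hasDerivAt_pow 2 x).add_const 6).const_mul 3).mul (hasDerivAt_g x)).neg.div_const 500
    refine h1.congr_deriv ?_
    norm_num
    ring
  rw [intervalIntegral.integral_eq_sub_of_hasDerivAt h]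
  · simp only [g]
    norm_num
    ring
  · exact ((by fun_prop : Continuous fun x : ℝ => x^3).mul g_cont |>.div_const 500).intervalIntegrable _ _

lemma tendsto_g : Filter.Tendsto g Filter.atTop (𝓝 0) := by
  unfold g
  apply Real.tendsto_exp_neg_atTop_nhds_zero.comp
  apply Filter.Tendsto.atTop_div_const (by norm_num)
  exact Filter.tendsto_pow_atTop (by norm_num)

lemma tail_deriv {x : ℝ} (hx : x ≠ 0) :
    HasDerivAt (fun x => -(4 * (x^4)⁻¹) - 3 * g x / (4*π^2)) (16 / x^5 + x * g x / (4*π^2)) x := by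
  have h1 := (((hasDerivAt_pow 4 x).inv (by positivity)).const_mul 4).neg
  have h2 := ((hasDerivAt_g x).const_mul 3).div_const (4*π^2)
  refine (h1.sub h2).congr_deriv ?_
  have hpi := Real.pi_pos
  norm_num
  field_simp
  ring

lemma tail_tendsto : Filter.Tendsto (fun x => -(4 * (x^4)⁻¹) - 3 * g x / (4*π^2)) Filter.atTop (𝓝 0) := by
  have h1 : Filter.Tendsto (fun x : ℝ => (x^4)⁻¹) Filter.atTop (𝓝 0) :=
    Filter.Tendsto.inv_tendsto_atTop (Filter.tendsto_pow_atTop (by norm_num))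
  have h2 := ((h1.const_mul 4).neg).sub ((tendsto_g.const_mul 3).div_const (4*π^2))
  simpa using h2

lemma int3 : IntegrableOn (fun x => 16 / x^5 + x * g x / (4*π^2)) (Ioi (2*π)) ∧
    ∫ x in Ioi (2*π), (16 / x^5 + x * g x / (4*π^2)) = 4 * ((2*π)^4)⁻¹ + 3 * g (2*π) / (4*π^2) := by
  have hpi := Real.pi_pos
  have hd : ∀ x ∈ Ici (2*π), HasDerivAt (fun x => -(4 * (x^4)⁻¹) - 3 * g x / (4*π^2))
      (16 / x^5 + x * g x / (4*π^2)) x := by
    intro x hx
    have : 0 < x := by have := mem_Ici.mp hx; linarith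
    exact tail_deriv this.ne'
  have hp : ∀ x ∈ Ioi (2*π), 0 ≤ 16 / x^5 + x * g x / (4*π^2) := by
    intro x hx
    have : 0 < x := by have := mem_Ioi.mp hx; linarith
    have hg := g_pos x
    positivity
  refine ⟨integrableOn_Ioi_deriv_of_nonneg' hd hp tail_tendsto, ?_⟩
  rw [integral_Ioi_of_hasDerivAt_of_nonneg' hd hp tail_tendsto]
  ring

/-- The error estimate. -/
lemma F_integral {n : ℕ} {a : Fin n → ℝ} (ha : ∑ j, a j ^ 2 = 1) (hs : ∀ j, |a j| ≤ 1/2)
    (i : Fin n) (hi : a i ≠ 0) :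
    -((18 - 61.32 * Real.exp (-(3.8^2/6)))/500 + (4 * ((2*π)^4)⁻¹ + 3 * g (2*π) / (4*π^2))) ≤
      ∫ x in Ioi (0:ℝ), T0 * F a x := by
  have hpi := Real.pi_gt_three
  have hpi' := Real.pi_pos
  have hF : Integrable (fun x => T0 * F a x) := (F_int a i hi).const_mul T0
  have hsplit : Ioi (0:ℝ) = (Ioc 0 3.8 ∪ Ioc 3.8 (2*π)) ∪ Ioi (2*π) := by
    rw [Ioc_union_Ioc_eq_Ioc (by norm_num) (by linarith), Ioc_union_Ioi_eq_Ioi (by linarith)]
  have hd1 : Disjoint (Ioc (0:ℝ) 3.8 ∪ Ioc 3.8 (2*π)) (Ioi (2*π)) := by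
    rw [Ioc_union_Ioc_eq_Ioc (by norm_num) (by linarith)]
    exact Ioc_disjoint_Ioi le_rfl
  have hd2 : Disjoint (Ioc (0:ℝ) 3.8) (Ioc 3.8 (2*π)) := Ioc_disjoint_Ioc_of_le le_rfl
  rw [hsplit, setIntegral_union hd1 measurableSet_Ioi hF.integrableOn hF.integrableOn,
    setIntegral_union hd2 measurableSet_Ioc hF.integrableOn hF.integrableOn]
  have h1 : -((18 - 61.32 * Real.exp (-(3.8^2/6)))/500) ≤ ∫ x in Ioc (0:ℝ) 3.8, T0 * F a x := by
    rw [← int1, intervalIntegral.integral_of_le (by norm_num), ← integral_neg]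
    apply setIntegral_mono_on _ hF.integrableOn measurableSet_Ioc
    · intro x hx
      exact F_ge1 ha hs hx.1 hx.2
    · have : Continuous fun x : ℝ => -(x^3 * g x / 500) :=
        ((by fun_prop : Continuous fun x : ℝ => x^3).mul g_cont |>.div_const 500).neg
      exact (this.continuousOn.integrableOn_compact isCompact_Icc).mono_set Ioc_subset_Icc_self
  have h2 : 0 ≤ ∫ x in Ioc (3.8:ℝ) (2*π), T0 * F a x := by
    apply setIntegral_nonneg measurableSet_Ioc
    intro x hx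
    exact F_ge2 ha hs hx.1.le hx.2
  have h3 : -(4 * ((2*π)^4)⁻¹ + 3 * g (2*π) / (4*π^2)) ≤ ∫ x in Ioi (2*π), T0 * F a x := by
    rw [← int3.2, ← integral_neg]
    apply setIntegral_mono_on int3.1.neg hF.integrableOn measurableSet_Ioi
    intro x hx
    exact F_ge3 ha hs (le_of_lt hx)
  linarith

lemma int_gauss_poly (T : ℝ) (hT : 0 ≤ T) :
    T - T^3/2 + 9/40*T^5 - 27/336*T^7 + 81/3456*T^9 - 243/42240*T^11 ≤
      ∫ y in (0:ℝ)..T, Real.exp (-(3/2) * y^2) := by
  have h1 : ∫ y in (0:ℝ)..T, (1 - (3/2*y^2) + (3/2*y^2)^2/2 - (3/2*y^2)^3/6 + (3/2*y^2)^4/24 - (3/2*y^2)^5/120) ≤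
      ∫ y in (0:ℝ)..T, Real.exp (-(3/2) * y^2) := by
    apply intervalIntegral.integral_mono_on hT
    · exact Continuous.intervalIntegrable (by fun_prop) _ _
    · exact Continuous.intervalIntegrable (by fun_prop) _ _
    · intro y _
      have := exp_neg_ge5 (3/2*y^2) (by positivity)
      rw [neg_mul]
      exact this
  refine le_trans (le_of_eq ?_) h1
  have h : ∀ x ∈ uIcc (0:ℝ) T, HasDerivAt (fun T => T - T^3/2 + 9/40*T^5 - 27/336*T^7 + 81/3456*T^9 - 243/42240*T^11)
      (1 - (3/2*x^2) + (3/2*x^2)^2/2 - (3/2*x^2)^3/6 + (3/2*x^2)^4/24 - (3/2*x^2)^5/120) x := by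
    intro x _
    have h1 := (((((hasDerivAt_id x).sub ((hasDerivAt_pow 3 x).div_const 2)).add
      ((hasDerivAt_pow 5 x).const_mul (9/40))).sub ((hasDerivAt_pow 7 x).const_mul (27/336))).add
      ((hasDerivAt_pow 9 x).const_mul (81/3456))).sub ((hasDerivAt_pow 11 x).const_mul (243/42240))
    refine h1.congr_deriv ?_
    norm_num
    ring
  rw [intervalIntegral.integral_eq_sub_of_hasDerivAt h]
  · simp
  · exact Continuous.intervalIntegrable (by fun_prop) _ _

lemma int_gauss_lower : 0.6139 ≤ ∫ y in (0:ℝ)..T0, Real.exp (-(3/2) * y^2) := by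
  have h1 := int_gauss_poly 0.82842 (by norm_num)
  obtain ⟨t1, t2⟩ := T0_bounds
  have hc : Continuous fun y : ℝ => Real.exp (-(3/2) * y^2) := by fun_prop
  have h2 : ∫ y in (0:ℝ)..0.82842, Real.exp (-(3/2) * y^2) ≤ ∫ y in (0:ℝ)..T0, Real.exp (-(3/2) * y^2) := by
    rw [← intervalIntegral.integral_add_adjacent_intervals (b := (0.82842:ℝ)) (c := T0)
      (hc.intervalIntegrable _ _) (hc.intervalIntegrable _ _)]
    have : 0 ≤ ∫ y in (0.82842:ℝ)..T0, Real.exp (-(3/2) * y^2) :=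
      intervalIntegral.integral_nonneg t1.le (fun u _ => (Real.exp_pos _).le)
    linarith
  refine le_trans ?_ (h1.trans h2)
  norm_num

lemma exp_lower : 0.09 ≤ Real.exp (-(3.8^2/6)) := by
  have h1 := exp_neg_ge5 (3.8^2/24) (by norm_num)
  have h2 : Real.exp (-(3.8^2/6)) = Real.exp (-(3.8^2/24))^4 := by
    rw [← Real.exp_nat_mul]
    congr 1
    norm_num
  have h3 : (0.5478:ℝ) ≤ Real.exp (-(3.8^2/24)) := by
    refine le_trans ?_ h1
    norm_num
  rw [h2]
  have h4 : (0.5478:ℝ)^4 ≤ Real.exp (-(3.8^2/24))^4 := by gcongr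
  refine le_trans ?_ h4
  norm_num

lemma g_2pi : g (2*π) ≤ 0.0025 := by
  have hpi := Real.pi_gt_d4
  have h1 : g (2*π) ≤ Real.exp (-6) := by
    unfold g
    apply Real.exp_le_exp.mpr
    nlinarith
  refine h1.trans ?_
  have h2 : Real.exp (-6) = (Real.exp 1 ^ 6)⁻¹ := by
    rw [Real.exp_neg, ← Real.exp_nat_mul]
    norm_num
  have h3 : (400:ℝ) ≤ Real.exp 1 ^ 6 := by
    have := Real.exp_one_gt_d9
    have h4 : (2.718:ℝ)^6 ≤ Real.exp 1 ^ 6 := by
      apply pow_le_pow_left₀ (by norm_num)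
      linarith
    refine le_trans ?_ h4
    norm_num
  rw [h2]
  calc (Real.exp 1 ^ 6)⁻¹ ≤ (400:ℝ)⁻¹ := inv_anti₀ (by norm_num) h3
    _ ≤ 0.0025 := by norm_num

lemma err_bound : (18 - 61.32 * Real.exp (-(3.8^2/6)))/500 + (4 * ((2*π)^4)⁻¹ + 3 * g (2*π) / (4*π^2)) ≤ 0.0278 := by
  have hpi := Real.pi_gt_d4
  have h1 := exp_lower
  have h2 : (18 - 61.32 * Real.exp (-(3.8^2/6)))/500 ≤ 0.02497 := by
    norm_num at *
    linarith
  have h3 : 4 * ((2*π)^4)⁻¹ ≤ 0.00257 := by
    have h4 : (6.283:ℝ)^4 ≤ (2*π)^4 := by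
      apply pow_le_pow_left₀ (by norm_num)
      linarith
    have h5 : ((2*π)^4)⁻¹ ≤ ((6.283:ℝ)^4)⁻¹ := inv_anti₀ (by norm_num) h4
    have h6 : ((6.283:ℝ)^4)⁻¹ ≤ 0.0006425 := by norm_num
    linarith
  have h4 : 3 * g (2*π) / (4*π^2) ≤ 0.0002 := by
    rw [div_le_iff₀ (by positivity)]
    have := g_2pi
    nlinarith
  linarith

theorem small_case {n : ℕ} (a : Fin n → ℝ) (ha : ∑ j, a j ^ 2 = 1) (hs : ∀ j, |a j| ≤ 1/2) :
    T0 ≤ prob a T0 := by
  obtain ⟨i, hi⟩ : ∃ i, a i ≠ 0 := by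
    by_contra hcon
    push Not at hcon
    simp [hcon] at ha
  have hT := T0_pos
  have hpi := Real.pi_pos
  have h1 := prob_fourier a i hi hT
  have h2 : ∫ x, sinc (T0 * x) * ∏ j, sinc (a j * x) =
      (∫ x, sinc (T0 * x) * g x) + ∫ x, F a x := by
    rw [← integral_add sincg_integrable (F_int a i hi)]
    congr 1
    ext x
    rw [F, P]
    ring
  have h3 : T0 * ∫ x, F a x = 2 * ∫ x in Ioi (0:ℝ), T0 * F a x := by
    rw [← integral_comp_abs (f := fun x => T0 * F a x), ← integral_const_mul]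
    congr 1
    ext x
    rw [F, F, P_even, g_even]
    congr 2
    rcases abs_choice x with h | h
    · rw [h]
    · rw [h, mul_neg, sinc_neg]
  have h4 := F_integral ha hs i hi
  have h5 := err_bound
  have h6 := int_gauss_lower
  have h7 := gauss_value hT
  have hq : 4.3415 ≤ Real.sqrt (6 * π) := by
    apply Real.le_sqrt_of_sq_le
    have := Real.pi_gt_d4
    norm_num at *
    linarith
  have h8 : prob a T0 * π = Real.sqrt (6 * π) * (∫ y in (0:ℝ)..T0, Real.exp (-(3/2) * y^2)) +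
      2 * ∫ x in Ioi (0:ℝ), T0 * F a x := by
    rw [h1, h2, mul_add, h7, ← h3]
    field_simp
  have h9 : 4.3415 * 0.6139 ≤ Real.sqrt (6 * π) * (∫ y in (0:ℝ)..T0, Real.exp (-(3/2) * y^2)) := by
    apply mul_le_mul hq h6 (by norm_num) (by positivity)
  have h10 : T0 * π ≤ prob a T0 * π := by
    rw [h8]
    have h11 : T0 * π ≤ 0.82844 * 3.1416 := by
      apply mul_le_mul T0_bounds.2.le Real.pi_lt_d4.le hpi.le (by norm_num)
    have h12 : (0.82844:ℝ) * 3.1416 ≤ 4.3415 * 0.6139 - 2 * 0.0278 := by norm_num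
    linarith
  exact le_of_mul_le_mul_right h10 hpi

theorem all_case {n : ℕ} (a : Fin n → ℝ) (ha : ∑ j, a j ^ 2 = 1) : T0 ≤ prob a T0 := by
  by_cases h : ∀ j, |a j| ≤ 1/2
  · exact small_case a ha h
  · push Not at h
    obtain ⟨i, hi⟩ := h
    obtain ⟨m, rfl⟩ : ∃ m, n = m + 1 := ⟨n - 1, by have := i.2; omega⟩
    exact large_case a i ha hi.le

end Pool.Agent.Helper88.Slab
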