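import Pool.Agent.Helper88.SlabSmall

set_option autoImplicit false

open MeasureTheory Set Real
open scoped ENNReal Topology

namespace Pool.Agent.Helper88.Slab

lemma scale_good {t T : ℝ} (ht : 0 < t) (htT : t ≤ T) :
    Good0 (fun y => ind t y / t - ind T y / T) := by
  have hT : 0 < T := by linarith
  refine ⟨fun x y => ((ind_intervalIntegrable t x y).div_const t).sub
    ((ind_intervalIntegrable T x y).div_const T), ?_, ?_⟩
  · intro y; simp only [ind_even]
  · intro v hv
    rw [intervalIntegral.integral_sub ((ind_intervalIntegrable t 0 v).div_const t)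
      ((ind_intervalIntegrable T 0 v).div_const T), intervalIntegral.integral_div,
      intervalIntegral.integral_div, integral_ind_nonneg ht.le hv, integral_ind_nonneg hT.le hv]
    rw [sub_nonneg, div_le_div_iff₀ hT ht]
    rcases le_total v t with h1 | h1
    · rw [min_eq_right h1, min_eq_right (h1.trans htT)]
      exact mul_le_mul_of_nonneg_left htT hv
    · rw [min_eq_left h1]
      have := min_le_left T v
      nlinarith

/-- `P(|X| ≤ t)/t` is nonincreasing. -/
lemma prob_mono {n : ℕ} (a : Fin n → ℝ) (i : Fin n) (hi : a i ≠ 0) {t T : ℝ} (ht : 0 < t)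
    (htT : t ≤ T) : prob a T / T ≤ prob a t / t := by
  obtain ⟨m, rfl⟩ : ∃ m, n = m + 1 := ⟨n - 1, by have := i.2; omega⟩
  have hT : 0 < T := by linarith
  have hs : 0 < |a i| := abs_pos.mpr hi
  have hgood := (scale_good ht htT).A hs.ne'
  have hcube := hgood.cube (fun j => a (i.succAbove j))
  have hA : ∀ y, A |a i| (fun y => ind t y / t - ind T y / T) y =
      A |a i| (ind t) y / t - A |a i| (ind T) y / T := by
    intro y
    have hi1 : ∀ s : ℝ, Integrable (fun u => ind s (|a i| * u + y)) U := by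
      intro s
      refine Integrable.of_bound ((ind_measurable s).comp (by fun_prop)).aestronglyMeasurable 1 ?_
      filter_upwards with u
      rw [Real.norm_eq_abs, abs_of_nonneg (ind_nonneg _ _)]
      exact ind_le_one _ _
    rw [A, A, A, integral_sub ((hi1 t).div_const t) ((hi1 T).div_const T), integral_div, integral_div]
  simp_rw [hA] at hcube
  rw [integral_sub, integral_div, integral_div, ← prob_split, ← prob_split] at hcube
  · linarith
  · exact integrable_cube (by have := A_ind_cont hs ht.le; fun_prop)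
  · exact integrable_cube (by have := A_ind_cont hs hT.le; fun_prop)

theorem prob_ge_t {n : ℕ} (a : Fin n → ℝ) (ha : ∑ j, a j ^ 2 = 1) {t : ℝ} (ht : 0 < t)
    (htT : t ≤ T0) : t ≤ prob a t := by
  obtain ⟨i, hi⟩ : ∃ i, a i ≠ 0 := by
    by_contra hcon
    push Not at hcon
    simp [hcon] at ha
  have h1 := prob_mono a i hi ht htT
  have h2 := all_case a ha
  have hT := T0_pos
  have h3 : 1 ≤ prob a T0 / T0 := by rwa [le_div_iff₀ hT, one_mul]
  have h4 : 1 ≤ prob a t / t := h3.trans h1
  rwa [le_div_iff₀ ht, one_mul] at h4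

lemma prob_single {n : ℕ} (i : Fin n) {t : ℝ} (ht : 0 < t) (ht1 : t ≤ 1) :
    prob (Pi.single i 1 : Fin n → ℝ) t = t := by
  obtain ⟨m, rfl⟩ : ∃ m, n = m + 1 := ⟨n - 1, by have := i.2; omega⟩
  rw [prob_split _ i]
  have h0 : ∀ j : Fin m, (Pi.single i 1 : Fin (m+1) → ℝ) (i.succAbove j) = 0 := by
    intro j
    rw [Pi.single_eq_of_ne]
    exact Fin.succAbove_ne i j
  simp only [h0, zero_mul, Finset.sum_const_zero, Pi.single_eq_same, abs_one, integral_const,
    probReal_univ, one_smul]
  rw [A_ind one_pos ht.le]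
  simp only [clamp, zero_add, zero_sub]
  rw [min_eq_left ht1, max_eq_right (by linarith), min_eq_right (by linarith : (-1:ℝ) ≤ t),
    max_eq_left (by linarith)]
  ring

lemma cube_eq (n : ℕ) : cube n = ((2⁻¹ : ℝ≥0∞)^n) •
    (volume : Measure (Fin n → ℝ)).restrict (univ.pi (fun _ => Icc (-1:ℝ) 1)) := by
  unfold cube
  apply Measure.pi_eq
  intro s hs
  rw [Measure.smul_apply, Measure.restrict_apply (MeasurableSet.univ_pi hs), ← pi_inter_distrib,
    volume_pi_pi, smul_eq_mul]
  have : ∀ i, U (s i) = 2⁻¹ * volume (s i ∩ Icc (-1:ℝ) 1) := by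
    intro i
    rw [U, Measure.smul_apply, Measure.restrict_apply (hs i), smul_eq_mul]
  simp_rw [this]
  rw [Finset.prod_mul_distrib]
  simp

/-- Set in `Fin n → ℝ`. -/
lemma volume_slab_pi {n : ℕ} (a : Fin n → ℝ) (t : ℝ) :
    volume {x : Fin n → ℝ | (∀ i, |x i| ≤ 1) ∧ |∑ j, a j * x j| ≤ t} =
      2^n * ENNReal.ofReal (prob a t) := by
  have hmeas : MeasurableSet {x : Fin n → ℝ | |∑ j, a j * x j| ≤ t} :=
    measurableSet_le (by fun_prop) (by fun_prop)
  have h1 : ENNReal.ofReal (prob a t) = cube n {x : Fin n → ℝ | |∑ j, a j * x j| ≤ t} := by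
    rw [prob]
    have : (fun x : Fin n → ℝ => ind t (∑ j, a j * x j)) =
        indicator {x : Fin n → ℝ | |∑ j, a j * x j| ≤ t} (fun _ => (1:ℝ)) := by
      ext x
      unfold ind indicator
      rfl
    rw [this, integral_indicator hmeas]
    simp
  rw [h1, cube_eq, Measure.smul_apply, Measure.restrict_apply hmeas, smul_eq_mul, ← mul_assoc]
  have h2 : (2:ℝ≥0∞)^n * (2⁻¹)^n = 1 := by
    rw [← mul_pow, ENNReal.mul_inv_cancel (by norm_num) (by norm_num), one_pow]
  rw [h2, one_mul]
  congr 1
  ext x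
  simp only [mem_ofPred_eq, mem_inter_iff, mem_univ_pi, mem_Icc, abs_le]
  tauto

/-- Set in Euclidean space. -/
lemma volume_slab {n : ℕ} (a : EuclideanSpace ℝ (Fin n)) (t : ℝ) :
    volume {x : EuclideanSpace ℝ (Fin n) | (∀ i, |x i| ≤ 1) ∧ |inner ℝ x a| ≤ t} =
      2^n * ENNReal.ofReal (prob (fun i => a i) t) := by
  rw [← volume_slab_pi]
  have hmp := PiLp.volume_preserving_ofLp (Fin n)
  have hm1 : MeasurableSet (⋂ i : Fin n, {x : Fin n → ℝ | |x i| ≤ 1}) :=
    MeasurableSet.iInter (fun i => measurableSet_le (by fun_prop) (by fun_prop))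
  have hm2 : MeasurableSet {x : Fin n → ℝ | |∑ j, a j * x j| ≤ t} :=
    measurableSet_le (by fun_prop) (by fun_prop)
  have hmeas : MeasurableSet {x : Fin n → ℝ | (∀ i, |x i| ≤ 1) ∧ |∑ j, a j * x j| ≤ t} := by
    convert hm1.inter hm2 using 1
    ext x
    simp
  rw [← hmp.measure_preimage hmeas.nullMeasurableSet]
  congr 1

end Pool.Agent.Helper88.Slab
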