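import Pool.Agent.Helper88.TSLine

set_option autoImplicit false

open Set

namespace Pool.Agent.Helper88.TS

variable {X W : Type*} [TopologicalSpace X] [NormedAddCommGroup W] [InnerProductSpace ℂ W]

/-- vertices of the 1-simplex -/
noncomputable abbrev vtx {k : ℕ} (i : Fin (k+1)) : Spx k := stdSimplex.vertex i

/-- total logarithmic variation of `s/t` along a 1-simplex -/
def HasD (s t : C(Spx 1, W)) (d : ℂ) : Prop :=
  ∃ L : C(Spx 1, ℂ), (∀ x, s x = Complex.exp (L x) • t x) ∧ d = L (vtx 1) - L (vtx 0)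

instance (k : ℕ) : PreconnectedSpace (Spx k) := by
  have h : IsPathConnected (stdSimplex ℝ (Fin (k+1))) := isPathConnected_stdSimplex _
  exact isPreconnected_iff_preconnectedSpace.mp h.isConnected.isPreconnected

lemma HasD.unique {s t : C(Spx 1, W)} {d d' : ℂ} (ht : ∀ x, t x ≠ 0) (h : HasD s t d)
    (h' : HasD s t d') : d = d' := by
  obtain ⟨L, hL, rfl⟩ := h
  obtain ⟨L', hL', rfl⟩ := h'
  have h1 : ∀ x, ∃ n : ℤ, L x = L' x + n * (2 * Real.pi * Complex.I) := by
    intro x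
    have h2 : Complex.exp (L x) • t x = Complex.exp (L' x) • t x := by rw [← hL, hL']
    have h3 : Complex.exp (L x) = Complex.exp (L' x) := smul_left_injective ℂ (ht x) h2
    exact Complex.exp_eq_exp_iff_exists_int.mp h3
  choose n hn using h1
  -- the function n is continuous
  set F : Spx 1 → ℝ := fun x => ((L x - L' x) / (2 * Real.pi * Complex.I)).re with hF
  have hpi : (2 * Real.pi * Complex.I : ℂ) ≠ 0 := Complex.two_pi_I_ne_zero
  have hFn : ∀ x, F x = n x := by
    intro x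
    rw [hF]
    simp only
    rw [hn x, add_sub_cancel_left, mul_div_assoc, div_self hpi, mul_one]
    simp
  have hFc : Continuous F := by
    rw [hF]
    fun_prop
  have hcast : Continuous (fun x => (n x : ℝ)) := by
    have : (fun x => (n x : ℝ)) = F := by ext x; exact (hFn x).symm
    rw [this]; exact hFc
  have hnc : Continuous n := (Int.isClosedEmbedding_coe_real.isEmbedding.continuous_iff (f := n)).mpr hcast
  have hconst : n (vtx 1) = n (vtx 0) := PreconnectedSpace.constant inferInstance hnc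
  rw [hn (vtx 1), hn (vtx 0), hconst]
  ring

lemma HasD.trans {s t q : C(Spx 1, W)} {d d' : ℂ} (h : HasD s t d) (h' : HasD t q d') :
    HasD s q (d + d') := by
  obtain ⟨L, hL, rfl⟩ := h
  obtain ⟨L', hL', rfl⟩ := h'
  refine ⟨L + L', fun x => ?_, ?_⟩
  · rw [hL, hL', smul_smul, ← Complex.exp_add]; rfl
  · simp only [ContinuousMap.add_apply]; ring

open Classical in
/-- the chosen value -/
noncomputable def D (s t : C(Spx 1, W)) : ℂ := if h : ∃ d, HasD s t d then h.choose else 0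

lemma D_eq {s t : C(Spx 1, W)} {d : ℂ} (ht : ∀ x, t x ≠ 0) (h : HasD s t d) : D s t = d := by
  have h' : ∃ d, HasD s t d := ⟨d, h⟩
  unfold D
  rw [dif_pos h']
  exact h'.choose_spec.unique ht h

lemma hasD_of_sec {ℓ : LineField X W} {f : C(Spx 1, X)} {s t : C(Spx 1, W)}
    (hs : IsSec ℓ f s) (ht : IsSec ℓ f t) : HasD s t (D s t) := by
  obtain ⟨L, hL⟩ := exists_ratio hs ht
  have : HasD s t (L (vtx 1) - L (vtx 0)) := ⟨L, hL, rfl⟩
  rw [D_eq ht.ne this]
  exact this

/-- chosen section along a simplex -/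
noncomputable def sec (ℓ : LineField X W) {k : ℕ} (f : C(Spx k, X)) : C(Spx k, W) :=
  (exists_sec ℓ k f).choose

lemma sec_spec (ℓ : LineField X W) {k : ℕ} (f : C(Spx k, X)) : IsSec ℓ f (sec ℓ f) :=
  (exists_sec ℓ k f).choose_spec

/-- The (complex valued) Euler cochain of a line field. -/
noncomputable def euler (ℓ : LineField X W) : Cochain ℂ 2 X := fun σ =>
  ∑ i : Fin 3, (-1 : ℂ) ^ (i : ℕ) * D (sec ℓ (σ.comp (face 1 i))) ((sec ℓ σ).comp (face 1 i))

lemma face_vtx (k : ℕ) (i : Fin (k+2)) (j : Fin (k+1)) : face k i (vtx j) = vtx (i.succAbove j) := by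
  simp [face, vtx]

/-- The Euler cochain can be computed with any section over the 2-simplex. -/
lemma euler_eq (ℓ : LineField X W) {σ : C(Spx 2, X)} {t : C(Spx 2, W)} (ht : IsSec ℓ σ t) :
    euler ℓ σ = ∑ i : Fin 3, (-1 : ℂ) ^ (i : ℕ) * D (sec ℓ (σ.comp (face 1 i))) (t.comp (face 1 i)) := by
  obtain ⟨L, hL⟩ := exists_ratio ht (sec_spec ℓ σ)
  have h : ∀ i : Fin 3, D (sec ℓ (σ.comp (face 1 i))) ((sec ℓ σ).comp (face 1 i)) =
      D (sec ℓ (σ.comp (face 1 i))) (t.comp (face 1 i)) +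
        (L (vtx (i.succAbove 1)) - L (vtx (i.succAbove 0))) := by
    intro i
    have h1 := hasD_of_sec (sec_spec ℓ (σ.comp (face 1 i))) (ht.comp (face 1 i))
    have h2 : HasD (t.comp (face 1 i)) ((sec ℓ σ).comp (face 1 i))
        (L (vtx (i.succAbove 1)) - L (vtx (i.succAbove 0))) := by
      refine ⟨L.comp (face 1 i), fun x => hL _, ?_⟩
      simp only [ContinuousMap.comp_apply, face_vtx]
    exact D_eq (fun x => (sec_spec ℓ σ).ne _) (h1.trans h2)
  unfold euler
  simp_rw [h]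
  simp only [mul_add, Finset.sum_add_distrib]
  have h0 : ∑ i : Fin 3, (-1 : ℂ) ^ (i : ℕ) * (L (vtx (i.succAbove 1)) - L (vtx (i.succAbove 0))) = 0 := by
    rw [Fin.sum_univ_three]
    have a1 : (0 : Fin 3).succAbove (1 : Fin 2) = 2 := by decide
    have a2 : (0 : Fin 3).succAbove (0 : Fin 2) = 1 := by decide
    have a3 : (1 : Fin 3).succAbove (1 : Fin 2) = 2 := by decide
    have a4 : (1 : Fin 3).succAbove (0 : Fin 2) = 0 := by decide
    have a5 : (2 : Fin 3).succAbove (1 : Fin 2) = 1 := by decide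
    have a6 : (2 : Fin 3).succAbove (0 : Fin 2) = 0 := by decide
    rw [a1, a2, a3, a4, a5, a6]
    simp
  rw [h0, add_zero]

/-- general face -/
noncomputable def mapC {a b : ℕ} (φ : Fin (a+1) → Fin (b+1)) : C(Spx a, Spx b) :=
  ⟨stdSimplex.map φ, stdSimplex.continuous_map _⟩

lemma face_comp_face (i : Fin 4) (j : Fin 3) :
    (face 2 i).comp (face 1 j) = mapC (a := 1) (b := 3) (i.succAbove ∘ j.succAbove) := by
  ext x
  simp only [ContinuousMap.comp_apply, face, mapC, ContinuousMap.coe_mk]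
  rw [stdSimplex.map_comp_apply]

lemma euler_cocycle (ℓ : LineField X W) : delta ℂ 2 X (euler ℓ) = 0 := by
  ext τ
  show ∑ i : Fin 4, (-1 : ℂ) ^ (i : ℕ) * euler ℓ (τ.comp (face 2 i)) = 0
  obtain ⟨T, hT⟩ := exists_sec ℓ 3 τ
  set G : (Fin 2 → Fin 4) → ℂ := fun φ => D (sec ℓ (τ.comp (mapC (a := 1) (b := 3) φ))) (T.comp (mapC (a := 1) (b := 3) φ)) with hG
  have h : ∀ i : Fin 4, euler ℓ (τ.comp (face 2 i)) =
      ∑ j : Fin 3, (-1 : ℂ) ^ (j : ℕ) * G (i.succAbove ∘ j.succAbove) := by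
    intro i
    rw [euler_eq ℓ (hT.comp (face 2 i))]
    apply Finset.sum_congr rfl
    intro j _
    rw [hG]
    simp only
    rw [ContinuousMap.comp_assoc, ContinuousMap.comp_assoc, face_comp_face]
  simp_rw [h]
  simp only [Fin.sum_univ_four, Fin.sum_univ_three]
  have b1 : (1 : Fin 4).succAbove ∘ (0 : Fin 3).succAbove = (0 : Fin 4).succAbove ∘ (0 : Fin 3).succAbove := by decide
  have b2 : (2 : Fin 4).succAbove ∘ (0 : Fin 3).succAbove = (0 : Fin 4).succAbove ∘ (1 : Fin 3).succAbove := by decide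
  have b3 : (3 : Fin 4).succAbove ∘ (0 : Fin 3).succAbove = (0 : Fin 4).succAbove ∘ (2 : Fin 3).succAbove := by decide
  have b4 : (2 : Fin 4).succAbove ∘ (1 : Fin 3).succAbove = (1 : Fin 4).succAbove ∘ (1 : Fin 3).succAbove := by decide
  have b5 : (3 : Fin 4).succAbove ∘ (1 : Fin 3).succAbove = (1 : Fin 4).succAbove ∘ (2 : Fin 3).succAbove := by decide
  have b6 : (3 : Fin 4).succAbove ∘ (2 : Fin 3).succAbove = (2 : Fin 4).succAbove ∘ (2 : Fin 3).succAbove := by decide
  rw [b1, b2, b3, b4, b5, b6]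
  simp only [Fin.val_zero, Fin.val_one, Fin.val_two, pow_zero, pow_one, one_mul]
  have e3 : ((3 : Fin 4) : ℕ) = 3 := rfl
  have e2 : ((2 : Fin 4) : ℕ) = 2 := rfl
  have e2' : ((2 : Fin 3) : ℕ) = 2 := rfl
  simp only [e3, e2]
  ring

/-- Evaluation on a sphere-like cycle. -/
lemma euler_eval (ℓ : LineField X W) (x0 : X) (w0 : W) (hw0 : w0 ≠ 0) (hw : ℓ.Q x0 w0 = w0)
    (σ : C(Spx 2, X)) (hσ : ∀ i : Fin 3, σ.comp (face 1 i) = ContinuousMap.const _ x0)
    (T : C(Spx 2, W)) (hT : IsSec ℓ σ T) (L : Fin 3 → C(Spx 1, ℂ))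
    (hL : ∀ i x, T (face 1 i x) = Complex.exp (L i x) • w0) :
    euler ℓ σ - euler ℓ (ContinuousMap.const _ x0) =
      -∑ i : Fin 3, (-1 : ℂ) ^ (i : ℕ) * (L i (vtx 1) - L i (vtx 0)) := by
  have hc : IsSec ℓ (ContinuousMap.const (Spx 2) x0) (ContinuousMap.const (Spx 2) w0) :=
    ⟨fun _ => hw0, fun _ => hw⟩
  rw [euler_eq ℓ hc, euler_eq ℓ hT]
  set κ : C(Spx 1, X) := ContinuousMap.const _ x0 with hκ
  set ω : C(Spx 1, W) := ContinuousMap.const _ w0 with hω
  have hcω : IsSec ℓ κ ω := ⟨fun _ => hw0, fun _ => hw⟩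
  have h1 : ∀ i : Fin 3, D (sec ℓ (σ.comp (face 1 i))) (T.comp (face 1 i)) =
      D (sec ℓ κ) ω - (L i (vtx 1) - L i (vtx 0)) := by
    intro i
    rw [hσ i]
    have h2 := hasD_of_sec (sec_spec ℓ κ) hcω
    have h3 : HasD ω (T.comp (face 1 i)) (-(L i (vtx 1) - L i (vtx 0))) := by
      refine ⟨-(L i), fun x => ?_, ?_⟩
      · simp only [ContinuousMap.comp_apply, hL i x, ContinuousMap.neg_apply, smul_smul]
        rw [← Complex.exp_add]
        simp [hω]
      · simp only [ContinuousMap.neg_apply]; ring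
    rw [D_eq (fun x => hT.ne _) (h2.trans h3)]
    ring
  have h4 : ∀ i : Fin 3, D (sec ℓ ((ContinuousMap.const (Spx 2) x0).comp (face 1 i)))
      ((ContinuousMap.const (Spx 2) w0).comp (face 1 i)) = D (sec ℓ κ) ω := fun i => rfl
  simp_rw [h1, h4]
  simp only [Fin.sum_univ_three, Fin.val_zero, Fin.val_one, Fin.val_two]
  ring

end Pool.Agent.Helper88.TS
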