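import Pool.Agent.Helper88.TSMain
import Pool.Agent.Helper88.TSCocycle

set_option autoImplicit false

open Set Matrix
open scoped Quaternion Topology

namespace Pool.Agent.Helper88.TS

/-- logarithm of the section on the zeroth face -/
noncomputable def L0 : C(Spx 1, ℂ) := ⟨fun x => -(2 * ((2 * Real.pi * x 1 : ℝ) : ℂ) * Complex.I), by
  have h : Continuous fun x : Spx 1 => (x 1 : ℝ) := continuous_coord 1
  have h2 : Continuous fun x : Spx 1 => ((2 * Real.pi * x 1 : ℝ) : ℂ) :=
    Complex.continuous_ofReal.comp (continuous_const.mul h)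
  exact ((continuous_const.mul h2).mul continuous_const).neg⟩

lemma euler_sigma : euler redField (mkR.comp sigma) -
    euler redField (ContinuousMap.const _ (mkR pt0)) = 4 * Real.pi * Complex.I := by
  have h := euler_eval redField (mkR pt0) w0 w0_ne w0_mem (mkR.comp sigma) (fun i => by
      rw [ContinuousMap.comp_assoc, sigma_face]; rfl) TT TT_isSec ![L0, 0, 0] (fun i x => by
      have hs := spx1_sum x
      show genf (ta (Z2 (face 1 i x))) (tb (Z2 (face 1 i x))) = _
      fin_cases i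
      · obtain ⟨h0, h1, h2⟩ := face10 x
        simp only [Fin.zero_eta, Z2, h0, h1, h2, Zf_p0, tw_sum_one hs]
        exact genf_bdry
      · obtain ⟨h0, h1, h2⟩ := face11 x
        simp only [Fin.mk_one, Z2, h0, h1, h2, Zf_q0, hs]
        simp [w0]
      · obtain ⟨h0, h1, h2⟩ := face12 x
        simp only [Fin.reduceFinMk, Z2, h0, h1, h2, Zf_r0, hs]
        simp [w0])
  rw [h]
  simp only [Fin.sum_univ_three, Fin.val_zero, Fin.val_one, Fin.val_two, Matrix.cons_val_zero,
    Matrix.cons_val_one, Matrix.cons_val, ContinuousMap.zero_apply]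
  have e1 : L0 (vtx 1) = -(4 * Real.pi * Complex.I) := by
    simp [L0, vtx]
    ring
  have e0 : L0 (vtx 0) = 0 := by
    simp [L0, vtx]
  rw [e1, e0]
  ring

section
variable (K : Type*) [Field K] [CharZero K]

/-- the class with coefficients in `K` -/
noncomputable def cls (φ : ℂ →ₗ[ℚ] ℚ) : Cochain K 2 (Sred 6) :=
  fun σ => ((φ (euler redField σ) : ℚ) : K)

lemma cls_cocycle (φ : ℂ →ₗ[ℚ] ℚ) : delta K 2 (Sred 6) (cls K φ) = 0 := by
  ext τ
  have h := congrFun (euler_cocycle redField) τ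
  show ∑ i : Fin 4, (-1 : K) ^ (i : ℕ) * ((φ (euler redField (τ.comp (face 2 i))) : ℚ) : K) = 0
  have h' : ∑ i : Fin 4, (-1 : ℂ) ^ (i : ℕ) * euler redField (τ.comp (face 2 i)) = 0 := h
  have h2 : φ (∑ i : Fin 4, (-1 : ℂ) ^ (i : ℕ) * euler redField (τ.comp (face 2 i))) = 0 := by
    rw [h', map_zero]
  rw [map_sum] at h2
  have h3 : ∀ i : Fin 4, φ ((-1 : ℂ) ^ (i : ℕ) * euler redField (τ.comp (face 2 i))) =
      (-1 : ℚ) ^ (i : ℕ) * φ (euler redField (τ.comp (face 2 i))) := by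
    intro i
    have : (-1 : ℂ) ^ (i : ℕ) * euler redField (τ.comp (face 2 i)) =
      ((-1 : ℚ) ^ (i : ℕ)) • euler redField (τ.comp (face 2 i)) := by
      rw [Rat.smul_def]; push_cast; rfl
    rw [this, map_smul, smul_eq_mul]
  simp_rw [h3] at h2
  have h4 := congrArg (fun q : ℚ => (q : K)) h2
  simpa using h4

/-- the orbit projection -/
noncomputable def mkE (X : Type*) [TopologicalSpace X] [MulAction Sp1 X] : C(X, OrbitSpace Sp1 X) :=
  ⟨Quotient.mk'', continuous_quotient_mk'⟩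


/-- the spherical simplex in the Borel construction of the zero level -/
noncomputable def Ssim {E : Type*} [TopologicalSpace E] [MulAction Sp1 E] (e0 : E) :
    C(Spx 2, OrbitSpace Sp1 (E × zeroLevel 6)) :=
  (mkE (E × zeroLevel 6)).comp ((ContinuousMap.const _ e0).prodMk sigma)

/-- the constant simplex -/
noncomputable def Psim {E : Type*} [TopologicalSpace E] [MulAction Sp1 E] (e0 : E) :
    C(Spx 2, OrbitSpace Sp1 (E × zeroLevel 6)) :=
  (mkE (E × zeroLevel 6)).comp ((ContinuousMap.const _ e0).prodMk (ContinuousMap.const _ pt0))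

/-- the filling -/
noncomputable def Tsim {E : Type*} [TopologicalSpace E] [MulAction Sp1 E] (e0 : E) :
    C(Spx 3, OrbitSpace Sp1 (E × Sph 6)) :=
  (mkE (E × Sph 6)).comp ((ContinuousMap.const _ e0).prodMk tau)

variable {E : Type*} [TopologicalSpace E] [MulAction Sp1 E]

lemma Ssim_face (e0 : E) (i : Fin 3) : (Ssim e0).comp (face 1 i) = (Psim e0).comp (face 1 i) := by
  ext1 x
  have h1 : sigma (face 1 i x) = pt0 := DFunLike.congr_fun (sigma_face i) x
  show (Quotient.mk'' ((e0, sigma (face 1 i x)) : E × zeroLevel 6) : OrbitSpace Sp1 (E × zeroLevel 6)) =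
      Quotient.mk'' (e0, pt0)
  rw [h1]

lemma Tsim_face0 (e0 : E) : (Tsim e0).comp (face 2 0) = (borelMap E (levelIncl 6) (levelIncl_smul 6)).comp (Ssim e0) := by
  ext1 x
  show (Quotient.mk'' ((e0, tau (face 2 0 x)) : E × Sph 6) : OrbitSpace Sp1 (E × Sph 6)) =
    Quotient.mk'' (e0, ((sigma x : zeroLevel 6) : Sph 6))
  rw [tau_face0]

lemma Tsim_face (e0 : E) (i : Fin 3) :
    (Tsim e0).comp (face 2 i.succ) = (borelMap E (levelIncl 6) (levelIncl_smul 6)).comp (Psim e0) := by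
  ext1 x
  show (Quotient.mk'' ((e0, tau (face 2 i.succ x)) : E × Sph 6) : OrbitSpace Sp1 (E × Sph 6)) =
    Quotient.mk'' (e0, ((pt0 : zeroLevel 6) : Sph 6))
  rw [tau_face]
  rfl

lemma proj_Ssim (e0 : E) : (borelProj Sp1 E (zeroLevel 6)).comp (Ssim e0) = mkR.comp sigma := by
  ext1 x
  rfl

lemma proj_Psim (e0 : E) : (borelProj Sp1 E (zeroLevel 6)).comp (Psim e0) = ContinuousMap.const _ (mkR pt0) := by
  ext1 x
  rfl

omit [CharZero K] in
lemma delta_SP (e0 : E) (h : Cochain K 1 (OrbitSpace Sp1 (E × zeroLevel 6))) :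
    delta K 1 _ h (Ssim e0) = delta K 1 _ h (Psim e0) := by
  show ∑ i : Fin 3, (-1 : K) ^ (i : ℕ) * h ((Ssim e0).comp (face 1 i)) =
      ∑ i : Fin 3, (-1 : K) ^ (i : ℕ) * h ((Psim e0).comp (face 1 i))
  simp_rw [Ssim_face]

omit [CharZero K] in
lemma fill_SP (e0 : E) (b : Cochain K 2 (OrbitSpace Sp1 (E × Sph 6))) (hb : delta K 2 _ b = 0) :
    b ((borelMap E (levelIncl 6) (levelIncl_smul 6)).comp (Ssim e0)) = b ((borelMap E (levelIncl 6) (levelIncl_smul 6)).comp (Psim e0)) := by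
  have h1 : ∑ i : Fin 4, (-1 : K) ^ (i : ℕ) * b ((Tsim e0).comp (face 2 i)) = 0 :=
    congrFun hb (Tsim e0)
  rw [Fin.sum_univ_succ, Tsim_face0] at h1
  simp_rw [Tsim_face] at h1
  simp only [Fin.sum_univ_three, Fin.val_zero, Fin.val_succ, Fin.val_one, Fin.val_two] at h1
  linear_combination h1

omit [CharZero K] in
lemma isCoboundary_sub_equiv (k : ℕ) (X : Type*) [TopologicalSpace X] :
    Equivalence (fun c c' : Cocycle K (k + 1) X => IsCoboundary K X (k + 1) (c.1 - c'.1)) := by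
  have hadd : ∀ a b : Cochain K k X, delta K k X (a + b) = delta K k X a + delta K k X b := by
    intro a b
    funext σ
    simp only [delta, Pi.add_apply, mul_add, Finset.sum_add_distrib]
  have hneg : ∀ a : Cochain K k X, delta K k X (-a) = - delta K k X a := by
    intro a
    funext σ
    simp only [delta, Pi.neg_apply, mul_neg, Finset.sum_neg_distrib]
  refine ⟨fun c => ⟨0, ?_⟩, ?_, ?_⟩
  · funext σ
    simp [delta]
  · rintro c c' ⟨a, ha⟩
    exact ⟨-a, by rw [hneg, ha, neg_sub]⟩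
  · rintro c c' c'' ⟨a, ha⟩ ⟨b, hb⟩
    exact ⟨a + b, by rw [hadd, ha, hb, sub_add_sub_cancel]⟩

omit [CharZero K] in
lemma mk_eq_iff {X : Type*} [TopologicalSpace X] (k : ℕ) (c c' : Cocycle K (k+1) X)
    (h : (Quot.mk _ c : H K (k+1) X) = Quot.mk _ c') :
    ∃ a : Cochain K k X, delta K k X a = c.1 - c'.1 := by
  have h1 := Quot.eqvGen_exact h
  rw [(isCoboundary_sub_equiv K k X).eqvGen_iff] at h1
  exact h1

theorem not_surj (E : Type*) [TopologicalSpace E] [MulAction Sp1 E] [Nonempty E] :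
    ¬ KirwanOnto K 2 E (levelIncl 6) (levelIncl_smul 6) := by
  obtain ⟨φ, hφ⟩ : ∃ φ : ℂ →ₗ[ℚ] ℚ, φ (4 * Real.pi * Complex.I) ≠ 0 := by
    by_contra hcon
    push Not at hcon
    have h0 : (4 * Real.pi * Complex.I : ℂ) = 0 :=
      (Module.forall_dual_apply_eq_zero_iff ℚ _).mp hcon
    simp [Real.pi_ne_zero] at h0
  intro hsurj
  obtain ⟨y, hy⟩ := hsurj (Quot.mk _ ⟨cls K φ, cls_cocycle K φ⟩)
  obtain ⟨⟨b, hb⟩, rfl⟩ := Quot.exists_rep y
  obtain ⟨e0⟩ := ‹Nonempty E›
  obtain ⟨h, hh⟩ := mk_eq_iff K 1 _ _ hy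
  have hh0 : delta K 1 _ h = fun σ =>
      b ((borelMap E (levelIncl 6) (levelIncl_smul 6)).comp σ) -
        cls K φ ((borelProj Sp1 E (zeroLevel 6)).comp σ) := hh
  have hh1 := delta_SP K e0 h
  rw [hh0] at hh1
  have hfill := fill_SP K e0 b hb
  simp only [hfill, proj_Ssim, proj_Psim] at hh1
  have hfin : cls K φ (mkR.comp sigma) = cls K φ (ContinuousMap.const _ (mkR pt0)) :=
    sub_right_injective hh1
  have hfin2 : φ (euler redField (mkR.comp sigma)) =
      φ (euler redField (ContinuousMap.const _ (mkR pt0))) := by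
    have : ((φ (euler redField (mkR.comp sigma)) : ℚ) : K) =
      ((φ (euler redField (ContinuousMap.const _ (mkR pt0))) : ℚ) : K) := hfin
    exact_mod_cast this
  apply hφ
  rw [← euler_sigma, map_sub, hfin2, sub_self]

end

end Pool.Agent.Helper88.TS
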