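import Mathlib

/-!
Definitions used in the statement about 3-Sasakian Kirwan surjectivity.
-/

set_option autoImplicit false

open scoped Quaternion

namespace Pool.Agent.Helper88.TSS

/-! ### Singular cochains -/

/-- The standard topological `k`-simplex. -/
def Spx (k : ℕ) : Type := stdSimplex ℝ (Fin (k + 1))

instance (k : ℕ) : TopologicalSpace (Spx k) := instTopologicalSpaceSubtype

/-- The `i`-th face inclusion of the standard `k`-simplex into the standard `(k+1)`-simplex. -/
noncomputable def face (k : ℕ) (i : Fin (k + 2)) : C(Spx k, Spx (k + 1)) :=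
  ⟨stdSimplex.map (Fin.succAbove i), stdSimplex.continuous_map _⟩

/-- The singular coboundary `(δ c)(σ) = ∑ᵢ (-1)^i c(σ ∘ dᵢ)`; a `k`-cochain of `X` with values in
`K` is an arbitrary function on the set of continuous maps from the `k`-simplex to `X`. -/
noncomputable def delta {K X : Type*} [Field K] [TopologicalSpace X] (k : ℕ)
    (c : C(Spx k, X) → K) : C(Spx (k + 1), X) → K :=
  fun σ => ∑ i : Fin (k + 2), (-1) ^ (i : ℕ) * c (σ.comp (face k i))

/-! ### The quaternionic vector space, the action of `Sp(1)`, the moment map -/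

/-- The quaternionic vector space `ℍ^n` with its Euclidean norm and real inner product. -/
def HV (n : ℕ) : Type := PiLp 2 (fun _ : Fin n => ℍ[ℝ])

noncomputable instance (n : ℕ) : NormedAddCommGroup (HV n) :=
  PiLp.normedAddCommGroup 2 fun _ : Fin n => ℍ[ℝ]

noncomputable instance (n : ℕ) : InnerProductSpace ℝ (HV n) :=
  PiLp.innerProductSpace fun _ : Fin n => ℍ[ℝ]

/-- Left multiplication of all coordinates by a quaternion. -/
noncomputable def lmul {n : ℕ} (q : ℍ[ℝ]) (u : HV n) : HV n := WithLp.toLp 2 (fun α => q * u.ofLp α)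

/-- Right multiplication of all coordinates by a quaternion. -/
noncomputable def rmul {n : ℕ} (u : HV n) (q : ℍ[ℝ]) : HV n := WithLp.toLp 2 (fun α => u.ofLp α * q)

/-- The group `Sp(1)` of unit quaternions. -/
abbrev Sp1 : Type := Metric.sphere (0 : ℍ[ℝ]) 1

/-- The imaginary units `i, j, k`. -/
def imUnit : Fin 3 → ℍ[ℝ] := ![⟨0, 1, 0, 0⟩, ⟨0, 0, 1, 0⟩, ⟨0, 0, 0, 1⟩]

/-- The three complex structures `I_a u = u ē_a` of the flat hyperkähler manifold `ℍ^n`
(the metric cone over `S^{4n-1}` is `ℍ^n` minus the origin). At a point `u` of the sphere, `I_a u`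
is the value of the Reeb field `ξ_a` of the standard 3-Sasakian structure. -/
noncomputable def cplx {n : ℕ} (a : Fin 3) (u : HV n) : HV n := rmul u (star (imUnit a))

/-- The value at `u` of the vector field generated by `X` in the Lie algebra `sp(1) = Im ℍ`:
the derivative at `t = 0` of `exp(tX) · u`. -/
noncomputable def fund {n : ℕ} (X : ℍ[ℝ]) (u : HV n) : HV n :=
  deriv (fun t : ℝ => lmul (NormedSpace.exp (t • X)) u) 0

/-- The 3-Sasakian moment map `⟨μ_a(u), X⟩ = ½ ⟨ξ_a(u), X̃_u⟩`. -/
noncomputable def moment {n : ℕ} (u : HV n) (a : Fin 3) (X : ℍ[ℝ]) : ℝ :=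
  (1 / 2) * inner ℝ (cplx a u) (fund X u)

/-- The unit sphere `S^{4n-1}` of `ℍ^n`. -/
def sph (n : ℕ) : Set (HV n) := {u | ‖u‖ = 1}

/-- The zero level set `μ⁻¹(0)` of the 3-Sasakian moment map in the sphere. -/
def level (n : ℕ) : Set (HV n) :=
  {u | u ∈ sph n ∧ ∀ (a : Fin 3) (X : ℍ[ℝ]), X.re = 0 → moment u a X = 0}

/-- The maps `I_1, I_2, I_3` are orthogonal and satisfy the quaternion relations. -/
def QuaternionRelations (n : ℕ) : Prop :=
  ∀ u : HV n, (∀ a, ‖cplx a u‖ = ‖u‖ ∧ cplx a (cplx a u) = -u) ∧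
    cplx 0 (cplx 1 u) = cplx 2 u ∧ cplx 1 (cplx 0 u) = -cplx 2 u

/-- The group `Sp(1)` is compact and connected and acts on `ℍ^n` continuously, by isometries
commuting with `I_1, I_2, I_3`; its action on the sphere is free. -/
def ActsByAutomorphisms (n : ℕ) : Prop :=
  CompactSpace Sp1 ∧ ConnectedSpace Sp1 ∧ (Continuous fun p : Sp1 × HV n => lmul p.1 p.2) ∧
  ∀ (g : Sp1) (u v : HV n), ‖lmul g u - lmul g v‖ = ‖u - v‖ ∧
    (∀ a, cplx a (lmul g u) = lmul g (cplx a u)) ∧ (u ∈ sph n → lmul g u = u → g = 1)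

/-- `0` is a regular value of the moment map on the sphere: at each point `u` of the zero level
set the differential of the nine functions `⟨μ_a, e_b⟩` maps the tangent space
`{h | ⟨u, h⟩ = 0}` of the sphere onto `ℝ^9`. -/
def ZeroIsRegularValue (n : ℕ) : Prop :=
  ∀ u ∈ level n, ∀ c : Fin 3 → Fin 3 → ℝ, ∃ h : HV n, inner ℝ u h = 0 ∧
    ∀ a b, fderiv ℝ (fun w => moment w a (imUnit b)) u h = c a b

/-! ### Orbit spaces and the Borel construction -/

/-- The orbit space `A / Sp(1)` of a subset `A` of `ℍ^n`, with the quotient topology. -/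
def Orbits {n : ℕ} (A : Set (HV n)) : Type :=
  Quot fun u v : A => ∃ g : Sp1, lmul g (u : HV n) = v

noncomputable instance {n : ℕ} (A : Set (HV n)) : TopologicalSpace (Orbits A) :=
  instTopologicalSpaceQuot

/-- The Borel construction `E ×_{Sp(1)} A`: the orbit space of the diagonal action on `E × A`. -/
def Borel {n : ℕ} (E : Type*) [MulAction Sp1 E] (A : Set (HV n)) : Type _ :=
  Quot fun p q : E × A => ∃ g : Sp1, g • p.1 = q.1 ∧ lmul g (p.2 : HV n) = q.2

noncomputable instance {n : ℕ} (E : Type*) [MulAction Sp1 E] [TopologicalSpace E] (A : Set (HV n)) :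
    TopologicalSpace (Borel E A) :=
  instTopologicalSpaceQuot

/-- A compact Hausdorff topological manifold of dimension `d`. -/
def IsCompactManifold (d : ℕ) (X : Type*) [TopologicalSpace X] : Prop :=
  CompactSpace X ∧ T2Space X ∧ Nonempty (ChartedSpace (EuclideanSpace ℝ (Fin d)) X)

/-- The Kirwan map of `S^{4n-1}` is not onto in degree `k+1`, with the `Sp(1)`-space `E` in the
place of `EG`. Here `j : E ×_G μ⁻¹(0) → E ×_G S` is the inclusion and
`p : E ×_G μ⁻¹(0) → μ⁻¹(0)/G` is the projection; some `(k+1)`-cocycle `c` of `μ⁻¹(0)/G` is such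
that for no cocycle `y` of `E ×_G S` the cocycles `j^* y` and `p^* c` are cohomologous. -/
def KirwanNotOnto (K : Type*) [Field K] (k n : ℕ) (E : Type*) [TopologicalSpace E]
    [MulAction Sp1 E] : Prop :=
  ∃ (j : C(Borel E (level n), Borel E (sph n))) (p : C(Borel E (level n), Orbits (level n))),
    (∀ (e : E) (u : level n) (v : sph n), (u : HV n) = v → j (Quot.mk _ (e, u)) = Quot.mk _ (e, v)) ∧
    (∀ (e : E) (u : level n), p (Quot.mk _ (e, u)) = Quot.mk _ u) ∧
    ∃ c : C(Spx (k + 1), Orbits (level n)) → K, delta (k + 1) c = 0 ∧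
      ∀ y : C(Spx (k + 1), Borel E (sph n)) → K, delta (k + 1) y = 0 →
        ∀ b : C(Spx k, Borel E (level n)) → K,
          (fun σ => y (j.comp σ) - c (p.comp σ)) ≠ delta k b

end Pool.Agent.Helper88.TSS
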