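import Pool.Agent.Helper88.TSRegular
import Pool.Agent.Helper88.TSFinal
import Pool.Agent.Helper88.TSStmt

/-!
Transfer of the results on 3-Sasakian Kirwan surjectivity to the statement form of `TSStmt`.
-/

set_option autoImplicit false

open scoped Quaternion

noncomputable section

namespace Pool.Agent.Helper88.TSB

open Pool.Agent.Helper88

/-- conversions between the two (definitionally equal) forms of `ℍ^n` -/
def co {n : ℕ} (u : TSS.HV n) : TS.HV n := u
def cn {n : ℕ} (u : TS.HV n) : TSS.HV n := u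

lemma continuous_co {n : ℕ} : Continuous (co (n := n)) :=
  (continuous_id : Continuous (id : TS.HV n → TS.HV n))
lemma continuous_cn {n : ℕ} : Continuous (cn (n := n)) :=
  (continuous_id : Continuous (id : TS.HV n → TS.HV n))

lemma quat_relations (n : ℕ) : TSS.QuaternionRelations n := by
  intro u
  exact ⟨fun a => ⟨TS.norm_cplx (n := n) a u, TS.cplx_cplx (n := n) a u⟩, TS.cplx_01 (n := n) u,
    TS.cplx_10 (n := n) u⟩

lemma sub_lmul {n : ℕ} (q : ℍ[ℝ]) (u v : TS.HV n) :
    TS.lmul q u - TS.lmul q v = TS.lmul q (u - v) := by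
  ext1 α
  simp [mul_sub]

lemma continuous_lmul (n : ℕ) : Continuous fun p : TS.Sp1 × TS.HV n => TS.lmul (p.1 : ℍ[ℝ]) p.2 := by
  unfold TS.lmul
  fun_prop

lemma norm_sub_lmul {n : ℕ} (g : TS.Sp1) (u v : TS.HV n) :
    ‖TS.lmul (g : ℍ[ℝ]) u - TS.lmul (g : ℍ[ℝ]) v‖ = ‖u - v‖ := by
  have hg : ‖(g : ℍ[ℝ])‖ = 1 := by simp
  rw [sub_lmul, TS.norm_lmul, hg, one_mul]

lemma mem_sphere_old {n : ℕ} {u : TSS.HV n} (hu : u ∈ TSS.sph n) :
    co u ∈ Metric.sphere (0 : TS.HV n) 1 := mem_sphere_zero_iff_norm.mpr hu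

lemma mem_sphere_new {n : ℕ} (u : TS.Sph n) : cn (u : TS.HV n) ∈ TSS.sph n :=
  mem_sphere_zero_iff_norm.mp u.2

lemma acts (n : ℕ) : TSS.ActsByAutomorphisms n := by
  refine ⟨inferInstance, TS.connected_Sp1, continuous_lmul n, ?_⟩
  intro g u v
  refine ⟨norm_sub_lmul g (co u) (co v), fun a => TS.cplx_lmul (n := n) a _ u, ?_⟩
  intro hu h
  exact TS.smul_free n g ⟨co u, mem_sphere_old hu⟩ (Subtype.ext h)

/-- the point of the old level set -/
lemma mem_old {n : ℕ} {u : TSS.HV n} (hu : u ∈ TSS.level n) :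
    (⟨co u, mem_sphere_old hu.1⟩ : TS.Sph n) ∈ TS.zeroLevel n :=
  fun a X hX => hu.2 a X hX

lemma mem_new {n : ℕ} (u : TS.zeroLevel n) : cn ((u : TS.Sph n) : TS.HV n) ∈ TSS.level n :=
  ⟨mem_sphere_new (u : TS.Sph n), fun a X hX => u.2 a X hX⟩

lemma regular : TSS.ZeroIsRegularValue 6 := by
  intro u hu c
  exact TS.regular_value ⟨co u, mem_sphere_old hu.1⟩ (mem_old hu) c

/-- from new to old -/
def toOld {n : ℕ} (u : TSS.level n) : TS.zeroLevel n :=
  ⟨⟨co u.1, mem_sphere_old u.2.1⟩, mem_old u.2⟩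

def toNew {n : ℕ} (u : TS.zeroLevel n) : TSS.level n :=
  ⟨cn ((u : TS.Sph n) : TS.HV n), mem_new u⟩

lemma toOld_toNew {n : ℕ} (u : TS.zeroLevel n) : toOld (toNew u) = u := rfl
lemma toNew_toOld {n : ℕ} (u : TSS.level n) : toNew (toOld u) = u := rfl

lemma continuous_toOld {n : ℕ} : Continuous (toOld (n := n)) := by
  unfold toOld
  exact ((continuous_co.comp continuous_subtype_val).subtype_mk _).subtype_mk _

lemma continuous_toNew {n : ℕ} : Continuous (toNew (n := n)) := by
  unfold toNew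
  exact (continuous_cn.comp (continuous_subtype_val.comp continuous_subtype_val)).subtype_mk _

/-- from new orbit space to old orbit space -/
def orbOld (n : ℕ) : C(TSS.Orbits (TSS.level n), TS.Sred n) where
  toFun := Quot.lift (fun u => Quotient.mk'' (toOld u)) (by
    rintro u v ⟨g, hg⟩
    refine (Quotient.sound' ⟨g, ?_⟩ : (Quotient.mk'' (toOld v) : TS.Sred n) = _).symm
    refine Subtype.ext (Subtype.ext ?_)
    exact hg)
  continuous_toFun := continuous_quot_lift _ (continuous_quotient_mk'.comp continuous_toOld)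

/-- from old orbit space to new orbit space -/
def orbNew (n : ℕ) : C(TS.Sred n, TSS.Orbits (TSS.level n)) where
  toFun := Quotient.lift (fun u => Quot.mk _ (toNew u)) (by
    rintro u v ⟨g, hg⟩
    refine (Quot.sound ⟨g, ?_⟩ : (Quot.mk _ (toNew v) : TSS.Orbits (TSS.level n)) = _).symm
    exact congrArg (fun w : TS.zeroLevel n => ((w : TS.Sph n) : TS.HV n)) hg)
  continuous_toFun := Continuous.quotient_lift (continuous_quot_mk.comp continuous_toNew) _

/-- the homeomorphism between the two orbit spaces -/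
def orbHomeo (n : ℕ) : TS.Sred n ≃ₜ TSS.Orbits (TSS.level n) where
  toFun := orbNew n
  invFun := orbOld n
  left_inv := by rintro ⟨u⟩; rfl
  right_inv := by rintro ⟨u⟩; rfl
  continuous_toFun := (orbNew n).continuous
  continuous_invFun := (orbOld n).continuous

lemma manifold : TSS.IsCompactManifold 11 (TSS.Orbits (TSS.level 6)) := by
  have h1 : CompactSpace (TS.Sred 6) := TS.sred_compact 6
  have h2 : T2Space (TS.Sred 6) := TS.sred_t2 6
  obtain ⟨h3⟩ : Nonempty (ChartedSpace (EuclideanSpace ℝ (Fin 11)) (TS.Sred 6)) := TS.sred_charted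
  refine ⟨(orbHomeo 6).compactSpace, (orbHomeo 6).t2Space, ⟨?_⟩⟩
  exact
    { atlas := {e | ∃ e' ∈ h3.atlas, e = (orbHomeo 6).symm.toOpenPartialHomeomorph.trans e'}
      chartAt := fun x => (orbHomeo 6).symm.toOpenPartialHomeomorph.trans
        (h3.chartAt ((orbHomeo 6).symm x))
      mem_chart_source := fun x => by
        simp
      chart_mem_atlas := fun x => ⟨_, h3.chart_mem_atlas _, rfl⟩ }

section

variable (E : Type*) [TopologicalSpace E] [MulAction TS.Sp1 E] (n : ℕ)

/-- the inclusion of Borel constructions, new form -/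
def jNew : C(TSS.Borel E (TSS.level n), TSS.Borel E (TSS.sph n)) where
  toFun := Quot.lift (fun p => Quot.mk _ (p.1, ⟨(p.2 : TSS.HV n), p.2.2.1⟩)) (by
    rintro p q ⟨g, h1, h2⟩
    exact Quot.sound ⟨g, h1, h2⟩)
  continuous_toFun := continuous_quot_lift _ (continuous_quot_mk.comp
    (continuous_fst.prodMk ((continuous_subtype_val.comp continuous_snd).subtype_mk _)))

/-- the projection, new form -/
def pNew : C(TSS.Borel E (TSS.level n), TSS.Orbits (TSS.level n)) where
  toFun := Quot.lift (fun p => Quot.mk _ p.2) (by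
    rintro p q ⟨g, h1, h2⟩
    exact Quot.sound ⟨g, h2⟩)
  continuous_toFun := continuous_quot_lift _ (continuous_quot_mk.comp continuous_snd)

/-- old Borel construction of the level set to the new one -/
def borLevel : C(TS.OrbitSpace TS.Sp1 (E × TS.zeroLevel n), TSS.Borel E (TSS.level n)) where
  toFun := Quotient.lift (fun p => Quot.mk _ (p.1, toNew p.2)) (by
    rintro p q ⟨g, hg⟩
    refine (Quot.sound ⟨g, ?_, ?_⟩ :
      (Quot.mk _ (q.1, toNew q.2) : TSS.Borel E (TSS.level n)) = _).symm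
    · exact congrArg Prod.fst hg
    · exact congrArg (fun w : E × TS.zeroLevel n => ((w.2 : TS.Sph n) : TS.HV n)) hg)
  continuous_toFun := Continuous.quotient_lift (continuous_quot_mk.comp
    (continuous_fst.prodMk (continuous_toNew.comp continuous_snd))) _

/-- old Borel construction of the sphere to the new one -/
def borSph : C(TS.OrbitSpace TS.Sp1 (E × TS.Sph n), TSS.Borel E (TSS.sph n)) where
  toFun := Quotient.lift (fun p => Quot.mk _ (p.1, ⟨cn (p.2 : TS.HV n), mem_sphere_new p.2⟩)) (by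
    rintro p q ⟨g, hg⟩
    refine (Quot.sound ⟨g, ?_, ?_⟩ :
      (Quot.mk _ (q.1, ⟨cn (q.2 : TS.HV n), mem_sphere_new q.2⟩) : TSS.Borel E (TSS.sph n)) = _).symm
    · exact congrArg Prod.fst hg
    · exact congrArg (fun w : E × TS.Sph n => (w.2 : TS.HV n)) hg)
  continuous_toFun := Continuous.quotient_lift (continuous_quot_mk.comp
    (continuous_fst.prodMk
      ((continuous_cn.comp (continuous_subtype_val.comp continuous_snd)).subtype_mk _))) _

lemma square_j (x : TS.OrbitSpace TS.Sp1 (E × TS.zeroLevel n)) : (jNew E n) (borLevel E n x) =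
    (borSph E n) (TS.borelMap E (TS.levelIncl n) (TS.levelIncl_smul n) x) := by
  induction x using Quotient.inductionOn'
  rfl

lemma square_p (x : TS.OrbitSpace TS.Sp1 (E × TS.zeroLevel n)) :
    (orbOld n) ((pNew E n) (borLevel E n x)) = TS.borelProj TS.Sp1 E (TS.zeroLevel n) x := by
  induction x using Quotient.inductionOn'
  rfl

end

/-- conversion of singular simplices -/
def cs {X : Type*} [TopologicalSpace X] {k : ℕ} (σ : C(TS.Spx k, X)) : C(TSS.Spx k, X) :=
  ⟨σ.1, σ.2⟩

def sc {X : Type*} [TopologicalSpace X] {k : ℕ} (σ : C(TSS.Spx k, X)) : C(TS.Spx k, X) :=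
  ⟨σ.1, σ.2⟩

theorem notOnto (K : Type*) [Field K] [CharZero K] (E : Type*) [TopologicalSpace E]
    [MulAction TS.Sp1 E] [Nonempty E] : TSS.KirwanNotOnto K 1 6 E := by
  have h := TS.not_surj K E
  unfold TS.KirwanOnto at h
  push Not at h
  obtain ⟨x, hx⟩ := h
  obtain ⟨⟨c, hc⟩, rfl⟩ := Quot.exists_rep x
  refine ⟨jNew E 6, pNew E 6, ?_, fun e u => rfl, fun σ => c ((orbOld 6).comp (sc σ)), ?_, ?_⟩
  · rintro e u ⟨v, hv⟩ rfl
    rfl
  · funext σ
    exact congrFun hc ((orbOld 6).comp (sc σ))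
  · intro y hy b hb
    have hy' : TS.delta K 2 _ (fun σ => y ((borSph E 6).comp (cs σ))) = 0 := by
      funext σ
      exact congrFun hy ((borSph E 6).comp (cs σ))
    apply hx (Quot.mk _ ⟨fun σ => y ((borSph E 6).comp (cs σ)), hy'⟩)
    refine Quot.sound ⟨fun σ => b ((borLevel E 6).comp (cs σ)), ?_⟩
    funext σ
    have h1 := congrFun hb ((borLevel E 6).comp (cs σ))
    have h2 : (jNew E 6).comp ((borLevel E 6).comp (cs σ)) =
        (borSph E 6).comp
          (cs ((TS.borelMap E (TS.levelIncl 6) (TS.levelIncl_smul 6)).comp σ)) := by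
      ext t
      exact square_j E 6 (σ t)
    have h3 : (orbOld 6).comp (sc ((pNew E 6).comp ((borLevel E 6).comp (cs σ)))) =
        (TS.borelProj TS.Sp1 E (TS.zeroLevel 6)).comp σ := by
      ext t
      exact square_p E 6 (σ t)
    have h4 : TS.delta K 1 _ (fun τ => b ((borLevel E 6).comp (cs τ))) σ =
        TSS.delta 1 b ((borLevel E 6).comp (cs σ)) := rfl
    have h5 : y ((jNew E 6).comp ((borLevel E 6).comp (cs σ))) -
        c ((orbOld 6).comp (sc ((pNew E 6).comp ((borLevel E 6).comp (cs σ))))) =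
        TSS.delta 1 b ((borLevel E 6).comp (cs σ)) := h1
    rw [h2, h3] at h5
    exact h4.trans h5.symm

end Pool.Agent.Helper88.TSB
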