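import Pool.Agent.Helper88.TSSphere

set_option autoImplicit false

open Set Matrix
open scoped Quaternion Topology

namespace Pool.Agent.Helper88.TS

/-! ### Local charts of the reduction -/

/-- component as a continuous linear map -/
noncomputable def compL (b : Fin 4) (α : Fin 6) : HV 6 →L[ℝ] ℝ :=
  LinearMap.toContinuousLinearMap
    { toFun := fun u => comp u b α
      map_add' := fun u v => by fin_cases b <;> simp [comp]
      map_smul' := fun r u => by fin_cases b <;> simp [comp] }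

@[simp] lemma compL_apply (b : Fin 4) (α : Fin 6) (u : HV 6) : compL b α u = comp u b α := rfl

/-- derivative of a Gram entry -/
noncomputable def gramL (v : HV 6) (b c : Fin 4) : HV 6 →L[ℝ] ℝ :=
  ∑ β, (comp v b β • compL c β + comp v c β • compL b β)

lemma hasStrict_gram (v : HV 6) (b c : Fin 4) :
    HasStrictFDerivAt (fun u : HV 6 => gram u b c) (gramL v b c) v := by
  unfold gram gramL
  apply HasStrictFDerivAt.fun_sum
  intro β _
  exact (compL b β).hasStrictFDerivAt.mul (compL c β).hasStrictFDerivAt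

/-- the defining functions of the slice -/
noncomputable def FF (α : Fin 6) (u : HV 6) : Fin 13 → ℝ :=
  ![gram u 0 0 - 1/4, gram u 1 1 - 1/4, gram u 2 2 - 1/4, gram u 3 3 - 1/4,
    gram u 0 1, gram u 0 2, gram u 0 3, gram u 1 2, gram u 1 3, gram u 2 3,
    comp u 1 α, comp u 2 α, comp u 3 α]

/-- their derivative -/
noncomputable def DFF (α : Fin 6) (v : HV 6) : HV 6 →L[ℝ] (Fin 13 → ℝ) :=
  ContinuousLinearMap.pi ![gramL v 0 0, gramL v 1 1, gramL v 2 2, gramL v 3 3,
    gramL v 0 1, gramL v 0 2, gramL v 0 3, gramL v 1 2, gramL v 1 3, gramL v 2 3,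
    compL 1 α, compL 2 α, compL 3 α]

lemma hasStrict_FF (α : Fin 6) (v : HV 6) : HasStrictFDerivAt (FF α) (DFF α v) v := by
  rw [hasStrictFDerivAt_pi']
  intro i
  fin_cases i
  · exact (hasStrict_gram v 0 0).sub_const _
  · exact (hasStrict_gram v 1 1).sub_const _
  · exact (hasStrict_gram v 2 2).sub_const _
  · exact (hasStrict_gram v 3 3).sub_const _
  · exact hasStrict_gram v 0 1
  · exact hasStrict_gram v 0 2
  · exact hasStrict_gram v 0 3
  · exact hasStrict_gram v 1 2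
  · exact hasStrict_gram v 1 3
  · exact hasStrict_gram v 2 3
  · exact (compL 1 α).hasStrictFDerivAt
  · exact (compL 2 α).hasStrictFDerivAt
  · exact (compL 3 α).hasStrictFDerivAt

lemma gramL_comb (v : HV 6) (hg : ∀ b c, gram v b c = if b = c then 1/4 else 0)
    (A : Fin 4 → Fin 4 → ℝ) (h : HV 6) (hh : ∀ b β, comp h b β = ∑ c, A b c * comp v c β)
    (b c : Fin 4) : gramL v b c h = (A b c + A c b) / 4 := by
  have e1 : gramL v b c h = ∑ β, (comp v b β * comp h c β + comp v c β * comp h b β) := by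
    simp [gramL]
  have e2 : ∀ b c : Fin 4, ∑ β, comp v b β * comp h c β = A c b / 4 := by
    intro b c
    have : ∀ β, comp v b β * comp h c β = ∑ c', A c c' * (comp v b β * comp v c' β) := by
      intro β
      rw [hh, Finset.mul_sum]
      refine Finset.sum_congr rfl fun c' _ => ?_
      ring
    simp_rw [this]
    rw [Finset.sum_comm]
    have e3 : ∀ c', ∑ β, A c c' * (comp v b β * comp v c' β) = A c c' * (if b = c' then 1/4 else 0) := by
      intro c'
      rw [← Finset.mul_sum, ← hg b c']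
      rfl
    simp_rw [e3]
    simp [div_eq_mul_inv]
  rw [e1, Finset.sum_add_distrib, e2, e2]
  ring

lemma DFF_surj {α : Fin 6} {v : HV 6} (hg : ∀ b c, gram v b c = if b = c then 1/4 else 0)
    (h1 : comp v 1 α = 0) (h2 : comp v 2 α = 0) (h3 : comp v 3 α = 0) (h0 : comp v 0 α ≠ 0) :
    (DFF α v).range = ⊤ := by
  rw [LinearMap.range_eq_top]
  intro t
  set r := comp v 0 α with hr
  set A : Fin 4 → Fin 4 → ℝ := ![![2*t 0, 4 * t 4 - t 10 / r, 4 * t 5 - t 11 / r, 4 * t 6 - t 12 / r],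
    ![t 10 / r, 2 * t 1, 4 * t 7, 4 * t 8], ![t 11 / r, 0, 2 * t 2, 4 * t 9], ![t 12 / r, 0, 0, 2*t 3]] with hA
  set h : HV 6 := WithLp.toLp 2 fun β => ⟨∑ c, A 0 c * comp v c β, ∑ c, A 1 c * comp v c β,
    ∑ c, A 2 c * comp v c β, ∑ c, A 3 c * comp v c β⟩ with hh
  have hc : ∀ b β, comp h b β = ∑ c, A b c * comp v c β := by
    intro b β
    fin_cases b <;> rfl
  have hG := gramL_comb v hg A h hc
  refine ⟨h, ?_⟩
  ext i
  fin_cases i
  · show gramL v 0 0 h = t 0
    rw [hG]; simp [hA]; ring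
  · show gramL v 1 1 h = t 1
    rw [hG]; simp [hA]; ring
  · show gramL v 2 2 h = t 2
    rw [hG]; simp [hA]; ring
  · show gramL v 3 3 h = t 3
    rw [hG]; simp [hA]; ring
  · show gramL v 0 1 h = t 4
    rw [hG]; simp [hA]
  · show gramL v 0 2 h = t 5
    rw [hG]; simp [hA]
  · show gramL v 0 3 h = t 6
    rw [hG]; simp [hA]
  · show gramL v 1 2 h = t 7
    rw [hG]; simp [hA]
  · show gramL v 1 3 h = t 8
    rw [hG]; simp [hA]
  · show gramL v 2 3 h = t 9
    rw [hG]; simp [hA]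
  · show comp h 1 α = t 10
    rw [hc, Fin.sum_univ_four, h1, h2, h3, ← hr]
    simp [hA, h0]
  · show comp h 2 α = t 11
    rw [hc, Fin.sum_univ_four, h1, h2, h3, ← hr]
    simp [hA, h0]
  · show comp h 3 α = t 12
    rw [hc, Fin.sum_univ_four, h1, h2, h3, ← hr]
    simp [hA, h0]

lemma finrank_HV6 : Module.finrank ℝ (HV 6) = 24 := by
  have h := (WithLp.linearEquiv 2 ℝ (Fin 6 → ℍ[ℝ])).finrank_eq
  rw [h, Module.finrank_pi_fintype]
  simp [Quaternion.finrank_eq_four]

lemma finrank_ker {α : Fin 6} {v : HV 6} (h : (DFF α v).range = ⊤) :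
    Module.finrank ℝ (DFF α v).ker = 11 := by
  have h1 := LinearMap.finrank_range_add_finrank_ker ((DFF α v : HV 6 →L[ℝ] (Fin 13 → ℝ)) : HV 6 →ₗ[ℝ] (Fin 13 → ℝ))
  rw [finrank_HV6] at h1
  have h2 : Module.finrank ℝ (LinearMap.range ((DFF α v : HV 6 →L[ℝ] (Fin 13 → ℝ)) : HV 6 →ₗ[ℝ] (Fin 13 → ℝ))) = 13 := by
    rw [show LinearMap.range ((DFF α v : HV 6 →L[ℝ] (Fin 13 → ℝ)) : HV 6 →ₗ[ℝ] (Fin 13 → ℝ)) = ⊤ from h]
    simp
  rw [h2] at h1
  have h3 : Module.finrank ℝ (LinearMap.ker ((DFF α v : HV 6 →L[ℝ] (Fin 13 → ℝ)) : HV 6 →ₗ[ℝ] (Fin 13 → ℝ))) = 11 := by omega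
  exact h3

end Pool.Agent.Helper88.TS
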