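import Mathlib

/-!
Definitions used in the statement about 3-Sasakian Kirwan surjectivity:
singular cohomology, Borel construction, the round 3-Sasakian sphere in `ℍ^n` with the
action of `Sp(1)` by left multiplication, its 3-Sasakian moment map and reduction.
-/

set_option autoImplicit false

open scoped Quaternion

namespace Pool.Agent.Helper88.TS

/-! ### Singular cohomology -/

/-- The standard topological `k`-simplex. -/
abbrev Spx (k : ℕ) : Type := stdSimplex ℝ (Fin (k + 1))

/-- The `i`-th face inclusion of the standard `k`-simplex into the standard `(k+1)`-simplex. -/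
noncomputable def face (k : ℕ) (i : Fin (k + 2)) : C(Spx k, Spx (k + 1)) :=
  ⟨stdSimplex.map (Fin.succAbove i), stdSimplex.continuous_map _⟩

/-- Singular `k`-cochains of `X` with values in `K`: arbitrary functions on the set of
continuous maps from the standard `k`-simplex to `X`. -/
abbrev Cochain (K : Type*) (k : ℕ) (X : Type*) [TopologicalSpace X] := C(Spx k, X) → K

/-- The singular coboundary `(δ c)(σ) = ∑ᵢ (-1)^i c(σ ∘ dᵢ)`. -/
noncomputable def delta (K : Type*) [Field K] (k : ℕ) (X : Type*) [TopologicalSpace X]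
    (c : Cochain K k X) : Cochain K (k + 1) X :=
  fun σ => ∑ i : Fin (k + 2), (-1 : K) ^ (i : ℕ) * c (σ.comp (face k i))

/-- Singular coboundaries: the values of `δ`, and only `0` in degree `0`. -/
def IsCoboundary (K : Type*) [Field K] (X : Type*) [TopologicalSpace X] :
    (k : ℕ) → Cochain K k X → Prop
  | 0, c => c = 0
  | (k + 1), c => ∃ a : Cochain K k X, delta K k X a = c

/-- Singular cocycles. -/
abbrev Cocycle (K : Type*) [Field K] (k : ℕ) (X : Type*) [TopologicalSpace X] :=
  {c : Cochain K k X // delta K k X c = 0}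

/-- Singular cohomology `H^k(X; K)`: cocycles modulo the relation of differing by a coboundary. -/
def H (K : Type*) [Field K] (k : ℕ) (X : Type*) [TopologicalSpace X] : Type _ :=
  Quot fun c c' : Cocycle K k X => IsCoboundary K X k (c.1 - c'.1)

lemma isCoboundary_pull {K : Type*} [Field K] {X Y : Type*} [TopologicalSpace X]
    [TopologicalSpace Y] (f : C(X, Y)) (k : ℕ) (c : Cochain K k Y) (hc : IsCoboundary K Y k c) :
    IsCoboundary K X k (fun σ => c (f.comp σ)) := by
  cases k with
  | zero =>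
    have h : c = 0 := hc
    subst h
    rfl
  | succ k =>
    obtain ⟨b, rfl⟩ := hc
    exact ⟨fun σ => b (f.comp σ), rfl⟩

/-- The map `f^* : H^k(Y; K) → H^k(X; K)` induced by a continuous map `f : X → Y`. -/
def pull (K : Type*) [Field K] (k : ℕ) {X Y : Type*} [TopologicalSpace X] [TopologicalSpace Y]
    (f : C(X, Y)) : H K k Y → H K k X :=
  Quot.map (fun c => ⟨fun σ => c.1 (f.comp σ), funext fun τ => congrFun c.2 (f.comp τ)⟩)
    (fun _ _ h => isCoboundary_pull f k _ h)

/-! ### Orbit spaces and the Borel construction -/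

/-- The orbit space `X / G` with the quotient topology. -/
abbrev OrbitSpace (G X : Type*) [Group G] [MulAction G X] : Type _ := MulAction.orbitRel.Quotient G X

/-- The map `E ×_G X → E ×_G Y` of Borel constructions induced by an equivariant continuous map
`f : X → Y`, where `E ×_G X` is the orbit space of the diagonal action on `E × X`. -/
def borelMap {G : Type*} [Group G] (E : Type*) [TopologicalSpace E] [MulAction G E]
    {X Y : Type*} [TopologicalSpace X] [TopologicalSpace Y] [MulAction G X] [MulAction G Y]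
    (f : C(X, Y)) (hf : ∀ (g : G) (x : X), f (g • x) = g • f x) :
    C(OrbitSpace G (E × X), OrbitSpace G (E × Y)) where
  toFun := Quotient.map' (fun p => (p.1, f p.2)) (by
    rintro a b ⟨g, rfl⟩
    exact ⟨g, Prod.ext rfl (hf g b.2).symm⟩)
  continuous_toFun := Continuous.quotient_map' (by fun_prop) _

/-- The projection `E ×_G X → X / G`. -/
def borelProj (G : Type*) [Group G] (E : Type*) [TopologicalSpace E] [MulAction G E]
    (X : Type*) [TopologicalSpace X] [MulAction G X] : C(OrbitSpace G (E × X), OrbitSpace G X) where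
  toFun := Quotient.map' (fun p => p.2) (by
    rintro a b ⟨g, rfl⟩
    exact ⟨g, rfl⟩)
  continuous_toFun := Continuous.quotient_map' (by fun_prop) _

/-- Surjectivity in degree `k` of the Kirwan map of an equivariant inclusion `f : N → S`, with the
`G`-space `E` in the place of `EG`: for every class `x` in `H^k(N/G; K)` there is a class `y` in
`H^k(E ×_G S; K)` whose restriction to `E ×_G N` is the pullback of `x`. -/
def KirwanOnto (K : Type*) [Field K] (k : ℕ) {G : Type*} [Group G] (E : Type*) [TopologicalSpace E]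
    [MulAction G E] {N S : Type*} [TopologicalSpace N] [TopologicalSpace S] [MulAction G N]
    [MulAction G S] (f : C(N, S)) (hf : ∀ (g : G) (x : N), f (g • x) = g • f x) : Prop :=
  ∀ x : H K k (OrbitSpace G N), ∃ y : H K k (OrbitSpace G (E × S)),
    pull K k (borelMap E f hf) y = pull K k (borelProj G E N) x

/-- A compact Hausdorff topological manifold of dimension `d`. -/
def IsCompactManifold (d : ℕ) (X : Type*) [TopologicalSpace X] : Prop :=
  CompactSpace X ∧ T2Space X ∧ Nonempty (ChartedSpace (EuclideanSpace ℝ (Fin d)) X)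

/-! ### The 3-Sasakian sphere `S^{4n-1} ⊂ ℍ^n` and the group `Sp(1)` -/

/-- The quaternionic vector space `ℍ^n` with its Euclidean norm and real inner product. -/
abbrev HV (n : ℕ) : Type := PiLp 2 (fun _ : Fin n => ℍ[ℝ])

/-- Left multiplication of all coordinates by a quaternion. -/
noncomputable def lmul {n : ℕ} (q : ℍ[ℝ]) (u : HV n) : HV n := WithLp.toLp 2 (fun α => q * u α)

/-- Right multiplication of all coordinates by a quaternion. -/
noncomputable def rmul {n : ℕ} (u : HV n) (q : ℍ[ℝ]) : HV n := WithLp.toLp 2 (fun α => u α * q)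

@[simp] lemma lmul_apply {n : ℕ} (q : ℍ[ℝ]) (u : HV n) (α : Fin n) : lmul q u α = q * u α := rfl

@[simp] lemma rmul_apply {n : ℕ} (q : ℍ[ℝ]) (u : HV n) (α : Fin n) : rmul u q α = u α * q := rfl

lemma norm_lmul {n : ℕ} (q : ℍ[ℝ]) (u : HV n) : ‖lmul q u‖ = ‖q‖ * ‖u‖ := by
  rw [← sq_eq_sq₀ (norm_nonneg _) (by positivity), mul_pow, PiLp.norm_sq_eq_of_L2, PiLp.norm_sq_eq_of_L2, Finset.mul_sum]
  refine Finset.sum_congr rfl fun α _ => ?_
  rw [lmul_apply, norm_mul, mul_pow]

/-- The unit sphere `S^{4n-1}` of `ℍ^n`. -/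
abbrev Sph (n : ℕ) : Type := Metric.sphere (0 : HV n) 1

/-- The group `Sp(1)` of unit quaternions. -/
abbrev Sp1 : Type := Metric.sphere (0 : ℍ[ℝ]) 1

/-- The imaginary units `i, j, k`. -/
def imUnit : Fin 3 → ℍ[ℝ] := ![⟨0, 1, 0, 0⟩, ⟨0, 0, 1, 0⟩, ⟨0, 0, 0, 1⟩]

/-- The three complex structures `I_a u = u ē_a` of the flat hyperkähler manifold `ℍ^n`
(the metric cone over `S^{4n-1}` is `ℍ^n` minus the origin). At a point `u` of the sphere, `I_a u`
is the value of the Reeb field `ξ_a` of the standard 3-Sasakian structure. -/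
noncomputable def cplx {n : ℕ} (a : Fin 3) (u : HV n) : HV n := rmul u (star (imUnit a))

/-- `Sp(1)` acts on the sphere by left multiplication. -/
noncomputable instance (n : ℕ) : MulAction Sp1 (Sph n) where
  smul g u := ⟨lmul (g : ℍ[ℝ]) (u : HV n), by
    have hg : ‖(g : ℍ[ℝ])‖ = 1 := by simp
    have hu : ‖(u : HV n)‖ = 1 := by simp
    simp [norm_lmul, hg, hu]⟩
  one_smul u := by
    apply Subtype.ext
    ext1 α
    exact one_mul _
  mul_smul g h u := by
    apply Subtype.ext
    ext1 α
    exact mul_assoc _ _ _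

@[simp] lemma coe_smul_sph {n : ℕ} (g : Sp1) (u : Sph n) :
    ((g • u : Sph n) : HV n) = lmul (g : ℍ[ℝ]) (u : HV n) := rfl

/-- The value at `u` of the vector field generated by `X` in the Lie algebra `sp(1) = Im ℍ`:
the derivative at `t = 0` of `exp(tX) · u`. -/
noncomputable def fund {n : ℕ} (X : ℍ[ℝ]) (u : HV n) : HV n :=
  deriv (fun t : ℝ => lmul (NormedSpace.exp (t • X)) u) 0

/-- The 3-Sasakian moment map `⟨μ_a(u), X⟩ = ½ ⟨ξ_a(u), X̃_u⟩`. -/
noncomputable def moment {n : ℕ} (u : HV n) (a : Fin 3) (X : ℍ[ℝ]) : ℝ :=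
  (1 / 2) * inner ℝ (cplx a u) (fund X u)

/-- The zero level set `μ⁻¹(0)` of the 3-Sasakian moment map in the sphere. -/
def zeroLevel (n : ℕ) : Set (Sph n) :=
  {u | ∀ (a : Fin 3) (X : ℍ[ℝ]), X.re = 0 → moment (u : HV n) a X = 0}

lemma fund_eq {n : ℕ} (X : ℍ[ℝ]) (u : HV n) : fund X u = lmul X u := by
  have h1 := hasDerivAt_exp_smul_const (𝕂 := ℝ) X (0 : ℝ)
  let L : ℍ[ℝ] →ₗ[ℝ] HV n :=
    { toFun := fun q => lmul q u
      map_add' := fun p q => by ext1 α; simp [add_mul]
      map_smul' := fun r q => by ext1 α; simp }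
  have h2 := (LinearMap.toContinuousLinearMap L).hasFDerivAt.comp_hasDerivAt (0 : ℝ) h1
  have h3 : HasDerivAt (fun t : ℝ => lmul (NormedSpace.exp (t • X)) u) (lmul X u) 0 := by
    refine h2.congr_deriv ?_
    simp [L]
  exact h3.deriv

lemma inner_lmul {n : ℕ} (q : ℍ[ℝ]) (u v : HV n) :
    inner ℝ (lmul q u) v = inner ℝ u (lmul (star q) v) := by
  rw [PiLp.inner_apply, PiLp.inner_apply]
  refine Finset.sum_congr rfl fun α _ => ?_
  rw [lmul_apply, lmul_apply, Quaternion.inner_def, Quaternion.inner_def]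
  simp
  ring

lemma lmul_lmul {n : ℕ} (p q : ℍ[ℝ]) (u : HV n) : lmul p (lmul q u) = lmul (p * q) u := by
  ext1 α
  simp [mul_assoc]

lemma lmul_rmul {n : ℕ} (p q : ℍ[ℝ]) (u : HV n) : lmul p (rmul u q) = rmul (lmul p u) q := by
  ext1 α
  simp [mul_assoc]

/-- The zero level set is invariant under `Sp(1)`. -/
lemma smul_mem_zeroLevel {n : ℕ} (g : Sp1) {u : Sph n} (hu : u ∈ zeroLevel n) :
    g • u ∈ zeroLevel n := by
  intro a X hX
  have h := hu a (star (g : ℍ[ℝ]) * X * g) (by
    simp only [Quaternion.re_mul, Quaternion.imI_mul, Quaternion.imJ_mul, Quaternion.imK_mul,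
      Quaternion.re_star, Quaternion.imI_star, Quaternion.imJ_star, Quaternion.imK_star, hX]
    ring)
  unfold moment at h ⊢
  rw [fund_eq] at h ⊢
  rw [coe_smul_sph, cplx, ← lmul_rmul, inner_lmul, lmul_lmul, lmul_lmul]
  exact h

/-- The action of `Sp(1)` on the zero level set. -/
noncomputable instance (n : ℕ) : MulAction Sp1 (zeroLevel n) where
  smul g u := ⟨g • (u : Sph n), smul_mem_zeroLevel g u.2⟩
  one_smul u := Subtype.ext (one_smul Sp1 (u : Sph n))
  mul_smul g h u := Subtype.ext (mul_smul g h (u : Sph n))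

@[simp] lemma coe_smul_zeroLevel {n : ℕ} (g : Sp1) (u : zeroLevel n) :
    ((g • u : zeroLevel n) : Sph n) = g • (u : Sph n) := rfl

/-- The 3-Sasakian reduction `S_red = μ⁻¹(0) / Sp(1)` of the sphere `S^{4n-1}`. -/
abbrev Sred (n : ℕ) : Type := OrbitSpace Sp1 (zeroLevel n)

/-- The inclusion of the zero level set in the sphere. -/
def levelIncl (n : ℕ) : C(zeroLevel n, Sph n) := ⟨Subtype.val, continuous_subtype_val⟩

lemma levelIncl_smul (n : ℕ) (g : Sp1) (u : zeroLevel n) :
    levelIncl n (g • u) = g • levelIncl n u := rfl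

/-- The maps `I_1, I_2, I_3` are orthogonal and satisfy the quaternion relations. -/
def QuaternionRelations (n : ℕ) : Prop :=
  (∀ (a : Fin 3) (u : HV n), ‖cplx a u‖ = ‖u‖ ∧ cplx a (cplx a u) = -u) ∧
  (∀ u : HV n, cplx 0 (cplx 1 u) = cplx 2 u ∧ cplx 1 (cplx 0 u) = -cplx 2 u)

/-- The group `Sp(1)` is compact and connected and acts on `ℍ^n` by isometries commuting with
`I_1, I_2, I_3`; its action on the sphere is continuous and free. -/
def ActsByAutomorphisms (n : ℕ) : Prop :=
  CompactSpace Sp1 ∧ ConnectedSpace Sp1 ∧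
  (∀ (g : Sp1) (u v : HV n), dist (lmul (g : ℍ[ℝ]) u) (lmul (g : ℍ[ℝ]) v) = dist u v) ∧
  (∀ (g : Sp1) (a : Fin 3) (u : HV n), cplx a (lmul (g : ℍ[ℝ]) u) = lmul (g : ℍ[ℝ]) (cplx a u)) ∧
  (Continuous fun p : Sp1 × Sph n => p.1 • p.2) ∧
  (∀ (g : Sp1) (u : Sph n), g • u = u → g = 1)

/-- `0` is a regular value of the moment map on the sphere: at each point `u` of the zero level
set the differential of the nine functions `⟨μ_a, e_b⟩` maps the tangent space
`{h | ⟨u, h⟩ = 0}` of the sphere onto `ℝ^9`. -/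
def ZeroIsRegularValue (n : ℕ) : Prop :=
  ∀ u ∈ zeroLevel n, ∀ c : Fin 3 → Fin 3 → ℝ, ∃ h : HV n, inner ℝ (u : HV n) h = 0 ∧
    ∀ a b, fderiv ℝ (fun w : HV n => moment w a (imUnit b)) (u : HV n) h = c a b

end Pool.Agent.Helper88.TS
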