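import Mathlib

set_option autoImplicit false

open Matrix

namespace Pool.Agent.Helper88.TS

/-- the matrix with rows `r 0, r 1, r 2, r 3, x, y` -/
def Nmat (r : Fin 4 → Fin 6 → ℝ) (x y : Fin 6 → ℝ) : Matrix (Fin 6) (Fin 6) ℝ :=
  Matrix.of ![r 0, r 1, r 2, r 3, x, y]

lemma det_block (p q : Fin 6 → ℝ) :
    (Matrix.of ![![1,0,0,0,0,0], ![0,1,0,0,0,0], ![0,0,1,0,0,0], ![0,0,0,1,0,0], p, q] :
      Matrix (Fin 6) (Fin 6) ℝ).det = p 4 * q 5 - p 5 * q 4 := by
  simp [Matrix.det_succ_row_zero, Fin.sum_univ_succ, Matrix.submatrix, Fin.succAbove]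
  ring

lemma det_left (a b c d : ℝ) :
    (Matrix.of ![![a,-b,-c,-d,0,0], ![b,a,-d,c,0,0], ![c,d,a,-b,0,0], ![d,-c,b,a,0,0],
      ![0,0,0,0,1,0], ![0,0,0,0,0,1]] : Matrix (Fin 6) (Fin 6) ℝ).det = (a^2+b^2+c^2+d^2)^2 := by
  simp [Matrix.det_succ_row_zero, Fin.sum_univ_succ, Matrix.submatrix, Fin.succAbove]
  ring

/-- orthonormal frames, without orientation -/
structure Frame0 (r : Fin 4 → Fin 6 → ℝ) (a b : Fin 6 → ℝ) : Prop where
  rr : ∀ i j, ∑ α, r i α * r j α = if i = j then 1 else 0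
  ra : ∀ i, ∑ α, r i α * a α = 0
  rb : ∀ i, ∑ α, r i α * b α = 0
  aa : ∑ α, a α * a α = 1
  ab : ∑ α, a α * b α = 0
  bb : ∑ α, b α * b α = 1

/-- oriented orthonormal frames -/
structure Frame (r : Fin 4 → Fin 6 → ℝ) (a b : Fin 6 → ℝ) : Prop extends Frame0 r a b where
  det : (Nmat r a b).det = 1

lemma Frame0.prod {r : Fin 4 → Fin 6 → ℝ} {a b : Fin 6 → ℝ} (h : Frame0 r a b)
    (x y : Fin 6 → ℝ) : Nmat r x y * (Nmat r a b)ᵀ =
      Matrix.of ![![1,0,0,0,0,0], ![0,1,0,0,0,0], ![0,0,1,0,0,0], ![0,0,0,1,0,0],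
        ![∑ α, x α * r 0 α, ∑ α, x α * r 1 α, ∑ α, x α * r 2 α, ∑ α, x α * r 3 α, ∑ α, x α * a α, ∑ α, x α * b α],
        ![∑ α, y α * r 0 α, ∑ α, y α * r 1 α, ∑ α, y α * r 2 α, ∑ α, y α * r 3 α, ∑ α, y α * a α, ∑ α, y α * b α]] := by
  ext i j
  rw [Matrix.mul_apply]
  simp only [Matrix.transpose_apply, Nmat, Matrix.of_apply]
  fin_cases i <;> fin_cases j
  · exact (h.rr 0 0).trans (if_pos rfl)
  · exact (h.rr 0 1).trans (if_neg (by decide))
  · exact (h.rr 0 2).trans (if_neg (by decide))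
  · exact (h.rr 0 3).trans (if_neg (by decide))
  · exact h.ra 0
  · exact h.rb 0
  · exact (h.rr 1 0).trans (if_neg (by decide))
  · exact (h.rr 1 1).trans (if_pos rfl)
  · exact (h.rr 1 2).trans (if_neg (by decide))
  · exact (h.rr 1 3).trans (if_neg (by decide))
  · exact h.ra 1
  · exact h.rb 1
  · exact (h.rr 2 0).trans (if_neg (by decide))
  · exact (h.rr 2 1).trans (if_neg (by decide))
  · exact (h.rr 2 2).trans (if_pos rfl)
  · exact (h.rr 2 3).trans (if_neg (by decide))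
  · exact h.ra 2
  · exact h.rb 2
  · exact (h.rr 3 0).trans (if_neg (by decide))
  · exact (h.rr 3 1).trans (if_neg (by decide))
  · exact (h.rr 3 2).trans (if_neg (by decide))
  · exact (h.rr 3 3).trans (if_pos rfl)
  · exact h.ra 3
  · exact h.rb 3
  · rfl
  · rfl
  · rfl
  · rfl
  · rfl
  · rfl
  · rfl
  · rfl
  · rfl
  · rfl
  · rfl
  · rfl

lemma Frame0.det_prod {r : Fin 4 → Fin 6 → ℝ} {a b : Fin 6 → ℝ} (h : Frame0 r a b)
    (x y : Fin 6 → ℝ) : (Nmat r x y).det * (Nmat r a b).det =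
      (∑ α, x α * a α) * (∑ α, y α * b α) - (∑ α, x α * b α) * (∑ α, y α * a α) := by
  have h2 := congrArg Matrix.det (h.prod x y)
  rw [Matrix.det_mul, Matrix.det_transpose, det_block] at h2
  rw [h2]
  simp

lemma Frame.det_formula {r : Fin 4 → Fin 6 → ℝ} {a b : Fin 6 → ℝ} (h : Frame r a b)
    (x y : Fin 6 → ℝ) :
    (Nmat r x y).det = (∑ α, x α * a α) * (∑ α, y α * b α) - (∑ α, x α * b α) * (∑ α, y α * a α) := by
  rw [← h.toFrame0.det_prod, h.det, mul_one]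

lemma exists_frame0 {r : Fin 4 → Fin 6 → ℝ}
    (hr : ∀ i j, ∑ α, r i α * r j α = if i = j then 1 else 0) : ∃ a b, Frame0 r a b := by
  set v : Fin 6 → EuclideanSpace ℝ (Fin 6) :=
    fun i => if h : (i : ℕ) < 4 then WithLp.toLp 2 (r ⟨i, h⟩) else 0 with hv
  set s : Set (Fin 6) := {i | (i : ℕ) < 4} with hs
  have hin : ∀ x y : Fin 6 → ℝ, inner ℝ (WithLp.toLp 2 x : EuclideanSpace ℝ (Fin 6)) (WithLp.toLp 2 y) =
      ∑ α, x α * y α := by
    intro x y
    rw [PiLp.inner_apply]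
    refine Finset.sum_congr rfl fun α _ => ?_
    simp [mul_comm]
  have hon : Orthonormal ℝ (s.domRestrict v) := by
    rw [orthonormal_iff_ite]
    rintro ⟨i, hi⟩ ⟨j, hj⟩
    have hi' : (i : ℕ) < 4 := hi
    have hj' : (j : ℕ) < 4 := hj
    have e1 : v i = WithLp.toLp 2 (r ⟨i, hi'⟩) := by simp only [hv]; rw [dif_pos hi']
    have e2 : v j = WithLp.toLp 2 (r ⟨j, hj'⟩) := by simp only [hv]; rw [dif_pos hj']
    show inner ℝ (v i) (v j) = _
    rw [e1, e2, hin, hr]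
    congr 1
    simp only [Fin.mk.injEq, Subtype.mk.injEq, eq_iff_iff]
    exact Fin.val_inj
  obtain ⟨B, hB⟩ := hon.exists_orthonormalBasis_extension_of_card_eq (by simp)
  have hB' : ∀ i : Fin 4, B (Fin.castLE (by norm_num) i) = WithLp.toLp 2 (r i) := by
    intro i
    rw [hB _ (by simp [hs])]
    simp [hv]
  have hrow : ∀ i : Fin 4, ∀ α, r i α = B (Fin.castLE (by norm_num) i) α := by
    intro i α
    rw [hB' i]
  have hBin : ∀ i j : Fin 6, ∑ α, B i α * B j α = if i = j then 1 else 0 := by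
    intro i j
    have h1 := (orthonormal_iff_ite.mp B.orthonormal) i j
    rw [← h1, PiLp.inner_apply]
    refine Finset.sum_congr rfl fun α _ => ?_
    simp [mul_comm]
  refine ⟨fun α => B 4 α, fun α => B 5 α, hr, ?_, ?_, ?_, ?_, ?_⟩
  · intro i
    simp_rw [hrow]
    rw [hBin, if_neg]
    intro h
    have := congrArg Fin.val h
    simp at this
    omega
  · intro i
    simp_rw [hrow]
    rw [hBin, if_neg]
    intro h
    have := congrArg Fin.val h
    simp at this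
    omega
  · rw [hBin, if_pos rfl]
  · rw [hBin, if_neg (by decide)]
  · rw [hBin, if_pos rfl]

lemma exists_frame {r : Fin 4 → Fin 6 → ℝ}
    (hr : ∀ i j, ∑ α, r i α * r j α = if i = j then 1 else 0) : ∃ a b, Frame r a b := by
  obtain ⟨a, b, h⟩ := exists_frame0 hr
  have hd : (Nmat r a b).det * (Nmat r a b).det = 1 := by
    rw [h.det_prod, h.aa, h.bb, h.ab]; norm_num
  rcases mul_self_eq_one_iff.mp hd with h1 | h1
  · exact ⟨a, b, h, h1⟩
  · have h2 := h.det_prod a (fun α => - b α)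
    have h3 : ∑ α, -b α * b α = -1 := by
      rw [← h.bb, ← Finset.sum_neg_distrib]
      refine Finset.sum_congr rfl fun α _ => by ring
    rw [h.aa, h.ab, h1, h3] at h2
    refine ⟨a, fun α => - b α, ⟨hr, h.ra, ?_, h.aa, ?_, ?_⟩, by linarith⟩
    · intro i
      have := h.rb i
      simp only [mul_neg, Finset.sum_neg_distrib, this, neg_zero]
    · simp only [mul_neg, Finset.sum_neg_distrib, h.ab, neg_zero]
    · simp only [mul_neg, neg_mul, neg_neg, h.bb]

end Pool.Agent.Helper88.TS
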