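import Pool.Agent.Helper88.TSGeom
import Pool.Agent.Helper88.TSFrame

set_option autoImplicit false

open Set Matrix
open scoped Quaternion

namespace Pool.Agent.Helper88.TS

/-- the four rescaled component vectors -/
def rows (u : HV 6) (b : Fin 4) (α : Fin 6) : ℝ := 2 * comp u b α

/-- the skew form of the oriented complement -/
def Jf (u : HV 6) (j k : Fin 6) : ℝ := (Nmat (rows u) (Pi.single j 1) (Pi.single k 1)).det

lemma rows_orth {u : Sph 6} (hu : u ∈ zeroLevel 6) (i j : Fin 4) :
    ∑ α, rows (u : HV 6) i α * rows (u : HV 6) j α = if i = j then 1 else 0 := by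
  have h := gram_of_zeroLevel hu i j
  have h2 : ∑ α, rows (u : HV 6) i α * rows (u : HV 6) j α = 4 * gram (u : HV 6) i j := by
    rw [gram, Finset.mul_sum]
    refine Finset.sum_congr rfl fun α _ => ?_
    simp only [rows]; ring
  rw [h2, h]
  split_ifs <;> norm_num

lemma Nmat_lmul (q : ℍ[ℝ]) (u : HV 6) (x y : Fin 6 → ℝ) :
    Nmat (rows (lmul q u)) x y =
      (Matrix.of ![![q.re,-q.imI,-q.imJ,-q.imK,0,0], ![q.imI,q.re,-q.imK,q.imJ,0,0],
        ![q.imJ,q.imK,q.re,-q.imI,0,0], ![q.imK,-q.imJ,q.imI,q.re,0,0],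
      ![0,0,0,0,1,0], ![0,0,0,0,0,1]] : Matrix (Fin 6) (Fin 6) ℝ) * Nmat (rows u) x y := by
  ext i j
  rw [Matrix.mul_apply, Fin.sum_univ_six]
  fin_cases i
  · simp [Nmat, rows, comp]; ring
  · simp [Nmat, rows, comp]; ring
  · simp [Nmat, rows, comp]; ring
  · simp [Nmat, rows, comp]; ring
  · simp [Nmat]
  · simp [Nmat]

lemma Jf_lmul (q : ℍ[ℝ]) (hq : ‖q‖ = 1) (u : HV 6) (j k : Fin 6) : Jf (lmul q u) j k = Jf u j k := by
  unfold Jf
  rw [Nmat_lmul, Matrix.det_mul, det_left]
  have h1 : q.re^2 + q.imI^2 + q.imJ^2 + q.imK^2 = 1 := by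
    rw [← Quaternion.normSq_def', Quaternion.normSq_eq_norm_mul_self, hq]; norm_num
  rw [h1]; ring

lemma continuous_comp (n : ℕ) (b : Fin 4) (α : Fin n) : Continuous fun u : HV n => comp u b α := by
  have h : Continuous fun u : HV n => u α := by fun_prop
  fin_cases b
  · exact Quaternion.continuous_re.comp h
  · exact Quaternion.continuous_imI.comp h
  · exact Quaternion.continuous_imJ.comp h
  · exact Quaternion.continuous_imK.comp h

lemma continuous_Jf (j k : Fin 6) : Continuous fun u : HV 6 => Jf u j k := by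
  unfold Jf
  apply Continuous.matrix_det
  apply continuous_matrix
  intro i l
  have h : ∀ b, Continuous fun u : HV 6 => rows u b l := fun b => (continuous_comp 6 b l).const_mul 2 
  fin_cases i
  · exact h 0
  · exact h 1
  · exact h 2
  · exact h 3
  · exact continuous_const
  · exact continuous_const

/-- matrix of the projection onto the isotropic line -/
noncomputable def Qmat (u : HV 6) : Matrix (Fin 6) (Fin 6) ℂ := Matrix.of fun j k =>
  (1/2) * (-((∑ l, Jf u j l * Jf u l k : ℝ) : ℂ) + Complex.I * (Jf u j k : ℝ))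

lemma continuous_Qmat : Continuous Qmat := by
  apply continuous_matrix
  intro j k
  have h := continuous_Jf
  have e : (fun u => Qmat u j k) = fun u : HV 6 =>
      (1/2 : ℂ) * (-((∑ l, Jf u j l * Jf u l k : ℝ) : ℂ) + Complex.I * (Jf u j k : ℝ)) := rfl
  rw [e]
  fun_prop

lemma Jf_frame {u : HV 6} {a b : Fin 6 → ℝ} (h : Frame (rows u) a b) (j k : Fin 6) :
    Jf u j k = a j * b k - b j * a k := by
  have e : ∀ (j : Fin 6) (f : Fin 6 → ℝ), ∑ α, (Pi.single j 1 : Fin 6 → ℝ) α * f α = f j := by
    intro j f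
    simp [Pi.single_apply]
  rw [Jf, h.det_formula, e, e, e, e]

lemma Qmat_frame {u : HV 6} {a b : Fin 6 → ℝ} (h : Frame (rows u) a b) (j k : Fin 6) :
    Qmat u j k = (1/2) * ((a j - Complex.I * b j) * (a k + Complex.I * b k)) := by
  simp only [Qmat, Matrix.of_apply, Jf_frame h]
  have e : ∑ l, (a j * b l - b j * a l) * (a l * b k - b l * a k) = -(a j * a k + b j * b k) := by
    have e1 : ∀ l, (a j * b l - b j * a l) * (a l * b k - b l * a k) =
        (a j * b k + b j * a k) * (a l * b l) - a j * a k * (b l * b l) - b j * b k * (a l * a l) := by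
      intro l; ring
    simp_rw [e1]
    rw [Finset.sum_sub_distrib, Finset.sum_sub_distrib, ← Finset.mul_sum, ← Finset.mul_sum,
      ← Finset.mul_sum, h.aa, h.bb, h.ab]
    ring
  rw [e]
  push_cast
  have hI : Complex.I * Complex.I = -1 := Complex.I_mul_I
  linear_combination ((1/2 : ℂ) * (b j) * (b k)) * hI

/-- the space `ℂ^6` -/
abbrev W6 : Type := EuclideanSpace ℂ (Fin 6)

/-- the operator -/
noncomputable def Qop (u : HV 6) : W6 →L[ℂ] W6 := Matrix.toEuclideanCLM (𝕜 := ℂ) (Qmat u)

lemma Qop_apply (u : HV 6) (w : W6) (j : Fin 6) : Qop u w j = ∑ k, Qmat u j k * w k := by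
  unfold Qop
  simp [Matrix.mulVec, dotProduct]

lemma continuous_Qop : Continuous Qop := by
  have h : Continuous (Matrix.toEuclideanCLM (n := Fin 6) (𝕜 := ℂ)) :=
    LinearMap.continuous_of_finiteDimensional
      ((Matrix.toEuclideanCLM (n := Fin 6) (𝕜 := ℂ)).toAlgEquiv.toLinearMap)
  exact h.comp continuous_Qmat

/-- generator attached to a frame -/
noncomputable def genf (a b : Fin 6 → ℝ) : W6 := WithLp.toLp 2 fun j => (a j : ℂ) - Complex.I * b j

lemma Qop_frame {u : HV 6} {a b : Fin 6 → ℝ} (h : Frame (rows u) a b) (w : W6) :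
    Qop u w = ((1/2) * ∑ k, ((a k : ℂ) + Complex.I * b k) * w k) • genf a b := by
  ext j
  rw [Qop_apply]
  simp_rw [Qmat_frame h]
  simp only [genf, PiLp.smul_apply, smul_eq_mul]
  rw [Finset.mul_sum, Finset.sum_mul]
  refine Finset.sum_congr rfl fun k _ => ?_
  ring

lemma Qop_genf {u : HV 6} {a b : Fin 6 → ℝ} (h : Frame (rows u) a b) :
    Qop u (genf a b) = genf a b := by
  rw [Qop_frame h]
  have e : (1/2 : ℂ) * ∑ k, ((a k : ℂ) + Complex.I * b k) * (genf a b) k = 1 := by
    have e1 : ∀ k, ((a k : ℂ) + Complex.I * b k) * (genf a b) k = ((a k * a k + b k * b k : ℝ) : ℂ) := by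
      intro k
      simp only [genf]
      push_cast
      have hI : Complex.I * Complex.I = -1 := Complex.I_mul_I
      linear_combination (-(b k : ℂ) * (b k)) * hI
    simp_rw [e1]
    rw [← Complex.ofReal_sum, Finset.sum_add_distrib, h.aa, h.bb]
    push_cast; norm_num
  rw [e, one_smul]

lemma genf_ne {u : HV 6} {a b : Fin 6 → ℝ} (h : Frame (rows u) a b) : genf a b ≠ 0 := by
  intro h0
  have h1 : ∀ k, a k = 0 := by
    intro k
    have := congrArg (fun w : W6 => (w k).re) h0
    simpa [genf] using this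
  have := h.aa
  simp [h1] at this

lemma Qop_lmul (q : ℍ[ℝ]) (hq : ‖q‖ = 1) (u : HV 6) : Qop (lmul q u) = Qop u := by
  unfold Qop
  congr 1
  ext j k
  simp only [Qmat, Matrix.of_apply, Jf_lmul q hq]

/-- The operator field on the reduction. -/
noncomputable def redQ (x : Sred 6) : W6 →L[ℂ] W6 :=
  Quotient.liftOn' x (fun u : zeroLevel 6 => Qop ((u : Sph 6) : HV 6)) (by
    rintro u v ⟨g, rfl⟩
    simp only [coe_smul_zeroLevel, coe_smul_sph]
    exact Qop_lmul _ (by simp) _)

lemma redQ_mk (u : zeroLevel 6) : redQ (Quotient.mk'' u) = Qop ((u : Sph 6) : HV 6) := rfl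

lemma redQ_out (x : Sred 6) : redQ x = Qop ((Quotient.out x : zeroLevel 6) : Sph 6) := by
  conv_lhs => rw [← Quotient.out_eq' x]
  exact redQ_mk _

/-- The line field on the reduction. -/
noncomputable def redField : LineField (Sred 6) W6 where
  Q := redQ
  cont := by
    apply Continuous.quotient_liftOn'
    exact continuous_Qop.comp (continuous_subtype_val.comp continuous_subtype_val)
  gen := fun x => genf (exists_frame (rows_orth (Quotient.out x).2)).choose
    (exists_frame (rows_orth (Quotient.out x).2)).choose_spec.choose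
  gen_ne := fun x => genf_ne (exists_frame (rows_orth (Quotient.out x).2)).choose_spec.choose_spec
  gen_mem := fun x => by
    rw [redQ_out]
    exact Qop_genf (exists_frame (rows_orth (Quotient.out x).2)).choose_spec.choose_spec
  line := fun x w => by
    rw [redQ_out]
    exact ⟨_, Qop_frame (exists_frame (rows_orth (Quotient.out x).2)).choose_spec.choose_spec w⟩

lemma redField_Q (u : zeroLevel 6) :
    redField.Q (Quotient.mk'' u) = Qop ((u : Sph 6) : HV 6) := rfl

end Pool.Agent.Helper88.TS
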