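import Pool.Agent.Helper88.TSCocycle

set_option autoImplicit false

open Set
open scoped Quaternion

namespace Pool.Agent.Helper88.TS

/-! ### Gram matrix of the four real component vectors -/

/-- the four real components -/
def comp {n : ℕ} (u : HV n) (b : Fin 4) (α : Fin n) : ℝ :=
  ![(u α).re, (u α).imI, (u α).imJ, (u α).imK] b

/-- Gram matrix -/
def gram {n : ℕ} (u : HV n) (b c : Fin 4) : ℝ := ∑ α, comp u b α * comp u c α

lemma moment_expand {n : ℕ} (u : HV n) (a b : Fin 3) :
    moment u a (imUnit b) = (1/2) * ∑ α, inner ℝ (u α * star (imUnit a)) (imUnit b * u α) := by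
  rw [moment, fund_eq, PiLp.inner_apply]
  rfl

lemma gram_symm {n : ℕ} (u : HV n) (b c : Fin 4) : gram u b c = gram u c b := by
  unfold gram
  refine Finset.sum_congr rfl fun α _ => ?_
  ring

lemma inner_gen (h p q : ℍ[ℝ]) : inner ℝ (h * star p) (q * h) =
    (h.re * p.re + h.imI * p.imI + h.imJ * p.imJ + h.imK * p.imK) *
      (q.re * h.re - q.imI * h.imI - q.imJ * h.imJ - q.imK * h.imK) +
    (h.imI * p.re - h.re * p.imI - h.imJ * p.imK + h.imK * p.imJ) *
      (q.re * h.imI + q.imI * h.re + q.imJ * h.imK - q.imK * h.imJ) +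
    (h.imJ * p.re - h.re * p.imJ + h.imI * p.imK - h.imK * p.imI) *
      (q.re * h.imJ - q.imI * h.imK + q.imJ * h.re + q.imK * h.imI) +
    (h.imK * p.re - h.re * p.imK - h.imI * p.imJ + h.imJ * p.imI) *
      (q.re * h.imK + q.imI * h.imJ - q.imJ * h.imI + q.imK * h.re) := by
  rw [Quaternion.inner_def]
  simp
  ring

@[simp] lemma imUnit_zero_re : (imUnit 0).re = 0 := rfl
@[simp] lemma imUnit_zero_imI : (imUnit 0).imI = 1 := rfl
@[simp] lemma imUnit_zero_imJ : (imUnit 0).imJ = 0 := rfl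
@[simp] lemma imUnit_zero_imK : (imUnit 0).imK = 0 := rfl
@[simp] lemma imUnit_one_re : (imUnit 1).re = 0 := rfl
@[simp] lemma imUnit_one_imI : (imUnit 1).imI = 0 := rfl
@[simp] lemma imUnit_one_imJ : (imUnit 1).imJ = 1 := rfl
@[simp] lemma imUnit_one_imK : (imUnit 1).imK = 0 := rfl
@[simp] lemma imUnit_two_re : (imUnit 2).re = 0 := rfl
@[simp] lemma imUnit_two_imI : (imUnit 2).imI = 0 := rfl
@[simp] lemma imUnit_two_imJ : (imUnit 2).imJ = 0 := rfl
@[simp] lemma imUnit_two_imK : (imUnit 2).imK = 1 := rfl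

section
variable {n : ℕ} (u : HV n)

lemma m00 : moment u 0 (imUnit 0) = (1/2) * (-gram u 1 1 - gram u 0 0 + gram u 3 3 + gram u 2 2) := by
  rw [moment_expand]
  congr 1
  simp only [gram, Finset.mul_sum, ← Finset.sum_add_distrib, ← Finset.sum_sub_distrib, ← Finset.sum_neg_distrib]
  refine Finset.sum_congr rfl fun α _ => ?_
  rw [inner_gen]
  simp [comp]
  ring

lemma m11 : moment u 1 (imUnit 1) = (1/2) * (-gram u 2 2 - gram u 0 0 + gram u 3 3 + gram u 1 1) := by
  rw [moment_expand]
  congr 1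
  simp only [gram, Finset.mul_sum, ← Finset.sum_add_distrib, ← Finset.sum_sub_distrib, ← Finset.sum_neg_distrib]
  refine Finset.sum_congr rfl fun α _ => ?_
  rw [inner_gen]
  simp [comp]
  ring

lemma m22 : moment u 2 (imUnit 2) = (1/2) * (-gram u 3 3 - gram u 0 0 + gram u 1 1 + gram u 2 2) := by
  rw [moment_expand]
  congr 1
  simp only [gram, Finset.mul_sum, ← Finset.sum_add_distrib, ← Finset.sum_sub_distrib, ← Finset.sum_neg_distrib]
  refine Finset.sum_congr rfl fun α _ => ?_
  rw [inner_gen]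
  simp [comp]
  ring

lemma m01 : moment u 0 (imUnit 1) = (1/2) * (-2 * gram u 1 2 - 2 * gram u 0 3) := by
  rw [moment_expand]
  congr 1
  simp only [gram, Finset.mul_sum, ← Finset.sum_add_distrib, ← Finset.sum_sub_distrib, ← Finset.sum_neg_distrib]
  refine Finset.sum_congr rfl fun α _ => ?_
  rw [inner_gen]
  simp [comp]
  ring

lemma m10 : moment u 1 (imUnit 0) = (1/2) * (-2 * gram u 1 2 + 2 * gram u 0 3) := by
  rw [moment_expand]
  congr 1
  simp only [gram, Finset.mul_sum, ← Finset.sum_add_distrib, ← Finset.sum_sub_distrib, ← Finset.sum_neg_distrib]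
  refine Finset.sum_congr rfl fun α _ => ?_
  rw [inner_gen]
  simp [comp]
  ring

lemma m02 : moment u 0 (imUnit 2) = (1/2) * (-2 * gram u 1 3 + 2 * gram u 0 2) := by
  rw [moment_expand]
  congr 1
  simp only [gram, Finset.mul_sum, ← Finset.sum_add_distrib, ← Finset.sum_sub_distrib, ← Finset.sum_neg_distrib]
  refine Finset.sum_congr rfl fun α _ => ?_
  rw [inner_gen]
  simp [comp]
  ring

lemma m20 : moment u 2 (imUnit 0) = (1/2) * (-2 * gram u 1 3 - 2 * gram u 0 2) := by
  rw [moment_expand]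
  congr 1
  simp only [gram, Finset.mul_sum, ← Finset.sum_add_distrib, ← Finset.sum_sub_distrib, ← Finset.sum_neg_distrib]
  refine Finset.sum_congr rfl fun α _ => ?_
  rw [inner_gen]
  simp [comp]
  ring

lemma m12 : moment u 1 (imUnit 2) = (1/2) * (-2 * gram u 2 3 - 2 * gram u 0 1) := by
  rw [moment_expand]
  congr 1
  simp only [gram, Finset.mul_sum, ← Finset.sum_add_distrib, ← Finset.sum_sub_distrib, ← Finset.sum_neg_distrib]
  refine Finset.sum_congr rfl fun α _ => ?_
  rw [inner_gen]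
  simp [comp]
  ring

lemma m21 : moment u 2 (imUnit 1) = (1/2) * (-2 * gram u 2 3 + 2 * gram u 0 1) := by
  rw [moment_expand]
  congr 1
  simp only [gram, Finset.mul_sum, ← Finset.sum_add_distrib, ← Finset.sum_sub_distrib, ← Finset.sum_neg_distrib]
  refine Finset.sum_congr rfl fun α _ => ?_
  rw [inner_gen]
  simp [comp]
  ring

lemma norm_sq_gram : ‖u‖^2 = gram u 0 0 + gram u 1 1 + gram u 2 2 + gram u 3 3 := by
  rw [PiLp.norm_sq_eq_of_L2]
  simp only [gram, ← Finset.sum_add_distrib]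
  refine Finset.sum_congr rfl fun α _ => ?_
  rw [sq, ← Quaternion.normSq_eq_norm_mul_self, Quaternion.normSq_def']
  simp [comp]
  ring

/-- On the zero level the four component vectors are orthogonal of norm `1/2`. -/
lemma gram_of_zeroLevel {u : Sph n} (hu : u ∈ zeroLevel n) (b c : Fin 4) :
    gram (u : HV n) b c = if b = c then 1/4 else 0 := by
  have hn : ‖(u : HV n)‖ = 1 := by simp
  have h0 := norm_sq_gram (u : HV n)
  rw [hn] at h0
  have h00 := hu 0 (imUnit 0) rfl
  have h11 := hu 1 (imUnit 1) rfl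
  have h22 := hu 2 (imUnit 2) rfl
  have h01 := hu 0 (imUnit 1) rfl
  have h10 := hu 1 (imUnit 0) rfl
  have h02 := hu 0 (imUnit 2) rfl
  have h20 := hu 2 (imUnit 0) rfl
  have h12 := hu 1 (imUnit 2) rfl
  have h21 := hu 2 (imUnit 1) rfl
  rw [m00] at h00
  rw [m11] at h11
  rw [m22] at h22
  rw [m01] at h01
  rw [m10] at h10
  rw [m02] at h02
  rw [m20] at h20
  rw [m12] at h12
  rw [m21] at h21
  have s10 := gram_symm (u : HV n) 1 0
  have s20 := gram_symm (u : HV n) 2 0
  have s30 := gram_symm (u : HV n) 3 0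
  have s21 := gram_symm (u : HV n) 2 1
  have s31 := gram_symm (u : HV n) 3 1
  have s32 := gram_symm (u : HV n) 3 2
  fin_cases b <;> fin_cases c <;> simp <;> linarith

end

end Pool.Agent.Helper88.TS
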