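import Pool.Agent.Helper88.TSDefs

set_option autoImplicit false

open Set

namespace Pool.Agent.Helper88.TS

/-! ### Contractions of simplices and fine partitions -/

/-- straight line contraction of a simplex onto its vertex `0`. -/
noncomputable def contr (k : ℕ) : C(unitInterval × Spx k, Spx k) where
  toFun p := ⟨fun i => (1 - (p.1 : ℝ)) * (stdSimplex.vertex (S := ℝ) (0 : Fin (k+1)) : Spx k) i + (p.1 : ℝ) * p.2 i, by
    constructor
    · intro i
      have h1 := stdSimplex.zero_le (stdSimplex.vertex (S := ℝ) (0 : Fin (k+1)) : Spx k) i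
      have h2 := stdSimplex.zero_le p.2 i
      have h3 := p.1.2.1
      have h4 := p.1.2.2
      have : 0 ≤ 1 - (p.1 : ℝ) := by linarith
      positivity
    · rw [Finset.sum_add_distrib, ← Finset.mul_sum, ← Finset.mul_sum, stdSimplex.sum_eq_one, stdSimplex.sum_eq_one]
      ring⟩
  continuous_toFun := by
    apply Continuous.subtype_mk
    apply continuous_pi
    intro i
    apply Continuous.add
    · fun_prop
    · apply Continuous.mul
      · fun_prop
      · exact (continuous_apply i).comp (continuous_subtype_val.comp continuous_snd)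

lemma contr_apply (k : ℕ) (p : unitInterval × Spx k) (i : Fin (k+1)) :
    (contr k p) i = (1 - (p.1 : ℝ)) * (stdSimplex.vertex (S := ℝ) (0 : Fin (k+1)) : Spx k) i +
      (p.1 : ℝ) * p.2 i := rfl

lemma contr_zero (k : ℕ) (x : Spx k) : contr k (0, x) = stdSimplex.vertex 0 := by
  apply stdSimplex.ext
  funext i
  have := contr_apply k (0, x) i
  simpa using this

lemma contr_one (k : ℕ) (x : Spx k) : contr k (1, x) = x := by
  apply stdSimplex.ext
  funext i
  have := contr_apply k (1, x) i
  simpa using this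

/-- sample points -/
noncomputable def samp (m : ℕ) (j : ℕ) : unitInterval := projIcc 0 1 zero_le_one ((j : ℝ) / m)

lemma samp_zero (m : ℕ) : samp m 0 = 0 := by
  unfold samp
  simp

lemma samp_last {m : ℕ} (hm : 0 < m) : samp m m = 1 := by
  unfold samp
  rw [div_self (by positivity)]
  simp

lemma samp_dist {m : ℕ} (hm : 0 < m) (j : ℕ) : dist (samp m j) (samp m (j+1)) ≤ 1 / m := by
  have h := abs_projIcc_sub_projIcc (a := (0:ℝ)) (b := 1) zero_le_one (c := (j:ℝ)/m) (d := ((j+1 : ℕ):ℝ)/m)
  have h2 : dist (samp m j) (samp m (j+1)) = |((samp m j : unitInterval) : ℝ) - (samp m (j+1) : unitInterval)| := rfl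
  rw [h2]
  refine h.trans (le_of_eq ?_)
  push_cast
  rw [← sub_div, show (j:ℝ) - (j + 1) = -1 by ring, neg_div, abs_neg, abs_of_pos (by positivity)]

lemma exists_partition {K Z : Type*} [PseudoMetricSpace K] [CompactSpace K] [PseudoMetricSpace Z]
    (F : unitInterval × K → Z) (hF : Continuous F) {ε : ℝ} (hε : 0 < ε) :
    ∃ m : ℕ, 0 < m ∧ ∀ j x, dist (F (samp m j, x)) (F (samp m (j+1), x)) < ε := by
  have huc := CompactSpace.uniformContinuous_of_continuous hF
  rw [Metric.uniformContinuous_iff] at huc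
  obtain ⟨δ, hδ, h⟩ := huc ε hε
  obtain ⟨m, hm⟩ := exists_nat_gt (1/δ)
  have hm0 : (0:ℝ) < m := lt_trans (by positivity) hm
  have hm1 : 0 < m := by exact_mod_cast hm0
  refine ⟨m, hm1, fun j x => h ?_⟩
  rw [Prod.dist_eq, dist_self, max_eq_left dist_nonneg]
  refine lt_of_le_of_lt (samp_dist hm1 j) ?_
  rw [div_lt_iff₀ hm0]
  rw [div_lt_iff₀ hδ] at hm
  linarith

/-! ### Continuous logarithms on simplices -/

lemma exists_log (k : ℕ) (r : C(Spx k, ℂ)) (hr : ∀ x, r x ≠ 0) :
    ∃ L : C(Spx k, ℂ), ∀ x, Complex.exp (L x) = r x := by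
  obtain ⟨δ, hδ, hδr⟩ : ∃ δ > 0, ∀ x, δ ≤ ‖r x‖ := by
    have hc : Continuous fun x => ‖r x‖ := by fun_prop
    obtain ⟨x0, -, hx0⟩ := isCompact_univ.exists_isMinOn (s := (univ : Set (Spx k)))
      ⟨stdSimplex.vertex 0, mem_univ _⟩ hc.continuousOn
    exact ⟨‖r x0‖, norm_pos_iff.mpr (hr x0), fun x => hx0 (mem_univ x)⟩
  obtain ⟨m, hm, hpart⟩ := exists_partition (fun p => r (contr k p)) (by fun_prop) hδ
  have key : ∀ j : ℕ, ∃ L : C(Spx k, ℂ), ∀ x, Complex.exp (L x) = r (contr k (samp m j, x)) := by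
    intro j
    induction j with
    | zero =>
      refine ⟨ContinuousMap.const _ (Complex.log (r (stdSimplex.vertex 0))), fun x => ?_⟩
      rw [samp_zero, contr_zero]
      simp [Complex.exp_log (hr _)]
    | succ j ih =>
      obtain ⟨L, hL⟩ := ih
      set q : Spx k → ℂ := fun x => r (contr k (samp m (j+1), x)) / r (contr k (samp m j, x)) with hq
      have hqs : ∀ x, q x ∈ Complex.slitPlane := by
        intro x
        left
        have h1 := hpart j x
        have h2 := hδr (contr k (samp m j, x))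
        have h3 := hr (contr k (samp m j, x))
        have h4 : ‖q x - 1‖ < 1 := by
          rw [hq]
          simp only
          rw [div_sub_one h3, norm_div, div_lt_one (norm_pos_iff.mpr h3)]
          rw [dist_comm, dist_eq_norm] at h1
          linarith
        have h5 := (Complex.abs_re_le_norm (q x - 1)).trans_lt h4
        rw [Complex.sub_re, Complex.one_re, abs_lt] at h5
        linarith
      have hqc : Continuous q := by
        apply Continuous.div
        · fun_prop
        · fun_prop
        · intro x; exact hr _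
      refine ⟨⟨fun x => L x + Complex.log (q x), ?_⟩, fun x => ?_⟩
      · exact L.continuous.add (hqc.clog hqs)
      · simp only [ContinuousMap.coe_mk]
        rw [Complex.exp_add, hL, Complex.exp_log]
        · rw [hq]
          have h3 := hr (contr k (samp m j, x))
          field_simp
        · exact Complex.slitPlane_ne_zero (hqs x)
  obtain ⟨L, hL⟩ := key m
  refine ⟨L, fun x => ?_⟩
  rw [hL, samp_last hm, contr_one]

/-! ### Line fields and their sections -/

/-- A continuous field of complex lines in `W`. -/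
structure LineField (X W : Type*) [TopologicalSpace X] [NormedAddCommGroup W]
    [InnerProductSpace ℂ W] where
  Q : X → (W →L[ℂ] W)
  cont : Continuous Q
  gen : X → W
  gen_ne : ∀ x, gen x ≠ 0
  gen_mem : ∀ x, Q x (gen x) = gen x
  line : ∀ x w, ∃ c : ℂ, Q x w = c • gen x

variable {X W : Type*} [TopologicalSpace X] [NormedAddCommGroup W] [InnerProductSpace ℂ W]

/-- `t` is a nowhere zero section of the line field along `f`. -/
structure IsSec (ℓ : LineField X W) {K : Type*} [TopologicalSpace K] (f : C(K, X)) (t : C(K, W)) :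
    Prop where
  ne : ∀ y, t y ≠ 0
  mem : ∀ y, ℓ.Q (f y) (t y) = t y

lemma IsSec.comp {ℓ : LineField X W} {K K' : Type*} [TopologicalSpace K] [TopologicalSpace K']
    {f : C(K, X)} {t : C(K, W)} (h : IsSec ℓ f t) (g : C(K', K)) : IsSec ℓ (f.comp g) (t.comp g) :=
  ⟨fun y => h.ne (g y), fun y => h.mem (g y)⟩

lemma LineField.idem (ℓ : LineField X W) (x : X) (w : W) : ℓ.Q x (ℓ.Q x w) = ℓ.Q x w := by
  obtain ⟨c, hc⟩ := ℓ.line x w
  rw [hc, map_smul, ℓ.gen_mem]

lemma exists_sec (ℓ : LineField X W) (k : ℕ) (f : C(Spx k, X)) : ∃ t : C(Spx k, W), IsSec ℓ f t := by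
  obtain ⟨m, hm, hpart⟩ := exists_partition (fun p => ℓ.Q (f (contr k p)))
    (ℓ.cont.comp (by fun_prop)) one_pos
  have key : ∀ j : ℕ, ∃ t : C(Spx k, W), ∀ x, t x ≠ 0 ∧ ℓ.Q (f (contr k (samp m j, x))) (t x) = t x := by
    intro j
    induction j with
    | zero =>
      refine ⟨ContinuousMap.const _ (ℓ.gen (f (stdSimplex.vertex 0))), fun x => ?_⟩
      rw [samp_zero, contr_zero]
      exact ⟨ℓ.gen_ne _, ℓ.gen_mem _⟩
    | succ j ih =>
      obtain ⟨t, ht⟩ := ih
      have hc : Continuous fun x => ℓ.Q (f (contr k (samp m (j+1), x))) (t x) := by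
        have h1 : Continuous fun x => ℓ.Q (f (contr k (samp m (j+1), x))) := ℓ.cont.comp (by fun_prop)
        exact h1.clm_apply t.continuous
      refine ⟨⟨_, hc⟩, fun x => ⟨?_, ?_⟩⟩
      · simp only [ContinuousMap.coe_mk]
        intro h0
        obtain ⟨h1, h2⟩ := ht x
        have h3 : t x = (ℓ.Q (f (contr k (samp m j, x))) - ℓ.Q (f (contr k (samp m (j+1), x)))) (t x) := by
          rw [_root_.sub_apply, h0, h2, sub_zero]
        have h4 := (ℓ.Q (f (contr k (samp m j, x))) - ℓ.Q (f (contr k (samp m (j+1), x)))).le_opNorm (t x)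
        rw [← h3] at h4
        have h5 := hpart j x
        rw [dist_eq_norm] at h5
        have h6 : 0 < ‖t x‖ := norm_pos_iff.mpr h1
        nlinarith
      · simp only [ContinuousMap.coe_mk]
        exact ℓ.idem _ _
  obtain ⟨t, ht⟩ := key m
  refine ⟨t, fun x => (ht x).1, fun x => ?_⟩
  have := (ht x).2
  rwa [samp_last hm, contr_one] at this

/-- Two sections along a simplex differ by a continuous exponential. -/
lemma exists_ratio {ℓ : LineField X W} {k : ℕ} {f : C(Spx k, X)} {s t : C(Spx k, W)}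
    (hs : IsSec ℓ f s) (ht : IsSec ℓ f t) :
    ∃ L : C(Spx k, ℂ), ∀ x, s x = Complex.exp (L x) • t x := by
  have hprop : ∀ x, ∃ c : ℂ, s x = c • t x := by
    intro x
    obtain ⟨a, ha⟩ := ℓ.line (f x) (s x)
    obtain ⟨b, hb⟩ := ℓ.line (f x) (t x)
    rw [hs.mem] at ha
    rw [ht.mem] at hb
    have hb0 : b ≠ 0 := by
      rintro rfl
      rw [zero_smul] at hb
      exact ht.ne x hb
    refine ⟨a / b, ?_⟩
    rw [ha, hb, smul_smul, div_mul_cancel₀ _ hb0]
  set r : Spx k → ℂ := fun x => inner ℂ (t x) (s x) / inner ℂ (t x) (t x) with hr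
  have hsr : ∀ x, s x = r x • t x := by
    intro x
    obtain ⟨c, hc⟩ := hprop x
    have h1 : (inner ℂ (t x) (t x) : ℂ) ≠ 0 := inner_self_ne_zero.mpr (ht.ne x)
    have : r x = c := by
      rw [hr]
      simp only
      rw [hc, inner_smul_right]
      field_simp
    rw [this]; exact hc
  have hr0 : ∀ x, r x ≠ 0 := by
    intro x h0
    apply hs.ne x
    rw [hsr x, h0, zero_smul]
  have hrc : Continuous r := by
    apply Continuous.div
    · fun_prop
    · fun_prop
    · intro x; exact inner_self_ne_zero.mpr (ht.ne x)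
  obtain ⟨L, hL⟩ := exists_log k ⟨r, hrc⟩ hr0
  refine ⟨L, fun x => ?_⟩
  rw [hL]; exact hsr x

end Pool.Agent.Helper88.TS
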