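import Pool.Agent.Helper88.TSSphere

set_option autoImplicit false

open Set Matrix
open scoped Quaternion Topology

namespace Pool.Agent.Helper88.TS

/-! ### The sphere and its tangent frame -/

/-- first tangent vector -/
noncomputable def ta (Z : ℂ) : Fin 6 → ℝ :=
  ![1 - 2 * Z.re^2, -(2 * Z.re * Z.im), -(2 * Z.re * rho Z 1), 0, 0, 0]

/-- second tangent vector -/
noncomputable def tb (Z : ℂ) : Fin 6 → ℝ :=
  ![-(2 * Z.re * Z.im), 1 - 2 * Z.im^2, -(2 * Z.im * rho Z 1), 0, 0, 0]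

lemma rho_sq {Z : ℂ} {S : ℝ} (h : Z.re^2 + Z.im^2 ≤ S^2) : rho Z S ^2 = S^2 - (Z.re^2 + Z.im^2) :=
  Real.sq_sqrt (by linarith)

lemma wv_unit {Z : ℂ} (h : Z.re^2 + Z.im^2 ≤ 1) : wv Z 1 0^2 + wv Z 1 1^2 + wv Z 1 2^2 = 1 := by
  have hr := rho_sq (Z := Z) (S := 1) (by linarith)
  simp only [wv, Matrix.cons_val_zero, Matrix.cons_val_one, Matrix.cons_val]
  have e : (2 * Z.re * rho Z 1)^2 + (2 * Z.im * rho Z 1)^2 + (2 * 1^2 - 2 * (Z.re^2 + Z.im^2) - 1)^2 =
      4 * (Z.re^2 + Z.im^2) * (rho Z 1^2) + (1 - 2 * (Z.re^2 + Z.im^2))^2 := by ring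
  rw [e, hr]; ring

lemma wv_bdry {Z : ℂ} {S : ℝ} (h : Z.re^2 + Z.im^2 = S^2) : wv Z S = ![0, 0, -1] := by
  have hr : rho Z S = 0 := by rw [rho, h]; simp
  unfold wv
  rw [hr, h]
  ext i
  fin_cases i <;> simp

lemma rows_Usph {w : Fin 3 → ℝ} (hw : w 0^2 + w 1^2 + w 2^2 = 1) :
    rows ((Usph w : Sph 6) : HV 6) 0 = ![w 0, w 1, w 2, 0, 0, 0] ∧
    rows ((Usph w : Sph 6) : HV 6) 1 = ![0, 0, 0, 1, 0, 0] ∧
    rows ((Usph w : Sph 6) : HV 6) 2 = ![0, 0, 0, 0, 1, 0] ∧
    rows ((Usph w : Sph 6) : HV 6) 3 = ![0, 0, 0, 0, 0, 1] := by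
  have h2 : ((Usph w : Sph 6) : HV 6) = (2:ℝ)⁻¹ • Uq w := by
    rw [← norm_Uq_of_unit hw]; rfl
  rw [h2]
  refine ⟨?_, ?_, ?_, ?_⟩ <;>
  · ext α
    fin_cases α <;> simp [rows, comp, Uq]

lemma frame_Usph {Z : ℂ} (h : Z.re^2 + Z.im^2 ≤ 1) :
    Frame (rows ((Usph (wv Z 1) : Sph 6) : HV 6)) (ta Z) (tb Z) := by
  have hw := wv_unit h
  obtain ⟨r0, r1, r2, r3⟩ := rows_Usph hw
  have hr := rho_sq (Z := Z) (S := 1) (by linarith)
  have hmem := Usph_mem hw
  refine ⟨⟨rows_orth hmem, ?_, ?_, ?_, ?_, ?_⟩, ?_⟩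
  · intro i
    rw [Fin.sum_univ_six]
    fin_cases i
    · simp only [Fin.zero_eta, r0]
      simp [ta, wv]; ring
    · simp only [Fin.mk_one, r1]
      simp [ta]
    · simp only [Fin.reduceFinMk, r2]
      simp [ta]
    · simp only [Fin.reduceFinMk, r3]
      simp [ta]
  · intro i
    rw [Fin.sum_univ_six]
    fin_cases i
    · simp only [Fin.zero_eta, r0]
      simp [tb, wv]; ring
    · simp only [Fin.mk_one, r1]
      simp [tb]
    · simp only [Fin.reduceFinMk, r2]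
      simp [tb]
    · simp only [Fin.reduceFinMk, r3]
      simp [tb]
  · rw [Fin.sum_univ_six]
    simp [ta]
    linear_combination (4 * Z.re^2) * hr
  · rw [Fin.sum_univ_six]
    simp [ta, tb]
    linear_combination (4 * Z.re * Z.im) * hr
  · rw [Fin.sum_univ_six]
    simp [tb]
    linear_combination (4 * Z.im^2) * hr
  · unfold Nmat
    rw [r0, r1, r2, r3]
    simp [Matrix.det_succ_row_zero, Fin.sum_univ_succ, Matrix.submatrix, Fin.succAbove, ta, tb, wv]
    linear_combination (4 * (Z.re^2 + Z.im^2)) * hr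

/-! ### Coordinates of faces -/

lemma face_succAbove (k : ℕ) (i : Fin (k+2)) (x : Spx k) (j : Fin (k+1)) :
    (face k i x) (i.succAbove j) = x j := by
  show FunOnFinite.linearMap ℝ ℝ (i.succAbove) x (i.succAbove j) = x j
  rw [FunOnFinite.linearMap_apply_apply]
  have : (Finset.univ.filter fun a => i.succAbove a = i.succAbove j) = {j} := by
    ext a
    simp
  rw [this, Finset.sum_singleton]

lemma face_self (k : ℕ) (i : Fin (k+2)) (x : Spx k) : (face k i x) i = 0 := by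
  show FunOnFinite.linearMap ℝ ℝ (i.succAbove) x i = 0
  rw [FunOnFinite.linearMap_apply_apply]
  have : (Finset.univ.filter fun a => i.succAbove a = i) = ∅ := by
    ext a
    simp [Fin.succAbove_ne]
  rw [this, Finset.sum_empty]

lemma face10 (x : Spx 1) : (face 1 0 x) 0 = 0 ∧ (face 1 0 x) 1 = x 0 ∧ (face 1 0 x) 2 = x 1 :=
  ⟨face_self 1 0 x, face_succAbove 1 0 x 0, face_succAbove 1 0 x 1⟩

lemma face11 (x : Spx 1) : (face 1 1 x) 0 = x 0 ∧ (face 1 1 x) 1 = 0 ∧ (face 1 1 x) 2 = x 1 :=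
  ⟨face_succAbove 1 1 x 0, face_self 1 1 x, face_succAbove 1 1 x 1⟩

lemma face12 (x : Spx 1) : (face 1 2 x) 0 = x 0 ∧ (face 1 2 x) 1 = x 1 ∧ (face 1 2 x) 2 = 0 :=
  ⟨face_succAbove 1 2 x 0, face_succAbove 1 2 x 1, face_self 1 2 x⟩

lemma face20 (x : Spx 2) : (face 2 0 x) 1 = x 0 ∧ (face 2 0 x) 2 = x 1 ∧ (face 2 0 x) 3 = x 2 :=
  ⟨face_succAbove 2 0 x 0, face_succAbove 2 0 x 1, face_succAbove 2 0 x 2⟩

lemma face21 (x : Spx 2) : (face 2 1 x) 1 = 0 ∧ (face 2 1 x) 2 = x 1 ∧ (face 2 1 x) 3 = x 2 :=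
  ⟨face_self 2 1 x, face_succAbove 2 1 x 1, face_succAbove 2 1 x 2⟩

lemma face22 (x : Spx 2) : (face 2 2 x) 1 = x 1 ∧ (face 2 2 x) 2 = 0 ∧ (face 2 2 x) 3 = x 2 :=
  ⟨face_succAbove 2 2 x 1, face_self 2 2 x, face_succAbove 2 2 x 2⟩

lemma face23 (x : Spx 2) : (face 2 3 x) 1 = x 1 ∧ (face 2 3 x) 2 = x 2 ∧ (face 2 3 x) 3 = 0 :=
  ⟨face_succAbove 2 3 x 1, face_succAbove 2 3 x 2, face_self 2 3 x⟩

lemma spx1_sum (x : Spx 1) : x 0 + x 1 = 1 := by
  have := stdSimplex.sum_eq_one x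
  rwa [Fin.sum_univ_two] at this

lemma spx2_sum (x : Spx 2) : x 0 + x 1 + x 2 = 1 := by
  have := stdSimplex.sum_eq_one x
  rwa [Fin.sum_univ_three] at this

lemma normSq_Zf_le {p q r : ℝ} (hp : 0 ≤ p) (hq : 0 ≤ q) (hr : 0 ≤ r) :
    (Zf p q r).re^2 + (Zf p q r).im^2 ≤ (p + q + r)^2 := by
  have h := norm_Zf_le hp hq hr
  have h2 : (Zf p q r).re^2 + (Zf p q r).im^2 = ‖Zf p q r‖^2 := by
    rw [Complex.sq_norm, Complex.normSq_apply]; ring
  rw [h2]
  exact pow_le_pow_left₀ (norm_nonneg _) h 2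

lemma normSq_tw (q r : ℝ) : (tw q r).re^2 + (tw q r).im^2 = (q + r)^2 := by
  have h2 : (tw q r).re^2 + (tw q r).im^2 = ‖tw q r‖^2 := by
    rw [Complex.sq_norm, Complex.normSq_apply]; ring
  rw [h2, norm_tw, sq_abs]

lemma Zf_p0 (q r : ℝ) : Zf 0 q r = tw q r := by simp [Zf]

lemma Zf_q0 (p r : ℝ) : Zf p 0 r = ((p + r : ℝ) : ℂ) := by simp [Zf, tw_q0]

lemma Zf_r0 (p q : ℝ) : Zf p q 0 = ((p + q : ℝ) : ℂ) := by simp [Zf, tw_r0]

lemma continuous_wv : Continuous fun v : ℂ × ℝ => wv v.1 v.2 := by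
  have hr : Continuous fun v : ℂ × ℝ => rho v.1 v.2 := by
    unfold rho
    fun_prop
  unfold wv
  apply continuous_pi
  intro i
  fin_cases i
  · show Continuous fun v : ℂ × ℝ => 2 * v.1.re * rho v.1 v.2
    fun_prop
  · show Continuous fun v : ℂ × ℝ => 2 * v.1.im * rho v.1 v.2
    fun_prop
  · show Continuous fun v : ℂ × ℝ => 2 * v.2^2 - 2 * (v.1.re^2 + v.1.im^2) - 1
    fun_prop

/-- collapse map on the 2-simplex -/
noncomputable def Z2 (x : Spx 2) : ℂ := Zf (x 0) (x 1) (x 2)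

lemma continuous_coord {k : ℕ} (i : Fin (k+1)) : Continuous fun x : Spx k => x i :=
  (continuous_apply i).comp continuous_subtype_val

lemma continuous_Z2 : Continuous Z2 := by
  have h := continuous_Zf
  have h2 : Continuous fun x : Spx 2 => (x 0, x 1, x 2) :=
    (continuous_coord 0).prodMk ((continuous_coord 1).prodMk (continuous_coord 2))
  exact h.comp h2

lemma Z2_le (x : Spx 2) : (Z2 x).re^2 + (Z2 x).im^2 ≤ 1 := by
  have h := normSq_Zf_le (stdSimplex.zero_le x 0) (stdSimplex.zero_le x 1) (stdSimplex.zero_le x 2)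
  rw [spx2_sum] at h
  simpa [Z2] using h

/-- The spherical 2-simplex in the zero level. -/
noncomputable def sigma : C(Spx 2, zeroLevel 6) where
  toFun x := ⟨Usph (wv (Z2 x) 1), Usph_mem (wv_unit (Z2_le x))⟩
  continuous_toFun := by
    apply Continuous.subtype_mk
    apply continuous_Usph.comp
    have h := continuous_wv
    have h2 : Continuous fun x : Spx 2 => (Z2 x, (1:ℝ)) := continuous_Z2.prodMk continuous_const
    exact h.comp h2

/-- The filling 3-simplex in the sphere. -/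
noncomputable def tau : C(Spx 3, Sph 6) where
  toFun x := Usph (wv (Zf (x 1) (x 2) (x 3)) (x 1 + x 2 + x 3))
  continuous_toFun := by
    apply continuous_Usph.comp
    have h := continuous_wv
    have h0 : Continuous fun x : Spx 3 => (x 1, x 2, x 3) :=
      (continuous_coord 1).prodMk ((continuous_coord 2).prodMk (continuous_coord 3))
    have h1 : Continuous fun x : Spx 3 => Zf (x 1) (x 2) (x 3) := continuous_Zf.comp h0
    have h3 : Continuous fun x : Spx 3 => (x 1 + x 2 + x 3) :=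
      ((continuous_coord 1).add (continuous_coord 2)).add (continuous_coord 3)
    exact h.comp (h1.prodMk h3)

/-- base point -/
noncomputable def pt0 : zeroLevel 6 := ⟨Usph ![0, 0, -1], Usph_mem (by simp)⟩

lemma sigma_face (i : Fin 3) : sigma.comp (face 1 i) = ContinuousMap.const _ pt0 := by
  ext1 x
  apply Subtype.ext
  show Usph (wv (Z2 (face 1 i x)) 1) = Usph ![0, 0, -1]
  congr 1
  apply wv_bdry
  have hs := spx1_sum x
  fin_cases i
  · obtain ⟨h0, h1, h2⟩ := face10 x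
    simp only [Fin.zero_eta, Z2, h0, h1, h2, Zf_p0, normSq_tw, hs]
  · obtain ⟨h0, h1, h2⟩ := face11 x
    simp only [Fin.mk_one, Z2, h0, h1, h2, Zf_q0, hs]
    simp
  · obtain ⟨h0, h1, h2⟩ := face12 x
    simp only [Fin.reduceFinMk, Z2, h0, h1, h2, Zf_r0, hs]
    simp

lemma tau_face0 (x : Spx 2) : tau (face 2 0 x) = (sigma x : Sph 6) := by
  obtain ⟨h1, h2, h3⟩ := face20 x
  show Usph (wv (Zf (face 2 0 x 1) (face 2 0 x 2) (face 2 0 x 3)) (face 2 0 x 1 + face 2 0 x 2 + face 2 0 x 3)) =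
    Usph (wv (Z2 x) 1)
  rw [h1, h2, h3, spx2_sum]
  rfl

lemma tau_face (i : Fin 3) (x : Spx 2) : tau (face 2 i.succ x) = Usph ![0, 0, -1] := by
  show Usph (wv (Zf (face 2 i.succ x 1) (face 2 i.succ x 2) (face 2 i.succ x 3))
    (face 2 i.succ x 1 + face 2 i.succ x 2 + face 2 i.succ x 3)) = _
  congr 1
  apply wv_bdry
  fin_cases i
  · obtain ⟨h1, h2, h3⟩ := face21 x
    simp only [Fin.zero_eta, Fin.succ_zero_eq_one, h1, h2, h3, Zf_p0, normSq_tw, zero_add]
  · obtain ⟨h1, h2, h3⟩ := face22 x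
    simp only [Fin.mk_one, Fin.succ_one_eq_two, h1, h2, h3, Zf_q0, add_zero]
    simp
  · obtain ⟨h1, h2, h3⟩ := face23 x
    have e : (Fin.succ (⟨2, by decide⟩ : Fin 3)) = (3 : Fin 4) := rfl
    simp only [e, h1, h2, h3, Zf_r0, add_zero]
    simp

/-! ### Section over the 2-simplex -/

lemma continuous_ta (i : Fin 6) : Continuous fun Z : ℂ => ta Z i := by
  have hr : Continuous fun v : ℂ => rho v 1 := by
    unfold rho
    fun_prop
  unfold ta
  fin_cases i
  · show Continuous fun Z : ℂ => 1 - 2 * Z.re^2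
    fun_prop
  · show Continuous fun Z : ℂ => -(2 * Z.re * Z.im)
    fun_prop
  · show Continuous fun Z : ℂ => -(2 * Z.re * rho Z 1)
    fun_prop
  · exact continuous_const
  · exact continuous_const
  · exact continuous_const

lemma continuous_tb (i : Fin 6) : Continuous fun Z : ℂ => tb Z i := by
  have hr : Continuous fun v : ℂ => rho v 1 := by
    unfold rho
    fun_prop
  unfold tb
  fin_cases i
  · show Continuous fun Z : ℂ => -(2 * Z.re * Z.im)
    fun_prop
  · show Continuous fun Z : ℂ => 1 - 2 * Z.im^2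
    fun_prop
  · show Continuous fun Z : ℂ => -(2 * Z.im * rho Z 1)
    fun_prop
  · exact continuous_const
  · exact continuous_const
  · exact continuous_const

/-- section -/
noncomputable def TT : C(Spx 2, W6) where
  toFun x := genf (ta (Z2 x)) (tb (Z2 x))
  continuous_toFun := by
    unfold genf
    apply (PiLp.continuous_toLp 2 _).comp
    apply continuous_pi
    intro i
    have h1 := (continuous_ta i).comp continuous_Z2
    have h2 := (continuous_tb i).comp continuous_Z2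
    have h3 : Continuous fun x => ((ta (Z2 x) i : ℝ) : ℂ) := Complex.continuous_ofReal.comp h1
    have h4 : Continuous fun x => ((tb (Z2 x) i : ℝ) : ℂ) := Complex.continuous_ofReal.comp h2
    exact h3.sub (continuous_const.mul h4)

/-- quotient projection of the zero level -/
noncomputable def mkR : C(zeroLevel 6, Sred 6) := ⟨Quotient.mk'', continuous_quotient_mk'⟩

lemma TT_isSec : IsSec redField (mkR.comp sigma) TT := by
  refine ⟨fun x => ?_, fun x => ?_⟩
  · exact genf_ne (frame_Usph (Z2_le x))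
  · exact Qop_genf (frame_Usph (Z2_le x))

/-- base vector -/
noncomputable def w0 : W6 := genf (ta 1) (tb 1)

lemma pt0_eq : (pt0 : Sph 6) = Usph (wv 1 1) := by
  show Usph ![0, 0, -1] = Usph (wv 1 1)
  rw [wv_bdry (by simp)]

lemma w0_ne : w0 ≠ 0 := genf_ne (frame_Usph (Z := 1) (by simp))

lemma w0_mem : redField.Q (mkR pt0) w0 = w0 := by
  show Qop ((pt0 : Sph 6) : HV 6) w0 = w0
  rw [pt0_eq]
  exact Qop_genf (frame_Usph (Z := 1) (by simp))

lemma genf_bdry {t : ℝ} : genf (ta (Complex.exp ((t : ℝ) * Complex.I))) (tb (Complex.exp ((t : ℝ) * Complex.I))) =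
    Complex.exp (-(2 * t * Complex.I)) • w0 := by
  have hre : (Complex.exp ((t : ℝ) * Complex.I)).re = Real.cos t := Complex.exp_ofReal_mul_I_re t
  have him : (Complex.exp ((t : ℝ) * Complex.I)).im = Real.sin t := Complex.exp_ofReal_mul_I_im t
  have hrho : rho (Complex.exp ((t : ℝ) * Complex.I)) 1 = 0 := by
    unfold rho
    rw [hre, him]
    simp
  have hrho1 : rho 1 1 = 0 := by simp [rho]
  have he : Complex.exp (-(2 * t * Complex.I)) = Complex.cos (2*t) - Complex.sin (2*t) * Complex.I := by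
    rw [show -(2 * (t : ℂ) * Complex.I) = (-(2 * (t:ℂ))) * Complex.I by ring, Complex.exp_mul_I,
      Complex.cos_neg, Complex.sin_neg]
    ring
  rw [he, Complex.cos_two_mul, Complex.sin_two_mul]
  have hI : Complex.I * Complex.I = -1 := Complex.I_mul_I
  have hcs : Complex.sin t ^2 + Complex.cos t ^2 = 1 := Complex.sin_sq_add_cos_sq (t : ℂ)
  ext i
  fin_cases i
  · simp [w0, genf, ta, tb, hre, him]
    ring
  · simp [w0, genf, ta, tb, hre, him]
    linear_combination (2 * Complex.I) * hcs - (2 * Complex.sin t * Complex.cos t) * hI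
  · simp [w0, genf, ta, tb, hrho, hrho1]
  · simp [w0, genf, ta, tb]
  · simp [w0, genf, ta, tb]
  · simp [w0, genf, ta, tb]

end Pool.Agent.Helper88.TS
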