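import Pool.Agent.Helper88.TSChart

set_option autoImplicit false

open Set Matrix
open scoped Quaternion Topology

namespace Pool.Agent.Helper88.TS

/-- A point of the slice determines a point of the zero level. -/
lemma gram_of_FF {α : Fin 6} {w : HV 6} (h : FF α w = 0) (b c : Fin 4) :
    gram w b c = if b = c then 1/4 else 0 := by
  have h0 : gram w 0 0 - 1/4 = 0 := congrFun h 0
  have h1 : gram w 1 1 - 1/4 = 0 := congrFun h 1
  have h2 : gram w 2 2 - 1/4 = 0 := congrFun h 2
  have h3 : gram w 3 3 - 1/4 = 0 := congrFun h 3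
  have h4 : gram w 0 1 = 0 := congrFun h 4
  have h5 : gram w 0 2 = 0 := congrFun h 5
  have h6 : gram w 0 3 = 0 := congrFun h 6
  have h7 : gram w 1 2 = 0 := congrFun h 7
  have h8 : gram w 1 3 = 0 := congrFun h 8
  have h9 : gram w 2 3 = 0 := congrFun h 9
  have s10 := gram_symm w 1 0
  have s20 := gram_symm w 2 0
  have s30 := gram_symm w 3 0
  have s21 := gram_symm w 2 1
  have s31 := gram_symm w 3 1
  have s32 := gram_symm w 3 2
  fin_cases b <;> fin_cases c <;> simp <;> linarith

lemma norm_of_gram {w : HV 6} (h : ∀ b c, gram w b c = if b = c then 1/4 else 0) : ‖w‖ = 1 := by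
  have h1 := norm_sq_gram w
  rw [h 0 0, h 1 1, h 2 2, h 3 3] at h1
  norm_num at h1
  rcases h1 with h1 | h1
  · exact h1
  · linarith [norm_nonneg w]

/-- the point of the zero level given by a vector with the right Gram matrix -/
noncomputable def toN (w : HV 6) (h : ∀ b c, gram w b c = if b = c then 1/4 else 0) : zeroLevel 6 :=
  ⟨⟨w, by simp [norm_of_gram h]⟩, mem_zeroLevel_of_gram h⟩

lemma FF_eq_zero {α : Fin 6} {w : HV 6} (h : ∀ b c, gram w b c = if b = c then 1/4 else 0)
    (h1 : comp w 1 α = 0) (h2 : comp w 2 α = 0) (h3 : comp w 3 α = 0) : FF α w = 0 := by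
  ext i
  fin_cases i
  · show gram w 0 0 - 1/4 = 0
    rw [h]; simp
  · show gram w 1 1 - 1/4 = 0
    rw [h]; simp
  · show gram w 2 2 - 1/4 = 0
    rw [h]; simp
  · show gram w 3 3 - 1/4 = 0
    rw [h]; simp
  · show gram w 0 1 = 0
    rw [h]; simp
  · show gram w 0 2 = 0
    rw [h]; simp
  · show gram w 0 3 = 0
    rw [h]; simp
  · show gram w 1 2 = 0
    rw [h]; simp
  · show gram w 1 3 = 0
    rw [h]; simp
  · show gram w 2 3 = 0
    rw [h]; simp
  · exact h1
  · exact h2
  · exact h3

/-- normalising unit quaternion -/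
noncomputable def nrm (α : Fin 6) (u : HV 6) : ℍ[ℝ] := (‖u α‖)⁻¹ • star (u α)

lemma norm_nrm {α : Fin 6} {u : HV 6} (h : u α ≠ 0) : ‖nrm α u‖ = 1 := by
  have : ‖u α‖ ≠ 0 := norm_ne_zero_iff.mpr h
  simp [nrm, norm_smul, this]

/-- the normalisation map -/
noncomputable def RR (α : Fin 6) (u : HV 6) : HV 6 := lmul (nrm α u) u

lemma RR_apply_self (α : Fin 6) (u : HV 6) : RR α u α = ((‖u α‖ : ℝ) : ℍ[ℝ]) := by
  show nrm α u * u α = _
  rw [nrm, smul_mul_assoc, Quaternion.star_mul_self, Quaternion.normSq_eq_norm_mul_self]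
  rcases eq_or_ne (‖u α‖) 0 with h | h
  · rw [h]; simp
  · rw [← Quaternion.coe_smul]
    congr 1
    rw [smul_eq_mul]
    field_simp

lemma nrm_lmul {α : Fin 6} {u : HV 6} (g : ℍ[ℝ]) (hg : ‖g‖ = 1) :
    nrm α (lmul g u) = nrm α u * star g := by
  unfold nrm
  rw [lmul_apply, norm_mul, hg, one_mul, star_mul, smul_mul_assoc]

lemma RR_lmul {α : Fin 6} {u : HV 6} (g : ℍ[ℝ]) (hg : ‖g‖ = 1) : RR α (lmul g u) = RR α u := by
  unfold RR
  rw [nrm_lmul g hg, lmul_lmul, mul_assoc, Quaternion.star_mul_self,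
    Quaternion.normSq_eq_norm_mul_self, hg]
  simp

lemma RR_of_real {α : Fin 6} {u : HV 6} (h1 : comp u 1 α = 0) (h2 : comp u 2 α = 0)
    (h3 : comp u 3 α = 0) (h0 : 0 < comp u 0 α) : RR α u = u := by
  have e : u α = ((comp u 0 α : ℝ) : ℍ[ℝ]) := by
    ext
    · simp [comp]
    · simpa [comp] using h1
    · simpa [comp] using h2
    · simpa [comp] using h3
  have hn : ‖u α‖ = comp u 0 α := by
    rw [e, Quaternion.norm_coe, Real.norm_eq_abs, abs_of_pos h0]
  have hnr : nrm α u = 1 := by
    rw [nrm, hn, e, Quaternion.star_coe, ← Quaternion.coe_smul, smul_eq_mul, inv_mul_cancel₀ h0.ne']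
    rfl
  rw [RR, hnr]
  ext1 β
  simp

lemma continuousOn_RR (α : Fin 6) : ContinuousOn (RR α) {u | u α ≠ 0} := by
  have h1 : Continuous fun u : HV 6 => u α := by fun_prop
  have h2 : ContinuousOn (nrm α) {u | u α ≠ 0} := by
    show ContinuousOn ((fun u : HV 6 => (‖u α‖)⁻¹) • (fun u : HV 6 => star (u α))) _
    apply ContinuousOn.smul
    · apply ContinuousOn.inv₀
      · exact h1.norm.continuousOn
      · intro u hu
        exact norm_ne_zero_iff.mpr hu
    · exact (continuous_star.comp h1).continuousOn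
  unfold RR lmul
  apply (PiLp.continuous_toLp 2 _).comp_continuousOn
  apply continuousOn_pi.mpr
  intro β
  have h3 : Continuous fun u : HV 6 => u β := by fun_prop
  exact h2.mul h3.continuousOn

lemma gram_lmul_unit {u : zeroLevel 6} (g : ℍ[ℝ]) (hg : ‖g‖ = 1) (b c : Fin 4) :
    gram (lmul g ((u : Sph 6) : HV 6)) b c = if b = c then 1/4 else 0 := by
  have hg' : g ∈ Metric.sphere (0 : ℍ[ℝ]) 1 := by simp [hg]
  have := gram_of_zeroLevel (((⟨g, hg'⟩ : Sp1) • u : zeroLevel 6).2) b c
  exact this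

lemma smul_free (n : ℕ) (g : Sp1) (u : Sph n) (h : g • u = u) : g = 1 := by
  have hu : (u : HV n) ≠ 0 := by
    intro h0
    have : ‖(u : HV n)‖ = 1 := by simp
    rw [h0] at this
    simp at this
  obtain ⟨α, hα⟩ : ∃ α, (u : HV n) α ≠ 0 := by
    by_contra hcon
    push Not at hcon
    apply hu
    ext1 α
    exact hcon α
  have h1 : (g : ℍ[ℝ]) * (u : HV n) α = (u : HV n) α := by
    have := congrArg (fun v : Sph n => (v : HV n) α) h
    exact this
  have h2 : (g : ℍ[ℝ]) = 1 := by
    have : ((g : ℍ[ℝ]) - 1) * (u : HV n) α = 0 := by rw [sub_mul, h1, one_mul, sub_self]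
    rcases mul_eq_zero.mp this with h3 | h3
    · exact sub_eq_zero.mp h3
    · exact absurd h3 hα
  apply Subtype.ext
  exact h2

section chart

variable {α : Fin 6} {v : HV 6} (hs : (DFF α v).range = ⊤)

/-- implicit function chart upstairs -/
noncomputable def Phi : OpenPartialHomeomorph (HV 6) ((Fin 13 → ℝ) × (DFF α v).ker) :=
  (hasStrict_FF α v).implicitToOpenPartialHomeomorph (FF α) (DFF α v) hs

lemma Phi_fst (w : HV 6) : (Phi hs w).1 = FF α w := rfl

/-- parameter domain -/
def TSet : Set (DFF α v).ker :=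
  {k | ((0 : Fin 13 → ℝ), k) ∈ (Phi hs).target ∧ 0 < comp ((Phi hs).symm ((0 : Fin 13 → ℝ), k)) 0 α}

lemma isOpen_TSet : IsOpen (TSet hs) := by
  have h1 : IsOpen ((Phi hs).target ∩ (Phi hs).symm ⁻¹' {w : HV 6 | 0 < comp w 0 α}) := by
    apply (Phi hs).isOpen_inter_preimage_symm
    exact isOpen_lt continuous_const (compL 0 α).continuous
  have h2 : Continuous fun k : (DFF α v).ker => ((0 : Fin 13 → ℝ), k) := by fun_prop
  exact h1.preimage h2

lemma FF_symm {k : (DFF α v).ker} (hk : k ∈ TSet hs) :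
    FF α ((Phi hs).symm ((0 : Fin 13 → ℝ), k)) = 0 := by
  rw [← Phi_fst hs, (Phi hs).right_inv hk.1]

/-- the parametrisation of a piece of the reduction -/
noncomputable def psi (k : TSet hs) : Sred 6 :=
  Quotient.mk'' (toN _ (gram_of_FF (FF_symm hs k.2)))

lemma continuous_psi : Continuous (psi hs) := by
  apply continuous_quotient_mk'.comp
  apply Continuous.subtype_mk
  apply Continuous.subtype_mk
  have h1 : ContinuousOn (Phi hs).symm (Phi hs).target := (Phi hs).continuousOn_symm
  have h2 : Continuous fun k : (TSet hs) => ((0 : Fin 13 → ℝ), (k : (DFF α v).ker)) := by fun_prop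
  exact h1.comp_continuous h2 (fun k => k.2.1)

lemma real_symm {k : (DFF α v).ker} (hk : k ∈ TSet hs) :
    RR α ((Phi hs).symm ((0 : Fin 13 → ℝ), k)) = (Phi hs).symm ((0 : Fin 13 → ℝ), k) := by
  have h := FF_symm hs hk
  exact RR_of_real (congrFun h 10) (congrFun h 11) (congrFun h 12) hk.2

lemma injective_psi : Function.Injective (psi hs) := by
  intro k k' h
  have h1 : (MulAction.orbitRel Sp1 (zeroLevel 6)) (toN _ (gram_of_FF (FF_symm hs k.2)))
    (toN _ (gram_of_FF (FF_symm hs k'.2))) := Quotient.exact h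
  obtain ⟨g, hg⟩ := h1
  have h2 : lmul (g : ℍ[ℝ]) ((Phi hs).symm ((0 : Fin 13 → ℝ), (k' : (DFF α v).ker))) =
      (Phi hs).symm ((0 : Fin 13 → ℝ), (k : (DFF α v).ker)) := by
    have := congrArg (fun u : zeroLevel 6 => ((u : Sph 6) : HV 6)) hg
    exact this
  have h3 := congrArg (RR α) h2
  rw [RR_lmul _ (by simp), real_symm hs k.2, real_symm hs k'.2] at h3
  have h4 := (Phi hs).symm.injOn k'.2.1 k.2.1 h3
  exact Subtype.ext (Prod.ext_iff.mp h4).2.symm

lemma isOpenMap_psi : IsOpenMap (psi hs) := by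
  rintro O ⟨O', hO', rfl⟩
  -- openness in the quotient
  have hq : IsOpen ((Quotient.mk'' : zeroLevel 6 → Sred 6) ⁻¹'
      (psi hs '' ((Subtype.val : TSet hs → (DFF α v).ker) ⁻¹' O'))) := by
    have e : ((Quotient.mk'' : zeroLevel 6 → Sred 6) ⁻¹'
      (psi hs '' ((Subtype.val : TSet hs → (DFF α v).ker) ⁻¹' O'))) =
      (fun u : zeroLevel 6 => ((u : Sph 6) : HV 6)) ⁻¹' ({u : HV 6 | u α ≠ 0} ∩ RR α ⁻¹'
        ((Phi hs).source ∩ Phi hs ⁻¹' (univ ×ˢ O'))) := by
      ext u
      constructor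
      · rintro ⟨k, hk, hku⟩
        have h1 : (MulAction.orbitRel Sp1 (zeroLevel 6)) (toN _ (gram_of_FF (FF_symm hs k.2))) u :=
          Quotient.exact hku
        obtain ⟨g, hg⟩ := h1
        have h2 : lmul (g : ℍ[ℝ]) ((u : Sph 6) : HV 6) =
            (Phi hs).symm ((0 : Fin 13 → ℝ), (k : (DFF α v).ker)) := by
          have := congrArg (fun u : zeroLevel 6 => ((u : Sph 6) : HV 6)) hg
          exact this
        have h3 := congrArg (RR α) h2
        rw [RR_lmul _ (by simp), real_symm hs k.2] at h3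
        refine ⟨?_, ?_⟩
        · intro h0
          have h4 : ((Phi hs).symm ((0 : Fin 13 → ℝ), (k : (DFF α v).ker))) α = 0 := by
            rw [← h2, lmul_apply, h0, mul_zero]
          have h5 := k.2.2
          simp [comp, h4] at h5
        · show RR α ((u : Sph 6) : HV 6) ∈ ((Phi hs).source ∩ Phi hs ⁻¹' (univ ×ˢ O'))
          rw [h3]
          refine ⟨(Phi hs).map_target k.2.1, ?_⟩
          rw [mem_preimage]
          rw [(Phi hs).right_inv k.2.1]
          exact ⟨mem_univ _, hk⟩
      · rintro ⟨h0, h1, h2⟩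
        have h0' : ((u : Sph 6) : HV 6) α ≠ 0 := h0
        have hn := norm_nrm h0'
        have hgr : ∀ b c, gram (RR α ((u : Sph 6) : HV 6)) b c = if b = c then 1/4 else 0 :=
          fun b c => gram_lmul_unit _ hn b c
        have hval := RR_apply_self α ((u : Sph 6) : HV 6)
        have hF : FF α (RR α ((u : Sph 6) : HV 6)) = 0 := by
          apply FF_eq_zero hgr
          · simp [comp, hval]
          · simp [comp, hval]
          · simp [comp, hval]
        have hP : Phi hs (RR α ((u : Sph 6) : HV 6)) = (0, (Phi hs (RR α ((u : Sph 6) : HV 6))).2) := by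
          apply Prod.ext
          · rw [Phi_fst, hF]
          · rfl
        have hsy : (Phi hs).symm (0, (Phi hs (RR α ((u : Sph 6) : HV 6))).2) = RR α ((u : Sph 6) : HV 6) := by
          rw [← hP]; exact (Phi hs).left_inv h1
        have hmem : (Phi hs (RR α ((u : Sph 6) : HV 6))).2 ∈ TSet hs := by
          refine ⟨?_, ?_⟩
          · rw [← hP]; exact (Phi hs).map_source h1
          · rw [hsy]
            simp only [comp, hval]
            simpa using h0'
        refine ⟨⟨_, hmem⟩, h2.2, ?_⟩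
        apply Quotient.sound
        have hg' : nrm α ((u : Sph 6) : HV 6) ∈ Metric.sphere (0 : ℍ[ℝ]) 1 := by simp [hn]
        refine ⟨⟨_, hg'⟩, ?_⟩
        apply Subtype.ext
        apply Subtype.ext
        exact hsy.symm
    rw [e]
    apply IsOpen.preimage
    · exact continuous_subtype_val.comp continuous_subtype_val
    · apply (continuousOn_RR α).isOpen_inter_preimage
      · have h1 : Continuous fun u : HV 6 => u α := by fun_prop
        exact isOpen_ne_fun h1 continuous_const
      · exact (Phi hs).isOpen_inter_preimage (isOpen_univ.prod hO')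
  exact hq

lemma isOpenEmbedding_psi : Topology.IsOpenEmbedding (psi hs) :=
  Topology.IsOpenEmbedding.of_continuous_injective_isOpenMap (continuous_psi hs) (injective_psi hs)
    (isOpenMap_psi hs)

end chart

end Pool.Agent.Helper88.TS
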