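import Pool.Agent.Helper88.TSManifold

set_option autoImplicit false

open Set Matrix
open scoped Quaternion Topology

namespace Pool.Agent.Helper88.TS

lemma exists_coord_ne {n : ℕ} (u : Sph n) : ∃ α, (u : HV n) α ≠ 0 := by
  have hu : (u : HV n) ≠ 0 := by
    intro h0
    have : ‖(u : HV n)‖ = 1 := by simp
    rw [h0] at this
    simp at this
  by_contra hcon
  push Not at hcon
  apply hu
  ext1 α
  exact hcon α

lemma exists_chart (x : Sred 6) :
    ∃ e : OpenPartialHomeomorph (Sred 6) (EuclideanSpace ℝ (Fin 11)), x ∈ e.source := by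
  obtain ⟨u, rfl⟩ := Quotient.exists_rep x
  obtain ⟨α, hα⟩ := exists_coord_ne (u : Sph 6)
  have hn := norm_nrm hα
  have hgr : ∀ b c, gram (RR α ((u : Sph 6) : HV 6)) b c = if b = c then 1/4 else 0 :=
    fun b c => gram_lmul_unit _ hn b c
  have hval := RR_apply_self α ((u : Sph 6) : HV 6)
  have c1 : comp (RR α ((u : Sph 6) : HV 6)) 1 α = 0 := by simp [comp, hval]
  have c2 : comp (RR α ((u : Sph 6) : HV 6)) 2 α = 0 := by simp [comp, hval]
  have c3 : comp (RR α ((u : Sph 6) : HV 6)) 3 α = 0 := by simp [comp, hval]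
  have c0 : 0 < comp (RR α ((u : Sph 6) : HV 6)) 0 α := by
    simp only [comp, hval]
    simpa using hα
  have hs := DFF_surj hgr c1 c2 c3 c0.ne'
  have hF := FF_eq_zero hgr c1 c2 c3
  have hP : Phi hs (RR α ((u : Sph 6) : HV 6)) = (0, 0) := by
    have := (hasStrict_FF α (RR α ((u : Sph 6) : HV 6))).implicitToOpenPartialHomeomorph_self hs
    rw [hF] at this
    exact this
  have hsrc : RR α ((u : Sph 6) : HV 6) ∈ (Phi hs).source :=
    (hasStrict_FF α (RR α ((u : Sph 6) : HV 6))).mem_implicitToOpenPartialHomeomorph_source hs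
  have hsy : (Phi hs).symm ((0 : Fin 13 → ℝ), 0) = RR α ((u : Sph 6) : HV 6) := by
    rw [← hP]; exact (Phi hs).left_inv hsrc
  have h0 : (0 : (DFF α (RR α ((u : Sph 6) : HV 6))).ker) ∈ TSet hs := by
    refine ⟨?_, ?_⟩
    · rw [← hP]; exact (Phi hs).map_source hsrc
    · rw [hsy]; exact c0
  have hx : psi hs ⟨0, h0⟩ = Quotient.mk'' u := by
    apply Quotient.sound
    have hg' : nrm α ((u : Sph 6) : HV 6) ∈ Metric.sphere (0 : ℍ[ℝ]) 1 := by simp [hn]
    refine ⟨⟨_, hg'⟩, ?_⟩
    apply Subtype.ext
    apply Subtype.ext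
    exact hsy.symm
  have : Nonempty (TSet hs) := ⟨⟨0, h0⟩⟩
  let e1 := (isOpenEmbedding_psi hs).toOpenPartialHomeomorph (psi hs)
  let e2 := ((isOpen_TSet hs).isOpenEmbedding_subtypeVal).toOpenPartialHomeomorph
    (Subtype.val : TSet hs → (DFF α (RR α ((u : Sph 6) : HV 6))).ker)
  let L : (DFF α (RR α ((u : Sph 6) : HV 6))).ker ≃L[ℝ] EuclideanSpace ℝ (Fin 11) :=
    ContinuousLinearEquiv.ofFinrankEq (by rw [finrank_ker hs]; simp)
  refine ⟨(e1.symm.trans e2).transHomeomorph L.toHomeomorph, ?_⟩
  have hmem : (Quotient.mk'' u : Sred 6) ∈ range (psi hs) := ⟨_, hx⟩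
  have hmem2 : (Quotient.mk (MulAction.orbitRel Sp1 (zeroLevel 6)) u : Sred 6) ∈ range (psi hs) := hmem
  simp [e1, e2, OpenPartialHomeomorph.transHomeomorph, hmem2]

theorem sred_charted : Nonempty (ChartedSpace (EuclideanSpace ℝ (Fin 11)) (Sred 6)) := by
  choose e he using exists_chart
  exact ⟨{ atlas := Set.range e, chartAt := e, mem_chart_source := he,
           chart_mem_atlas := fun x => ⟨x, rfl⟩ }⟩

instance : CompactSpace Sp1 := Metric.sphere.compactSpace _ _

instance (n : ℕ) : CompactSpace (Sph n) := Metric.sphere.compactSpace _ _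

lemma continuous_smul_sph (n : ℕ) : Continuous fun p : Sp1 × Sph n => p.1 • p.2 := by
  apply Continuous.subtype_mk
  show Continuous fun p : Sp1 × Sph n => lmul (p.1 : ℍ[ℝ]) (p.2 : HV n)
  unfold lmul
  apply (PiLp.continuous_toLp 2 _).comp
  apply continuous_pi
  intro β
  have h3 : Continuous fun u : HV n => u β := by fun_prop
  exact (continuous_subtype_val.comp continuous_fst).mul
    (h3.comp (continuous_subtype_val.comp continuous_snd))

lemma isClosed_zeroLevel (n : ℕ) : IsClosed (zeroLevel n) := by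
  have e : zeroLevel n = ⋂ a : Fin 3, ⋂ X : ℍ[ℝ], ⋂ _ : X.re = 0, {u : Sph n | moment (u : HV n) a X = 0} := by
    ext u
    simp [zeroLevel]
  rw [e]
  apply isClosed_iInter; intro a
  apply isClosed_iInter; intro X
  apply isClosed_iInter; intro _
  apply isClosed_eq _ continuous_const
  unfold moment
  simp only [fund_eq]
  have h3 : ∀ β, Continuous fun u : Sph n => (u : HV n) β := by
    intro β
    have h3 : Continuous fun u : HV n => u β := by fun_prop
    exact h3.comp continuous_subtype_val
  have h1 : Continuous fun u : Sph n => cplx a (u : HV n) := by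
    unfold cplx rmul
    apply (PiLp.continuous_toLp 2 _).comp
    apply continuous_pi
    intro β
    exact (h3 β).mul continuous_const
  have h2 : Continuous fun u : Sph n => lmul X (u : HV n) := by
    unfold lmul
    apply (PiLp.continuous_toLp 2 _).comp
    apply continuous_pi
    intro β
    exact continuous_const.mul (h3 β)
  exact continuous_const.mul (h1.inner h2)

instance (n : ℕ) : CompactSpace (zeroLevel n) :=
  isCompact_iff_compactSpace.mp ((isClosed_zeroLevel n).isCompact)

instance (n : ℕ) : ContinuousSMul Sp1 (Sph n) := ⟨continuous_smul_sph n⟩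

instance (n : ℕ) : ContinuousSMul Sp1 (zeroLevel n) := ⟨by
  apply Continuous.subtype_mk
  have h : Continuous fun p : Sp1 × zeroLevel n => (p.1, (p.2 : Sph n)) := by fun_prop
  exact (continuous_smul_sph n).comp h⟩

instance (n : ℕ) : ProperSMul Sp1 (zeroLevel n) := ⟨by
  apply Continuous.isProperMap
  fun_prop⟩

theorem sred_compact (n : ℕ) : CompactSpace (Sred n) := Quotient.compactSpace

theorem sred_t2 (n : ℕ) : T2Space (Sred n) := t2Space_quotient_mulAction_of_properSMul

end Pool.Agent.Helper88.TS
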