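import Pool.Agent.Helper88.TSReduction

set_option autoImplicit false

open Set Matrix
open scoped Quaternion Topology

namespace Pool.Agent.Helper88.TS

lemma hasFDeriv_gram (v : HV 6) (b c : Fin 4) :
    HasFDerivAt (fun u : HV 6 => gram u b c) (gramL v b c) v := (hasStrict_gram v b c).hasFDerivAt

lemma inner_eq_gramL (v h : HV 6) :
    inner ℝ v h = (1/2) * (gramL v 0 0 h + gramL v 1 1 h + gramL v 2 2 h + gramL v 3 3 h) := by
  have e1 : ∀ b c, gramL v b c h = ∑ β, (comp v b β * comp h c β + comp v c β * comp h b β) := by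
    intro b c
    simp [gramL]
  simp only [e1, ← Finset.sum_add_distrib, Finset.mul_sum]
  rw [PiLp.inner_apply]
  refine Finset.sum_congr rfl fun β _ => ?_
  rw [Quaternion.inner_def]
  simp [comp]
  ring

/-- Zero is a regular value of the moment map. -/
theorem regular_value (u : Sph 6) (hu : u ∈ zeroLevel 6) (c : Fin 3 → Fin 3 → ℝ) :
    ∃ h : HV 6, inner ℝ (u : HV 6) h = 0 ∧
      ∀ a b, fderiv ℝ (fun w : HV 6 => moment w a (imUnit b)) (u : HV 6) h = c a b := by
  set v : HV 6 := (u : HV 6) with hv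
  have hg := gram_of_zeroLevel hu
  set T00 : ℝ := -(c 0 0 + c 1 1 + c 2 2) / 2 with hT
  set A : Fin 4 → Fin 4 → ℝ := ![
    ![2 * T00, c 2 1 - c 1 2, c 0 2 - c 2 0, c 1 0 - c 0 1],
    ![c 2 1 - c 1 2, 2 * (c 1 1 + c 2 2 + T00), -(c 0 1 + c 1 0), -(c 0 2 + c 2 0)],
    ![c 0 2 - c 2 0, -(c 0 1 + c 1 0), 2 * (c 0 0 + c 2 2 + T00), -(c 1 2 + c 2 1)],
    ![c 1 0 - c 0 1, -(c 0 2 + c 2 0), -(c 1 2 + c 2 1), 2 * (c 0 0 + c 1 1 + T00)]] with hA
  set h : HV 6 := WithLp.toLp 2 fun β => ⟨∑ c, A 0 c * comp v c β, ∑ c, A 1 c * comp v c β,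
    ∑ c, A 2 c * comp v c β, ∑ c, A 3 c * comp v c β⟩ with hh
  have hc : ∀ b β, comp h b β = ∑ c, A b c * comp v c β := by
    intro b β
    fin_cases b <;> rfl
  have hG := gramL_comb v hg A h hc
  refine ⟨h, ?_, ?_⟩
  · rw [inner_eq_gramL, hG, hG, hG, hG]
    simp [hA]
    ring
  · have d := hasFDeriv_gram v
    intro a b
    have key : ∀ (f : HV 6 → ℝ) (f' : HV 6 →L[ℝ] ℝ), (fun w : HV 6 => moment w a (imUnit b)) = f →
        HasFDerivAt f f' v → f' h = c a b →
        fderiv ℝ (fun w : HV 6 => moment w a (imUnit b)) v h = c a b := by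
      intro f f' e hf hf'
      rw [e, hf.fderiv, hf']
    fin_cases a <;> fin_cases b
    · refine key _ _ (funext fun w => m00 w)
        (((((d 1 1).fun_neg.fun_sub (d 0 0)).fun_add (d 3 3)).fun_add (d 2 2)).const_mul (1/2)) ?_
      simp [hG, hA]
      ring
    · refine key _ _ (funext fun w => m01 w)
        ((((d 1 2).const_mul (-2)).fun_sub ((d 0 3).const_mul 2)).const_mul (1/2)) ?_
      simp [hG, hA]
      ring
    · refine key _ _ (funext fun w => m02 w)
        ((((d 1 3).const_mul (-2)).fun_add ((d 0 2).const_mul 2)).const_mul (1/2)) ?_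
      simp [hG, hA]
      ring
    · refine key _ _ (funext fun w => m10 w)
        ((((d 1 2).const_mul (-2)).fun_add ((d 0 3).const_mul 2)).const_mul (1/2)) ?_
      simp [hG, hA]
      ring
    · refine key _ _ (funext fun w => m11 w)
        (((((d 2 2).fun_neg.fun_sub (d 0 0)).fun_add (d 3 3)).fun_add (d 1 1)).const_mul (1/2)) ?_
      simp [hG, hA]
      ring
    · refine key _ _ (funext fun w => m12 w)
        ((((d 2 3).const_mul (-2)).fun_sub ((d 0 1).const_mul 2)).const_mul (1/2)) ?_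
      simp [hG, hA]
      ring
    · refine key _ _ (funext fun w => m20 w)
        ((((d 1 3).const_mul (-2)).fun_sub ((d 0 2).const_mul 2)).const_mul (1/2)) ?_
      simp [hG, hA]
      ring
    · refine key _ _ (funext fun w => m21 w)
        ((((d 2 3).const_mul (-2)).fun_add ((d 0 1).const_mul 2)).const_mul (1/2)) ?_
      simp [hG, hA]
      ring
    · refine key _ _ (funext fun w => m22 w)
        (((((d 3 3).fun_neg.fun_sub (d 0 0)).fun_add (d 1 1)).fun_add (d 2 2)).const_mul (1/2)) ?_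
      simp [hG, hA]
      ring

/-! ### The hyperkähler cone -/

lemma star_imUnit (a : Fin 3) : star (imUnit a) = -imUnit a := by
  fin_cases a <;> ext <;> simp

lemma norm_imUnit (a : Fin 3) : ‖imUnit a‖ = 1 := by
  have h : Quaternion.normSq (imUnit a) = 1 := by
    rw [Quaternion.normSq_def']
    fin_cases a <;> simp
  rw [Quaternion.normSq_eq_norm_mul_self] at h
  nlinarith [norm_nonneg (imUnit a)]

lemma norm_cplx {n : ℕ} (a : Fin 3) (u : HV n) : ‖cplx a u‖ = ‖u‖ := by
  rw [← sq_eq_sq₀ (norm_nonneg _) (norm_nonneg _), PiLp.norm_sq_eq_of_L2, PiLp.norm_sq_eq_of_L2]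
  refine Finset.sum_congr rfl fun α _ => ?_
  rw [cplx, rmul_apply, norm_mul, norm_star, norm_imUnit, mul_one]

lemma cplx_cplx {n : ℕ} (a : Fin 3) (u : HV n) : cplx a (cplx a u) = -u := by
  ext1 α
  have h : star (imUnit a) * star (imUnit a) = -1 := by
    fin_cases a <;> ext <;> simp
  simp only [cplx, rmul_apply, mul_assoc, h, PiLp.neg_apply, mul_neg, mul_one]

lemma cplx_01 {n : ℕ} (u : HV n) : cplx 0 (cplx 1 u) = cplx 2 u := by
  ext1 α
  have h : star (imUnit 1) * star (imUnit 0) = star (imUnit 2) := by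
    ext <;> simp
  simp only [cplx, rmul_apply, mul_assoc, h]

lemma cplx_10 {n : ℕ} (u : HV n) : cplx 1 (cplx 0 u) = -cplx 2 u := by
  ext1 α
  have h : star (imUnit 0) * star (imUnit 1) = -star (imUnit 2) := by
    ext <;> simp
  simp only [cplx, rmul_apply, mul_assoc, h, PiLp.neg_apply, mul_neg]

lemma cplx_lmul {n : ℕ} (a : Fin 3) (q : ℍ[ℝ]) (u : HV n) : cplx a (lmul q u) = lmul q (cplx a u) := by
  rw [cplx, cplx, lmul_rmul]

lemma dist_lmul {n : ℕ} (g : Sp1) (u v : HV n) :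
    dist (lmul (g : ℍ[ℝ]) u) (lmul (g : ℍ[ℝ]) v) = dist u v := by
  have e : lmul (g : ℍ[ℝ]) u - lmul (g : ℍ[ℝ]) v = lmul (g : ℍ[ℝ]) (u - v) := by
    ext1 α
    simp [mul_sub]
  have hg : ‖(g : ℍ[ℝ])‖ = 1 := by simp
  rw [dist_eq_norm, dist_eq_norm, e, norm_lmul, hg, one_mul]

theorem connected_Sp1 : ConnectedSpace Sp1 := by
  have h : IsConnected (Metric.sphere (0 : ℍ[ℝ]) 1) := by
    apply isConnected_sphere
    · rw [Quaternion.rank_eq_four]
      norm_num
    · norm_num
  exact isConnected_iff_connectedSpace.mp h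

end Pool.Agent.Helper88.TS
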