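import Pool.Agent.Helper88.TSField

set_option autoImplicit false

open Set Matrix
open scoped Quaternion Topology

namespace Pool.Agent.Helper88.TS

/-! ### The collapse map `Δ² → D` -/

/-- the twisted part -/
noncomputable def tw (q r : ℝ) : ℂ := ((q + r : ℝ) : ℂ) * Complex.exp (((2 * Real.pi * (r / (q + r)) : ℝ) : ℂ) * Complex.I)

lemma norm_tw (q r : ℝ) : ‖tw q r‖ = |q + r| := by
  rw [tw, norm_mul, Complex.norm_exp_ofReal_mul_I, mul_one, Complex.norm_real, Real.norm_eq_abs]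

lemma continuous_tw : Continuous fun p : ℝ × ℝ => tw p.1 p.2 := by
  rw [continuous_iff_continuousAt]
  rintro ⟨q, r⟩
  by_cases h : q + r = 0
  · have h0 : tw q r = 0 := by
      rw [← norm_eq_zero, norm_tw, h, abs_zero]
    rw [ContinuousAt, h0, tendsto_zero_iff_norm_tendsto_zero]
    simp_rw [norm_tw]
    have hc : Continuous fun p : ℝ × ℝ => |p.1 + p.2| := by fun_prop
    have := hc.tendsto (q, r)
    simpa [h] using this
  · unfold tw
    have h1 : ContinuousAt (fun p : ℝ × ℝ => p.2 / (p.1 + p.2)) (q, r) :=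
      ContinuousAt.div (by fun_prop) (by fun_prop) h
    fun_prop

/-- the collapse map -/
noncomputable def Zf (p q r : ℝ) : ℂ := (p : ℂ) + tw q r

lemma continuous_Zf : Continuous fun v : ℝ × ℝ × ℝ => Zf v.1 v.2.1 v.2.2 := by
  unfold Zf
  have h := continuous_tw
  have h2 : Continuous fun v : ℝ × ℝ × ℝ => tw v.2.1 v.2.2 := h.comp continuous_snd
  fun_prop

lemma norm_Zf_le {p q r : ℝ} (hp : 0 ≤ p) (hq : 0 ≤ q) (hr : 0 ≤ r) : ‖Zf p q r‖ ≤ p + q + r := by
  calc ‖Zf p q r‖ ≤ ‖(p : ℂ)‖ + ‖tw q r‖ := norm_add_le _ _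
    _ = p + q + r := by
      rw [norm_tw, Complex.norm_real, Real.norm_eq_abs, abs_of_nonneg hp, abs_of_nonneg (by linarith)]
      ring

lemma tw_q0 (r : ℝ) : tw 0 r = r := by
  rcases eq_or_ne r 0 with rfl | h
  · simp [tw]
  · unfold tw
    rw [zero_add, div_self h, mul_one]
    rw [show (((2 * Real.pi : ℝ) : ℂ) * Complex.I) = 2 * Real.pi * Complex.I by push_cast; ring,
      Complex.exp_two_pi_mul_I, mul_one]

lemma tw_r0 (q : ℝ) : tw q 0 = q := by
  simp [tw]

lemma tw_sum_one {q r : ℝ} (h : q + r = 1) : tw q r = Complex.exp (((2 * Real.pi * r : ℝ) : ℂ) * Complex.I) := by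
  simp [tw, h]

/-! ### The map to the 3-Sasakian sphere -/

/-- radial part -/
noncomputable def rho (Z : ℂ) (S : ℝ) : ℝ := Real.sqrt (S^2 - (Z.re^2 + Z.im^2))

/-- three vector -/
noncomputable def wv (Z : ℂ) (S : ℝ) : Fin 3 → ℝ :=
  ![2 * Z.re * rho Z S, 2 * Z.im * rho Z S, 2 * S^2 - 2 * (Z.re^2 + Z.im^2) - 1]

/-- quaternionic vector `(w₁,w₂,w₃,i,j,k)` -/
noncomputable def Uq (w : Fin 3 → ℝ) : HV 6 :=
  WithLp.toLp 2 ![((w 0 : ℝ) : ℍ[ℝ]), ((w 1 : ℝ) : ℍ[ℝ]), ((w 2 : ℝ) : ℍ[ℝ]), imUnit 0, imUnit 1,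
    imUnit 2]

lemma continuous_Uq : Continuous Uq := by
  unfold Uq
  apply (PiLp.continuous_toLp 2 _).comp
  apply continuous_pi
  intro i
  fin_cases i
  · exact Quaternion.continuous_coe.comp (continuous_apply 0)
  · exact Quaternion.continuous_coe.comp (continuous_apply 1)
  · exact Quaternion.continuous_coe.comp (continuous_apply 2)
  · exact continuous_const
  · exact continuous_const
  · exact continuous_const

lemma norm_sq_Uq (w : Fin 3 → ℝ) : ‖Uq w‖^2 = w 0^2 + w 1^2 + w 2^2 + 3 := by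
  rw [norm_sq_gram]
  simp only [gram, Fin.sum_univ_six]
  simp [comp, Uq]
  ring

lemma norm_Uq_pos (w : Fin 3 → ℝ) : 0 < ‖Uq w‖ := by
  have h := norm_sq_Uq w
  have h2 : 0 < ‖Uq w‖^2 := by rw [h]; positivity
  exact lt_of_le_of_ne (norm_nonneg _) (fun h0 => by rw [← h0] at h2; simp at h2)

lemma norm_Uq_of_unit {w : Fin 3 → ℝ} (hw : w 0^2 + w 1^2 + w 2^2 = 1) : ‖Uq w‖ = 2 := by
  have h := norm_sq_Uq w
  rw [hw] at h
  have h2 := norm_nonneg (Uq w)
  nlinarith

/-- normalised point of the sphere -/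
noncomputable def Usph (w : Fin 3 → ℝ) : Sph 6 :=
  ⟨(‖Uq w‖)⁻¹ • Uq w, by
    have := norm_Uq_pos w
    simp [norm_smul, this.ne']⟩

lemma continuous_Usph : Continuous Usph := by
  apply Continuous.subtype_mk
  have h1 : Continuous fun w => (‖Uq w‖)⁻¹ :=
    Continuous.inv₀ continuous_Uq.norm (fun w => (norm_Uq_pos w).ne')
  exact h1.smul continuous_Uq

lemma moment_lin {n : ℕ} (u : HV n) (a : Fin 3) (X : ℍ[ℝ]) (hX : X.re = 0) :
    moment u a X = X.imI * moment u a (imUnit 0) + X.imJ * moment u a (imUnit 1) +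
      X.imK * moment u a (imUnit 2) := by
  have e : lmul X u = X.imI • lmul (imUnit 0) u + X.imJ • lmul (imUnit 1) u + X.imK • lmul (imUnit 2) u := by
    have eX : X = X.imI • imUnit 0 + X.imJ • imUnit 1 + X.imK • imUnit 2 := by
      ext <;> simp [hX]
    ext1 α
    simp only [lmul_apply, PiLp.add_apply, PiLp.smul_apply]
    conv_lhs => rw [eX]
    rw [add_mul, add_mul, smul_mul_assoc, smul_mul_assoc, smul_mul_assoc]
  unfold moment
  simp only [fund_eq]
  rw [e, inner_add_right, inner_add_right, inner_smul_right, inner_smul_right, inner_smul_right]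
  ring

lemma mem_zeroLevel_of_gram {n : ℕ} {u : Sph n}
    (h : ∀ b c, gram (u : HV n) b c = if b = c then 1/4 else 0) : u ∈ zeroLevel n := by
  intro a X hX
  rw [moment_lin _ _ _ hX]
  have h00 := (h 0 0).trans (if_pos rfl)
  have h11 := (h 1 1).trans (if_pos rfl)
  have h22 := (h 2 2).trans (if_pos rfl)
  have h33 := (h 3 3).trans (if_pos rfl)
  have h01 := (h 0 1).trans (if_neg (by decide))
  have h02 := (h 0 2).trans (if_neg (by decide))
  have h03 := (h 0 3).trans (if_neg (by decide))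
  have h12 := (h 1 2).trans (if_neg (by decide))
  have h13 := (h 1 3).trans (if_neg (by decide))
  have h23 := (h 2 3).trans (if_neg (by decide))
  fin_cases a
  · simp only [Fin.zero_eta, m00, m01, m02, h00, h11, h22, h33, h12, h03, h13, h02]
    ring
  · simp only [Fin.mk_one, m10, m11, m12, h00, h11, h22, h33, h12, h03, h23, h01]
    ring
  · simp only [Fin.reduceFinMk, m20, m21, m22, h00, h11, h22, h33, h13, h02, h23, h01]
    ring

lemma Usph_mem {w : Fin 3 → ℝ} (hw : w 0^2 + w 1^2 + w 2^2 = 1) : Usph w ∈ zeroLevel 6 := by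
  apply mem_zeroLevel_of_gram
  have h2 : ((Usph w : Sph 6) : HV 6) = (2:ℝ)⁻¹ • Uq w := by
    rw [← norm_Uq_of_unit hw]; rfl
  intro b c
  have hw' : w 0 * w 0 + w 1 * w 1 + w 2 * w 2 = 1 := by rw [← hw]; ring
  rw [h2]
  simp only [gram, Fin.sum_univ_six]
  fin_cases b <;> fin_cases c <;> simp [comp, Uq] <;> linarith

end Pool.Agent.Helper88.TS
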